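import Pool.Agent.Lib.Orch.Alg

/-!
The column generating function times the product of the `X_i`.
-/

namespace Orch

open Finset

private theorem ADen_prod {A : Type} [CommRing A] (f : ℕ → A) (l s : ℕ) (hs : 1 ≤ s) (hsl : s < l) :
    ∏ i ∈ Ico 2 l, f i = (∏ i ∈ Icc 2 s, f i) * ∏ i ∈ Ioo s l, f i := by
  have h1 : Icc 2 s = Ico 2 (s + 1) := by
    ext k; simp only [Finset.mem_Icc, Finset.mem_Ico]; omega
  have h2 : Ioo s l = Ico (s + 1) l := by
    ext k; simp only [Finset.mem_Ioo, Finset.mem_Ico]; omega
  rw [h1, h2, Finset.prod_Ico_consecutive f (by omega) (by omega)]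

private theorem ADen_top {A : Type} [CommRing A] (f : ℕ → A) (l : ℕ) (hl : 2 ≤ l) :
    ∏ i ∈ Icc 2 l, f i = (∏ i ∈ Ico 2 l, f i) * f l := by
  have h1 : Icc 2 l = Ico 2 (l + 1) := by
    ext k; simp only [Finset.mem_Icc, Finset.mem_Ico]; omega
  rw [h1, Finset.prod_Ico_succ_top hl]

private theorem ADen_unit (c : ℚ) (hc : c ≠ 0) (a b : PowerSeries ℚ)
    (h : a * algebraMap ℚ (PowerSeries ℚ) c = algebraMap ℚ (PowerSeries ℚ) c * b) : a = b := by
  have hu : IsUnit (algebraMap ℚ (PowerSeries ℚ) c) := (IsUnit.mk0 c hc).map _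
  rw [mul_comm a] at h
  exact hu.mul_left_cancel h

theorem c_Den (hKey : S_Key) (hhh : S_hhcc) (hte : S_teRec) (hHom : S_Hom) (hXP : S_XPxe)
    (hFQ : S_FQ) (hQ1 : S_QSOne) (hcc0 : S_ccZero) (hdiag : S_heDiag) : S_Den := by
  have main : ∀ l : ℕ, 1 ≤ l → F l * ∏ i ∈ Icc 2 l, xe (PowerSeries.X : PowerSeries ℚ) i =
      algebraMap ℚ (PowerSeries ℚ) ((l.factorial : ℚ) / 2 ^ (l - 1)) *
        te (PowerSeries.X : PowerSeries ℚ) l := by
    intro l
    induction l using Nat.strong_induction_on with
    | _ l ih =>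
      intro hl
      rcases Nat.lt_or_ge l 2 with h2 | h2
      · have h1 : l = 1 := by omega
        subst h1
        have h3 : F 1 = 1 := by rw [hFQ 1]; exact hQ1
        rw [h3]
        have h4 : te (PowerSeries.X : PowerSeries ℚ) 1 = 1 := by rw [te]
        rw [h4]
        simp
      · have hc : cc (PowerSeries.X : PowerSeries ℚ) l 0 = xe (PowerSeries.X : PowerSeries ℚ) l := by
          have h3 := hhh (PowerSeries ℚ) PowerSeries.X l l (by omega) le_rfl
          rw [Nat.sub_self, hdiag] at h3
          refine ADen_unit _ ?_ _ _ h3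
          positivity
        have hK := hKey l h2
        rw [Finset.sum_range_succ', ] at hK
        rw [Nat.sub_zero, hc] at hK
        have hrefl : ∑ k ∈ range l, cc (PowerSeries.X : PowerSeries ℚ) l (k + 1) * F (l - (k + 1)) =
            ∑ s ∈ range l, cc (PowerSeries.X : PowerSeries ℚ) l (l - s) * F s := by
          rw [← Finset.sum_range_reflect]
          apply Finset.sum_congr rfl
          intro k hk
          rw [Finset.mem_range] at hk
          have h5 : l - 1 - k + 1 = l - k := by omega
          have h6 : l - (l - 1 - k + 1) = k := by omega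
          rw [h6, h5]
        rw [hrefl] at hK
        rw [ADen_top _ l h2]
        have hP : ∀ s ∈ range l, (cc (PowerSeries.X : PowerSeries ℚ) l (l - s) * F s) *
            (∏ i ∈ Ico 2 l, xe (PowerSeries.X : PowerSeries ℚ) i) =
            algebraMap ℚ (PowerSeries ℚ) ((l.factorial : ℚ) / 2 ^ (l - 1)) *
              (he (PowerSeries.X : PowerSeries ℚ) l s * te (PowerSeries.X : PowerSeries ℚ) s *
                ∏ i ∈ Ioo s l, xe (PowerSeries.X : PowerSeries ℚ) i) := by
          intro s hs
          rw [Finset.mem_range] at hs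
          rcases Nat.eq_zero_or_pos s with h0 | h0
          · subst h0
            have h7 : te (PowerSeries.X : PowerSeries ℚ) 0 = 0 := by rw [te]
            rw [h7, Nat.sub_zero, hcc0 (PowerSeries ℚ) PowerSeries.X l l (by omega)]
            simp
          · rw [ADen_prod _ l s h0 hs]
            have h8 := ih s hs h0
            have h9 := hhh (PowerSeries ℚ) PowerSeries.X l s h0 hs.le
            calc _ = cc (PowerSeries.X : PowerSeries ℚ) l (l - s) *
                  (F s * ∏ i ∈ Icc 2 s, xe (PowerSeries.X : PowerSeries ℚ) i) *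
                  ∏ i ∈ Ioo s l, xe (PowerSeries.X : PowerSeries ℚ) i := by ring
              _ = (cc (PowerSeries.X : PowerSeries ℚ) l (l - s) *
                  algebraMap ℚ (PowerSeries ℚ) ((s.factorial : ℚ) / 2 ^ (s - 1))) *
                  te (PowerSeries.X : PowerSeries ℚ) s *
                  ∏ i ∈ Ioo s l, xe (PowerSeries.X : PowerSeries ℚ) i := by rw [h8]; ring
              _ = _ := by rw [h9]; ring
        have hS : (∑ s ∈ range l, cc (PowerSeries.X : PowerSeries ℚ) l (l - s) * F s) *
            (∏ i ∈ Ico 2 l, xe (PowerSeries.X : PowerSeries ℚ) i) =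
            -(algebraMap ℚ (PowerSeries ℚ) ((l.factorial : ℚ) / 2 ^ (l - 1)) *
              te (PowerSeries.X : PowerSeries ℚ) l) := by
          rw [Finset.sum_mul, Finset.sum_congr rfl hP, ← Finset.mul_sum,
            hte (PowerSeries ℚ) PowerSeries.X l h2]
          ring
        have hfin : (∑ s ∈ range l, cc (PowerSeries.X : PowerSeries ℚ) l (l - s) * F s) =
            -(xe (PowerSeries.X : PowerSeries ℚ) l * F l) := by
          linear_combination hK
        rw [hfin] at hS
        linear_combination -hS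
  intro l hl
  have hψ := hHom (Polynomial ℚ) (PowerSeries ℚ) Polynomial.coeToPowerSeries.ringHom Polynomial.X
  have hX : Polynomial.coeToPowerSeries.ringHom (Polynomial.X : Polynomial ℚ) =
      (PowerSeries.X : PowerSeries ℚ) := by
    rw [Polynomial.coeToPowerSeries.ringHom_apply, Polynomial.coe_X]
  rw [hX] at hψ
  have h1 : ((∏ i ∈ Icc 2 l, XP ℚ i : Polynomial ℚ) : PowerSeries ℚ) =
      ∏ i ∈ Icc 2 l, xe (PowerSeries.X : PowerSeries ℚ) i := by
    rw [← Polynomial.coeToPowerSeries.ringHom_apply, map_prod]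
    apply Finset.prod_congr rfl
    intro i _
    rw [hXP ℚ i, hψ.1 i]
  have h2 : ((Polynomial.C ((l.factorial : ℚ) / 2 ^ (l - 1)) * te (Polynomial.X : Polynomial ℚ) l :
      Polynomial ℚ) : PowerSeries ℚ) =
      algebraMap ℚ (PowerSeries ℚ) ((l.factorial : ℚ) / 2 ^ (l - 1)) *
        te (PowerSeries.X : PowerSeries ℚ) l := by
    rw [Polynomial.coe_mul, Polynomial.coe_C, ← hψ.2.2 l,
      Polynomial.coeToPowerSeries.ringHom_apply]
    rfl
  rw [h1, h2]
  exact main l hl

end Orch
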