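import Pool.Agent.Lib.Orch.Alg

/-!
# Orchard networks: descent of the divisibility from `ℚ[X]` to `ℤ[X]` (`S_Desc`)
-/

set_option autoImplicit false

namespace Orch

open Finset

/-- `X_s` at `0` is `1`. -/
private theorem adesc_xe0 (hR : S_xeRec) (s : ℕ) :
    xe (0 : ℤ) s = 1 ∧ xe (0 : ℤ) (s + 1) = 1 := by
  obtain ⟨h0, h1, h2⟩ := hR ℤ 0
  induction s with
  | zero => exact ⟨h0, h1⟩
  | succ s ih =>
    refine ⟨ih.2, ?_⟩
    rw [h2, ih.2]
    simp

private theorem adesc_prim (hH : S_Hom) (hR : S_xeRec) (j : ℕ) :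
    (xe (Polynomial.X : Polynomial ℤ) j).IsPrimitive := by
  intro r hr
  have h1 : (xe (Polynomial.X : Polynomial ℤ) j).coeff 0 = 1 := by
    rw [Polynomial.coeff_zero_eq_eval_zero]
    have h2 := (hH (Polynomial ℤ) ℤ (Polynomial.evalRingHom 0) Polynomial.X).1 j
    rw [Polynomial.coe_evalRingHom, Polynomial.eval_X] at h2
    rw [h2]
    exact (adesc_xe0 hR j).1
  have h3 := (Polynomial.C_dvd_iff_dvd_coeff r _).mp hr 0
  rw [h1] at h3
  exact isUnit_of_dvd_one h3

theorem c_Desc (hH : S_Hom) (hR : S_xeRec) : S_Desc := by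
  intro j l _ h
  refine (Polynomial.IsPrimitive.Int.dvd_iff_map_cast_dvd_map_cast _ _ (adesc_prim hH hR j)).mpr ?_
  have h1 := (hH (Polynomial ℤ) (Polynomial ℚ) (Polynomial.mapRingHom (Int.castRingHom ℚ))
    Polynomial.X)
  have h2 := h1.1 j
  have h3 := h1.2.2 l
  rw [Polynomial.coe_mapRingHom, Polynomial.map_X] at h2 h3
  rw [h2, h3]
  exact h

end Orch
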