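import Pool.Agent.Lib.Orch.Alg

/-!
A family satisfying the recursion is determined by its values at `n = 0`.
-/

namespace Orch

open Finset

theorem c_Exp (hE : S_ExpRev) : S_Exp := by
  intro A _ _ v m q hq l n
  induction n using Nat.strong_induction_on generalizing l with
  | _ n ih =>
    intro hl hn
    rcases Nat.eq_zero_or_pos n with rfl | hpos
    · simp [cc]
    obtain ⟨n, rfl⟩ : ∃ k, n = k + 1 := ⟨n - 1, by omega⟩
    have e1 := ih n (by omega) l hl (by omega)
    have e2 : (n : A) * q (l - 1) (n - 1) =
        (n : A) * ∑ s ∈ range n, cc v (n - 1) s * q (l - 1 - s) 0 := by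
      rcases Nat.eq_zero_or_pos n with rfl | h
      · simp
      · rw [ih (n - 1) (by omega) (l - 1) (by omega) (by omega), show n - 1 + 1 = n by omega]
    have e3 : (n : A) * q l (n - 1) = (n : A) * ∑ s ∈ range n, cc v (n - 1) s * q (l - s) 0 := by
      rcases Nat.eq_zero_or_pos n with rfl | h
      · simp
      · rw [ih (n - 1) (by omega) l hl (by omega), show n - 1 + 1 = n by omega]
    have e4 : ((n.choose 2 : ℕ) : A) * q (l - 1) (n - 2) =
        ((n.choose 2 : ℕ) : A) * ∑ s ∈ range (n - 1), cc v (n - 2) s * q (l - 1 - s) 0 := by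
      rcases Nat.lt_or_ge n 2 with h | h
      · rw [Nat.choose_eq_zero_of_lt h]
        simp
      · rw [ih (n - 2) (by omega) (l - 1) (by omega) (by omega), show n - 2 + 1 = n - 1 by omega]
    rw [hE A v (fun s => q s 0) l n hn, hq l n hl hn]
    linear_combination e1 - e2 - 2 * v * e3 + 3 * v * e4

end Orch
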