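import Pool.Agent.Lib.Orch.Alg

/-!
The combinations of the coefficients satisfy the recursion.
-/

namespace Orch

open Finset

private theorem AExpRev_cut (hZ : S_ccZero) {A : Type} [CommRing A] [Algebra ℚ A] (v : A)
    (g : ℕ → A) (a K : ℕ) (h : a + 1 ≤ K) :
    ∑ s ∈ range K, cc v a s * g s = ∑ s ∈ range (a + 1), cc v a s * g s := by
  symm
  refine Finset.sum_subset (Finset.range_mono h) ?_
  intro s _ hs
  rw [Finset.mem_range, not_lt] at hs
  rw [hZ A v a s (by omega), zero_mul]

theorem c_ExpRev (hZ : S_ccZero) (h0 : S_ccRec0) (hR : S_ccRec) : S_ExpRev := by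
  intro A _ _ v f l n _
  have e1 : ∑ s ∈ range (n + 2), cc v n s * f (l - s) = ∑ s ∈ range (n + 1), cc v n s * f (l - s) :=
    AExpRev_cut hZ v (fun s => f (l - s)) n (n + 2) (by omega)
  have e2 : (n : A) * ∑ s ∈ range (n + 1), cc v (n - 1) s * f (l - (s + 1)) =
      (n : A) * ∑ s ∈ range n, cc v (n - 1) s * f (l - 1 - s) := by
    rcases Nat.eq_zero_or_pos n with rfl | hn
    · simp
    · rw [AExpRev_cut hZ v (fun s => f (l - (s + 1))) (n - 1) (n + 1) (by omega),
        show n - 1 + 1 = n by omega]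
      congr 1
      refine Finset.sum_congr rfl fun s _ => ?_
      rw [show l - (s + 1) = l - 1 - s by omega]
  have e3 : (n : A) * ∑ s ∈ range (n + 2), cc v (n - 1) s * f (l - s) =
      (n : A) * ∑ s ∈ range n, cc v (n - 1) s * f (l - s) := by
    rcases Nat.eq_zero_or_pos n with rfl | hn
    · simp
    · rw [AExpRev_cut hZ v (fun s => f (l - s)) (n - 1) (n + 2) (by omega),
        show n - 1 + 1 = n by omega]
  have e4 : ((n.choose 2 : ℕ) : A) * ∑ s ∈ range (n + 1), cc v (n - 2) s * f (l - (s + 1)) =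
      ((n.choose 2 : ℕ) : A) * ∑ s ∈ range (n - 1), cc v (n - 2) s * f (l - 1 - s) := by
    rcases Nat.lt_or_ge n 2 with hn | hn
    · rw [Nat.choose_eq_zero_of_lt hn]
      simp
    · rw [AExpRev_cut hZ v (fun s => f (l - (s + 1))) (n - 2) (n + 1) (by omega),
        show n - 2 + 1 = n - 1 by omega]
      congr 1
      refine Finset.sum_congr rfl fun s _ => ?_
      rw [show l - (s + 1) = l - 1 - s by omega]
  rw [Finset.sum_range_succ'] at e1 e3 ⊢
  have e5 : ∀ s, cc v (n + 1) (s + 1) * f (l - (s + 1)) = cc v n (s + 1) * f (l - (s + 1))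
      - (n : A) * (cc v (n - 1) s * f (l - (s + 1)))
      - 2 * (n : A) * v * (cc v (n - 1) (s + 1) * f (l - (s + 1)))
      + 3 * ((n.choose 2 : ℕ) : A) * v * (cc v (n - 2) s * f (l - (s + 1))) := by
    intro s
    rw [hR A v n s]
    ring
  rw [Finset.sum_congr rfl fun s _ => e5 s, Finset.sum_add_distrib, Finset.sum_sub_distrib,
    Finset.sum_sub_distrib, ← Finset.mul_sum, ← Finset.mul_sum, ← Finset.mul_sum, h0 A v n, ← e1]
  linear_combination (-1 : A) * e2 - 2 * v * e3 + 3 * v * e4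

end Orch
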