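import Pool.Agent.Lib.Orch.Alg

/-!
Coefficients of the generating polynomials of the `h_{ℓ,s}`.
-/

namespace Orch

open Finset

private theorem AHPc_coeff {A : Type} [CommRing A] (m n : ℕ) :
    ((1 - Polynomial.X : Polynomial A) ^ m).coeff n = (-1) ^ n * (m.choose n : A) := by
  have h : (1 - Polynomial.X : Polynomial A) ^ m =
      ((1 + Polynomial.X : Polynomial A) ^ m).comp (Polynomial.C (-1) * Polynomial.X) := by
    rw [Polynomial.pow_comp]
    congr 1
    simp only [Polynomial.add_comp, Polynomial.one_comp, Polynomial.X_comp, Polynomial.C_neg,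
      Polynomial.C_1]
    ring
  rw [h, Polynomial.comp_C_mul_X_coeff, Polynomial.coeff_one_add_X_pow]
  ring

private def AHPc_d (k : ℕ) : ℕ := (2 * k).choose k * k.factorial

private def AHPc_b (s k : ℕ) : ℕ := s.choose (2 * k) * AHPc_d k

private theorem AHPc_d_fac (k : ℕ) : AHPc_d k * k.factorial = (2 * k).factorial := by
  have h := Nat.choose_mul_factorial_mul_factorial (show k ≤ 2 * k by omega)
  have h2 : 2 * k - k = k := by omega
  rw [h2] at h
  exact h

private theorem AHPc_d_succ (k : ℕ) : AHPc_d (k + 1) = 2 * (2 * k + 1) * AHPc_d k := by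
  have h1 := AHPc_d_fac (k + 1)
  have h2 := AHPc_d_fac k
  have h3 : (2 * (k + 1)).factorial = (2 * k + 2) * ((2 * k + 1) * (2 * k).factorial) := by
    have : 2 * (k + 1) = (2 * k + 1) + 1 := by ring
    rw [this, Nat.factorial_succ, Nat.factorial_succ]
  have h4 : 0 < (k + 1).factorial := Nat.factorial_pos _
  apply Nat.eq_of_mul_eq_mul_right h4
  rw [h1, h3, ← h2, Nat.factorial_succ]
  ring

private theorem AHPc_b_eq (s k : ℕ) (h : 2 * k ≤ s) :
    s.factorial / ((s - 2 * k).factorial * k.factorial) = AHPc_b s k := by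
  apply Nat.div_eq_of_eq_mul_left (Nat.mul_pos (Nat.factorial_pos _) (Nat.factorial_pos _))
  have h1 := Nat.choose_mul_factorial_mul_factorial h
  rw [← h1, ← AHPc_d_fac k]
  unfold AHPc_b
  ring

private theorem AHPc_b_zero (s k : ℕ) (h : s < 2 * k) : AHPc_b s k = 0 := by
  unfold AHPc_b
  rw [Nat.choose_eq_zero_of_lt h, Nat.zero_mul]

private theorem AHPc_b_rec (s k : ℕ) :
    AHPc_b (s + 2) (k + 1) = AHPc_b (s + 1) (k + 1) + 2 * (s + 1) * AHPc_b s k := by
  unfold AHPc_b
  have h1 : 2 * (k + 1) = (2 * k + 1) + 1 := by ring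
  have h2 := Nat.add_one_mul_choose_eq s (2 * k)
  rw [h1, Nat.choose_succ_succ (s + 1) (2 * k + 1), AHPc_d_succ]
  have h3 : (s + 1).choose (2 * k + 1) * (2 * (2 * k + 1) * AHPc_d k) =
      2 * (s + 1) * (s.choose (2 * k) * AHPc_d k) := by
    calc _ = 2 * ((s + 1).choose (2 * k + 1) * (2 * k + 1)) * AHPc_d k := by ring
      _ = _ := by rw [← h2]; ring
  rw [Nat.add_mul, h3]
  simp only [Nat.succ_eq_add_one]
  ring

private noncomputable def AHPc_G {A : Type} [CommRing A] (v : A) (s : ℕ) : Polynomial A :=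
  ∑ k ∈ range (s + 1), Polynomial.C ((-1) ^ k * (AHPc_b s k : A) * v ^ k) *
    (1 - Polynomial.X) ^ (s - k)

private theorem AHPc_G_rec {A : Type} [CommRing A] (v : A) (s : ℕ) :
    AHPc_G v (s + 2) = (1 - Polynomial.X) * AHPc_G v (s + 1) -
      Polynomial.C (2 * ((s + 1 : ℕ) : A) * v) * ((1 - Polynomial.X) * AHPc_G v s) := by
  have h1 : AHPc_G v (s + 2) = (∑ k ∈ range (s + 1),
      Polynomial.C ((-1) ^ (k + 1) * (AHPc_b (s + 2) (k + 1) : A) * v ^ (k + 1)) *
      (1 - Polynomial.X) ^ (s - k + 1)) + (1 - Polynomial.X) ^ (s + 2) := by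
    unfold AHPc_G
    rw [Finset.sum_range_succ', Finset.sum_range_succ]
    rw [AHPc_b_zero (s + 2) (s + 1 + 1) (by omega)]
    have h0 : AHPc_b (s + 2) 0 = 1 := by
      simp [AHPc_b, AHPc_d]
    rw [h0]
    simp only [Nat.cast_zero, mul_zero, zero_mul, map_zero, add_zero, pow_zero, Nat.cast_one,
      mul_one, map_one, one_mul, Nat.sub_zero]
    congr 1
    apply Finset.sum_congr rfl
    intro k hk
    rw [Finset.mem_range] at hk
    have : s + 2 - (k + 1) = s - k + 1 := by omega
    rw [this]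
  have h2 : (1 - Polynomial.X) * AHPc_G v (s + 1) = (∑ k ∈ range (s + 1),
      Polynomial.C ((-1) ^ (k + 1) * (AHPc_b (s + 1) (k + 1) : A) * v ^ (k + 1)) *
      (1 - Polynomial.X) ^ (s - k + 1)) + (1 - Polynomial.X) ^ (s + 2) := by
    unfold AHPc_G
    rw [Finset.sum_range_succ', mul_add]
    have h0 : AHPc_b (s + 1) 0 = 1 := by
      simp [AHPc_b, AHPc_d]
    rw [h0]
    simp only [pow_zero, Nat.cast_one, mul_one, map_one, one_mul, Nat.sub_zero]
    rw [← pow_succ']
    congr 1
    rw [Finset.mul_sum]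
    apply Finset.sum_congr rfl
    intro k hk
    rw [Finset.mem_range] at hk
    have : s + 1 - (k + 1) = s - k := by omega
    rw [this, pow_succ (1 - Polynomial.X : Polynomial A) (s - k)]
    ring
  have h3 : Polynomial.C (2 * ((s + 1 : ℕ) : A) * v) * ((1 - Polynomial.X) * AHPc_G v s) =
      ∑ k ∈ range (s + 1),
      Polynomial.C (2 * ((s + 1 : ℕ) : A) * v * ((-1) ^ k * (AHPc_b s k : A) * v ^ k)) *
      (1 - Polynomial.X) ^ (s - k + 1) := by
    unfold AHPc_G
    rw [Finset.mul_sum, Finset.mul_sum]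
    apply Finset.sum_congr rfl
    intro k hk
    rw [Polynomial.C_mul (a := 2 * ((s + 1 : ℕ) : A) * v),
      pow_succ (1 - Polynomial.X : Polynomial A) (s - k)]
    ring
  rw [h1, h2, h3]
  have h4 : ∀ k ∈ range (s + 1),
      Polynomial.C ((-1) ^ (k + 1) * (AHPc_b (s + 2) (k + 1) : A) * v ^ (k + 1)) *
      (1 - Polynomial.X) ^ (s - k + 1) =
      Polynomial.C ((-1) ^ (k + 1) * (AHPc_b (s + 1) (k + 1) : A) * v ^ (k + 1)) *
      (1 - Polynomial.X) ^ (s - k + 1) -
      Polynomial.C (2 * ((s + 1 : ℕ) : A) * v * ((-1) ^ k * (AHPc_b s k : A) * v ^ k)) *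
      (1 - Polynomial.X) ^ (s - k + 1) := by
    intro k hk
    rw [← sub_mul, ← Polynomial.C_sub, AHPc_b_rec]
    congr 2
    push_cast
    ring
  rw [Finset.sum_congr rfl h4, Finset.sum_sub_distrib]
  ring

private theorem AHPc_HP {A : Type} [CommRing A] (v : A) (s : ℕ) :
    HP v s = Polynomial.X ^ s * AHPc_G v s := by
  induction s using Nat.twoStepInduction with
  | zero =>
    rw [HP]
    simp [AHPc_G, AHPc_b, AHPc_d]
  | one =>
    rw [HP]
    have h : AHPc_b 1 1 = 0 := AHPc_b_zero 1 1 (by omega)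
    unfold AHPc_G
    rw [Finset.sum_range_succ, Finset.sum_range_one, h]
    simp [AHPc_b, AHPc_d]
    ring
  | more s ih1 ih2 =>
    rw [HP, ih1, ih2, AHPc_G_rec]
    ring

theorem c_HPc : S_HPc := by
  intro A _ v s l
  rw [AHPc_HP, Polynomial.coeff_X_pow_mul']
  split_ifs with h
  · unfold AHPc_G he
    rw [Polynomial.finset_sum_coeff]
    have hsub : range (s / 2 + 1) ⊆ range (s + 1) := by
      intro k hk
      rw [Finset.mem_range] at hk ⊢
      omega
    rw [← Finset.sum_subset hsub]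
    · apply Finset.sum_congr rfl
      intro k hk
      rw [Finset.mem_range] at hk
      rw [Polynomial.coeff_C_mul, AHPc_coeff, AHPc_b_eq s k (by omega)]
      have h1 : l + s + k = (l - s) + k + 2 * s := by omega
      rw [h1, pow_add, pow_add, pow_mul]
      push_cast
      ring
    · intro k hk hk2
      rw [Finset.mem_range] at hk hk2
      rw [AHPc_b_zero s k (by omega)]
      simp
  · rfl

end Orch
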