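import Pool.Agent.Lib.Orch.Alg

/-!
# MP_0e5665_co, algebraic part: recursion for `te`, homomorphisms, `XP` and `xe`, the diagonal
-/

set_option autoImplicit false

namespace Orch

open Finset

theorem c_teRec : S_teRec := by
  intro A _ v l hl
  obtain ⟨l, rfl⟩ : ∃ l', l = l' + 2 := ⟨l - 2, by omega⟩
  rw [te, Finset.sum_range]

private theorem AHom_xe {A B : Type} [CommRing A] [CommRing B] (f : A →+* B) (v : A) (s : ℕ) :
    f (xe v s) = xe (f v) s := by
  rw [xe, xe, map_sum]
  refine sum_congr rfl fun k _ => ?_
  rw [map_mul, map_intCast, map_pow]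

private theorem AHom_he {A B : Type} [CommRing A] [CommRing B] (f : A →+* B) (v : A) (l s : ℕ) :
    f (he v l s) = he (f v) l s := by
  rw [he, he, map_sum]
  refine sum_congr rfl fun k _ => ?_
  rw [map_mul, map_intCast, map_pow]

private theorem AHom_te {A B : Type} [CommRing A] [CommRing B] (f : A →+* B) (v : A) (l : ℕ) :
    f (te v l) = te (f v) l := by
  induction l using Nat.strong_induction_on with
  | _ l ih =>
    rcases Nat.lt_or_ge l 2 with h | h
    · obtain rfl | rfl : l = 0 ∨ l = 1 := by omega
      · rw [te, te, map_zero]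
      · rw [te, te, map_one]
    · rw [c_teRec A v l h, c_teRec B (f v) l h, map_neg, map_sum]
      congr 1
      refine sum_congr rfl fun s hs => ?_
      rw [map_mul, map_mul, map_prod, AHom_he, ih s (mem_range.1 hs)]
      congr 1
      exact prod_congr rfl fun i _ => AHom_xe f v i

theorem c_Hom : S_Hom := fun _ _ _ _ f v =>
  ⟨fun s => AHom_xe f v s, fun l s => AHom_he f v l s, fun l => AHom_te f v l⟩

theorem c_XPxe : S_XPxe := by
  intro R _ j
  rw [XP, xe]
  refine sum_congr rfl fun k _ => ?_
  rw [map_intCast]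

theorem c_heDiag : S_heDiag := by
  intro A _ v s
  rw [he, xe]
  refine sum_congr rfl fun k _ => ?_
  have h1 : (-1 : ℤ) ^ (s + s + k) = (-1) ^ k := by
    rw [pow_add, ← two_mul, pow_mul]
    norm_num
  rw [Nat.sub_self, Nat.choose_zero_right, one_mul, h1]

end Orch
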