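import Pool.Agent.Lib.Orch.Alg

/-!
The vanishing combination of the column generating functions.
-/

namespace Orch

open Finset

theorem c_Key (hF : S_FQ) (hR : S_QSRec) (hT : S_QSTop) (hE : S_Exp) : S_Key := by
  intro l hl
  have h := hE (PowerSeries ℚ) PowerSeries.X l QS (fun l n _ hn => hR l n hn) l l le_rfl le_rfl
  rw [hT l hl] at h
  rw [h]
  exact Finset.sum_congr rfl fun s _ => by rw [hF]

end Orch
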