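import Pool.Agent.Lib.Orch.Alg

/-!
Periodicity in characteristic `p` of the polynomials `X_s` and of the polynomials `HP`.
-/

namespace Orch

open Finset

private theorem APer1_D (k : ℕ) : ∃ D : ℕ, k.factorial * D = (2 * k).factorial :=
  (Nat.factorial_dvd_factorial (by omega : k ≤ 2 * k)).imp fun _ h => h.symm

private theorem APer1_dvd (p k : ℕ) (hp : p.Prime) (hk : 1 ≤ k) (h2 : 2 * k ≤ p) :
    p ∣ p.factorial / ((p - 2 * k).factorial * k.factorial) := by
  obtain ⟨D, hD⟩ := APer1_D k
  have h1 : p.factorial / ((p - 2 * k).factorial * k.factorial) = p.choose (2 * k) * D := by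
    refine Nat.div_eq_of_eq_mul_left (by positivity) ?_
    rw [← Nat.choose_mul_factorial_mul_factorial h2, ← hD]
    ring
  rw [h1]
  rcases Nat.lt_or_ge (2 * k) p with h | h
  · exact (hp.dvd_choose_self (by omega) h).mul_right D
  · have h3 : p = 2 * k := le_antisymm h h2
    have h4 : k ∣ p := ⟨2, by omega⟩
    have h5 : k = 1 := by
      rcases (Nat.dvd_prime hp).1 h4 with h6 | h6
      · exact h6
      · omega
    subst h5
    have h7 : D = 2 := by
      simpa using hD
    rw [h3, h7]
    simp

private theorem APer1_xep {A : Type} [CommRing A] (p : ℕ) [hp : Fact p.Prime] [CharP A p] (v : A) :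
    xe v p = 1 := by
  unfold xe
  rw [sum_range_succ', sum_eq_zero]
  · have h : p.factorial / ((p - 2 * 0).factorial * Nat.factorial 0) = 1 := by
      rw [mul_zero, Nat.sub_zero, Nat.factorial_zero, mul_one, Nat.div_self (Nat.factorial_pos p)]
    rw [h]
    simp
  · intro k hk
    rw [mem_range] at hk
    obtain ⟨m, hm⟩ := APer1_dvd p (k + 1) hp.out (by omega) (by omega)
    rw [hm]
    push_cast
    rw [CharP.cast_eq_zero A p]
    ring

theorem c_xePer (hxe : S_xeRec) : S_xePer := by
  intro A _ p hp _ v s
  obtain ⟨h0, h1, hrec⟩ := hxe A v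
  have hp1 : xe v (p + 1) = 1 := by
    have h2 := hrec (p - 1)
    have h3 : 1 ≤ p := hp.out.one_lt.le
    have h4 : p - 1 + 2 = p + 1 := by omega
    have h5 : p - 1 + 1 = p := by omega
    rw [h4, h5, APer1_xep p v, CharP.cast_eq_zero A p] at h2
    rw [h2]
    ring
  induction s using Nat.strong_induction_on with
  | _ s ih =>
    match s, ih with
    | 0, _ => rw [zero_add, APer1_xep p v, h0]
    | 1, _ => rw [add_comm, hp1, h1]
    | (s + 2), ih =>
      have h2 := ih s (by omega)
      have h3 := ih (s + 1) (by omega)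
      have h4 : s + 2 + p = (s + p) + 2 := by ring
      have h5 : s + p + 1 = s + 1 + p := by ring
      rw [h4, hrec (s + p), hrec s, h5, h2, h3]
      push_cast
      rw [CharP.cast_eq_zero A p]
      ring

private theorem APer1_HP (hxe : S_xeRec) {A : Type} [CommRing A] (v : A) (s : ℕ) :
    ((HP v s : Polynomial A) : PowerSeries A) = (PowerSeries.X - PowerSeries.X ^ 2) ^ s *
      xe (PowerSeries.C v * (PowerSeries.mk 1 : PowerSeries A)) s := by
  obtain ⟨h0, h1, hrec⟩ := hxe (PowerSeries A) (PowerSeries.C v * PowerSeries.mk 1)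
  have hinv : (PowerSeries.mk 1 : PowerSeries A) * (1 - PowerSeries.X) = 1 :=
    PowerSeries.mk_one_mul_one_sub_eq_one A
  induction s using Nat.strong_induction_on with
  | _ s ih =>
    match s, ih with
    | 0, _ =>
      rw [h0, HP]
      simp
    | 1, _ =>
      rw [h1, HP]
      simp
    | (s + 2), ih =>
      have h2 := ih s (by omega)
      have h3 := ih (s + 1) (by omega)
      rw [HP, hrec s, Polynomial.coe_sub, Polynomial.coe_mul, Polynomial.coe_mul,
        Polynomial.coe_mul, h2, h3]
      simp only [Polynomial.coe_sub, Polynomial.coe_pow, Polynomial.coe_X, Polynomial.coe_C]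
      have h4 : (PowerSeries.C (2 * ((s + 1 : ℕ) : A) * v) : PowerSeries A) =
          2 * ((s + 1 : ℕ) : PowerSeries A) * PowerSeries.C v := by
        rw [map_mul, map_mul, map_natCast, map_ofNat]
      rw [h4]
      linear_combination ((2 * ((s + 1 : ℕ) : PowerSeries A) * PowerSeries.C v *
        PowerSeries.X ^ 2 * (1 - PowerSeries.X) * (PowerSeries.X - PowerSeries.X ^ 2) ^ s *
        xe (PowerSeries.C v * (PowerSeries.mk 1 : PowerSeries A)) s)) * hinv

theorem c_HPPer (hxe : S_xeRec) : S_HPPer := by
  intro A _ p hp _ v s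
  have hchar : CharP (PowerSeries A) p :=
    charP_of_injective_ringHom (f := (PowerSeries.C : A →+* PowerSeries A))
      PowerSeries.C_injective p
  apply Polynomial.coe_injective A
  rw [Polynomial.coe_mul, APer1_HP hxe, APer1_HP hxe, c_xePer hxe (PowerSeries A) p]
  simp only [Polynomial.coe_sub, Polynomial.coe_pow, Polynomial.coe_X]
  have h1 : (PowerSeries.X - PowerSeries.X ^ 2 : PowerSeries A) ^ p =
      PowerSeries.X ^ p - PowerSeries.X ^ (2 * p) := by
    rw [sub_pow_char, ← pow_mul]
  rw [pow_add, h1]
  ring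

end Orch
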