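import Pool.Agent.Lib.Orch.Alg

/-!
Periodicity of the numerators in characteristic `p` at a zero of `X_b`.
-/

namespace Orch

open Finset

private theorem APer2_prod {A : Type} [CommRing A] (p : ℕ) (v : A)
    (hx : ∀ s, xe v (s + p) = xe v s) (s l : ℕ) :
    ∏ i ∈ Ioo (s + p) (l + p), xe v i = ∏ i ∈ Ioo s l, xe v i := by
  rw [← Finset.map_add_right_Ioo, Finset.prod_map]
  refine Finset.prod_congr rfl fun i _ => ?_
  exact hx i

theorem c_Per (hT : S_teRec) (hc : S_HPc) (hxp : S_xePer) (hHP : S_HPPer) (hd : S_heDiag) :
    S_Per := by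
  intro A _ p _ _ v b hb hxb
  have hp : 0 < p := (Fact.out : p.Prime).pos
  have hx : ∀ m, xe v (b + p * m) = 0 := by
    intro m
    induction m with
    | zero => simpa using hxb
    | succ m ih =>
      rw [show b + p * (m + 1) = (b + p * m) + p by ring, hxp A p v]
      exact ih
  have hprod0 : ∀ s l i, s < i → i < l → xe v i = 0 → ∏ i ∈ Ioo s l, xe v i = 0 :=
    fun s l i h1 h2 h3 => Finset.prod_eq_zero (Finset.mem_Ioo.2 ⟨h1, h2⟩) h3
  have hprodp := APer2_prod p v (hxp A p v)
  have hhe : ∀ l s, s ≤ l → he v (l + p) (s + p) =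
      he v l s - if s + p ≤ l then he v (l - p) s else 0 := by
    intro l s hsl
    have h1 := hc A v (s + p) (l + p)
    rw [if_pos (by omega), hHP A p v s, sub_mul, Polynomial.coeff_sub,
      Polynomial.coeff_X_pow_mul, Polynomial.coeff_X_pow_mul', hc A v s l, if_pos hsl] at h1
    rw [← h1]
    congr 1
    by_cases h : s + p ≤ l
    · rw [if_pos h, if_pos (by omega), hc A v s, if_pos (by omega)]
      congr 1
      omega
    · rw [if_neg h]
      by_cases h2 : 2 * p ≤ l + p
      · rw [if_pos h2, hc A v s, if_neg (by omega)]
      · rw [if_neg h2]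
  have hcorr : ∀ l s, b ≤ s → s < l →
      (he v (l + p) (s + p) - he v l s) * ∏ i ∈ Ioo s l, xe v i = 0 := by
    intro l s hbs hsl
    rw [hhe l s hsl.le]
    by_cases h : s + p ≤ l
    · rw [if_pos h]
      obtain ⟨q, r, hr, hqr⟩ : ∃ q r, r < p ∧ s = b + (p * q + r) :=
        ⟨(s - b) / p, (s - b) % p, Nat.mod_lt _ hp, by
          rw [Nat.div_add_mod]
          omega⟩
      by_cases hr0 : r = 0
      · subst hr0
        by_cases hl : s + p < l
        · rw [hprod0 s l (s + p) (by omega) hl, mul_zero]
          rw [hxp A p v, hqr]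
          exact hx q
        · have hl' : l - p = s := by omega
          rw [hl', hd A v s, hqr, add_zero, hx q, sub_zero, sub_self, zero_mul]
      · rw [hprod0 s l (b + p * (q + 1)), mul_zero]
        · rw [hqr, mul_add, mul_one]
          omega
        · rw [hqr] at h
          rw [mul_add, mul_one]
          omega
        · exact hx (q + 1)
    · rw [if_neg h, sub_zero, sub_self, zero_mul]
  intro l
  induction l using Nat.strong_induction_on with
  | _ l ih =>
    intro hbl
    rcases hbl.eq_or_lt with h | hlt
    · rw [← h, mul_comm]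
    · rw [hT A v (l + p) (by omega), hT A v l (by omega), neg_mul, neg_mul]
      congr 1
      have h1 : ∑ s ∈ range (l + p), he v (l + p) s * te v s * ∏ i ∈ Ioo s (l + p), xe v i =
          ∑ s ∈ Ico b l, he v (l + p) (s + p) * te v (s + p) *
            ∏ i ∈ Ioo (s + p) (l + p), xe v i := by
        rw [Finset.sum_Ico_add' (fun s => he v (l + p) s * te v s *
          ∏ i ∈ Ioo s (l + p), xe v i) b l p]
        symm
        refine Finset.sum_subset ?_ ?_
        · intro s hs
          rw [Finset.mem_Ico] at hs
          rw [Finset.mem_range]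
          exact hs.2
        · intro s hs hs'
          rw [Finset.mem_range] at hs
          rw [Finset.mem_Ico] at hs'
          have hs2 : s < b + p := by
            by_contra hcon
            exact hs' ⟨by omega, hs⟩
          rw [hprod0 s (l + p) (b + p) hs2 (by omega), mul_zero]
          rw [hxp A p v]
          exact hxb
      have h2 : ∑ s ∈ range l, he v l s * te v s * ∏ i ∈ Ioo s l, xe v i =
          ∑ s ∈ Ico b l, he v l s * te v s * ∏ i ∈ Ioo s l, xe v i := by
        symm
        refine Finset.sum_subset ?_ ?_
        · intro s hs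
          rw [Finset.mem_Ico] at hs
          rw [Finset.mem_range]
          exact hs.2
        · intro s hs hs'
          rw [Finset.mem_range] at hs
          rw [Finset.mem_Ico] at hs'
          have hs2 : s < b := by
            by_contra hcon
            exact hs' ⟨by omega, hs⟩
          rw [hprod0 s l b hs2 hlt hxb, mul_zero]
      rw [h1, h2, Finset.sum_mul, Finset.sum_mul]
      refine Finset.sum_congr rfl ?_
      intro s hs
      rw [Finset.mem_Ico] at hs
      rw [hprodp s l]
      have h3 := hcorr l s hs.1 hs.2
      have h4 := ih s hs.2 hs.1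
      rw [sub_mul, sub_eq_zero] at h3
      calc he v (l + p) (s + p) * te v (s + p) * (∏ i ∈ Ioo s l, xe v i) * te v b
          = (he v (l + p) (s + p) * ∏ i ∈ Ioo s l, xe v i) * (te v (s + p) * te v b) := by ring
        _ = (he v l s * ∏ i ∈ Ioo s l, xe v i) * (te v s * te v (b + p)) := by rw [h3, h4]
        _ = he v l s * te v s * (∏ i ∈ Ioo s l, xe v i) * te v (b + p) := by ring

end Orch
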