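import Pool.Agent.Lib.Orch.Alg

/-!
Positivity: the abstract statement.
-/

namespace Orch

open Finset

private theorem APosAbs_g (v : ℝ) (hv : 0 < v) (l : ℕ) (p : ℕ → ℝ)
    (hp1 : ∀ n, n < l → 0 < p n)
    (hp2 : ∀ n, 1 ≤ n → n + 1 ≤ l → 2 * (n : ℝ) * v * p (n - 1) ≤ p n) :
    ∀ n, 1 ≤ n → n ≤ l → 0 < (n : ℝ) * p (n - 1) - 3 * ((n.choose 2 : ℕ) : ℝ) * v * p (n - 2) := by
  intro n hn1 hnl
  rcases Nat.lt_or_ge n 2 with h | h
  · have h1 : n = 1 := by omega
    subst h1
    have h2 := hp1 0 (by omega)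
    simp
    exact h2
  · obtain ⟨k, rfl⟩ : ∃ k, n = k + 2 := ⟨n - 2, by omega⟩
    have h1 := hp2 (k + 1) (by omega) (by omega)
    have h2 := hp1 (k + 1) (by omega)
    have h3 := hp1 k (by omega)
    have h4 : k + 2 - 1 = k + 1 := by omega
    have h5 : k + 2 - 2 = k := by omega
    have h6 : k + 1 - 1 = k := by omega
    rw [h6] at h1
    rw [h4, h5, Nat.cast_choose_two]
    push_cast at h1 ⊢
    have hk : (0 : ℝ) ≤ k := Nat.cast_nonneg k
    have h7 : 3 * (((k : ℝ) + 2) * ((k : ℝ) + 2 - 1) / 2) * v * p k =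
        (3 / 4) * ((k : ℝ) + 2) * (2 * ((k : ℝ) + 1) * v * p k) := by ring
    rw [h7]
    have h8 : (3 / 4) * ((k : ℝ) + 2) * (2 * ((k : ℝ) + 1) * v * p k) ≤
        (3 / 4) * ((k : ℝ) + 2) * p (k + 1) := mul_le_mul_of_nonneg_left h1 (by positivity)
    have h9 : 0 < ((k : ℝ) + 2) * p (k + 1) := by positivity
    linarith

private theorem APosAbs_Z (v : ℝ) (hv : 0 < v) (X : ℕ → ℝ) (hX0 : X 0 = 1) (hX1 : X 1 = 1)
    (hXr : ∀ n, 1 ≤ n → X (n + 1) = X n - 2 * (n : ℝ) * v * X (n - 1)) (l : ℕ)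
    (hXp : ∀ i < l, 0 < X i) (a p : ℕ → ℝ)
    (hrec : ∀ n, n + 1 ≤ l → a (n + 1) = a n - (n : ℝ) * p (n - 1) - 2 * (n : ℝ) * v * a (n - 1)
      + 3 * ((n.choose 2 : ℕ) : ℝ) * v * p (n - 2))
    (hg : ∀ n, 1 ≤ n → n + 1 ≤ l →
      0 < (n : ℝ) * p (n - 1) - 3 * ((n.choose 2 : ℕ) : ℝ) * v * p (n - 2)) :
    ∀ n, n + 1 ≤ l → X n * a (n + 1) - X (n + 1) * a n ≤ 0 ∧
      (1 ≤ n → X n * a (n + 1) - X (n + 1) * a n < 0) := by
  intro n
  induction n with
  | zero =>
    intro h
    have h1 := hrec 0 h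
    have h2 : a 1 = a 0 := by
      simpa using h1
    rw [zero_add, h2, hX0, hX1]
    exact ⟨by linarith, fun h => absurd h (by omega)⟩
  | succ n ih =>
    intro h
    have h1 := (ih (by omega)).1
    have h2 := hrec (n + 1) h
    have h3 := hXr (n + 1) (by omega)
    have h4 := hg (n + 1) (by omega) h
    have h5 := hXp (n + 1) (by omega)
    rw [Nat.add_sub_cancel] at h2 h3 h4
    have h6 : X (n + 1) * a (n + 1 + 1) - X (n + 1 + 1) * a (n + 1) =
        2 * ((n + 1 : ℕ) : ℝ) * v * (X n * a (n + 1) - X (n + 1) * a n) -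
        X (n + 1) * (((n + 1 : ℕ) : ℝ) * p n - 3 * (((n + 1).choose 2 : ℕ) : ℝ) * v *
          p (n + 1 - 2)) := by
      rw [h2, h3]
      ring
    have h7 : 2 * ((n + 1 : ℕ) : ℝ) * v * (X n * a (n + 1) - X (n + 1) * a n) ≤ 0 :=
      mul_nonpos_of_nonneg_of_nonpos (by positivity) h1
    have h8 := mul_pos h5 h4
    rw [h6]
    exact ⟨by linarith, fun _ => by linarith⟩

theorem c_PosAbs : S_PosAbs := by
  intro v X q m hm hv hX0 hX1 hXr hXp hXm hrec hq10 hqll
  have hP : ∀ l, 1 ≤ l → l < m → (∀ n, n < l → 0 < q l n) ∧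
      ∀ n, 1 ≤ n → n + 1 ≤ l → 2 * (n : ℝ) * v * q l (n - 1) ≤ q l n := by
    intro l
    induction l with
    | zero => intro h; omega
    | succ l ih =>
      intro _ hlm
      rcases Nat.eq_zero_or_pos l with h0 | hl
      · subst h0
        refine ⟨fun n hn => ?_, fun n h1 h2 => by omega⟩
        have : n = 0 := by omega
        subst this
        rw [zero_add, hq10]
        exact one_pos
      · obtain ⟨ih1, ih2⟩ := ih hl (by omega)
        have hg := APosAbs_g v hv l (q l) ih1 ih2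
        have hrec' : ∀ n, n + 1 ≤ l + 1 → q (l + 1) (n + 1) = q (l + 1) n - (n : ℝ) * q l (n - 1)
            - 2 * (n : ℝ) * v * q (l + 1) (n - 1)
            + 3 * ((n.choose 2 : ℕ) : ℝ) * v * q l (n - 2) := by
          intro n hn
          have h := hrec (l + 1) n hlm.le hn
          rwa [Nat.add_sub_cancel] at h
        have hZ := APosAbs_Z v hv X hX0 hX1 hXr (l + 1) (fun i hi => hXp i (by omega))
          (q (l + 1)) (q l) hrec' (fun n h1 h2 => hg n h1 (by omega))
        have htop := hqll (l + 1) (by omega) hlm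
        have h1 : 0 < q (l + 1) l := by
          have h2 := (hZ l le_rfl).2 hl
          rw [htop] at h2
          have h3 := hXp (l + 1) hlm
          by_contra hcon
          have h4 : X (l + 1) * q (l + 1) l ≤ 0 :=
            mul_nonpos_of_nonneg_of_nonpos h3.le (not_lt.mp hcon)
          linarith
        have hpos : ∀ k, k ≤ l → 0 < q (l + 1) (l - k) := by
          intro k
          induction k with
          | zero => intro _; exact h1
          | succ k ihk =>
            intro hk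
            have h2 := ihk (by omega)
            have h3 := (hZ (l - (k + 1)) (by omega)).1
            have h4 : l - (k + 1) + 1 = l - k := by omega
            rw [h4] at h3
            have h5 := hXp (l - (k + 1)) (by omega)
            have h6 := hXp (l - k) (by omega)
            by_contra hcon
            have h7 : X (l - k) * q (l + 1) (l - (k + 1)) ≤ 0 :=
              mul_nonpos_of_nonneg_of_nonpos h6.le (not_lt.mp hcon)
            have h8 := mul_pos h5 h2
            linarith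
        have hpos' : ∀ n, n < l + 1 → 0 < q (l + 1) n := by
          intro n hn
          have h2 := hpos (l - n) (by omega)
          have h3 : l - (l - n) = n := by omega
          rwa [h3] at h2
        refine ⟨hpos', fun n h1 h2 => ?_⟩
        have h3 := hrec' n h2
        have h4 := hg n h1 (by omega)
        have h5 : 0 ≤ q (l + 1) (n + 1) := by
          rcases Nat.lt_or_ge (n + 1) (l + 1) with h6 | h6
          · exact (hpos' _ h6).le
          · have h7 : n + 1 = l + 1 := by omega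
            rw [h7, htop]
        linarith
  obtain ⟨l, rfl⟩ : ∃ l, m = l + 1 := ⟨m - 1, by omega⟩
  obtain ⟨ih1, ih2⟩ := hP l (by omega) (by omega)
  have hg := APosAbs_g v hv l (q l) ih1 ih2
  have hrec' : ∀ n, n + 1 ≤ l + 1 → q (l + 1) (n + 1) = q (l + 1) n - (n : ℝ) * q l (n - 1)
      - 2 * (n : ℝ) * v * q (l + 1) (n - 1)
      + 3 * ((n.choose 2 : ℕ) : ℝ) * v * q l (n - 2) := by
    intro n hn
    have h := hrec (l + 1) n le_rfl hn
    rwa [Nat.add_sub_cancel] at h
  have hZ := APosAbs_Z v hv X hX0 hX1 hXr (l + 1) hXp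
    (q (l + 1)) (q l) hrec' (fun n h1 h2 => hg n h1 (by omega))
  have h2 := (hZ l le_rfl).2 (by omega)
  rw [hXm] at h2
  have h3 := hXp l (by omega)
  by_contra hcon
  have h4 : 0 ≤ X l * q (l + 1) (l + 1) := mul_nonneg h3.le (not_lt.mp hcon)
  linarith

end Orch
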