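import Pool.Agent.Lib.Orch.Alg

/-!
The power series of the normalised counts.
-/

namespace Orch

open Finset

open Classical in
private theorem AQS_Q (l m : ℕ) : Q l 0 m = (Net (range l) (range m)).card := by
  unfold Q q
  congr 1
  rw [filter_eq_self]
  rintro E _ ⟨x, hx, -⟩
  simp at hx

theorem c_FQ (hC : S_Card) : S_FQ := by
  intro l
  unfold F QS
  ext k
  rw [PowerSeries.coeff_mk, PowerSeries.coeff_mk]
  unfold b
  rw [AQS_Q, ← hC l k]
  have h : ((l + 2 * k).factorial : ℚ) ≠ 0 := by positivity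
  push_cast
  field_simp

theorem c_QSTop (hQ : S_QTop) : S_QSTop := by
  intro l hl
  unfold QS
  ext k
  rw [PowerSeries.coeff_mk]
  unfold b
  rw [hQ l _ hl]
  simp

theorem c_QSOne (hQ : S_QOne) : S_QSOne := by
  unfold S_QSOne QS
  ext k
  rw [PowerSeries.coeff_mk, PowerSeries.coeff_one]
  unfold b
  rw [hQ]
  by_cases hk : k = 0
  · subst hk
    simp
  · rw [if_neg (by omega), if_neg hk]
    simp

theorem c_QSZero (hQ : S_QZero) : S_QSZero := by
  intro n
  unfold QS
  ext k
  rw [PowerSeries.coeff_mk]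
  unfold b
  rw [hQ]
  simp

end Orch
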