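import Pool.Agent.Lib.Orch.Alg

namespace Orch

open Finset

private theorem AQSRec_fac1 (m : ℕ) (hm : 1 ≤ m) :
    (m.factorial : ℚ) = m * ((m - 1).factorial : ℚ) := by
  obtain ⟨k, rfl⟩ : ∃ k, m = k + 1 := ⟨m - 1, by omega⟩
  rw [Nat.add_sub_cancel, Nat.factorial_succ]
  push_cast
  ring

private theorem AQSRec_fac2 (m : ℕ) (hm : 2 ≤ m) :
    (m.factorial : ℚ) = ((m * (m - 1) : ℕ) : ℚ) * ((m - 2).factorial : ℚ) := by
  obtain ⟨k, rfl⟩ : ∃ k, m = k + 2 := ⟨m - 2, by omega⟩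
  have h : k + 2 - 1 = k + 1 := by omega
  rw [Nat.add_sub_cancel, h, Nat.factorial_succ, Nat.factorial_succ]
  push_cast
  ring

private theorem AQSRec_fac3 (m : ℕ) (hm : 3 ≤ m) :
    (m.factorial : ℚ) = ((m * (m - 1) * (m - 2) : ℕ) : ℚ) * ((m - 3).factorial : ℚ) := by
  obtain ⟨k, rfl⟩ : ∃ k, m = k + 3 := ⟨m - 3, by omega⟩
  have h : k + 3 - 1 = k + 2 := by omega
  have h' : k + 3 - 2 = k + 1 := by omega
  rw [Nat.add_sub_cancel, h, h', Nat.factorial_succ, Nat.factorial_succ, Nat.factorial_succ]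
  push_cast
  ring

private theorem AQSRec_div (a q f g : ℚ) (hf : f ≠ 0) (h : f = a * g) : a * q / f = q / g := by
  have ha : a ≠ 0 := by
    intro h0
    apply hf
    rw [h, h0, zero_mul]
  rw [h, mul_div_mul_left _ _ ha]

theorem c_QSRec (hRec : S_Rec) (hSm : S_QSmall) : S_QSRec := by
  intro l n hn
  have hC : (n : PowerSeries ℚ) = PowerSeries.C (n : ℚ) := (map_natCast _ n).symm
  have hC2 : ((n.choose 2 : ℕ) : PowerSeries ℚ) = PowerSeries.C ((n.choose 2 : ℕ) : ℚ) :=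
    (map_natCast _ _).symm
  have h2 : 2 * (n : PowerSeries ℚ) * PowerSeries.X * QS l (n - 1) =
      PowerSeries.C (2 * (n : ℚ)) * (PowerSeries.X * QS l (n - 1)) := by
    rw [map_mul, hC, map_ofNat]
    ring
  have h3 : 3 * ((n.choose 2 : ℕ) : PowerSeries ℚ) * PowerSeries.X * QS (l - 1) (n - 2) =
      PowerSeries.C (3 * ((n.choose 2 : ℕ) : ℚ)) * (PowerSeries.X * QS (l - 1) (n - 2)) := by
    rw [map_mul, hC2, map_ofNat]
    ring
  rw [h2, h3, hC]
  ext k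
  rw [map_add, map_sub, map_sub, PowerSeries.coeff_C_mul, PowerSeries.coeff_C_mul,
    PowerSeries.coeff_C_mul]
  obtain ⟨m, hm⟩ : ∃ m : ℕ, m = l + 2 * k := ⟨_, rfl⟩
  have hm1 : l - 1 + 2 * k = m - 1 := by omega
  have hfm : (m.factorial : ℚ) ≠ 0 := by positivity
  have e1 : PowerSeries.coeff k (QS l (n + 1)) = (Q l (n + 1) m : ℚ) / (m.factorial : ℚ) := by
    simp only [QS, PowerSeries.coeff_mk, b, ← hm]
  have e2 : PowerSeries.coeff k (QS l n) = (Q l n m : ℚ) / (m.factorial : ℚ) := by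
    simp only [QS, PowerSeries.coeff_mk, b, ← hm]
  have e3 : PowerSeries.coeff k (QS (l - 1) (n - 1)) =
      (m : ℚ) * (Q (l - 1) (n - 1) (m - 1) : ℚ) / (m.factorial : ℚ) := by
    simp only [QS, PowerSeries.coeff_mk, b, hm1]
    exact (AQSRec_div _ _ _ _ hfm (AQSRec_fac1 m (by omega))).symm
  have e4 : PowerSeries.coeff k (PowerSeries.X * QS l (n - 1)) =
      ((m * (m - 1) : ℕ) : ℚ) * (Q l (n - 1) (m - 2) : ℚ) / (m.factorial : ℚ) := by
    cases k with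
    | zero =>
      rw [PowerSeries.coeff_zero_X_mul, hSm l (n - 1) (m - 2) (fun k => by omega)]
      simp
    | succ k =>
      have hm2 : l + 2 * k = m - 2 := by omega
      rw [PowerSeries.coeff_succ_X_mul]
      simp only [QS, PowerSeries.coeff_mk, b, hm2]
      exact (AQSRec_div _ _ _ _ hfm (AQSRec_fac2 m (by omega))).symm
  have e5 : PowerSeries.coeff k (PowerSeries.X * QS (l - 1) (n - 2)) =
      ((m * (m - 1) * (m - 2) : ℕ) : ℚ) * (Q (l - 1) (n - 2) (m - 3) : ℚ) /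
        (m.factorial : ℚ) := by
    cases k with
    | zero =>
      rw [PowerSeries.coeff_zero_X_mul]
      rcases Nat.lt_or_ge l 2 with h | h
      · have h5 : m * (m - 1) * (m - 2) = 0 := by
          have : m = 1 := by omega
          rw [this]
        rw [h5]
        simp
      · rw [hSm (l - 1) (n - 2) (m - 3) (fun k => by omega)]
        simp
    | succ k =>
      have hm3 : l - 1 + 2 * k = m - 3 := by omega
      rw [PowerSeries.coeff_succ_X_mul]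
      simp only [QS, PowerSeries.coeff_mk, b, hm3]
      exact (AQSRec_div _ _ _ _ hfm (AQSRec_fac3 m (by omega))).symm
  rw [e1, e2, e3, e4, e5]
  have hr : (Q l (n + 1) m : ℚ) + (n : ℚ) * m * (Q (l - 1) (n - 1) (m - 1) : ℚ) +
      2 * (n : ℚ) * ((m * (m - 1) : ℕ) : ℚ) * (Q l (n - 1) (m - 2) : ℚ) =
      (Q l n m : ℚ) + 3 * ((n.choose 2 : ℕ) : ℚ) * ((m * (m - 1) * (m - 2) : ℕ) : ℚ) *
        (Q (l - 1) (n - 2) (m - 3) : ℚ) := by
    exact_mod_cast hRec l n m hn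
  rw [eq_comm, ← sub_eq_zero]
  have h6 : (Q l n m : ℚ) / (m.factorial : ℚ) -
      (n : ℚ) * ((m : ℚ) * (Q (l - 1) (n - 1) (m - 1) : ℚ) / (m.factorial : ℚ)) -
      2 * (n : ℚ) * (((m * (m - 1) : ℕ) : ℚ) * (Q l (n - 1) (m - 2) : ℚ) / (m.factorial : ℚ)) +
      3 * ((n.choose 2 : ℕ) : ℚ) * (((m * (m - 1) * (m - 2) : ℕ) : ℚ) *
        (Q (l - 1) (n - 2) (m - 3) : ℚ) / (m.factorial : ℚ)) -
      (Q l (n + 1) m : ℚ) / (m.factorial : ℚ) =
      (((Q l n m : ℚ) + 3 * ((n.choose 2 : ℕ) : ℚ) * ((m * (m - 1) * (m - 2) : ℕ) : ℚ) *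
        (Q (l - 1) (n - 2) (m - 3) : ℚ)) - ((Q l (n + 1) m : ℚ) +
        (n : ℚ) * m * (Q (l - 1) (n - 1) (m - 1) : ℚ) +
      2 * (n : ℚ) * ((m * (m - 1) : ℕ) : ℚ) * (Q l (n - 1) (m - 2) : ℚ))) /
        (m.factorial : ℚ) := by
    ring
  rw [h6, ← hr, sub_self, zero_div]

end Orch
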