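import Pool.Agent.Lib.Orch.Alg

/-!
The reduced form of the column generating functions.
-/

namespace Orch

open Finset

private theorem ARed_coeff (j : ℕ) : (XP ℚ j).coeff 0 = 1 := by
  unfold XP
  rw [Polynomial.finset_sum_coeff, sum_range_succ', sum_eq_zero, zero_add]
  · have h : j.factorial / ((j - 2 * 0).factorial * Nat.factorial 0) = 1 := by
      rw [mul_zero, Nat.sub_zero, Nat.factorial_zero, mul_one, Nat.div_self (Nat.factorial_pos j)]
    rw [h]
    simp
  · intro k _
    rw [Polynomial.coeff_C_mul, Polynomial.coeff_X_pow]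
    simp

private noncomputable def ARed_P (l : ℕ) : Polynomial ℚ := ∏ i ∈ Icc 2 l, XP ℚ i

private theorem ARed_P_coeff (l : ℕ) : (ARed_P l).coeff 0 = 1 := by
  unfold ARed_P
  rw [Polynomial.coeff_zero_prod]
  exact prod_eq_one fun i _ => ARed_coeff i

private noncomputable def ARed_T (l : ℕ) : Polynomial ℚ :=
  Polynomial.C ((l.factorial : ℚ) / 2 ^ (l - 1)) * te (Polynomial.X : Polynomial ℚ) l

theorem c_RedEx (hD : S_Den) : S_RedEx := by
  intro l hl
  have hF : F l * (ARed_P l : PowerSeries ℚ) = (ARed_T l : PowerSeries ℚ) := hD l hl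
  have hP0 := ARed_P_coeff l
  set P := ARed_P l with hP
  set T := ARed_T l with hT
  have hPne : P ≠ 0 := by
    intro h
    rw [h, Polynomial.coeff_zero] at hP0
    exact zero_ne_one hP0
  obtain ⟨P', hP'⟩ := EuclideanDomain.gcd_dvd_left P T
  obtain ⟨T', hT'⟩ := EuclideanDomain.gcd_dvd_right P T
  have hab := EuclideanDomain.gcd_eq_gcd_ab P T
  set g := EuclideanDomain.gcd P T with hg
  have hg0 : g ≠ 0 := by
    intro h
    rw [h, zero_mul] at hP'
    exact hPne hP'
  have hco : P' * EuclideanDomain.gcdA P T + T' * EuclideanDomain.gcdB P T = 1 := by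
    apply mul_left_cancel₀ hg0
    calc g * (P' * EuclideanDomain.gcdA P T + T' * EuclideanDomain.gcdB P T)
        = (g * P') * EuclideanDomain.gcdA P T + (g * T') * EuclideanDomain.gcdB P T := by ring
      _ = P * EuclideanDomain.gcdA P T + T * EuclideanDomain.gcdB P T := by
          rw [← hP', ← hT']
      _ = g * 1 := by rw [mul_one, ← hab]
  have hc0 : P'.coeff 0 ≠ 0 := by
    intro h
    have h1 : P.coeff 0 = g.coeff 0 * P'.coeff 0 := by
      conv_lhs => rw [hP']
      rw [Polynomial.mul_coeff_zero]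
    rw [h, mul_zero] at h1
    rw [h1] at hP0
    exact zero_ne_one hP0
  have hgS : (g : PowerSeries ℚ) ≠ 0 := by
    intro h
    apply hg0
    apply Polynomial.coe_injective ℚ
    rw [h, Polynomial.coe_zero]
  have hF' : F l * (P' : PowerSeries ℚ) = (T' : PowerSeries ℚ) := by
    apply mul_left_cancel₀ hgS
    have h1 : (P : PowerSeries ℚ) = (g : PowerSeries ℚ) * (P' : PowerSeries ℚ) := by
      rw [← Polynomial.coe_mul, ← hP']
    have h2 : (T : PowerSeries ℚ) = (g : PowerSeries ℚ) * (T' : PowerSeries ℚ) := by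
      rw [← Polynomial.coe_mul, ← hT']
    rw [← h2, ← hF, h1]
    ring
  refine ⟨Polynomial.C (P'.coeff 0)⁻¹ * T', Polynomial.C (P'.coeff 0)⁻¹ * P', ?_, ?_, ?_⟩
  · refine ⟨Polynomial.C (P'.coeff 0) * EuclideanDomain.gcdB P T,
      Polynomial.C (P'.coeff 0) * EuclideanDomain.gcdA P T, ?_⟩
    have h1 : (Polynomial.C (P'.coeff 0) : Polynomial ℚ) * Polynomial.C (P'.coeff 0)⁻¹ = 1 := by
      rw [← Polynomial.C_mul, mul_inv_cancel₀ hc0, Polynomial.C_1]
    calc Polynomial.C (P'.coeff 0) * EuclideanDomain.gcdB P T *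
          (Polynomial.C (P'.coeff 0)⁻¹ * T') +
          Polynomial.C (P'.coeff 0) * EuclideanDomain.gcdA P T *
          (Polynomial.C (P'.coeff 0)⁻¹ * P')
        = (Polynomial.C (P'.coeff 0) * Polynomial.C (P'.coeff 0)⁻¹) *
          (P' * EuclideanDomain.gcdA P T + T' * EuclideanDomain.gcdB P T) := by ring
      _ = 1 := by rw [h1, hco, mul_one]
  · rw [Polynomial.coeff_C_mul, inv_mul_cancel₀ hc0]
  · rw [Polynomial.coe_mul, Polynomial.coe_mul, mul_left_comm, hF']

private theorem ARed_rel (hD : S_Den) (l : ℕ) (hl : 1 ≤ l) (N D : Polynomial ℚ)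
    (h : IsRed l N D) : N * ARed_P l = ARed_T l * D := by
  have hF : F l * (ARed_P l : PowerSeries ℚ) = (ARed_T l : PowerSeries ℚ) := hD l hl
  obtain ⟨-, -, h3⟩ := h
  apply Polynomial.coe_injective ℚ
  rw [Polynomial.coe_mul, Polynomial.coe_mul, ← h3, ← hF]
  ring

theorem c_RedDvd (hD : S_Den) : S_RedDvd := by
  intro l hl N D h
  have hrel := ARed_rel hD l hl N D h
  have h1 : D ∣ N * ARed_P l := by
    rw [hrel]
    exact dvd_mul_left _ _
  exact h.1.symm.dvd_of_dvd_mul_left h1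

theorem c_RedNd (hD : S_Den) : S_RedNd := by
  intro l hl N D h j hj hjl hnd hco
  have hrel := ARed_rel hD l hl N D h
  have h1 : XP ℚ j ∣ ARed_P l := dvd_prod_of_mem (fun i => XP ℚ i) (mem_Icc.2 ⟨hj, hjl⟩)
  have h2 : XP ℚ j ∣ ARed_T l * D := by
    rw [← hrel]
    exact dvd_mul_of_dvd_right h1 _
  have h3 : XP ℚ j ∣ ARed_T l := hco.symm.dvd_of_dvd_mul_right h2
  have hu : IsUnit (Polynomial.C ((l.factorial : ℚ) / 2 ^ (l - 1)) : Polynomial ℚ) := by
    rw [Polynomial.isUnit_C, isUnit_iff_ne_zero]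
    positivity
  exact hnd ((hu.dvd_mul_left).1 h3)

theorem c_Fin : S_Fin := by
  intro D j h1 h2
  by_contra h3
  exact h1 ((h2.coprime_iff_not_dvd.2 h3).symm)

end Orch
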