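import Pool.Agent.Lib.Orch.Alg

/-!
The smallest positive root of `X_l`.
-/

namespace Orch

open Finset

private theorem ARoot_cont (s : ℕ) : Continuous fun u : ℝ => xe u s := by
  unfold xe
  refine continuous_finsetSum _ ?_
  intro k _
  exact continuous_const.mul (continuous_id.pow k)

private theorem ARoot_zero (hX : S_xeRec) (s : ℕ) : xe (0 : ℝ) s = 1 := by
  obtain ⟨h0, h1, h2⟩ := hX ℝ 0
  induction s using Nat.strong_induction_on with
  | _ s ih =>
    match s with
    | 0 => exact h0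
    | 1 => exact h1
    | (t + 2) =>
      rw [h2 t, ih (t + 1) (by omega)]
      ring

private theorem ARoot_main (hX : S_xeRec) : ∀ l : ℕ, ∃ v : ℝ, 0 < v ∧ xe v (l + 2) = 0 ∧
    (∀ u, 0 ≤ u → u < v → 0 < xe u (l + 2)) ∧ ∀ u, 0 ≤ u → u ≤ v → ∀ i < l + 2, 0 < xe u i := by
  intro l
  induction l with
  | zero =>
    have hval : ∀ u : ℝ, xe u 2 = 1 - 2 * u := by
      intro u
      obtain ⟨h0, h1, h2⟩ := hX ℝ u
      rw [h2 0, h0, h1]
      push_cast
      ring
    refine ⟨1 / 2, by norm_num, ?_, ?_, ?_⟩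
    · rw [hval]
      norm_num
    · intro u _ hu
      rw [hval]
      linarith
    · intro u _ _ i hi
      obtain ⟨h0, h1, -⟩ := hX ℝ u
      have hi' : i = 0 ∨ i = 1 := by omega
      rcases hi' with rfl | rfl
      · rw [h0]
        norm_num
      · rw [h1]
        norm_num
  | succ l ih =>
    obtain ⟨v, hv, hz, hpos, hlow⟩ := ih
    have hcont := ARoot_cont (l + 3)
    have hgv : xe v (l + 3) < 0 := by
      obtain ⟨-, -, h2⟩ := hX ℝ v
      rw [h2 (l + 1), show l + 1 + 1 = l + 2 by rfl, hz]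
      have h3 : 0 < xe v (l + 1) := hlow v hv.le le_rfl (l + 1) (by omega)
      have h4 : (0 : ℝ) < 2 * ((l + 1 + 1 : ℕ) : ℝ) * v := by positivity
      have h5 := mul_pos h4 h3
      linarith
    have hg0 : xe (0 : ℝ) (l + 3) = 1 := ARoot_zero hX (l + 3)
    have hcomp : IsCompact (Set.Icc (0 : ℝ) v ∩ (fun u : ℝ => xe u (l + 3)) ⁻¹' Set.Iic 0) :=
      isCompact_Icc.inter_right (isClosed_Iic.preimage hcont)
    obtain ⟨w, ⟨⟨hw0, hwv⟩, hwg⟩, hleast⟩ := hcomp.exists_isLeast
      ⟨v, ⟨hv.le, le_rfl⟩, hgv.le⟩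
    have hwg' : xe w (l + 3) ≤ 0 := hwg
    have hlt : ∀ u, 0 ≤ u → u < w → 0 < xe u (l + 3) := by
      intro u hu huw
      by_contra hn
      have hn' : xe u (l + 3) ≤ 0 := not_lt.1 hn
      have := hleast ⟨⟨hu, huw.le.trans hwv⟩, hn'⟩
      exact absurd huw (not_lt.2 this)
    have hwpos : 0 < w := by
      rcases hw0.lt_or_eq with h | h
      · exact h
      · exfalso
        rw [← h, hg0] at hwg'
        linarith
    have hgw : xe w (l + 3) = 0 := by
      have hiv := intermediate_value_Icc' hw0 (hcont.continuousOn (s := Set.Icc 0 w))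
      have hmem : (0 : ℝ) ∈ Set.Icc (xe w (l + 3)) (xe (0 : ℝ) (l + 3)) := by
        refine ⟨hwg', ?_⟩
        rw [hg0]
        norm_num
      obtain ⟨u, ⟨hu0, huw⟩, hu⟩ := hiv hmem
      have hu' : xe u (l + 3) = 0 := hu
      have h1 : w ≤ u := hleast ⟨⟨hu0, huw.trans hwv⟩, hu'.le⟩
      have h2 : u = w := le_antisymm huw h1
      rw [← h2]
      exact hu'
    have hwv' : w < v := by
      rcases hwv.lt_or_eq with h | h
      · exact h
      · exfalso
        rw [h] at hgw
        rw [hgw] at hgv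
        exact lt_irrefl _ hgv
    refine ⟨w, hwpos, hgw, hlt, ?_⟩
    intro u hu huw i hi
    have hi' : i < l + 2 ∨ i = l + 2 := by omega
    rcases hi' with h | h
    · exact hlow u hu (huw.trans hwv) i h
    · rw [h]
      exact hpos u hu (lt_of_le_of_lt huw hwv')

theorem c_Root (hX : S_xeRec) : S_Root := by
  intro l hl
  obtain ⟨m, rfl⟩ : ∃ m, l = m + 2 := ⟨l - 2, by omega⟩
  obtain ⟨v, hv, hz, -, hlow⟩ := ARoot_main hX m
  exact ⟨v, hv, hz, fun i hi => hlow v hv.le le_rfl i hi⟩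

end Orch
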