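import Pool.Agent.Lib.Orch.Alg

/-!
The numerators one and two steps after the smallest root.
-/

namespace Orch

open Finset

private theorem ATop2_one (hT : S_teRec) (v : ℝ) (l : ℕ) (hl : 2 ≤ l) (hxl : xe v l = 0) :
    te v (l + 1) = -(he v (l + 1) l * te v l) := by
  rw [hT ℝ v (l + 1) (by omega), sum_range_succ, sum_eq_zero, zero_add]
  · have h : Ioo l (l + 1) = ∅ := by
      ext x
      simp only [mem_Ioo, notMem_empty, iff_false]
      omega
    rw [h, prod_empty, mul_one]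
  · intro s hs
    rw [mem_range] at hs
    rw [prod_eq_zero (i := l) (mem_Ioo.2 ⟨hs, by omega⟩) hxl, mul_zero]

private theorem ATop2_two (hT : S_teRec) (v : ℝ) (l : ℕ) (hxl : xe v l = 0) :
    te v (l + 2) = -(he v (l + 2) l * te v l * xe v (l + 1) +
      he v (l + 2) (l + 1) * te v (l + 1)) := by
  rw [hT ℝ v (l + 2) (by omega), sum_range_succ, sum_range_succ, sum_eq_zero, zero_add]
  · have h : Ioo (l + 1) (l + 2) = ∅ := by
      ext x
      simp only [mem_Ioo, notMem_empty, iff_false]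
      omega
    have h' : Ioo l (l + 2) = {l + 1} := by
      ext x
      simp only [mem_Ioo, mem_singleton]
      omega
    rw [h, h', prod_empty, mul_one, prod_singleton]
  · intro s hs
    rw [mem_range] at hs
    rw [prod_eq_zero (i := l) (mem_Ioo.2 ⟨hs, by omega⟩) hxl, mul_zero]

theorem c_Top2 (hTP : S_TopPos) (hT : S_teRec) (hX : S_xeRec) (hS : S_heSub) (hS2 : S_heSub2) :
    S_Top2 := by
  intro v l hl hv hxl hpos
  obtain ⟨hx0, hx1, hxr⟩ := hX ℝ v
  obtain ⟨s, rfl⟩ : ∃ s, l = s + 2 := ⟨l - 2, by omega⟩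
  have htl := hTP v (s + 2) hl hv hxl hpos
  have h1 := ATop2_one hT v (s + 2) hl hxl
  have h2 := hS ℝ v (s + 2) (by omega)
  have h3 : s + 2 - 1 = s + 1 := by omega
  rw [hxl, h3, zero_add] at h2
  have hX1 := hpos (s + 1) (by omega)
  have hs : (0 : ℝ) < ((s + 2 : ℕ) : ℝ) := by positivity
  have h4 : te v (s + 2 + 1) = ((s + 2 : ℕ) : ℝ) * xe v (s + 1) / 2 * te v (s + 2) := by
    rw [h1]
    linear_combination (-(te v (s + 2)) / 2) * h2
  refine ⟨?_, fun hl3 => ?_⟩
  · rw [h4]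
    positivity
  · have h5 := ATop2_two hT v (s + 2) hxl
    have h6 := hS2 ℝ v s
    have h7 := hS ℝ v (s + 2 + 1) (by omega)
    have h8 : s + 2 + 1 - 1 = s + 2 := by omega
    rw [h8, hxl, add_zero] at h7
    rw [hxl, mul_zero, zero_add] at h6
    have h9 := hxr (s + 1)
    rw [hxl, zero_sub] at h9
    have h10 := hxr s
    rw [hxl] at h10
    have hX0 := hpos s (by omega)
    have h16 : 1 - 6 * v ≠ 0 := by
      have e2 := hxr 0
      have e3 := hxr 1
      norm_num at e2 e3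
      rw [hx1, hx0] at e2
      rw [e2, hx1] at e3
      rcases Nat.lt_or_ge (s + 2) 4 with h | h
      · have h0 : s = 0 := by omega
        subst h0
        rw [zero_add] at hxl
        rw [e2] at hxl
        intro h
        linarith
      · have h11 := hpos 3 (by omega)
        rw [e3] at h11
        intro h
        linarith
    have h6' : 8 * he v (s + 2 + 2) (s + 2) = ((s + 2 : ℕ) : ℝ) *
        (((2 * s + 3 : ℕ) : ℝ) * xe v (s + 1) + ((s + 1 : ℕ) : ℝ) * xe v s) := h6
    have h7' : 2 * he v (s + 2 + 2) (s + 2 + 1) =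
        -(((s + 2 + 1 : ℕ) : ℝ) * xe v (s + 2 + 1)) := h7
    have h9' : xe v (s + 2 + 1) = -(2 * ((s + 1 + 1 : ℕ) : ℝ) * v * xe v (s + 1)) := h9
    have h20 : 16 * v * te v (s + 2 + 2) =
        -(te v (s + 2) * xe v (s + 2 + 1) * ((s + 2 : ℕ) : ℝ) * xe v (s + 1) * (1 - 6 * v)) := by
      rw [h5, h4]
      push_cast at h6' h7' h10 ⊢
      linear_combination (-(2 * v * te v (s + 2) * xe v (s + 2 + 1))) * h6' +
        (-(4 * v * ((s : ℝ) + 2) * xe v (s + 1) * te v (s + 2))) * h7' +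
        (-(te v (s + 2) * xe v (s + 2 + 1) * ((s : ℝ) + 2))) * h10
    intro hcon
    rw [hcon, mul_zero] at h20
    have h21 : te v (s + 2) * xe v (s + 2 + 1) * ((s + 2 : ℕ) : ℝ) * xe v (s + 1) *
        (1 - 6 * v) ≠ 0 := by
      refine mul_ne_zero (mul_ne_zero (mul_ne_zero (mul_ne_zero htl.ne' ?_) hs.ne') hX1.ne') h16
      rw [h9']
      refine neg_ne_zero.2 (mul_pos (mul_pos ?_ hv) hX1).ne'
      positivity
    exact h21 (by linarith)

theorem c_TopNd (hTP : S_TopPos) (hT2 : S_Top2) (hR : S_Root) (hH : S_Hom) : S_TopNd := by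
  intro j l hj hjl hlj hne hdvd
  obtain ⟨v, hv, hxj, hpos⟩ := hR j hj
  obtain ⟨hx, -, ht⟩ := hH (Polynomial ℚ) ℝ (Polynomial.eval₂RingHom (algebraMap ℚ ℝ) v)
    Polynomial.X
  have hX : (Polynomial.eval₂RingHom (algebraMap ℚ ℝ) v) Polynomial.X = v := by
    simp
  rw [hX] at hx ht
  have h1 : xe v j ∣ te v l := by
    rw [← hx j, ← ht l]
    exact map_dvd _ hdvd
  rw [hxj, zero_dvd_iff] at h1
  have hc : l = j ∨ l = j + 1 ∨ l = j + 2 := by omega
  rcases hc with rfl | rfl | rfl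
  · exact (hTP v l hj hv hxj hpos).ne' h1
  · exact (hT2 v j hj hv hxj hpos).1.ne' h1
  · exact (hT2 v j hj hv hxj hpos).2 (by omega) h1

end Orch
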