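import Pool.Agent.Lib.Orch.Alg

/-!
The numerator is positive at the smallest root of `X_l`.
-/

namespace Orch

open Finset

private noncomputable def ATopPos_c (i : ℕ) : ℝ :=
  algebraMap ℚ ℝ ((i.factorial : ℚ) / 2 ^ (i - 1))

private theorem ATopPos_c_pos (i : ℕ) : 0 < ATopPos_c i := by
  unfold ATopPos_c
  rw [eq_ratCast (algebraMap ℚ ℝ), Rat.cast_pos]
  positivity

private noncomputable def ATopPos_w (v : ℝ) (i : ℕ) : ℝ := ∏ r ∈ range i, xe v r

private noncomputable def ATopPos_f (v : ℝ) (l i : ℕ) : ℝ :=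
  if i < l then ATopPos_c i * te v i / ATopPos_w v (i + 1) else 0

private noncomputable def ATopPos_q (v : ℝ) (l l' n : ℕ) : ℝ :=
  ∑ s ∈ range (n + 1), cc v n s * ATopPos_f v l (l' - s)

private theorem ATopPos_w_ne (v : ℝ) (i : ℕ) (h : ∀ r < i, 0 < xe v r) : 0 < ATopPos_w v i :=
  prod_pos fun r hr => h r (mem_range.1 hr)

private theorem ATopPos_te0 (v : ℝ) : te v 0 = 0 := by
  rw [te]

private theorem ATopPos_sum (hH : S_hhcc) (hT : S_teRec) (v : ℝ) (l l' : ℕ) (h2 : 2 ≤ l')
    (hl : l' ≤ l) (hpos : ∀ r < l', 0 < xe v r) :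
    (∑ i ∈ range l', cc v l' (l' - i) * ATopPos_f v l i) * ATopPos_w v l' =
      -(ATopPos_c l' * te v l') := by
  rw [sum_mul, hT ℝ v l' h2, mul_neg, neg_neg, mul_sum]
  refine sum_congr rfl fun i hi => ?_
  rw [mem_range] at hi
  rcases Nat.eq_zero_or_pos i with h0 | h1
  · subst h0
    unfold ATopPos_f
    rw [ATopPos_te0]
    simp
  · have hh := hH ℝ v l' i h1 hi.le
    have hw : ATopPos_w v l' = ATopPos_w v (i + 1) * ∏ r ∈ Ioo i l', xe v r := by
      unfold ATopPos_w
      rw [← prod_range_mul_prod_Ico _ (show i + 1 ≤ l' from hi)]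
      congr 1
    have hwi := (ATopPos_w_ne v (i + 1) fun r hr => hpos r (by omega)).ne'
    unfold ATopPos_f
    rw [if_pos (lt_of_lt_of_le hi hl), hw]
    have h3 : cc v l' (l' - i) * ATopPos_c i = ATopPos_c l' * he v l' i := hh
    calc cc v l' (l' - i) * (ATopPos_c i * te v i / ATopPos_w v (i + 1)) *
          (ATopPos_w v (i + 1) * ∏ r ∈ Ioo i l', xe v r)
        = (cc v l' (l' - i) * ATopPos_c i) * te v i * ∏ r ∈ Ioo i l', xe v r := by
          field_simp
      _ = ATopPos_c l' * (he v l' i * te v i * ∏ r ∈ Ioo i l', xe v r) := by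
          rw [h3]
          ring

private theorem ATopPos_qq (v : ℝ) (l l' : ℕ) :
    ATopPos_q v l l' l' = ∑ i ∈ range l', cc v l' (l' - i) * ATopPos_f v l i +
      cc v l' 0 * ATopPos_f v l l' := by
  unfold ATopPos_q
  rw [← sum_range_reflect]
  simp only [Nat.add_sub_cancel]
  rw [sum_range_succ]
  congr 1
  · refine sum_congr rfl fun i hi => ?_
    rw [mem_range] at hi
    have h : l' - (l' - i) = i := by omega
    rw [h]
  · simp

theorem c_TopPos (hPA : S_PosAbs) (hER : S_ExpRev) (hH : S_hhcc) (hT : S_teRec) (hX : S_xeRec)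
    (hD : S_heDiag) : S_TopPos := by
  intro v l hl hv hxl hpos
  obtain ⟨hx0, hx1, hxr⟩ := hX ℝ v
  have key := hPA v (xe v) (ATopPos_q v l) l hl hv hx0 hx1 ?_ hpos hxl ?_ ?_ ?_
  · rw [ATopPos_qq] at key
    have hs := ATopPos_sum hH hT v l l hl le_rfl hpos
    have hf : ATopPos_f v l l = 0 := by
      unfold ATopPos_f
      rw [if_neg (lt_irrefl l)]
    rw [hf, mul_zero, add_zero] at key
    have hw := ATopPos_w_ne v l hpos
    have h1 := mul_neg_of_neg_of_pos key hw
    rw [hs] at h1
    have h2 : 0 < ATopPos_c l * te v l := by linarith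
    exact (pos_iff_pos_of_mul_pos h2).1 (ATopPos_c_pos l)
  · intro n hn
    obtain ⟨k, rfl⟩ : ∃ k, n = k + 1 := ⟨n - 1, by omega⟩
    rw [Nat.add_sub_cancel]
    exact hxr k
  · intro l' n hl' hn
    have h := hER ℝ v (ATopPos_f v l) l' n hn
    unfold ATopPos_q
    have h1 : (n : ℝ) * ∑ s ∈ range (n - 1 + 1), cc v (n - 1) s * ATopPos_f v l (l' - 1 - s) =
        (n : ℝ) * ∑ s ∈ range n, cc v (n - 1) s * ATopPos_f v l (l' - 1 - s) := by
      rcases Nat.eq_zero_or_pos n with h0 | h0
      · subst h0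
        simp
      · rw [Nat.sub_add_cancel h0]
    have h2 : 2 * (n : ℝ) * v * ∑ s ∈ range (n - 1 + 1), cc v (n - 1) s * ATopPos_f v l (l' - s) =
        2 * (n : ℝ) * v * ∑ s ∈ range n, cc v (n - 1) s * ATopPos_f v l (l' - s) := by
      rcases Nat.eq_zero_or_pos n with h0 | h0
      · subst h0
        simp
      · rw [Nat.sub_add_cancel h0]
    have h3 : 3 * ((n.choose 2 : ℕ) : ℝ) * v *
        ∑ s ∈ range (n - 2 + 1), cc v (n - 2) s * ATopPos_f v l (l' - 1 - s) =
        3 * ((n.choose 2 : ℕ) : ℝ) * v *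
        ∑ s ∈ range (n - 1), cc v (n - 2) s * ATopPos_f v l (l' - 1 - s) := by
      rcases Nat.lt_or_ge n 2 with h0 | h0
      · rw [Nat.choose_eq_zero_of_lt h0]
        simp
      · have h4 : n - 2 + 1 = n - 1 := by omega
        rw [h4]
    rw [h1, h2, h3]
    exact h
  · unfold ATopPos_q
    rw [zero_add, sum_range_one, Nat.sub_zero]
    have h1 : cc v 0 0 = 1 := by
      unfold cc
      simp
    have h2 : te v 1 = 1 := by
      rw [te]
    have h3 : ATopPos_w v 2 = 1 := by
      unfold ATopPos_w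
      rw [prod_range_succ, prod_range_succ, prod_range_zero, hx0, hx1]
      norm_num
    unfold ATopPos_f
    rw [if_pos (by omega), h1, h2, h3]
    unfold ATopPos_c
    simp
  · intro l' h2 hl'
    have hpos' : ∀ r < l', 0 < xe v r := fun r hr => hpos r (by omega)
    have hw := (ATopPos_w_ne v l' hpos').ne'
    have hxl' := (hpos l' hl').ne'
    have hs := ATopPos_sum hH hT v l l' h2 hl'.le hpos'
    have hh : cc v l' 0 * ATopPos_c l' = ATopPos_c l' * xe v l' := by
      have h := hH ℝ v l' l' (by omega) le_rfl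
      rw [Nat.sub_self, hD ℝ v l'] at h
      exact h
    have hlast : cc v l' 0 * ATopPos_f v l l' * ATopPos_w v l' = ATopPos_c l' * te v l' := by
      unfold ATopPos_f
      rw [if_pos hl']
      have hws : ATopPos_w v (l' + 1) = ATopPos_w v l' * xe v l' := by
        unfold ATopPos_w
        rw [prod_range_succ]
      rw [hws]
      calc cc v l' 0 * (ATopPos_c l' * te v l' / (ATopPos_w v l' * xe v l')) * ATopPos_w v l'
          = (cc v l' 0 * ATopPos_c l') * te v l' / xe v l' := by
            field_simp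
        _ = ATopPos_c l' * te v l' := by
            rw [hh]
            field_simp
    have h3 : ATopPos_q v l l' l' * ATopPos_w v l' = 0 := by
      rw [ATopPos_qq, add_mul, hs, hlast]
      ring
    exact (mul_eq_zero.1 h3).resolve_right hw

end Orch
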