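import Pool.Agent.Lib.Orch.Alg

/-! The criterion in characteristic `p`: unit values propagate to whole residue classes. -/

namespace Orch

open Finset

private lemma AUnit_xe (hxePer : S_xePer) (A : Type) [CommRing A] (p : ℕ) [Fact p.Prime]
    [CharP A p] (v : A) (b : ℕ) (m : ℕ) : xe v (b + p * m) = xe v b := by
  induction m with
  | zero => simp
  | succ m ih =>
    have : b + p * (m + 1) = (b + p * m) + p := by ring
    rw [this, hxePer A p v (b + p * m), ih]

private lemma AUnit_te (hPer : S_Per) (A : Type) [CommRing A] (p : ℕ) [Fact p.Prime]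
    [CharP A p] (v : A) (b i : ℕ) (hb : 2 ≤ b) (hx : xe v b = 0)
    (hubp : IsUnit (te v (b + p))) (hubi : IsUnit (te v (b + i))) (m : ℕ) :
    IsUnit (te v (b + i + p * m)) := by
  induction m with
  | zero => simpa using hubi
  | succ m ih =>
    have e : b + i + p * (m + 1) = (b + i + p * m) + p := by ring
    have h := hPer A p v b hb hx (b + i + p * m) (by omega)
    rw [e]
    have hu : IsUnit (te v (b + i + p * m + p) * te v b) := by
      rw [h]
      exact ih.mul hubp
    exact isUnit_of_mul_isUnit_left hu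

private lemma AUnit_mod (p a l c : ℕ) (hc : c < p) (hal : a ≤ l) (h : l % p = (a + c) % p) :
    ∃ m, l = a + c + p * m := by
  refine ⟨(l - a) / p, ?_⟩
  have h1 : (l - a + a) % p = (c + a) % p := by
    rw [Nat.sub_add_cancel hal, h, Nat.add_comm]
  have h2 : (l - a) ≡ c [MOD p] := Nat.ModEq.add_right_cancel' a h1
  have h3 : (l - a) % p = c := by
    have := h2
    unfold Nat.ModEq at this
    rwa [Nat.mod_eq_of_lt hc] at this
  have h4 := Nat.mod_add_div (l - a) p
  rw [h3] at h4
  omega

theorem c_Unit (hDesc : S_Desc) (hHom : S_Hom) (hPer : S_Per) (hxePer : S_xePer) : S_Unit := by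
  intro A _ _ p _ _ v b i hb hi hxb _ hubp hubi j l hbj hjp hjl hlp hdvd
  have hp : 0 < p := (Fact.out : p.Prime).pos
  obtain ⟨q, hq⟩ := hDesc j l (by omega) hdvd
  let f : Polynomial ℤ →+* A := Polynomial.eval₂RingHom (Int.castRingHom A) v
  have fX : f Polynomial.X = v := by simp [f]
  obtain ⟨hx, _, ht⟩ := hHom (Polynomial ℤ) A f Polynomial.X
  have h1 : te v l = xe v j * f q := by
    have := congrArg f hq
    rw [map_mul, hx, ht, fX] at this
    exact this
  obtain ⟨m, hm⟩ := AUnit_mod p b j 0 hp hbj (by simpa using hjp)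
  have h2 : xe v j = 0 := by
    rw [hm, Nat.add_zero, AUnit_xe hxePer A p v b m, hxb]
  obtain ⟨m', hm'⟩ := AUnit_mod p b l i hi (by omega) hlp
  have h3 : IsUnit (te v l) := by
    rw [hm']
    exact AUnit_te hPer A p v b i hb hxb hubp hubi m'
  rw [h1, h2, zero_mul] at h3
  exact not_isUnit_zero h3

end Orch
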