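import Pool.Agent.Lib.Orch.Alg

/-!
# Orchard networks: the recursion of the coefficients `cc` (`S_ccZero`, `S_ccRec0`, `S_ccRec`)
-/

set_option autoImplicit false

namespace Orch

open Finset

/-- inverse factorials on `ℤ` -/
private noncomputable def accG (m : ℤ) : ℚ := if 0 ≤ m then ((m.toNat.factorial : ℚ))⁻¹ else 0

/-- factorials on `ℤ` -/
private noncomputable def accP (m : ℤ) : ℚ := (m.toNat.factorial : ℚ)

private theorem accG_nat (m : ℕ) : accG (m : ℤ) = ((m.factorial : ℚ))⁻¹ := by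
  unfold accG
  rw [if_pos (Int.natCast_nonneg m), Int.toNat_natCast]

private theorem accG_neg {m : ℤ} (h : m < 0) : accG m = 0 := by
  unfold accG
  rw [if_neg (not_le.mpr h)]

private theorem accP_nat (m : ℕ) : accP (m : ℤ) = (m.factorial : ℚ) := by
  unfold accP
  rw [Int.toNat_natCast]

private theorem accG_pred (m : ℤ) : accG (m - 1) = m * accG m := by
  rcases lt_or_ge m 0 with h | h
  · rw [accG_neg h, accG_neg (by omega), mul_zero]
  · obtain ⟨n, rfl⟩ := Int.eq_ofNat_of_zero_le h
    cases n with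
    | zero =>
      rw [accG_neg (by omega)]
      simp
    | succ n =>
      have h1 : ((n + 1 : ℕ) : ℤ) - 1 = (n : ℤ) := by push_cast; ring
      rw [h1, accG_nat, accG_nat, Nat.factorial_succ]
      have h2 : (n.factorial : ℚ) ≠ 0 := Nat.cast_ne_zero.mpr (Nat.factorial_ne_zero n)
      have h3 : ((n : ℚ) + 1) ≠ 0 := by positivity
      push_cast
      field_simp

private theorem accP_pred {m : ℤ} (h : 0 < m) : accP m = m * accP (m - 1) := by
  obtain ⟨n, rfl⟩ := Int.eq_ofNat_of_zero_le h.le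
  cases n with
  | zero => simp at h
  | succ n =>
    have h1 : ((n + 1 : ℕ) : ℤ) - 1 = (n : ℤ) := by push_cast; ring
    rw [h1, accP_nat, accP_nat, Nat.factorial_succ]
    push_cast
    ring

/-- the step of the middle factorial -/
private theorem accX {m k s : ℤ} (h : m ≤ 0 → m < k ∨ m < s) :
    accP m * (accG (m - k) * accG (m - s)) = m * accP (m - 1) * (accG (m - k) * accG (m - s)) := by
  rcases lt_or_ge 0 m with h0 | h0
  · rw [accP_pred h0]
  · rcases h h0 with h1 | h1
    · rw [accG_neg (show m - k < 0 by omega)]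
      ring
    · rw [accG_neg (show m - s < 0 by omega)]
      ring

/-- the coefficients with integral arguments -/
private noncomputable def accZ (n s k : ℤ) : ℚ :=
  (-1) ^ (s + k) * accP n * accP (n - s - k) * accG (n - s - 2 * k) * accG (n - 2 * s - k) *
    accG s * accG k * 2 ^ (-s)

private theorem accZ_rec (n s k : ℤ) (hn : 2 ≤ n) :
    accZ (n + 1) s k = accZ n s k - n * accZ (n - 1) (s - 1) k - 2 * n * accZ (n - 1) s (k - 1) +
      3 * (n * (n - 1) / 2) * accZ (n - 2) (s - 1) (k - 1) := by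
  have hX := accX (m := n + 1 - s - k) (k := k) (s := s) (by intro h; omega)
  have hG1 := accG_pred (n + 1 - s - k - k)
  have hG2 := accG_pred (n + 1 - s - k - s)
  have hG3 := accG_pred s
  have hG4 := accG_pred k
  have hP1 := accP_pred (m := n + 1) (by omega)
  have hP2 := accP_pred (m := n) (by omega)
  have hP3 := accP_pred (m := n - 1) (by omega)
  have e1 : n + 1 - 1 = n := by ring
  have e2 : n - 1 - 1 = n - 2 := by ring
  rw [e1] at hP1
  rw [e2] at hP3
  have z1 : ((-1 : ℚ)) ^ (s + k - 1) = -(-1) ^ (s + k) := by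
    rw [zpow_sub_one₀ (by norm_num)]
    norm_num
  have z2 : ((-1 : ℚ)) ^ (s - 1 + (k - 1)) = (-1) ^ (s + k) := by
    have : s - 1 + (k - 1) = s + k - 1 - 1 := by ring
    rw [this, zpow_sub_one₀ (by norm_num), z1]
    norm_num
  have z3 : (2 : ℚ) ^ (-(s - 1)) = 2 * 2 ^ (-s) := by
    have : -(s - 1) = -s + 1 := by ring
    rw [this, zpow_add_one₀ (by norm_num)]
    ring
  unfold accZ
  rw [show s - 1 + k = s + k - 1 by ring, show s + (k - 1) = s + k - 1 by ring, z1, z2, z3,
    show n + 1 - s - 2 * k = n + 1 - s - k - k by ring,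
    show n + 1 - 2 * s - k = n + 1 - s - k - s by ring,
    show n - s - k = n + 1 - s - k - 1 by ring,
    show n - s - 2 * k = n + 1 - s - k - k - 1 by ring,
    show n - 2 * s - k = n + 1 - s - k - s - 1 by ring,
    show n - 1 - (s - 1) - k = n + 1 - s - k - 1 by ring,
    show n - 1 - (s - 1) - 2 * k = n + 1 - s - k - k - 1 by ring,
    show n - 1 - 2 * (s - 1) - k = n + 1 - s - k - s by ring,
    show n - 1 - s - (k - 1) = n + 1 - s - k - 1 by ring,
    show n - 1 - s - 2 * (k - 1) = n + 1 - s - k - k by ring,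
    show n - 1 - 2 * s - (k - 1) = n + 1 - s - k - s - 1 by ring,
    show n - 2 - (s - 1) - (k - 1) = n + 1 - s - k - 1 by ring,
    show n - 2 - (s - 1) - 2 * (k - 1) = n + 1 - s - k - k by ring,
    show n - 2 - 2 * (s - 1) - (k - 1) = n + 1 - s - k - s by ring,
    hG1, hG2, hG3, hG4, hP1, hP2, hP3]
  push_cast at hX ⊢
  linear_combination ((-1 : ℚ)) ^ (s + k) * ((n : ℚ) + 1) * (n * ((n - 1) * accP (n - 2))) *
    accG s * accG k * 2 ^ (-s) * hX

/-- the rational coefficients -/
private noncomputable def accA (n s k : ℕ) : ℚ :=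
  if s + 2 * k ≤ n ∧ 2 * s + k ≤ n then
    ((-1) ^ (s + k) * (n.factorial : ℚ) * ((n - s - k).factorial : ℚ) /
      (2 ^ s * ((n - s - 2 * k).factorial : ℚ) * ((n - 2 * s - k).factorial : ℚ) *
        (s.factorial : ℚ) * (k.factorial : ℚ))) else 0

private theorem accA_eq (n s k : ℕ) : accA n s k = accZ n s k := by
  unfold accA accZ
  by_cases h : s + 2 * k ≤ n ∧ 2 * s + k ≤ n
  · rw [if_pos h]
    have e1 : (n : ℤ) - s - k = ((n - s - k : ℕ) : ℤ) := by omega
    have e2 : (n : ℤ) - s - 2 * k = ((n - s - 2 * k : ℕ) : ℤ) := by omega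
    have e3 : (n : ℤ) - 2 * s - k = ((n - 2 * s - k : ℕ) : ℤ) := by omega
    have e4 : (s : ℤ) + k = ((s + k : ℕ) : ℤ) := by push_cast; rfl
    rw [e1, e2, e3, e4, accG_nat, accG_nat, accG_nat, accG_nat, accP_nat, accP_nat, zpow_natCast,
      zpow_neg, zpow_natCast]
    have h1 : ((n - s - 2 * k).factorial : ℚ) ≠ 0 := Nat.cast_ne_zero.mpr (Nat.factorial_ne_zero _)
    have h2 : ((n - 2 * s - k).factorial : ℚ) ≠ 0 := Nat.cast_ne_zero.mpr (Nat.factorial_ne_zero _)
    have h3 : (s.factorial : ℚ) ≠ 0 := Nat.cast_ne_zero.mpr (Nat.factorial_ne_zero _)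
    have h4 : (k.factorial : ℚ) ≠ 0 := Nat.cast_ne_zero.mpr (Nat.factorial_ne_zero _)
    field_simp
  · rw [if_neg h]
    rw [not_and_or] at h
    rcases h with h | h
    · rw [accG_neg (m := (n : ℤ) - s - 2 * k) (by omega)]
      ring
    · rw [accG_neg (m := (n : ℤ) - 2 * s - k) (by omega)]
      ring

/-- the polynomials -/
private noncomputable def accC (n s : ℕ) : Polynomial ℚ :=
  ∑ k ∈ range (n + 1), Polynomial.C (accA n s k) * Polynomial.X ^ k

private theorem accC_coeff (n s k : ℕ) : (accC n s).coeff k = accA n s k := by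
  unfold accC
  rw [Polynomial.finsetSum_coeff]
  simp only [Polynomial.coeff_C_mul, Polynomial.coeff_X_pow, mul_ite, mul_one, mul_zero]
  rw [Finset.sum_ite_eq]
  split_ifs with h
  · rfl
  · rw [Finset.mem_range, not_lt] at h
    unfold accA
    rw [if_neg (by omega)]

private theorem accC_eval {A : Type} [CommRing A] [Algebra ℚ A] (v : A) (n s : ℕ) :
    Polynomial.aeval v (accC n s) = cc v n s := by
  unfold accC cc
  rw [map_sum]
  refine Finset.sum_congr rfl fun k _ => ?_
  rw [map_mul, Polynomial.aeval_C, map_pow, Polynomial.aeval_X]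
  unfold accA
  split_ifs with h
  · rfl
  · rw [map_zero, zero_mul]

private theorem accC_rec (n s : ℕ) :
    accC (n + 3) (s + 1) = accC (n + 2) (s + 1) - Polynomial.C ((n : ℚ) + 2) * accC (n + 1) s
      - Polynomial.C (2 * ((n : ℚ) + 2)) * (Polynomial.X * accC (n + 1) (s + 1))
      + Polynomial.C (3 * (((n : ℚ) + 2) * ((n : ℚ) + 1) / 2)) * (Polynomial.X * accC n s) := by
  ext k
  have h := accZ_rec ((n : ℤ) + 2) ((s : ℤ) + 1) k (by omega)
  simp only [Polynomial.coeff_add, Polynomial.coeff_sub, Polynomial.coeff_C_mul]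
  cases k with
  | zero =>
    simp only [Polynomial.coeff_X_mul_zero, accC_coeff, accA_eq]
    have h1 : accZ ((n : ℤ) + 2 - 1) ((s : ℤ) + 1) ((0 : ℕ) - 1) = 0 := by
      unfold accZ
      rw [accG_neg (m := ((0 : ℕ) : ℤ) - 1) (by omega)]
      ring
    have h2 : accZ ((n : ℤ) + 2 - 2) ((s : ℤ) + 1 - 1) ((0 : ℕ) - 1) = 0 := by
      unfold accZ
      rw [accG_neg (m := ((0 : ℕ) : ℤ) - 1) (by omega)]
      ring
    rw [h1, h2] at h
    push_cast at h ⊢
    rw [show (n : ℤ) + 2 + 1 = n + 3 by ring, show (n : ℤ) + 2 - 1 = n + 1 by ring,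
      show (s : ℤ) + 1 - 1 = s by ring] at h
    rw [h]
    ring
  | succ k =>
    simp only [Polynomial.coeff_X_mul, accC_coeff, accA_eq]
    push_cast at h ⊢
    rw [show (n : ℤ) + 2 + 1 = n + 3 by ring, show (n : ℤ) + 2 - 1 = n + 1 by ring,
      show (s : ℤ) + 1 - 1 = s by ring, show (k : ℤ) + 1 - 1 = k by ring,
      show (n : ℤ) + 2 - 2 = n by ring] at h
    rw [h]
    ring

private theorem accC_rec0 (n : ℕ) :
    accC (n + 3) 0 = accC (n + 2) 0
      - Polynomial.C (2 * ((n : ℚ) + 2)) * (Polynomial.X * accC (n + 1) 0) := by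
  ext k
  have h := accZ_rec ((n : ℤ) + 2) 0 k (by omega)
  simp only [Polynomial.coeff_sub, Polynomial.coeff_C_mul]
  have h0 : ∀ m k : ℤ, accZ m (0 - 1) k = 0 := by
    intro m k
    unfold accZ
    rw [accG_neg (m := 0 - 1) (by omega)]
    ring
  rw [h0, h0] at h
  cases k with
  | zero =>
    simp only [Polynomial.coeff_X_mul_zero, accC_coeff, accA_eq]
    have h1 : accZ ((n : ℤ) + 2 - 1) 0 ((0 : ℕ) - 1) = 0 := by
      unfold accZ
      rw [accG_neg (m := ((0 : ℕ) : ℤ) - 1) (by omega)]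
      ring
    rw [h1] at h
    push_cast at h ⊢
    rw [show (n : ℤ) + 2 + 1 = n + 3 by ring] at h
    rw [h]
    ring
  | succ k =>
    simp only [Polynomial.coeff_X_mul, accC_coeff, accA_eq]
    push_cast at h ⊢
    rw [show (n : ℤ) + 2 + 1 = n + 3 by ring, show (n : ℤ) + 2 - 1 = n + 1 by ring,
      show (k : ℤ) + 1 - 1 = k by ring] at h
    rw [h]
    ring

theorem c_ccZero : S_ccZero := by
  intro A _ _ v n s h
  unfold cc
  refine Finset.sum_eq_zero fun k _ => ?_
  rw [if_neg (by omega)]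

theorem c_ccRec0 : S_ccRec0 := by
  intro A _ _ v n
  match n with
  | 0 => simp [cc, Finset.sum_range_succ]
  | 1 =>
    simp [cc, Finset.sum_range_succ]
    rw [show (algebraMap ℚ A) 2 = 2 from map_ofNat _ 2]
    ring
  | n + 2 =>
    have h := congrArg (Polynomial.aeval v) (accC_rec0 n)
    simp only [map_sub, map_mul, Polynomial.aeval_C, Polynomial.aeval_X, accC_eval] at h
    rw [show n + 2 + 1 = n + 3 by rfl, show n + 2 - 1 = n + 1 by rfl, h]
    simp only [map_add, map_natCast, map_ofNat]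
    push_cast
    ring

theorem c_ccRec : S_ccRec := by
  intro A _ _ v n s
  match n with
  | 0 =>
    rw [c_ccZero A v (0 + 1) (s + 1) (by omega), c_ccZero A v 0 (s + 1) (by omega)]
    simp
  | 1 =>
    rw [c_ccZero A v 1 (s + 1) (by omega), c_ccZero A v (1 - 1) (s + 1) (by omega)]
    cases s with
    | zero => simp [cc, Finset.sum_range_succ]
    | succ s =>
      rw [c_ccZero A v (1 + 1) (s + 1 + 1) (by omega), c_ccZero A v (1 - 1) (s + 1) (by omega)]
      simp
  | n + 2 =>
    have h := congrArg (Polynomial.aeval v) (accC_rec n s)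
    simp only [map_sub, map_add, map_mul, Polynomial.aeval_C, Polynomial.aeval_X, accC_eval] at h
    have hc : (((n + 2).choose 2 : ℕ) : A) =
        algebraMap ℚ A (((n : ℚ) + 2) * ((n : ℚ) + 1) / 2) := by
      have h1 : (((n + 2).choose 2 : ℕ) : ℚ) = ((n : ℚ) + 2) * ((n : ℚ) + 1) / 2 := by
        rw [Nat.cast_choose_two]
        push_cast
        ring
      rw [← h1, map_natCast]
    rw [show n + 2 + 1 = n + 3 by rfl, show n + 2 - 1 = n + 1 by rfl, show n + 2 - 2 = n by rfl,
      h, hc]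
    simp only [map_natCast, map_ofNat]
    push_cast
    ring

end Orch
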