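import Pool.Agent.Lib.Orch.Alg

/-!
The coefficients `h_{s+1,s}` and `h_{s+2,s}`.
-/

namespace Orch

open Finset

private theorem AheSub_coeff {A : Type} [CommRing A] (v : A) (s n : ℕ) :
    (HP v (s + 2)).coeff (n + 3) = (HP v (s + 1)).coeff (n + 2) - (HP v (s + 1)).coeff (n + 1) -
      2 * ((s + 1 : ℕ) : A) * v * ((HP v s).coeff (n + 1) - (HP v s).coeff n) := by
  rw [HP]
  have h : (Polynomial.X - Polynomial.X ^ 2) * HP v (s + 1) -
      Polynomial.C (2 * ((s + 1 : ℕ) : A) * v) * (Polynomial.X ^ 2 - Polynomial.X ^ 3) * HP v s =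
      Polynomial.X * HP v (s + 1) - Polynomial.X * (Polynomial.X * HP v (s + 1)) -
      Polynomial.C (2 * ((s + 1 : ℕ) : A) * v) * (Polynomial.X * (Polynomial.X * HP v s) -
        Polynomial.X * (Polynomial.X * (Polynomial.X * HP v s))) := by ring
  rw [h, Polynomial.coeff_sub, Polynomial.coeff_sub, Polynomial.coeff_C_mul,
    Polynomial.coeff_sub]
  simp only [Polynomial.coeff_X_mul]

private theorem AheSub_A {A : Type} [CommRing A] (hH : S_HPc) (v : A) (s : ℕ) :
    he v (s + 3) (s + 2) = he v (s + 2) (s + 1) - he v (s + 1) (s + 1) -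
      2 * ((s + 1 : ℕ) : A) * v * (he v (s + 1) s - he v s s) := by
  have h := AheSub_coeff v s s
  rw [hH A v (s + 2) (s + 3), hH A v (s + 1) (s + 2), hH A v (s + 1) (s + 1), hH A v s (s + 1),
    hH A v s s, if_pos (by omega), if_pos (by omega), if_pos (by omega), if_pos (by omega),
    if_pos (by omega)] at h
  exact h

private theorem AheSub_B {A : Type} [CommRing A] (hH : S_HPc) (v : A) (s : ℕ) :
    he v (s + 4) (s + 2) = he v (s + 3) (s + 1) - he v (s + 2) (s + 1) -
      2 * ((s + 1 : ℕ) : A) * v * (he v (s + 2) s - he v (s + 1) s) := by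
  have h := AheSub_coeff v s (s + 1)
  rw [hH A v (s + 2) (s + 1 + 3), hH A v (s + 1) (s + 1 + 2), hH A v (s + 1) (s + 1 + 1),
    hH A v s (s + 1 + 1), hH A v s (s + 1), if_pos (by omega), if_pos (by omega),
    if_pos (by omega), if_pos (by omega), if_pos (by omega)] at h
  exact h

private theorem AheSub_P {A : Type} [CommRing A] (hx : S_xeRec) (hH : S_HPc) (hd : S_heDiag)
    (v : A) (s : ℕ) : 2 * he v (s + 1) s = -((s : A) * (xe v s + xe v (s - 1))) := by
  obtain ⟨h0, h1, hr⟩ := hx A v
  have hrel : ∀ s : ℕ, 2 * (s : A) * v * xe v (s - 1) = xe v s - xe v (s + 1) := by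
    intro s
    rcases s with _ | s
    · simp [h0, h1]
    · have := hr s
      rw [Nat.add_sub_cancel, this]
      ring
  induction s using Nat.twoStepInduction with
  | zero =>
    have h := hH A v 0 1
    rw [if_pos (by omega), HP] at h
    rw [← h]
    simp [Polynomial.coeff_one]
  | one =>
    have h := hH A v 1 2
    rw [if_pos (by omega), HP] at h
    rw [← h]
    have h5 : (Polynomial.X - Polynomial.X ^ 2 : Polynomial A).coeff 2 = -1 := by
      rw [Polynomial.coeff_sub, Polynomial.coeff_X_pow, Polynomial.coeff_X]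
      simp
    rw [h5, h1, Nat.sub_self, h0]
    push_cast
    ring
  | more s ih1 ih2 =>
    have hA := AheSub_A hH v s
    rw [hd A v (s + 1), hd A v s] at hA
    have e1 := hrel s
    have e2 := hrel (s + 1)
    have e3 : s + 1 - 1 = s := rfl
    have e4 : s + 2 - 1 = s + 1 := rfl
    rw [e3] at e2 ih2
    rw [e4]
    have e5 : s + 2 + 1 = s + 3 := rfl
    have e6 : s + 1 + 1 = s + 2 := rfl
    rw [e6] at ih2 e2
    rw [e5, hA]
    push_cast at *
    linear_combination ih2 - (2 * ((s : A) + 1) * v) * ih1 + ((s : A) + 1) * e1 + ((s : A) + 2) * e2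

private theorem AheSub_Q {A : Type} [CommRing A] (hx : S_xeRec) (hH : S_HPc) (hd : S_heDiag)
    (v : A) (s : ℕ) : 8 * he v (s + 2) s = (s : A) * (((s : A) - 2) * xe v s +
      (2 * (s : A) - 1) * xe v (s - 1) + ((s : A) - 1) * xe v (s - 2)) := by
  obtain ⟨h0, h1, hr⟩ := hx A v
  have hrel : ∀ s : ℕ, 2 * (s : A) * v * xe v (s - 1) = xe v s - xe v (s + 1) := by
    intro s
    rcases s with _ | s
    · simp [h0, h1]
    · have := hr s
      rw [Nat.add_sub_cancel, this]
      ring
  have hrel2 : ∀ s : ℕ, (s : A) * (2 * ((s : A) - 1) * v * xe v (s - 2)) =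
      (s : A) * (xe v (s - 1) - xe v s) := by
    intro s
    rcases s with _ | s
    · simp
    · have h3 := hrel s
      have h4 : s + 1 - 2 = s - 1 := by omega
      rw [h4, Nat.add_sub_cancel, ← h3]
      push_cast
      ring
  induction s using Nat.twoStepInduction with
  | zero =>
    have h := hH A v 0 2
    rw [if_pos (by omega), HP] at h
    rw [← h]
    simp [Polynomial.coeff_one]
  | one =>
    have h := hH A v 1 3
    rw [if_pos (by omega), HP] at h
    rw [← h]
    have h5 : (Polynomial.X - Polynomial.X ^ 2 : Polynomial A).coeff 3 = 0 := by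
      rw [Polynomial.coeff_sub, Polynomial.coeff_X_pow, Polynomial.coeff_X]
      simp
    rw [h5, h1, Nat.sub_self]
    simp only [h0]
    push_cast
    ring
  | more s ih1 ih2 =>
    have hB := AheSub_B hH v s
    have a1 := AheSub_P hx hH hd v s
    have a2 := AheSub_P hx hH hd v (s + 1)
    have e1 := hrel s
    have e2 := hrel (s + 1)
    have e3 := hrel2 s
    have c1 : s + 1 - 1 = s := rfl
    have c2 : s + 2 - 1 = s + 1 := rfl
    have c3 : s + 2 - 2 = s := rfl
    have c4 : s + 1 - 2 = s - 1 := by omega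
    have c5 : s + 1 + 1 = s + 2 := rfl
    have c6 : s + 1 + 2 = s + 3 := rfl
    have c7 : s + 2 + 2 = s + 4 := rfl
    rw [c1, c4, c6] at ih2
    rw [c1, c5] at a2
    rw [c1, c5] at e2
    rw [c2, c3, c7, hB]
    push_cast at *
    linear_combination ih2 - 4 * a2 - (2 * ((s : A) + 1) * v) * (ih1 - 4 * a1) -
      (s : A) * ((s : A) + 2) * e2 - ((s : A) + 1) * (2 * (s : A) + 3) * e1 - ((s : A) + 1) * e3

theorem c_heSub (hx : S_xeRec) (hH : S_HPc) (hd : S_heDiag) : S_heSub := by
  intro A _ v s _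
  exact AheSub_P hx hH hd v s

theorem c_heSub2 (hx : S_xeRec) (hH : S_HPc) (hd : S_heDiag) : S_heSub2 := by
  intro A _ v s
  have h := AheSub_Q hx hH hd v (s + 2)
  have c2 : s + 2 - 1 = s + 1 := rfl
  have c3 : s + 2 - 2 = s := rfl
  have c7 : s + 2 + 2 = s + 4 := rfl
  rw [c2, c3, c7] at h
  rw [h]
  push_cast
  ring

end Orch
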