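import Pool.Agent.Lib.Orch.Alg

/-!
The relation between the rational and the integral normalisation of the coefficients.
-/

namespace Orch

open Finset

private theorem Ahhcc_dvd (s k : ℕ) (h : 2 * k ≤ s) :
    (s - 2 * k).factorial * k.factorial ∣ s.factorial := by
  have h1 : (2 * k).factorial * (s - 2 * k).factorial ∣ s.factorial :=
    Nat.factorial_mul_factorial_dvd_factorial h
  have h2 : k.factorial ∣ (2 * k).factorial := Nat.factorial_dvd_factorial (by omega)
  rw [mul_comm]
  exact (Nat.mul_dvd_mul_right h2 _).trans h1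

private theorem Ahhcc_key (s t k : ℕ) (hs : 1 ≤ s) (h1 : 2 * k ≤ s) (h2 : t ≤ s - k) :
    ((-1) ^ (t + k) * ((s + t).factorial : ℚ) * ((s + t - t - k).factorial : ℚ) /
      (2 ^ t * ((s + t - t - 2 * k).factorial : ℚ) * ((s + t - 2 * t - k).factorial : ℚ) *
        (t.factorial : ℚ) * (k.factorial : ℚ))) * ((s.factorial : ℚ) / 2 ^ (s - 1)) =
    (((s + t).factorial : ℚ) / 2 ^ (s + t - 1)) *
      (((-1 : ℤ) ^ (s + t + s + k) * (((s - k).choose t *
      (s.factorial / ((s - 2 * k).factorial * k.factorial)) : ℕ) : ℤ) : ℤ) : ℚ) := by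
  have e1 : s + t - t - k = s - k := by omega
  have e2 : s + t - t - 2 * k = s - 2 * k := by omega
  have e3 : s + t - 2 * t - k = s - k - t := by omega
  rw [e1, e2, e3]
  obtain ⟨u, rfl⟩ : ∃ u, s = u + 1 := ⟨s - 1, by omega⟩
  have e4 : u + 1 + t - 1 = u + t := by omega
  rw [e4, Nat.add_sub_cancel]
  have hsign : ((-1 : ℤ) ^ (u + 1 + t + (u + 1) + k)) = (-1) ^ (t + k) := by
    have e5 : u + 1 + t + (u + 1) + k = 2 * (u + 1) + (t + k) := by ring
    rw [e5, pow_add, pow_mul]
    norm_num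
  rw [hsign, Int.cast_mul, Int.cast_natCast, Nat.cast_mul, Int.cast_pow, Int.cast_neg,
    Int.cast_one, Nat.cast_choose ℚ h2, Nat.cast_div (Ahhcc_dvd (u + 1) k h1)
    (by positivity), Nat.cast_mul]
  have f1 : ((u + 1 - 2 * k).factorial : ℚ) ≠ 0 := by positivity
  have f2 : (k.factorial : ℚ) ≠ 0 := by positivity
  have f3 : ((u + 1 - k - t).factorial : ℚ) ≠ 0 := by positivity
  have f4 : (t.factorial : ℚ) ≠ 0 := by positivity
  have f5 : (2 : ℚ) ^ t ≠ 0 := by positivity
  have f6 : (2 : ℚ) ^ u ≠ 0 := by positivity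
  rw [pow_add (2 : ℚ) u t]
  field_simp

theorem c_hhcc : S_hhcc := by
  intro A _ _ v l s hs hsl
  obtain ⟨t, rfl⟩ : ∃ t, l = s + t := ⟨l - s, by omega⟩
  have hts : s + t - s = t := by omega
  unfold cc he
  rw [hts, Finset.sum_mul, Finset.mul_sum]
  have hsub : range (s / 2 + 1) ⊆ range (s + t + 1) := by
    intro k hk
    rw [Finset.mem_range] at hk ⊢
    omega
  rw [← Finset.sum_subset hsub]
  · refine Finset.sum_congr rfl ?_
    intro k hk
    rw [Finset.mem_range] at hk
    have hk2 : 2 * k ≤ s := by omega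
    by_cases h : 2 * t + k ≤ s + t
    · rw [if_pos ⟨by omega, h⟩]
      have hkey := Ahhcc_key s t k hs hk2 (by omega)
      rw [← map_intCast (algebraMap ℚ A)]
      have h1 : ∀ x y : ℚ, algebraMap ℚ A x * v ^ k * algebraMap ℚ A y =
          algebraMap ℚ A (x * y) * v ^ k := by
        intro x y
        rw [map_mul]
        ring
      have h2 : ∀ x y : ℚ, algebraMap ℚ A x * (algebraMap ℚ A y * v ^ k) =
          algebraMap ℚ A (x * y) * v ^ k := by
        intro x y
        rw [map_mul]
        ring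
      rw [h1, h2, hkey]
    · rw [if_neg (fun hh => h hh.2), Nat.choose_eq_zero_of_lt (by omega)]
      simp
  · intro k _ hk
    rw [Finset.mem_range] at hk
    rw [if_neg, zero_mul]
    rintro ⟨h1, -⟩
    omega

end Orch
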