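import Pool.Agent.Lib.Orch.Spec

/-!
Algebraic part: statements about the generating functions, the integral numerators and their
values in commutative rings.
-/

namespace Orch

open Finset

/-! ### 7. Power series -/

/-- normalised counts -/
noncomputable def b (l n k : ℕ) : ℚ := (Q l n (l + 2 * k) : ℚ) / ((l + 2 * k).factorial : ℚ)

/-- the power series of the numbers of orchard networks without a pair inside `n` given leaves -/
noncomputable def QS (l n : ℕ) : PowerSeries ℚ := PowerSeries.mk (fun k => b l n k)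

def S_FQ : Prop := ∀ l : ℕ, F l = QS l 0

def S_QSRec : Prop := ∀ l n : ℕ, n + 1 ≤ l →
  QS l (n + 1) = QS l n - (n : PowerSeries ℚ) * QS (l - 1) (n - 1)
    - 2 * (n : PowerSeries ℚ) * PowerSeries.X * QS l (n - 1)
    + 3 * ((n.choose 2 : ℕ) : PowerSeries ℚ) * PowerSeries.X * QS (l - 1) (n - 2)

def S_QSTop : Prop := ∀ l : ℕ, 2 ≤ l → QS l l = 0

def S_QSOne : Prop := QS 1 0 = 1

def S_QSZero : Prop := ∀ n : ℕ, QS 0 n = 0

/-! ### 8. Polynomial coefficients over a `ℚ`-algebra evaluated at `v` -/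

/-- the coefficient `c_{n,s}` evaluated at `v` -/
noncomputable def cc {A : Type} [CommRing A] [Algebra ℚ A] (v : A) (n s : ℕ) : A :=
  ∑ k ∈ range (n + 1), if s + 2 * k ≤ n ∧ 2 * s + k ≤ n then
    algebraMap ℚ A ((-1) ^ (s + k) * (n.factorial : ℚ) * ((n - s - k).factorial : ℚ) /
      (2 ^ s * ((n - s - 2 * k).factorial : ℚ) * ((n - 2 * s - k).factorial : ℚ) *
        (s.factorial : ℚ) * (k.factorial : ℚ))) * v ^ k else 0

def S_ccZero : Prop := ∀ (A : Type) [CommRing A] [Algebra ℚ A] (v : A) (n s : ℕ), n < 2 * s →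
  cc v n s = 0

def S_ccRec0 : Prop := ∀ (A : Type) [CommRing A] [Algebra ℚ A] (v : A) (n : ℕ),
  cc v (n + 1) 0 = cc v n 0 - 2 * (n : A) * v * cc v (n - 1) 0

def S_ccRec : Prop := ∀ (A : Type) [CommRing A] [Algebra ℚ A] (v : A) (n s : ℕ),
  cc v (n + 1) (s + 1) = cc v n (s + 1) - (n : A) * cc v (n - 1) s
    - 2 * (n : A) * v * cc v (n - 1) (s + 1)
    + 3 * ((n.choose 2 : ℕ) : A) * v * cc v (n - 2) s

/-- a family satisfying the recursion is determined by its values at `n = 0` -/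
def S_Exp : Prop := ∀ (A : Type) [CommRing A] [Algebra ℚ A] (v : A) (m : ℕ) (q : ℕ → ℕ → A),
  (∀ l n : ℕ, l ≤ m → n + 1 ≤ l → q l (n + 1) = q l n - (n : A) * q (l - 1) (n - 1)
    - 2 * (n : A) * v * q l (n - 1) + 3 * ((n.choose 2 : ℕ) : A) * v * q (l - 1) (n - 2)) →
  ∀ l n : ℕ, l ≤ m → n ≤ l → q l n = ∑ s ∈ range (n + 1), cc v n s * q (l - s) 0

/-- conversely the combinations of the `cc` satisfy the recursion -/
def S_ExpRev : Prop := ∀ (A : Type) [CommRing A] [Algebra ℚ A] (v : A) (f : ℕ → A) (l n : ℕ),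
  n + 1 ≤ l →
  (∑ s ∈ range (n + 2), cc v (n + 1) s * f (l - s)) =
    (∑ s ∈ range (n + 1), cc v n s * f (l - s))
    - (n : A) * (∑ s ∈ range n, cc v (n - 1) s * f (l - 1 - s))
    - 2 * (n : A) * v * (∑ s ∈ range n, cc v (n - 1) s * f (l - s))
    + 3 * ((n.choose 2 : ℕ) : A) * v * (∑ s ∈ range (n - 1), cc v (n - 2) s * f (l - 1 - s))

/-- the vanishing combination of the column generating functions -/
def S_Key : Prop := ∀ l : ℕ, 2 ≤ l →
  ∑ s ∈ range (l + 1), cc (PowerSeries.X : PowerSeries ℚ) l s * F (l - s) = 0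

/-! ### 9. Integral numerators over any commutative ring -/

/-- `X_s` evaluated at `v` -/
def xe {A : Type} [CommRing A] (v : A) (s : ℕ) : A :=
  ∑ k ∈ range (s / 2 + 1),
    (((-1 : ℤ) ^ k * ((s.factorial / ((s - 2 * k).factorial * k.factorial) : ℕ) : ℤ) : ℤ) : A) *
      v ^ k

/-- `h_{ℓ,s}` evaluated at `v` (used for `s ≤ ℓ`) -/
def he {A : Type} [CommRing A] (v : A) (l s : ℕ) : A :=
  ∑ k ∈ range (s / 2 + 1),
    (((-1 : ℤ) ^ (l + s + k) * (((s - k).choose (l - s) *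
      (s.factorial / ((s - 2 * k).factorial * k.factorial)) : ℕ) : ℤ) : ℤ) : A) * v ^ k

/-- the integral numerator evaluated at `v` -/
def te {A : Type} [CommRing A] (v : A) : ℕ → A
  | 0 => 0
  | 1 => 1
  | (l + 2) => -∑ s : Fin (l + 2), he v (l + 2) s.1 * te v s.1 * ∏ i ∈ Ioo s.1 (l + 2), xe v i
termination_by n => n
decreasing_by exact s.2

def S_teRec : Prop := ∀ (A : Type) [CommRing A] (v : A) (l : ℕ), 2 ≤ l →
  te v l = -∑ s ∈ range l, he v l s * te v s * ∏ i ∈ Ioo s l, xe v i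

def S_Hom : Prop := ∀ (A B : Type) [CommRing A] [CommRing B] (f : A →+* B) (v : A),
  (∀ s, f (xe v s) = xe (f v) s) ∧ (∀ l s, f (he v l s) = he (f v) l s) ∧
    (∀ l, f (te v l) = te (f v) l)

def S_XPxe : Prop := ∀ (R : Type) [CommRing R] (j : ℕ), XP R j = xe (Polynomial.X : Polynomial R) j

def S_xeRec : Prop := ∀ (A : Type) [CommRing A] (v : A),
  xe v 0 = 1 ∧ xe v 1 = 1 ∧ ∀ s : ℕ, xe v (s + 2) = xe v (s + 1) - 2 * ((s + 1 : ℕ) : A) * v * xe v s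

/-- the generating polynomials of the `h_{ℓ,s}` in `ℓ` -/
noncomputable def HP {A : Type} [CommRing A] (v : A) : ℕ → Polynomial A
  | 0 => 1
  | 1 => Polynomial.X - Polynomial.X ^ 2
  | (s + 2) => (Polynomial.X - Polynomial.X ^ 2) * HP v (s + 1) -
      Polynomial.C (2 * ((s + 1 : ℕ) : A) * v) * (Polynomial.X ^ 2 - Polynomial.X ^ 3) * HP v s

def S_HPc : Prop := ∀ (A : Type) [CommRing A] (v : A) (s l : ℕ),
  (HP v s).coeff l = if s ≤ l then he v l s else 0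

def S_heDiag : Prop := ∀ (A : Type) [CommRing A] (v : A) (s : ℕ), he v s s = xe v s

/-- `2 h_{s+1,s} = - s (X_s + X_{s-1})` -/
def S_heSub : Prop := ∀ (A : Type) [CommRing A] (v : A) (s : ℕ), 1 ≤ s →
  2 * he v (s + 1) s = -((s : A) * (xe v s + xe v (s - 1)))

/-- `8 h_{s+2,s}` in terms of the `X_i` -/
def S_heSub2 : Prop := ∀ (A : Type) [CommRing A] (v : A) (s : ℕ),
  8 * he v (s + 4) (s + 2) = ((s + 2 : ℕ) : A) * ((s : A) * xe v (s + 2) +
    ((2 * s + 3 : ℕ) : A) * xe v (s + 1) + ((s + 1 : ℕ) : A) * xe v s)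

/-- periodicity in characteristic `p` -/
def S_xePer : Prop := ∀ (A : Type) [CommRing A] (p : ℕ) [Fact p.Prime] [CharP A p] (v : A)
  (s : ℕ), xe v (s + p) = xe v s

def S_HPPer : Prop := ∀ (A : Type) [CommRing A] (p : ℕ) [Fact p.Prime] [CharP A p] (v : A)
  (s : ℕ), HP v (s + p) = (Polynomial.X ^ p - Polynomial.X ^ (2 * p)) * HP v s

def S_Per : Prop := ∀ (A : Type) [CommRing A] (p : ℕ) [Fact p.Prime] [CharP A p] (v : A)
  (b : ℕ), 2 ≤ b → xe v b = 0 → ∀ l : ℕ, b ≤ l →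
  te v (l + p) * te v b = te v l * te v (b + p)

/-- relation between the two normalisations -/
def S_hhcc : Prop := ∀ (A : Type) [CommRing A] [Algebra ℚ A] (v : A) (l s : ℕ), 1 ≤ s → s ≤ l →
  cc v l (l - s) * algebraMap ℚ A ((s.factorial : ℚ) / 2 ^ (s - 1)) =
    algebraMap ℚ A ((l.factorial : ℚ) / 2 ^ (l - 1)) * he v l s

/-- the column generating function times the product of the `X_i` -/
def S_Den : Prop := ∀ l : ℕ, 1 ≤ l →
  F l * ((∏ i ∈ Icc 2 l, XP ℚ i : Polynomial ℚ) : PowerSeries ℚ) =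
    ((Polynomial.C ((l.factorial : ℚ) / 2 ^ (l - 1)) * te (Polynomial.X : Polynomial ℚ) l :
      Polynomial ℚ) : PowerSeries ℚ)

/-! ### 10. Positivity at the smallest root -/

def S_Root : Prop := ∀ l : ℕ, 2 ≤ l →
  ∃ v : ℝ, 0 < v ∧ xe v l = 0 ∧ ∀ i < l, 0 < xe v i

def S_PosAbs : Prop := ∀ (v : ℝ) (X : ℕ → ℝ) (q : ℕ → ℕ → ℝ) (m : ℕ), 2 ≤ m → 0 < v →
  X 0 = 1 → X 1 = 1 → (∀ n, 1 ≤ n → X (n + 1) = X n - 2 * (n : ℝ) * v * X (n - 1)) →
  (∀ i < m, 0 < X i) → X m = 0 →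
  (∀ l n : ℕ, l ≤ m → n + 1 ≤ l → q l (n + 1) = q l n - (n : ℝ) * q (l - 1) (n - 1)
    - 2 * (n : ℝ) * v * q l (n - 1) + 3 * ((n.choose 2 : ℕ) : ℝ) * v * q (l - 1) (n - 2)) →
  q 1 0 = 1 → (∀ l, 2 ≤ l → l < m → q l l = 0) → q m m < 0

/-- the numerator is positive at the smallest root of `X_ℓ` -/
def S_TopPos : Prop := ∀ (v : ℝ) (l : ℕ), 2 ≤ l → 0 < v → xe v l = 0 → (∀ i < l, 0 < xe v i) →
  0 < te v l

/-- two steps further -/
def S_Top2 : Prop := ∀ (v : ℝ) (l : ℕ), 2 ≤ l → 0 < v → xe v l = 0 → (∀ i < l, 0 < xe v i) →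
  0 < te v (l + 1) ∧ (l ≠ 3 → te v (l + 2) ≠ 0)

/-- consequence for divisibility -/
def S_TopNd : Prop := ∀ j l : ℕ, 2 ≤ j → j ≤ l → l ≤ j + 2 → ¬ (j = 3 ∧ l = 5) →
  ¬ xe (Polynomial.X : Polynomial ℚ) j ∣ te (Polynomial.X : Polynomial ℚ) l

/-! ### 11. From the numerators to the minimal denominator -/

/-- `N / D` is the reduced form of `F_ℓ` with `D(0) = 1` -/
def IsRed (l : ℕ) (N D : Polynomial ℚ) : Prop :=
  IsCoprime N D ∧ D.coeff 0 = 1 ∧ F l * (D : PowerSeries ℚ) = (N : PowerSeries ℚ)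

def S_RedEx : Prop := ∀ l : ℕ, 1 ≤ l → ∃ N D : Polynomial ℚ, IsRed l N D

def S_RedDvd : Prop := ∀ l : ℕ, 1 ≤ l → ∀ N D : Polynomial ℚ, IsRed l N D →
  D ∣ ∏ i ∈ Icc 2 l, XP ℚ i

def S_RedNd : Prop := ∀ l : ℕ, 1 ≤ l → ∀ N D : Polynomial ℚ, IsRed l N D → ∀ j : ℕ, 2 ≤ j →
  j ≤ l → ¬ XP ℚ j ∣ te (Polynomial.X : Polynomial ℚ) l → ¬ IsCoprime D (XP ℚ j)

/-- descent to characteristic `p` -/
def S_Desc : Prop := ∀ (j l : ℕ), 2 ≤ j →
  xe (Polynomial.X : Polynomial ℚ) j ∣ te (Polynomial.X : Polynomial ℚ) l →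
  xe (Polynomial.X : Polynomial ℤ) j ∣ te (Polynomial.X : Polynomial ℤ) l

/-- the criterion in characteristic `p`: unit values propagate to whole residue classes -/
def S_Unit : Prop := ∀ (A : Type) [CommRing A] [Nontrivial A] (p : ℕ) [Fact p.Prime] [CharP A p]
  (v : A) (b i : ℕ), 2 ≤ b → i < p → xe v b = 0 → IsUnit (te v b) → IsUnit (te v (b + p)) →
  IsUnit (te v (b + i)) → ∀ j l : ℕ, b ≤ j → j % p = b % p → j ≤ l → l % p = (b + i) % p →
  ¬ xe (Polynomial.X : Polynomial ℚ) j ∣ te (Polynomial.X : Polynomial ℚ) l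

/-- irreducible nonassociated factors -/
def S_Fin : Prop := ∀ (D : Polynomial ℚ) (j : ℕ), ¬ IsCoprime D (XP ℚ j) → Irreducible (XP ℚ j) →
  XP ℚ j ∣ D

end Orch
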