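import Pool.Agent.Lib.Orch.Alg

/-!
The recursion of the polynomials `X_s`.
-/

namespace Orch

open Finset

private def AxeRec_D : ℕ → ℕ
  | 0 => 1
  | (k + 1) => 2 * (2 * k + 1) * AxeRec_D k

private theorem AxeRec_D_eq (k : ℕ) : k.factorial * AxeRec_D k = (2 * k).factorial := by
  induction k with
  | zero => rfl
  | succ k ih =>
    have h1 : 2 * (k + 1) = (2 * k + 1) + 1 := by ring
    rw [h1, Nat.factorial_succ k, Nat.factorial_succ (2 * k + 1), Nat.factorial_succ (2 * k), ← ih]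
    change (k + 1) * k.factorial * (2 * (2 * k + 1) * AxeRec_D k) = _
    ring

private theorem AxeRec_a (s k : ℕ) (h : 2 * k ≤ s) :
    s.factorial / ((s - 2 * k).factorial * k.factorial) = s.choose (2 * k) * AxeRec_D k := by
  refine Nat.div_eq_of_eq_mul_left (by positivity) ?_
  rw [← Nat.choose_mul_factorial_mul_factorial h, ← AxeRec_D_eq k]
  ring

private theorem AxeRec_xe {A : Type} [CommRing A] (v : A) (s N : ℕ) (hN : s / 2 + 1 ≤ N) :
    xe v s = ∑ k ∈ range N, (-1) ^ k * ((s.choose (2 * k) * AxeRec_D k : ℕ) : A) * v ^ k := by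
  unfold xe
  have h1 : range (s / 2 + 1) ⊆ range N := range_subset_range.2 hN
  rw [← sum_subset h1]
  · refine sum_congr rfl fun k hk => ?_
    rw [mem_range] at hk
    rw [AxeRec_a s k (by omega)]
    push_cast
    rfl
  · intro k _ hk
    rw [mem_range] at hk
    rw [Nat.choose_eq_zero_of_lt (by omega)]
    simp

private theorem AxeRec_rec (s k : ℕ) :
    (s + 2).choose (2 * (k + 1)) * AxeRec_D (k + 1) =
      (s + 1).choose (2 * (k + 1)) * AxeRec_D (k + 1) +
        2 * (s + 1) * (s.choose (2 * k) * AxeRec_D k) := by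
  have h1 : (s + 2).choose (2 * (k + 1)) = (s + 1).choose (2 * k + 1) +
      (s + 1).choose (2 * (k + 1)) := by
    have h2 : 2 * (k + 1) = (2 * k + 1) + 1 := by ring
    rw [h2]
    exact Nat.choose_succ_succ _ _
  have h3 : (s + 1) * s.choose (2 * k) = (s + 1).choose (2 * k + 1) * (2 * k + 1) :=
    Nat.add_one_mul_choose_eq s (2 * k)
  have h4 : AxeRec_D (k + 1) = 2 * (2 * k + 1) * AxeRec_D k := rfl
  rw [h1, add_mul, add_comm]
  congr 1
  rw [h4]
  calc (s + 1).choose (2 * k + 1) * (2 * (2 * k + 1) * AxeRec_D k)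
      = 2 * ((s + 1).choose (2 * k + 1) * (2 * k + 1)) * AxeRec_D k := by ring
    _ = 2 * ((s + 1) * s.choose (2 * k)) * AxeRec_D k := by rw [h3]
    _ = 2 * (s + 1) * (s.choose (2 * k) * AxeRec_D k) := by ring

theorem c_xeRec : S_xeRec := by
  intro A _ v
  refine ⟨?_, ?_, fun s => ?_⟩
  · rw [AxeRec_xe v 0 1 (by norm_num)]
    simp [AxeRec_D]
  · rw [AxeRec_xe v 1 1 (by norm_num)]
    simp [AxeRec_D]
  · rw [AxeRec_xe v (s + 2) ((s / 2 + 1) + 1) (by omega),
      AxeRec_xe v (s + 1) ((s / 2 + 1) + 1) (by omega), AxeRec_xe v s (s / 2 + 1) le_rfl,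
      sum_range_succ', sum_range_succ' (n := s / 2 + 1), mul_sum]
    have h0 : ((s + 2).choose (2 * 0) * AxeRec_D 0 : ℕ) = ((s + 1).choose (2 * 0) * AxeRec_D 0 : ℕ) := by
      simp
    rw [h0, add_sub_right_comm, ← sum_sub_distrib]
    congr 1
    refine sum_congr rfl fun k _ => ?_
    rw [AxeRec_rec]
    push_cast
    ring

end Orch
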