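import Pool.Agent.Lib.Orch.Chk

/-!
Soundness of the check.
-/

namespace Orch

open Finset

private theorem kChk_normS (B p f q : ℕ) :
    normP B p (f + 1) q = q % B % p + B * normP B p f (q / B) := rfl

/-- the value of `normP` is stored by a polynomial with small digits -/
private theorem kChk_norm (B p : ℕ) (hp : 0 < p) : ∀ f N : ℕ, ∃ P : Polynomial ℕ,
    (∀ i, f ≤ i → P.coeff i = 0) ∧ (∀ i, P.coeff i ≤ p - 1) ∧ P.eval B = normP B p f N := by
  intro f
  induction f with
  | zero =>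
    intro N
    refine ⟨0, fun i _ => Polynomial.coeff_zero i, fun i => ?_, ?_⟩
    · rw [Polynomial.coeff_zero]
      exact Nat.zero_le _
    · rw [Polynomial.eval_zero]
      rfl
  | succ f ih =>
    intro N
    obtain ⟨P, h1, h2, h3⟩ := ih (N / B)
    refine ⟨P * Polynomial.X + Polynomial.C (N % B % p), ?_, ?_, ?_⟩
    · intro i hi
      obtain ⟨j, rfl⟩ : ∃ j, i = j + 1 := ⟨i - 1, by omega⟩
      rw [Polynomial.coeff_add, Polynomial.coeff_mul_X, Polynomial.coeff_C_succ, h1 j (by omega),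
        add_zero]
    · intro i
      rcases i with _ | j
      · rw [Polynomial.coeff_add, Polynomial.coeff_mul_X_zero, Polynomial.coeff_C_zero, zero_add]
        have := Nat.mod_lt (N % B) hp
        omega
      · rw [Polynomial.coeff_add, Polynomial.coeff_mul_X, Polynomial.coeff_C_succ, add_zero]
        exact h2 j
    · rw [Polynomial.eval_add, Polynomial.eval_mul, Polynomial.eval_X, Polynomial.eval_C, h3,
        kChk_normS]
      ring

private theorem kChk_rep {A : Type} [CommRing A] (v : A) (B p f N : ℕ) (hp : 0 < p)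
    (hN : N = normP B p f N) : ∃ a : A, Rep v B f (p - 1) N a := by
  obtain ⟨P, h1, h2, h3⟩ := kChk_norm B p hp f N
  exact ⟨_, P, h1, h2, by rw [h3]; exact hN.symm, rfl⟩

private theorem kChk_lt (B K : ℕ) (hK : K < B) : ∀ (f : ℕ) (P : Polynomial ℕ),
    (∀ i, f ≤ i → P.coeff i = 0) → (∀ i, P.coeff i ≤ K) → P.eval B < B ^ f := by
  intro f
  induction f with
  | zero =>
    intro P h1 _
    have : P = 0 := by
      ext i
      rw [h1 i (Nat.zero_le i), Polynomial.coeff_zero]
    rw [this, Polynomial.eval_zero, pow_zero]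
    exact Nat.one_pos
  | succ f ih =>
    intro P h1 h2
    have h := ih P.divX (fun i hi => by
      rw [Polynomial.coeff_divX]
      exact h1 (i + 1) (by omega)) (fun i => by
      rw [Polynomial.coeff_divX]
      exact h2 _)
    rw [← Polynomial.divX_mul_X_add P, Polynomial.eval_add, Polynomial.eval_mul,
      Polynomial.eval_X, Polynomial.eval_C, pow_succ]
    have h0 := h2 0
    have h3 : Polynomial.eval B P.divX + 1 ≤ B ^ f := h
    have h4 : (Polynomial.eval B P.divX + 1) * B ≤ B ^ f * B := Nat.mul_le_mul_right _ h3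
    have h5 : (Polynomial.eval B P.divX + 1) * B = Polynomial.eval B P.divX * B + B := by ring
    omega

/-- multiplication by `v` and splitting off the top digit -/
private theorem kChk_split {A : Type} [CommRing A] (v : A) (B f K N : ℕ) (a : A) (hK : K < B)
    (h : Rep v B (f + 1) K N a) : ∃ (a0 : A) (c : ℕ), Rep v B f K (N % B ^ f) a0 ∧
      N / B ^ f = c ∧ c ≤ K ∧ a = a0 + c * v ^ f := by
  obtain ⟨P, h1, h2, h3, h4⟩ := h
  have hd := Polynomial.monomial_add_erase P f
  have e1 : ∀ i, f ≤ i → (P.erase f).coeff i = 0 := by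
    intro i hi
    rw [Polynomial.coeff_erase]
    by_cases hif : i = f
    · rw [if_pos hif]
    · rw [if_neg hif]
      exact h1 i (by omega)
  have e2 : ∀ i, (P.erase f).coeff i ≤ K := by
    intro i
    rw [Polynomial.coeff_erase]
    by_cases hif : i = f
    · rw [if_pos hif]
      exact Nat.zero_le _
    · rw [if_neg hif]
      exact h2 i
  have e3 := kChk_lt B K hK f _ e1 e2
  have e4 : N = P.coeff f * B ^ f + (P.erase f).eval B := by
    rw [← h3]
    conv_lhs => rw [← hd]
    rw [Polynomial.eval_add, Polynomial.eval_monomial]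
  have hB : 0 < B ^ f := Nat.pow_pos (by omega)
  have e5 : N / B ^ f = P.coeff f := by
    rw [e4, Nat.add_comm, Nat.add_mul_div_right _ _ hB, Nat.div_eq_of_lt e3, zero_add]
  have e6 : N % B ^ f = (P.erase f).eval B := by
    rw [e4, Nat.add_comm, Nat.add_mul_mod_self_right, Nat.mod_eq_of_lt e3]
  refine ⟨_, P.coeff f, ⟨P.erase f, e1, e2, e6.symm, rfl⟩, e5, h2 f, ?_⟩
  rw [← h4]
  conv_lhs => rw [← hd]
  rw [Polynomial.eval₂_add, Polynomial.eval₂_monomial, add_comm]
  rfl

private theorem kChk_tab {A : Type} [CommRing A] (p : ℕ) [Fact p.Prime] [CharP A p] (v : A)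
    (B f r : ℕ) (hB : p * p < B) (hRB : S_RepBasic) (hRN : S_RepNorm)
    (hr : Rep v B f (p - 1) r (v ^ f)) : ∀ (R : List ℕ) (prev : ℕ) (a : A),
      Rep v B f (p - 1) prev a → tabP B (B ^ f) p f r R prev = true →
      ∀ k < R.length, Rep v B f (p - 1) (R.getD k 0) (v ^ (k + 1) * a) := by
  obtain ⟨b1, b2, b3, b4, b5, b6, b7⟩ := hRB A v B
  have hp : 2 ≤ p := (Fact.out : p.Prime).two_le
  have hpp : p ≤ p * p := Nat.le_mul_of_pos_left p (by omega)
  intro R
  induction R with
  | nil =>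
    intro prev a _ _ k hk
    exact absurd hk (Nat.not_lt_zero k)
  | cons s R ih =>
    intro prev a ha ht
    have h : tabP B (B ^ f) p f r (s :: R) prev =
        (Nat.beq s (normP B p f ((B * prev) % B ^ f + ((B * prev) / B ^ f) * r)) &&
          tabP B (B ^ f) p f r R s) := rfl
    rw [h, Bool.and_eq_true] at ht
    obtain ⟨ht1, ht2⟩ := ht
    have hs := Nat.eq_of_beq_eq_true ht1
    have h1 := b6 _ _ _ _ ha
    obtain ⟨a0, c, h2, h3, h4, h5⟩ := kChk_split v B f (p - 1) (B * prev) (v * a) (by omega) h1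
    have h6 := b5 _ _ _ _ c hr
    have h7 := b4 _ _ _ _ _ _ _ h2 h6
    have h8 : p - 1 + c * (p - 1) < B := by
      have h9 : c * (p - 1) ≤ (p - 1) * (p - 1) := Nat.mul_le_mul_right _ h4
      have h10 : p - 1 + (p - 1) * (p - 1) = p * (p - 1) := by
        obtain ⟨q, rfl⟩ : ∃ q, p = q + 1 := ⟨p - 1, by omega⟩
        rw [Nat.add_sub_cancel]
        ring
      have h11 : p * (p - 1) ≤ p * p := Nat.mul_le_mul_left _ (by omega)
      omega
    have h12 := hRN A p v B f _ _ _ h8 h7
    rw [← h3, ← hs] at h12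
    have h13 : a0 + ((B * prev / B ^ f : ℕ) : A) * v ^ f = v * a := by
      rw [h3]
      exact h5.symm
    rw [h13] at h12
    intro k hk
    rcases k with _ | k
    · rw [List.getD_cons_zero, zero_add, pow_one]
      exact h12
    · rw [List.getD_cons_succ]
      have h14 := ih s (v * a) h12 ht2 k (by rw [List.length_cons] at hk; omega)
      have h15 : v ^ (k + 1 + 1) * a = v ^ (k + 1) * (v * a) := by ring
      rw [h15]
      exact h14

/-- the ring generated by an element with `v ^ f = r` -/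
private theorem kChk_ring (p B f r : ℕ) (hp : p.Prime) (hf : 1 ≤ f) (hr : r = normP B p f r) :
    ∃ (A : Type) (_ : CommRing A) (_ : Nontrivial A) (_ : CharP A p) (v : A),
      Rep v B f (p - 1) r (v ^ f) := by
  haveI : Fact p.Prime := ⟨hp⟩
  obtain ⟨P, h1, h2, h3⟩ := kChk_norm B p hp.pos f r
  obtain ⟨P', hP'⟩ : ∃ P', P' = P.map (Nat.castRingHom (ZMod p)) := ⟨_, rfl⟩
  have hdeg : P'.degree < (f : ℕ) := by
    rw [Polynomial.degree_lt_iff_coeff_zero]
    intro m hm
    rw [hP', Polynomial.coeff_map, h1 m hm, map_zero]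
  obtain ⟨Q, hQ⟩ : ∃ Q, Q = (Polynomial.X : Polynomial (ZMod p)) ^ f - P' := ⟨_, rfl⟩
  have hQd : Q.degree = (f : ℕ) := by
    rw [hQ, Polynomial.degree_sub_eq_left_of_degree_lt, Polynomial.degree_X_pow]
    rw [Polynomial.degree_X_pow]
    exact hdeg
  have hQ0 : Q.degree ≠ 0 := by
    rw [hQd]
    intro h
    have : f = 0 := by exact_mod_cast h
    omega
  have hnt : Nontrivial (AdjoinRoot Q) := AdjoinRoot.nontrivial Q hQ0
  have hinj : Function.Injective (algebraMap (ZMod p) (AdjoinRoot Q)) :=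
    (algebraMap (ZMod p) (AdjoinRoot Q)).injective
  have hch : CharP (AdjoinRoot Q) p := charP_of_injective_algebraMap hinj p
  refine ⟨AdjoinRoot Q, inferInstance, hnt, hch, AdjoinRoot.root Q, P, h1, h2,
    by rw [h3]; exact hr.symm, ?_⟩
  have h4 : Polynomial.eval₂ (AdjoinRoot.of Q) (AdjoinRoot.root Q)
      ((Polynomial.X : Polynomial (ZMod p)) ^ f - P') = 0 := by
    rw [← hQ]
    exact AdjoinRoot.eval₂_root Q
  rw [Polynomial.eval₂_sub, Polynomial.eval₂_X_pow, hP', Polynomial.eval₂_map] at h4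
  have h5 : (AdjoinRoot.of Q).comp (Nat.castRingHom (ZMod p)) = Nat.castRingHom (AdjoinRoot Q) :=
    Subsingleton.elim _ _
  rw [h5] at h4
  exact (sub_eq_zero.1 h4).symm

theorem c_Chk (hO : S_Out) (hMul : S_MulP) (hRB : S_RepBasic) (hRU : S_RepUniq)
    (hRN : S_RepNorm) (hU : S_Unit) : S_Chk := by
  intro p B b f r R c hp hc h0 hpu i u hiu hip j l hj1 hj2 hl1 hl2
  haveI : Fact p.Prime := ⟨hp⟩
  have hp2 : 2 ≤ p := hp.two_le
  unfold chk at hc
  simp only [Bool.and_eq_true] at hc
  obtain ⟨⟨⟨⟨⟨⟨⟨⟨c1, c2⟩, c3⟩, c4⟩, c5⟩, c6⟩, c7⟩, c8⟩, c9, c10⟩ := hc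
  have c1 := Nat.le_of_ble_eq_true c1
  have c2 := Nat.le_of_ble_eq_true c2
  have c3 := Nat.le_of_ble_eq_true c3
  have c4 := Nat.le_of_ble_eq_true c4
  have c5 := Nat.le_of_ble_eq_true c5
  have c6 := Nat.le_of_ble_eq_true c6
  have c7 := Nat.eq_of_beq_eq_true c7
  have c9 := Nat.eq_of_beq_eq_true c9
  rw [List.all_eq_true] at c10
  have hB1 : 4 * (p * p) ≤ B := by
    refine le_trans ?_ c1
    calc 4 * (p * p) ≤ (f + p + 4) * (p * p) := Nat.mul_le_mul_right _ (by omega)
      _ = (f + p + 4) * p * p := by ring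
      _ ≤ (f + p + 4) * p * p * 4 := Nat.le_mul_of_pos_right _ (by norm_num)
  have hpp : p ≤ p * p := Nat.le_mul_of_pos_left p (by omega)
  have hpB : p - 1 < B := by omega
  obtain ⟨A, iA, iN, iC, v, hr⟩ := kChk_ring p B f r hp c2 c7
  obtain ⟨b1, b2, b3, b4, b5, b6, b7⟩ := hRB A v B
  have hS : Siz B p f (r :: R) := by
    refine ⟨c1, c2, ?_, ?_, ?_⟩
    · rw [List.length_cons]
      omega
    · rw [List.length_cons]
      omega
    · rw [List.length_cons]
      omega
  have hT : Tab v B p f (r :: R) := by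
    intro k hk
    rcases k with _ | k
    · rw [List.getD_cons_zero, add_zero]
      exact hr
    · rw [List.getD_cons_succ]
      have h := kChk_tab p v B f r (by omega) hRB hRN hr R r (v ^ f) hr c8 k
        (by rw [List.length_cons] at hk; omega)
      have h2 : v ^ (f + (k + 1)) = v ^ (k + 1) * v ^ f := by ring
      rw [h2]
      exact h
  obtain ⟨-, hout⟩ := hO A p v B f (b + p) (r :: R) hS hT (by omega) (by omega)
  have hxb : xe v b = 0 := by
    have h := (hout b (by omega) (by omega)).1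
    have h2 : b + p - b = p := by omega
    rw [h2, c9] at h
    exact hRU A v B f f (p - 1) (p - 1) 0 _ 0 hpB hpB h (b1 _ _)
  have hun : ∀ i u : ℕ, (i, u) ∈ c → IsUnit (te v (b + i)) := by
    intro i u hiu
    have h := c10 (i, u) hiu
    simp only [Bool.and_eq_true] at h
    obtain ⟨⟨d1, d2⟩, d3⟩ := h
    have d1 : i ≤ p := Nat.le_of_ble_eq_true d1
    have d2 := Nat.eq_of_beq_eq_true d2
    have d3 : u = normP B p f u := Nat.eq_of_beq_eq_true d3
    obtain ⟨a, ha⟩ := kChk_rep v B p f u hp.pos d3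
    have h1 := (hout (b + i) (by omega) (by omega)).2
    have h2 : b + p - (b + i) = p - i := by omega
    rw [h2] at h1
    have h3 := hMul A p v B f _ _ _ _ _ hS hT h1 ha
    rw [d2] at h3
    have h4 := hRU A v B f f (p - 1) (p - 1) 1 _ 1 hpB hpB h3 (b2 _ _ c2 (by omega))
    exact IsUnit.of_mul_eq_one _ h4
  obtain ⟨u0, hu0⟩ := h0
  obtain ⟨up, hup⟩ := hpu
  have g0 := hun 0 u0 hu0
  rw [add_zero] at g0
  exact hU A p v b i c5 hip hxb g0 (hun p up hup) (hun i u hiu) j l hj1 hj2 hl1 hl2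

theorem c_Cov (hC : S_Chk) : S_Cov := by
  intro p B b ex cs hp hc i hi hex j l hj1 hj2 hl1 hl2
  unfold chkAll at hc
  rw [Bool.and_eq_true, List.all_eq_true, List.all_eq_true] at hc
  obtain ⟨c1, c2⟩ := hc
  have h := c2 i (List.mem_range.2 hi)
  rw [Bool.or_eq_true] at h
  rcases h with h | h
  · rw [List.any_eq_true] at h
    obtain ⟨e, he1, he2⟩ := h
    have := Nat.eq_of_beq_eq_true he2
    rw [this] at he1
    exact absurd he1 hex
  · rw [List.any_eq_true] at h
    obtain ⟨q, hq1, hq2⟩ := h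
    rw [List.any_eq_true] at hq2
    obtain ⟨iu, hiu1, hiu2⟩ := hq2
    have hiu3 := Nat.eq_of_beq_eq_true hiu2
    have h2 := c1 q hq1
    rw [Bool.and_eq_true, Bool.and_eq_true, List.any_eq_true, List.any_eq_true] at h2
    obtain ⟨⟨h3, iu0, h40, h41⟩, iup, h50, h51⟩ := h2
    have h42 := Nat.eq_of_beq_eq_true h41
    have h52 := Nat.eq_of_beq_eq_true h51
    refine hC p B b q.1 q.2.1 q.2.2.1 q.2.2.2 hp h3 ⟨iu0.2, ?_⟩ ⟨iup.2, ?_⟩ i iu.2 ?_ hi j l hj1
      hj2 hl1 hl2
    · rw [← h42]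
      exact h40
    · rw [← h52]
      exact h50
    · rw [← hiu3]
      exact hiu1

end Orch
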