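import Pool.Agent.Lib.Orch.Chk

/-!
Correctness of the output `outP`.
-/

namespace Orch

open Finset

private theorem kOut_len (B Bf p f : ℕ) (R : List ℕ) :
    ∀ (n m : ℕ) (e1 e2 e3 : List ℕ) (y2 y3 : ℕ),
      (rowP B Bf p f R n m e1 e2 e3 y2 y3).length = n := by
  intro n
  induction n with
  | zero =>
    intro m e1 e2 e3 y2 y3
    rfl
  | succ n ih =>
    intro m e1 e2 e3 y2 y3
    have h : rowP B Bf p f R (n + 1) m e1 e2 e3 y2 y3 =
        normP B p f (e1.headD 0 + (p - 1) * y2 + (p - 2 * m % p) *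
          rdP B Bf p f R (B * (e2.headD 0 + (p - 1) * y3))) ::
        rowP B Bf p f R n (m - 1) e1.tail e2.tail e3.tail (e2.headD 0) (e3.headD 0) := rfl
    rw [h, List.length_cons, ih]

private theorem kOut_headD (l : List ℕ) : l.headD 0 = l.getD 0 0 := by
  cases l <;> rfl

private theorem kOut_tail (l : List ℕ) (d : ℕ) : l.tail.getD d 0 = l.getD (d + 1) 0 := by
  cases l <;> rfl

private theorem kOut_dot {A : Type} [CommRing A] (p : ℕ) [Fact p.Prime] [CharP A p] (v : A)
    (B f : ℕ) (R : List ℕ) (hS : Siz B p f R) (hT : Tab v B p f R) (hMul : S_MulP)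
    (hRB : S_RepBasic) (hz : ∀ a : A, Rep v B f (p - 1) 0 a → a = 0) :
    ∀ (xs ys : List ℕ) (a b : ℕ → A),
      (∀ d < xs.length, Rep v B f (p - 1) (xs.getD d 0) (a d)) →
      (∀ d < xs.length, Rep v B f (p - 1) (ys.getD d 0) (b d)) →
      Rep v B f (xs.length * (p - 1)) (dotP B (B ^ f) p f R xs ys)
        (∑ d ∈ range xs.length, a d * b d) := by
  obtain ⟨b1, b2, b3, b4, b5, b6, b7⟩ := hRB A v B
  intro xs
  induction xs with
  | nil =>
    intro ys a b _ _
    have h : dotP B (B ^ f) p f R [] ys = 0 := rfl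
    rw [h, List.length_nil, Finset.sum_range_zero]
    exact b1 _ _
  | cons x xs ih =>
    intro ys a b ha hb
    cases ys with
    | nil =>
      have h : dotP B (B ^ f) p f R (x :: xs) [] = 0 := rfl
      have h0 : ∑ d ∈ range (x :: xs).length, a d * b d = 0 := by
        refine Finset.sum_eq_zero (fun d hd => ?_)
        have h1 := hb d (Finset.mem_range.1 hd)
        have h2 : ([] : List ℕ).getD d 0 = 0 := by cases d <;> rfl
        rw [h2] at h1
        rw [hz _ h1, mul_zero]
      rw [h, h0]
      exact b1 _ _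
    | cons y ys =>
      have h : dotP B (B ^ f) p f R (x :: xs) (y :: ys) =
          mulP B (B ^ f) p f R x y + dotP B (B ^ f) p f R xs ys := rfl
      have h1 := ih ys (fun d => a (d + 1)) (fun d => b (d + 1))
        (fun d hd => by
          have := ha (d + 1) (by rw [List.length_cons]; omega)
          rwa [List.getD_cons_succ] at this)
        (fun d hd => by
          have := hb (d + 1) (by rw [List.length_cons]; omega)
          rwa [List.getD_cons_succ] at this)
      have ha0 := ha 0 (by rw [List.length_cons]; omega)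
      have hb0 := hb 0 (by rw [List.length_cons]; omega)
      rw [List.getD_cons_zero] at ha0 hb0
      have h2 := hMul A p v B f x y R (a 0) (b 0) hS hT ha0 hb0
      have h3 := b4 _ _ _ _ _ _ _ h2 h1
      rw [h, List.length_cons, Finset.sum_range_succ', add_comm (∑ k ∈ range xs.length, _)]
      have h4 : (xs.length + 1) * (p - 1) = p - 1 + xs.length * (p - 1) := by ring
      rw [h4]
      exact h3

private theorem kOut_map (B Bf p f : ℕ) (R : List ℕ) (x : ℕ) : ∀ (n : ℕ) (ys : List ℕ) (d : ℕ),
    d < n → (mapP B Bf p f R x n ys).getD d 0 =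
      if d < ys.length then mulP B Bf p f R x (ys.getD d 0) else 0 := by
  intro n
  induction n with
  | zero =>
    intro ys d hd
    omega
  | succ n ih =>
    intro ys d hd
    cases ys with
    | nil =>
      have h : mapP B Bf p f R x (n + 1) [] = [] := rfl
      rw [h, if_neg (by simp)]
      cases d <;> rfl
    | cons y ys =>
      have h : mapP B Bf p f R x (n + 1) (y :: ys) =
          mulP B Bf p f R x y :: mapP B Bf p f R x n ys := rfl
      rw [h]
      cases d with
      | zero =>
        rw [List.getD_cons_zero, List.getD_cons_zero, if_pos (by rw [List.length_cons]; omega)]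
      | succ d =>
        rw [List.getD_cons_succ, List.getD_cons_succ, ih ys d (by omega), List.length_cons]
        by_cases hd2 : d < ys.length
        · rw [if_pos hd2, if_pos (by omega)]
        · rw [if_neg hd2, if_neg (by omega)]

/-- the state before the step at `l` -/
private def kOut_Inv {A : Type} [CommRing A] (v : A) (B p f l : ℕ) (e1 e2 e3 w : List ℕ)
    (out : List (ℕ × ℕ)) : Prop :=
  (∀ d, Rep v B f (p - 1) (e1.getD d 0) (if d + 1 ≤ l then hx v (l - 1) (l - 1 - d) else 0)) ∧
  (∀ d, Rep v B f (p - 1) (e2.getD d 0) (if d + 2 ≤ l then hx v (l - 2) (l - 2 - d) else 0)) ∧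
  (∀ d, Rep v B f (p - 1) (e3.getD d 0) (if d + 3 ≤ l then hx v (l - 3) (l - 3 - d) else 0)) ∧
  (∀ d < l / 2, Rep v B f (p - 1) (w.getD d 0)
    (te v (l - 1 - d) * ∏ i ∈ Ioo (l - 1 - d) l, xe v i)) ∧
  out.length = l - 1 ∧ ∀ i, 1 ≤ i → i ≤ l - 1 →
    Rep v B f (p - 1) (out.getD (l - 1 - i) (0, 0)).1 (xe v i) ∧
    Rep v B f (p - 1) (out.getD (l - 1 - i) (0, 0)).2 (te v i)

private theorem kOut_step {A : Type} [CommRing A] (p : ℕ) [Fact p.Prime] [CharP A p] (v : A)
    (B f : ℕ) (R : List ℕ) (hS : Siz B p f R) (hT : Tab v B p f R) (hRow : S_Row) (hMul : S_MulP)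
    (hRB : S_RepBasic) (hRU : S_RepUniq) (hRN : S_RepNorm) (hte : S_teRec) (hdg : S_heDiag)
    (hhx : S_hxRec) (l : ℕ) (e1 e2 e3 w : List ℕ) (out : List (ℕ × ℕ)) (hl : 2 ≤ l)
    (hlp : l ≤ 2 * p) (hI : kOut_Inv v B p f l e1 e2 e3 w out) (e : List ℕ)
    (hee : e = rowP B (B ^ f) p f R (l / 2 + 1) (l - 1) e1 e2 e3 0 0) (x : ℕ) (hx' : x = e.headD 0)
    (t : ℕ) (ht : t = normP B p f ((p - 1) * normP B p f (dotP B (B ^ f) p f R e.tail w))) :
    kOut_Inv v B p f (l + 1) e e1 e2
      (t :: (bif Nat.beq x 0 then [] else mapP B (B ^ f) p f R x (l / 2) w)) ((x, t) :: out) := by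
  obtain ⟨i1, i2, i3, i4, i5, i6⟩ := hI
  obtain ⟨b1, b2, b3, b4, b5, b6, b7⟩ := hRB A v B
  obtain ⟨y1, -⟩ := hhx A v
  have hp : 2 ≤ p := (Fact.out : p.Prime).two_le
  have hB1 : 4 * (p * p) ≤ B := by
    refine le_trans ?_ hS.1
    calc 4 * (p * p) ≤ (f + p + 4) * (p * p) := Nat.mul_le_mul_right _ (by omega)
      _ = (f + p + 4) * p * p := by ring
      _ ≤ (f + p + 4) * p * p * 4 := Nat.le_mul_of_pos_right _ (by norm_num)
  have hpp : 0 < p * p := by positivity
  have hpm : p * (p - 1) < p * p := Nat.mul_lt_mul_of_pos_left (by omega) (by omega)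
  have hpB : p - 1 < B := by
    have : p ≤ p * p := Nat.le_mul_of_pos_left p (by omega)
    omega
  have hz : ∀ a : A, Rep v B f (p - 1) 0 a → a = 0 := by
    intro a ha
    exact hRU A v B f f (p - 1) (p - 1) 0 a 0 hpB hpB ha (b1 _ _)
  have hrow := hRow A p v B f l R e1 e2 e3 hS hT hl i1 i2 i3
  rw [← hee] at hrow
  have hlen : e.length = l / 2 + 1 := by
    rw [hee]
    exact kOut_len _ _ _ _ _ _ _ _ _ _ _ _
  have htl : e.tail.length = l / 2 := by
    rw [List.length_tail, hlen]
    omega
  -- `x`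
  have hxr : Rep v B f (p - 1) x (xe v l) := by
    have h := hrow 0
    rw [if_pos (Nat.zero_le l), Nat.sub_zero] at h
    rw [hx', kOut_headD]
    have h2 : hx v l l = xe v l := by
      unfold hx
      rw [if_pos le_rfl]
      exact hdg A v l
    rw [← h2]
    exact h
  -- `t`
  have hdot := kOut_dot p v B f R hS hT hMul hRB hz e.tail w (fun d => hx v l (l - (d + 1)))
    (fun d => te v (l - 1 - d) * ∏ i ∈ Ioo (l - 1 - d) l, xe v i)
    (fun d hd => by
      rw [htl] at hd
      have h := hrow (d + 1)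
      rw [if_pos (by omega)] at h
      rw [kOut_tail]
      exact h)
    (fun d hd => by
      rw [htl] at hd
      exact i4 d hd)
  rw [htl] at hdot
  have hK1 : l / 2 * (p - 1) < B := by
    have h1 : l / 2 ≤ p := by omega
    have h2 : l / 2 * (p - 1) ≤ p * (p - 1) := Nat.mul_le_mul_right _ h1
    omega
  have hd1 := hRN A p v B f _ _ _ hK1 hdot
  have hd2 := b5 _ _ _ _ (p - 1) hd1
  have hK2 : (p - 1) * (p - 1) < B := by
    have h2 : (p - 1) * (p - 1) ≤ p * (p - 1) := Nat.mul_le_mul_right _ (by omega)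
    omega
  have hd3 := hRN A p v B f _ _ _ hK2 hd2
  rw [← ht] at hd3
  have hp1 : ((p - 1 : ℕ) : A) = -1 := by
    rw [Nat.cast_sub (by omega), CharP.cast_eq_zero A p]
    simp
  have htv : ((p - 1 : ℕ) : A) * ∑ d ∈ range (l / 2), hx v l (l - (d + 1)) *
      (te v (l - 1 - d) * ∏ i ∈ Ioo (l - 1 - d) l, xe v i) = te v l := by
    have href : ∑ s ∈ range l, he v l s * te v s * ∏ i ∈ Ioo s l, xe v i =
        ∑ j ∈ range l, he v l (l - 1 - j) * te v (l - 1 - j) *
        ∏ i ∈ Ioo (l - 1 - j) l, xe v i :=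
      (Finset.sum_range_reflect (fun s => he v l s * te v s * ∏ i ∈ Ioo s l, xe v i) l).symm
    rw [hp1, hte A v l hl, href]
    have h1 : ∑ j ∈ range l, he v l (l - 1 - j) * te v (l - 1 - j) *
        ∏ i ∈ Ioo (l - 1 - j) l, xe v i =
        ∑ j ∈ range (l / 2), he v l (l - 1 - j) * te v (l - 1 - j) *
        ∏ i ∈ Ioo (l - 1 - j) l, xe v i := by
      symm
      apply Finset.sum_subset
      · intro j hj
        rw [Finset.mem_range] at hj ⊢
        omega
      · intro j hj hj'
        rw [Finset.mem_range] at hj hj'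
        have h2 : he v l (l - 1 - j) = 0 := by
          have h3 := y1 l (l - 1 - j) (by omega)
          unfold hx at h3
          rwa [if_pos (by omega)] at h3
        rw [h2, zero_mul, zero_mul]
    rw [h1, neg_one_mul]
    congr 1
    refine Finset.sum_congr rfl (fun j hj => ?_)
    rw [Finset.mem_range] at hj
    have h2 : hx v l (l - (j + 1)) = he v l (l - 1 - j) := by
      unfold hx
      rw [if_pos (by omega)]
      congr 1
      omega
    rw [h2]
    ring
  rw [htv] at hd3
  refine ⟨?_, ?_, ?_, ?_, ?_, ?_⟩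
  · intro d
    have h := hrow d
    by_cases hd : d ≤ l
    · rw [if_pos hd] at h
      rw [if_pos (by omega), Nat.add_sub_cancel]
      exact h
    · rw [if_neg hd] at h
      rw [if_neg (by omega)]
      exact h
  · intro d
    have h := i1 d
    have h5 : l + 1 - 2 = l - 1 := by omega
    by_cases hd : d + 1 ≤ l
    · rw [if_pos hd] at h
      rw [if_pos (by omega), h5]
      exact h
    · rw [if_neg hd] at h
      rw [if_neg (by omega)]
      exact h
  · intro d
    have h := i2 d
    have h5 : l + 1 - 3 = l - 2 := by omega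
    by_cases hd : d + 2 ≤ l
    · rw [if_pos hd] at h
      rw [if_pos (by omega), h5]
      exact h
    · rw [if_neg hd] at h
      rw [if_neg (by omega)]
      exact h
  · intro d hd
    cases d with
    | zero =>
      rw [List.getD_cons_zero, Nat.add_sub_cancel, Nat.sub_zero]
      have h5 : Ioo l (l + 1) = ∅ := by
        ext i
        rw [Finset.mem_Ioo]
        constructor
        · intro h
          omega
        · intro h
          exact absurd h (Finset.notMem_empty i)
      rw [h5, Finset.prod_empty, mul_one]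
      exact hd3
    | succ d =>
      rw [List.getD_cons_succ]
      have hdl : d < l / 2 := by omega
      have h5 : l + 1 - 1 - (d + 1) = l - 1 - d := by omega
      have h6 : Ioo (l - 1 - d) (l + 1) = insert l (Ioo (l - 1 - d) l) := by
        ext i
        rw [Finset.mem_insert, Finset.mem_Ioo, Finset.mem_Ioo]
        omega
      have h7 : l ∉ Ioo (l - 1 - d) l := by
        rw [Finset.mem_Ioo]
        omega
      rw [h5, h6, Finset.prod_insert h7]
      have h8 : te v (l - 1 - d) * (xe v l * ∏ i ∈ Ioo (l - 1 - d) l, xe v i) =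
          xe v l * (te v (l - 1 - d) * ∏ i ∈ Ioo (l - 1 - d) l, xe v i) := by ring
      rw [h8]
      by_cases hx0 : x = 0
      · have h9 : xe v l = 0 := by
          apply hz
          rw [← hx0]
          exact hxr
        have h10 : (bif Nat.beq x 0 then [] else mapP B (B ^ f) p f R x (l / 2) w) = [] := by
          rw [hx0]
          rfl
        rw [h10, h9, zero_mul]
        have h11 : ([] : List ℕ).getD d 0 = 0 := by cases d <;> rfl
        rw [h11]
        exact b1 _ _
      · have h10 : (bif Nat.beq x 0 then [] else mapP B (B ^ f) p f R x (l / 2) w) =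
            mapP B (B ^ f) p f R x (l / 2) w := by
          have h11 : Nat.beq x 0 = false := by
            rcases h12 : Nat.beq x 0 with _ | _
            · rfl
            · exact absurd (Nat.eq_of_beq_eq_true h12) hx0
          rw [h11]
          rfl
        rw [h10, kOut_map _ _ _ _ _ _ _ _ _ hdl]
        have h11 := i4 d hdl
        by_cases hdw : d < w.length
        · rw [if_pos hdw]
          exact hMul A p v B f x (w.getD d 0) R _ _ hS hT hxr h11
        · rw [if_neg hdw]
          rw [List.getD_eq_default w 0 (by omega)] at h11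
          rw [hz _ h11, mul_zero]
          exact b1 _ _
  · rw [List.length_cons, i5]
    omega
  · intro i hi1 hi2
    rw [Nat.add_sub_cancel] at hi2 ⊢
    by_cases hil : i = l
    · rw [hil, Nat.sub_self, List.getD_cons_zero]
      exact ⟨hxr, hd3⟩
    · obtain ⟨k, hk⟩ : ∃ k, l - i = k + 1 := ⟨l - i - 1, by omega⟩
      have hk2 : l - 1 - i = k := by omega
      rw [hk, List.getD_cons_succ, ← hk2]
      exact i6 i hi1 (by omega)

private theorem kOut_loop {A : Type} [CommRing A] (p : ℕ) [Fact p.Prime] [CharP A p] (v : A)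
    (B f : ℕ) (R : List ℕ) (hS : Siz B p f R) (hT : Tab v B p f R) (hRow : S_Row) (hMul : S_MulP)
    (hRB : S_RepBasic) (hRU : S_RepUniq) (hRN : S_RepNorm) (hte : S_teRec) (hdg : S_heDiag)
    (hhx : S_hxRec) : ∀ (n l : ℕ) (e1 e2 e3 w : List ℕ) (out : List (ℕ × ℕ)), 2 ≤ l →
      l + n ≤ 2 * p + 1 → kOut_Inv v B p f l e1 e2 e3 w out →
      (stepP B (B ^ f) p f R n l e1 e2 e3 w out).length = l - 1 + n ∧
      ∀ i, 1 ≤ i → i ≤ l - 1 + n →
        Rep v B f (p - 1) ((stepP B (B ^ f) p f R n l e1 e2 e3 w out).getD (l - 1 + n - i)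
          (0, 0)).1 (xe v i) ∧
        Rep v B f (p - 1) ((stepP B (B ^ f) p f R n l e1 e2 e3 w out).getD (l - 1 + n - i)
          (0, 0)).2 (te v i) := by
  intro n
  induction n with
  | zero =>
    intro l e1 e2 e3 w out hl hn hI
    have h : stepP B (B ^ f) p f R 0 l e1 e2 e3 w out = out := rfl
    rw [h, Nat.add_zero]
    exact hI.2.2.2.2
  | succ n ih =>
    intro l e1 e2 e3 w out hl hn hI
    obtain ⟨e, hee⟩ : ∃ e, e = rowP B (B ^ f) p f R (l / 2 + 1) (l - 1) e1 e2 e3 0 0 := ⟨_, rfl⟩
    obtain ⟨x, hx'⟩ : ∃ x, x = e.headD 0 := ⟨_, rfl⟩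
    obtain ⟨t, ht⟩ : ∃ t, t =
      normP B p f ((p - 1) * normP B p f (dotP B (B ^ f) p f R e.tail w)) := ⟨_, rfl⟩
    have h : stepP B (B ^ f) p f R (n + 1) l e1 e2 e3 w out =
        stepP B (B ^ f) p f R n (l + 1) e e1 e2
          (t :: (bif Nat.beq x 0 then [] else mapP B (B ^ f) p f R x (l / 2) w))
          ((x, t) :: out) := by
      rw [ht, hx', hee]
      rfl
    have h1 := kOut_step p v B f R hS hT hRow hMul hRB hRU hRN hte hdg hhx l e1 e2 e3 w out hl
      (by omega) hI e hee x hx' t ht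
    have h2 := ih (l + 1) e e1 e2 _ _ (by omega) (by omega) h1
    rw [← h] at h2
    have h3 : l + 1 - 1 + n = l - 1 + (n + 1) := by omega
    rw [h3] at h2
    exact h2

theorem c_Out (hRow : S_Row) (hMul : S_MulP) (hRB : S_RepBasic) (hRU : S_RepUniq)
    (hRN : S_RepNorm) (hte : S_teRec) (hdg : S_heDiag) (hxr : S_xeRec) (hhx : S_hxRec) :
    S_Out := by
  intro A _ p _ _ v B f m R hS hT hm1 hm2
  obtain ⟨b1, b2, b3, b4, b5, b6, b7⟩ := hRB A v B
  obtain ⟨y1, y2, y3, y4, y5, y6⟩ := hhx A v
  obtain ⟨z1, z2, z3⟩ := hxr A v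
  have hp : 2 ≤ p := (Fact.out : p.Prime).two_le
  have r1 : Rep v B f (p - 1) 1 1 := b2 f (p - 1) hS.2.1 (by omega)
  have hte1 : te v 1 = 1 := by
    unfold te
    rfl
  have h0 : ∀ d, 1 ≤ d → ([1] : List ℕ).getD d 0 = 0 := by
    intro d hd
    obtain ⟨k, rfl⟩ : ∃ k, d = k + 1 := ⟨d - 1, by omega⟩
    rw [List.getD_cons_succ]
    cases k <;> rfl
  have hI : kOut_Inv v B p f 2 [1] [1] [] [1] [(1, 1)] := by
    refine ⟨?_, ?_, ?_, ?_, rfl, ?_⟩
    · intro d
      rcases Nat.lt_or_ge d 1 with hd | hd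
      · have : d = 0 := by omega
        subst this
        rw [if_pos (by norm_num), List.getD_cons_zero]
        have h1 : hx v (2 - 1) (2 - 1 - 0) = 1 := y4
        rw [h1]
        exact r1
      · rw [h0 d hd]
        have h1 : (if d + 1 ≤ 2 then hx v (2 - 1) (2 - 1 - d) else 0) = 0 := by
          by_cases hd2 : d + 1 ≤ 2
          · rw [if_pos hd2]
            exact y1 _ _ (by omega)
          · rw [if_neg hd2]
        rw [h1]
        exact b1 _ _
    · intro d
      rcases Nat.lt_or_ge d 1 with hd | hd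
      · have : d = 0 := by omega
        subst this
        rw [if_pos (by norm_num), List.getD_cons_zero]
        have h1 : hx v (2 - 2) (2 - 2 - 0) = 1 := y3
        rw [h1]
        exact r1
      · rw [h0 d hd, if_neg (by omega)]
        exact b1 _ _
    · intro d
      rw [if_neg (by omega)]
      have h1 : ([] : List ℕ).getD d 0 = 0 := by cases d <;> rfl
      rw [h1]
      exact b1 _ _
    · intro d hd
      have : d = 0 := by omega
      subst this
      rw [List.getD_cons_zero]
      have h1 : Ioo (2 - 1 - 0) 2 = ∅ := by decide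
      have h2 : (2 - 1 - 0 : ℕ) = 1 := rfl
      rw [h1, h2, Finset.prod_empty, mul_one, hte1]
      exact r1
    · intro i hi1 hi2
      have : i = 1 := by omega
      subst this
      have h1 : ([(1, 1)] : List (ℕ × ℕ)).getD (2 - 1 - 1) (0, 0) = (1, 1) := rfl
      rw [h1, z2, hte1]
      exact ⟨r1, r1⟩
  have h := kOut_loop p v B f R hS hT hRow hMul hRB hRU hRN hte hdg hhx (m - 1) 2 [1] [1] [] [1]
    [(1, 1)] le_rfl (by omega) hI
  have h2 : 2 - 1 + (m - 1) = m := by omega
  rw [h2] at h
  exact h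

end Orch
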