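import Pool.Agent.Lib.Orch.Chk

/-! Stored numbers: reduction by the table and multiplication. -/

namespace Orch

open Finset

private lemma KRed_cons_eq (B p r : ℕ) (R : List ℕ) (q acc : ℕ) :
    redT B p (r :: R) q acc = redT B p R (q / B) (acc + q % B % p * r) := rfl

private lemma KRed_zero {A : Type} [CommRing A] (v : A) (B K N : ℕ) (a : A)
    (h : Rep v B 0 K N a) : a = 0 := by
  obtain ⟨P, h1, h2, h3, h4⟩ := h
  have hP : P = 0 := by
    ext i
    simpa using h1 i (Nat.zero_le _)
  rw [← h4, hP, Polynomial.eval₂_zero]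

private lemma KRed_gen (hS : S_RepSplit) (hB : S_RepBasic) {A : Type} [CommRing A] (p : ℕ)
    (hp : 0 < p) [CharP A p] (v : A) (B f K : ℕ) (hK : K < B) (R : List ℕ) :
    ∀ (s : ℕ), (∀ k < R.length, Rep v B f (p - 1) (R.getD k 0) (v ^ (f + s + k))) →
    ∀ (n K' q acc : ℕ) (a0 a1 : A), n ≤ R.length → Rep v B n K q a1 → Rep v B f K' acc a0 →
    Rep v B f (K' + R.length * (p * p)) (redT B p R q acc) (a0 + v ^ (f + s) * a1) := by
  obtain ⟨b1, b2, b3, b4, b5, b6, b7⟩ := hB A v B
  induction R with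
  | nil =>
    intro s _ n K' q acc a0 a1 hn hq hacc
    have hn0 : n = 0 := by simpa using hn
    subst hn0
    rw [KRed_zero v B K q a1 hq, mul_zero, add_zero]
    have e : redT B p [] q acc = acc := rfl
    rw [e, List.length_nil, zero_mul, add_zero]
    exact hacc
  | cons r R ih =>
    intro s hT n K' q acc a0 a1 hn hq hacc
    have hq' : Rep v B (1 + R.length) K q a1 :=
      b3 _ _ _ _ _ _ (by simpa [add_comm] using hn) le_rfl hq
    obtain ⟨c0, c1, hc0, hc1, rfl⟩ := hS A v B R.length 1 K q a1 hK hq'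
    rw [pow_one] at hc0 hc1 ⊢
    -- the lowest digit
    have hd : c0 = ((q % B : ℕ) : A) := by
      obtain ⟨P, h1, h2, h3, h4⟩ := hc0
      have hP : P = Polynomial.C (P.coeff 0) := by
        ext i
        rcases i with _ | i
        · simp
        · rw [h1 _ (by omega), Polynomial.coeff_C, if_neg (by omega)]
      rw [hP, Polynomial.eval₂_C] at h4
      rw [hP, Polynomial.eval_C] at h3
      rw [← h4, ← h3]
      simp
    have hr : Rep v B f (p - 1) r (v ^ (f + s)) := by
      have := hT 0 (by simp)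
      simpa using this
    have e1 : ((q % B % p : ℕ) : A) = c0 := by
      rw [hd]
      exact (CharP.cast_eq_mod A p (q % B)).symm
    have h1 := b5 f (p - 1) r (v ^ (f + s)) (q % B % p) hr
    rw [e1] at h1
    have h2 := b4 f K' _ acc _ a0 _ hacc h1
    have hlt : q % B % p < p := Nat.mod_lt _ hp
    have h3 := b3 f f _ (K' + p * p) _ _ le_rfl
      (Nat.add_le_add_left (Nat.mul_le_mul hlt.le (Nat.sub_le p 1)) K') h2
    have hT' : ∀ k < R.length, Rep v B f (p - 1) (R.getD k 0) (v ^ (f + (s + 1) + k)) := by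
      intro k hk
      have := hT (k + 1) (by simpa using hk)
      have e : f + s + (k + 1) = f + (s + 1) + k := by omega
      rw [e] at this
      simpa using this
    have h4 := ih (s + 1) hT' R.length (K' + p * p) (q / B) _ _ c1 le_rfl hc1 h3
    rw [KRed_cons_eq]
    have e2 : K' + (r :: R).length * (p * p) = K' + p * p + R.length * (p * p) := by
      rw [List.length_cons]
      ring
    have e3 : a0 + v ^ (f + s) * (c0 + v * c1) =
        a0 + c0 * v ^ (f + s) + v ^ (f + (s + 1)) * c1 := by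
      rw [← add_assoc f s 1, pow_succ]
      ring
    rw [e2, e3]
    exact h4

theorem c_RepRed (hS : S_RepSplit) (hB : S_RepBasic) : S_RepRed := by
  intro A _ p hp _ v B f n K K' q acc R a0 a1 hK hT hn hq hacc
  have := KRed_gen hS hB p hp.out.pos v B f K hK R 0
    (fun k hk => by simpa using hT k hk) n K' q acc a0 a1 hn hq hacc
  simpa using this

theorem c_Rd (hB : S_RepBasic) (hS : S_RepSplit) (hN : S_RepNorm) (hR : S_RepRed) : S_Rd := by
  intro A _ p hp _ v B f n K P R a hK hT hn h
  have hK' : K < B := lt_of_le_of_lt (Nat.le_add_right _ _) hK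
  have h' : Rep v B (f + R.length) K P a := (hB A v B).2.2.1 _ _ _ _ _ _ hn le_rfl h
  obtain ⟨a0, a1, h0, h1, rfl⟩ := hS A v B R.length f K P a hK' h'
  have h2 := hR A p v B f R.length K K (P / B ^ f) (P % B ^ f) R a0 a1 hK' hT le_rfl h1 h0
  exact hN A p v B f (K + R.length * (p * p)) _ _ hK h2

theorem c_MulP (hB : S_RepBasic) (hRd : S_Rd) : S_MulP := by
  intro A _ p hp _ v B f M N R a b hSz hT ha hb
  obtain ⟨s1, s2, s3, s4, s5⟩ := hSz
  have hp2 : 2 ≤ p := hp.out.two_le
  have h := (hB A v B).2.2.2.2.2.2 f f (p - 1) (p - 1) M N a b ha hb s2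
  refine hRd A p v B f (f + f - 1) (f * ((p - 1) * (p - 1))) (M * N) R (a * b) ?_ hT (by omega) h
  have h1 : f * ((p - 1) * (p - 1)) ≤ f * (p * p) :=
    Nat.mul_le_mul_left _ (Nat.mul_le_mul (Nat.sub_le _ _) (Nat.sub_le _ _))
  have h2 : R.length * (p * p) ≤ (f + 1) * (p * p) := Nat.mul_le_mul_right _ s5
  have h3 : 4 ≤ p * p := Nat.mul_le_mul hp2 hp2
  have h4 : f * (p * p) + (f + 1) * (p * p) < (f + p + 4) * p * p * 4 := by
    nlinarith [Nat.zero_le (f * (p * p)), Nat.zero_le (p * (p * p))]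
  omega

end Orch
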