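import Pool.Agent.Lib.Orch.Chk

/-! Stored numbers: basic operations and uniqueness. -/

namespace Orch

open Finset

private lemma KRep_mul_coeff_zero (P Q : Polynomial ℕ) (n n' : ℕ)
    (hP : ∀ i, n ≤ i → P.coeff i = 0) (hQ : ∀ i, n' ≤ i → Q.coeff i = 0) (hn' : 1 ≤ n')
    (i : ℕ) (hi : n + n' - 1 ≤ i) : (P * Q).coeff i = 0 := by
  rw [Polynomial.coeff_mul]
  apply Finset.sum_eq_zero
  rintro ⟨x, y⟩ hxy
  rw [Finset.HasAntidiagonal.mem_antidiagonal] at hxy
  simp only at hxy ⊢
  by_cases hx : n ≤ x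
  · rw [hP x hx, zero_mul]
  · rw [hQ y (by omega), mul_zero]

private lemma KRep_mul_coeff_le (P Q : Polynomial ℕ) (n K K' : ℕ)
    (hP : ∀ i, n ≤ i → P.coeff i = 0) (hPK : ∀ i, P.coeff i ≤ K) (hQK : ∀ i, Q.coeff i ≤ K')
    (i : ℕ) : (P * Q).coeff i ≤ n * (K * K') := by
  rw [Polynomial.coeff_mul, Finset.Nat.sum_antidiagonal_eq_sum_range_succ_mk]
  calc ∑ x ∈ range i.succ, P.coeff (x, i - x).1 * Q.coeff (x, i - x).2
      ≤ ∑ x ∈ range i.succ, (if x < n then K * K' else 0) := by
        apply Finset.sum_le_sum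
        intro x _
        by_cases hx : x < n
        · rw [if_pos hx]
          exact Nat.mul_le_mul (hPK x) (hQK _)
        · rw [if_neg hx]
          simp only
          rw [hP x (by omega), zero_mul]
    _ = ((range i.succ).filter (fun x => x < n)).card * (K * K') := by
        rw [← Finset.sum_filter, Finset.sum_const, smul_eq_mul]
    _ ≤ n * (K * K') := by
        apply Nat.mul_le_mul_right
        calc ((range i.succ).filter (fun x => x < n)).card ≤ (range n).card := by
              apply Finset.card_le_card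
              intro x hx
              rw [Finset.mem_filter] at hx
              exact Finset.mem_range.mpr hx.2
          _ = n := Finset.card_range n

theorem c_RepBasic : S_RepBasic := by
  intro A _ v B
  refine ⟨?_, ?_, ?_, ?_, ?_, ?_, ?_⟩
  · intro n K
    exact ⟨0, by simp, by simp, by simp, by simp⟩
  · intro n K hn hK
    refine ⟨1, ?_, ?_, by simp, by simp⟩
    · intro i hi
      rw [Polynomial.coeff_one, if_neg (by omega)]
    · intro i
      rw [Polynomial.coeff_one]
      split_ifs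
      · exact hK
      · exact Nat.zero_le _
  · rintro n n' K K' N a hn hK ⟨P, h1, h2, h3, h4⟩
    exact ⟨P, fun i hi => h1 i (hn.trans hi), fun i => (h2 i).trans hK, h3, h4⟩
  · rintro n K K' N N' a a' ⟨P, h1, h2, h3, h4⟩ ⟨Q, g1, g2, g3, g4⟩
    refine ⟨P + Q, ?_, ?_, ?_, ?_⟩
    · intro i hi
      rw [Polynomial.coeff_add, h1 i hi, g1 i hi]
    · intro i
      rw [Polynomial.coeff_add]
      exact Nat.add_le_add (h2 i) (g2 i)
    · rw [Polynomial.eval_add, h3, g3]
    · rw [Polynomial.eval₂_add, h4, g4]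
  · rintro n K N a c ⟨P, h1, h2, h3, h4⟩
    refine ⟨Polynomial.C c * P, ?_, ?_, ?_, ?_⟩
    · intro i hi
      rw [Polynomial.coeff_C_mul, h1 i hi, mul_zero]
    · intro i
      rw [Polynomial.coeff_C_mul]
      exact Nat.mul_le_mul_left c (h2 i)
    · rw [Polynomial.eval_mul, Polynomial.eval_C, h3]
    · rw [Polynomial.eval₂_mul, Polynomial.eval₂_C, h4]
      simp
  · rintro n K N a ⟨P, h1, h2, h3, h4⟩
    refine ⟨Polynomial.X * P, ?_, ?_, ?_, ?_⟩
    · intro i hi
      obtain ⟨j, rfl⟩ : ∃ j, i = j + 1 := ⟨i - 1, by omega⟩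
      rw [Polynomial.coeff_X_mul, h1 j (by omega)]
    · intro i
      rcases i with _ | j
      · rw [Polynomial.coeff_X_mul_zero]
        exact Nat.zero_le _
      · rw [Polynomial.coeff_X_mul]
        exact h2 j
    · rw [Polynomial.eval_mul, Polynomial.eval_X, h3]
    · rw [Polynomial.eval₂_mul, Polynomial.eval₂_X, h4]
  · rintro n n' K K' N N' a a' ⟨P, h1, h2, h3, h4⟩ ⟨Q, g1, g2, g3, g4⟩ hn'
    refine ⟨P * Q, ?_, ?_, ?_, ?_⟩
    · exact KRep_mul_coeff_zero P Q n n' h1 g1 hn'
    · exact KRep_mul_coeff_le P Q n K K' h1 h2 g2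
    · rw [Polynomial.eval_mul, h3, g3]
    · rw [Polynomial.eval₂_mul, h4, g4]

private lemma KRep_uniq (B : ℕ) (n : ℕ) : ∀ P Q : Polynomial ℕ,
    (∀ i, n ≤ i → P.coeff i = 0) → (∀ i, n ≤ i → Q.coeff i = 0) → (∀ i, P.coeff i < B) →
    (∀ i, Q.coeff i < B) → P.eval B = Q.eval B → P = Q := by
  induction n with
  | zero =>
    intro P Q hP hQ _ _ _
    ext i
    rw [hP i (Nat.zero_le _), hQ i (Nat.zero_le _)]
  | succ n ih =>
    intro P Q hP hQ hPB hQB h
    have eP := Polynomial.divX_mul_X_add P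
    have eQ := Polynomial.divX_mul_X_add Q
    have hP' : P.eval B = P.divX.eval B * B + P.coeff 0 := by
      conv_lhs => rw [← eP]
      simp
    have hQ' : Q.eval B = Q.divX.eval B * B + Q.coeff 0 := by
      conv_lhs => rw [← eQ]
      simp
    have hB : 0 < B := lt_of_le_of_lt (Nat.zero_le _) (hPB 0)
    rw [hP', hQ'] at h
    have h0 : P.coeff 0 = Q.coeff 0 := by
      have h2 : (P.divX.eval B * B + P.coeff 0) % B = (Q.divX.eval B * B + Q.coeff 0) % B := by
        rw [h]
      rw [Nat.mul_add_mod', Nat.mul_add_mod', Nat.mod_eq_of_lt (hPB 0),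
        Nat.mod_eq_of_lt (hQB 0)] at h2
      exact h2
    have h1 : P.divX.eval B = Q.divX.eval B := by
      rw [h0] at h
      exact Nat.eq_of_mul_eq_mul_right hB (Nat.add_right_cancel h)
    have h2 : P.divX = Q.divX := by
      apply ih
      · intro i hi
        rw [Polynomial.coeff_divX]
        exact hP _ (by omega)
      · intro i hi
        rw [Polynomial.coeff_divX]
        exact hQ _ (by omega)
      · intro i
        rw [Polynomial.coeff_divX]
        exact hPB _
      · intro i
        rw [Polynomial.coeff_divX]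
        exact hQB _
      · exact h1
    rw [← eP, ← eQ, h2, h0]

theorem c_RepUniq : S_RepUniq := by
  intro A _ v B n n' K K' N a a' hK hK' h h'
  obtain ⟨P, h1, h2, h3, h4⟩ := h
  obtain ⟨Q, g1, g2, g3, g4⟩ := h'
  have e : P = Q := by
    apply KRep_uniq B (max n n') P Q
    · intro i hi
      exact h1 i ((le_max_left _ _).trans hi)
    · intro i hi
      exact g1 i ((le_max_right _ _).trans hi)
    · intro i
      exact (h2 i).trans_lt hK
    · intro i
      exact (g2 i).trans_lt hK'
    · rw [h3, g3]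
  rw [← h4, ← g4, e]

end Orch
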