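import Pool.Agent.Lib.Orch.Chk

/-!
The recursion of the `h_{ℓ,s}` and the correctness of `rowP`.
-/

namespace Orch

open Finset

private theorem kRow_coeff {A : Type} [CommRing A] (v : A) (s l : ℕ) :
    (HP v (s + 2)).coeff (l + 3) = (HP v (s + 1)).coeff (l + 2) - (HP v (s + 1)).coeff (l + 1)
      - 2 * ((s + 1 : ℕ) : A) * v * ((HP v s).coeff (l + 1) - (HP v s).coeff l) := by
  have h : HP v (s + 2) = (Polynomial.X - Polynomial.X ^ 2) * HP v (s + 1) -
      Polynomial.C (2 * ((s + 1 : ℕ) : A) * v) * (Polynomial.X ^ 2 - Polynomial.X ^ 3) * HP v s := rfl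
  have h1 : (Polynomial.X * HP v (s + 1)).coeff (l + 3) = (HP v (s + 1)).coeff (l + 2) :=
    Polynomial.coeff_X_mul _ _
  have h2 : (Polynomial.X ^ 2 * HP v (s + 1)).coeff (l + 3) = (HP v (s + 1)).coeff (l + 1) := by
    have := Polynomial.coeff_X_pow_mul (HP v (s + 1)) 2 (l + 1)
    exact this
  have h3 : (Polynomial.X ^ 2 * HP v s).coeff (l + 3) = (HP v s).coeff (l + 1) := by
    have := Polynomial.coeff_X_pow_mul (HP v s) 2 (l + 1)
    exact this
  have h4 : (Polynomial.X ^ 3 * HP v s).coeff (l + 3) = (HP v s).coeff l := by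
    have := Polynomial.coeff_X_pow_mul (HP v s) 3 l
    exact this
  rw [h, Polynomial.coeff_sub, sub_mul, Polynomial.coeff_sub, h1, h2, mul_assoc,
    Polynomial.coeff_C_mul, sub_mul, Polynomial.coeff_sub, h3, h4]

theorem c_hxRec (hHPc : S_HPc) : S_hxRec := by
  intro A _ v
  have hx1 : ∀ l s, hx v l s = (HP v s).coeff l := by
    intro l s
    rw [hHPc A v s l]
    rfl
  have e0 : HP v 0 = 1 := rfl
  have e1 : HP v 1 = Polynomial.X - Polynomial.X ^ 2 := rfl
  refine ⟨?_, ?_, ?_, ?_, ?_, ?_⟩
  · have hk : ∀ s, (∀ l, 2 * s < l → (HP v s).coeff l = 0) ∧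
        (∀ l, 2 * (s + 1) < l → (HP v (s + 1)).coeff l = 0) := by
      intro s
      induction s with
      | zero =>
        constructor
        · intro l hl
          rw [e0, Polynomial.coeff_one, if_neg (by omega)]
        · intro l hl
          rw [zero_add, e1, Polynomial.coeff_sub, Polynomial.coeff_X, Polynomial.coeff_X_pow,
            if_neg (by omega), if_neg (by omega), sub_zero]
      | succ s ih =>
        refine ⟨ih.2, ?_⟩
        intro l hl
        obtain ⟨l', rfl⟩ : ∃ l', l = l' + 3 := ⟨l - 3, by omega⟩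
        have h := kRow_coeff v s l'
        have h' : HP v (s + 1 + 1) = HP v (s + 2) := rfl
        rw [h', h, ih.2 (l' + 2) (by omega), ih.2 (l' + 1) (by omega), ih.1 (l' + 1) (by omega),
          ih.1 l' (by omega)]
        ring
    intro l s hl
    rw [hx1]
    exact (hk s).1 l hl
  · intro l s
    rw [hx1, hx1, hx1, hx1, hx1]
    exact kRow_coeff v s l
  · rw [hx1, e0, Polynomial.coeff_one_zero]
  · rw [hx1, e1, Polynomial.coeff_sub, Polynomial.coeff_X_one, Polynomial.coeff_X_pow,
      if_neg (by norm_num), sub_zero]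
  · have e2 : HP v 2 = (Polynomial.X - Polynomial.X ^ 2) * (Polynomial.X - Polynomial.X ^ 2) -
        Polynomial.C (2 * ((0 + 1 : ℕ) : A) * v) * (Polynomial.X ^ 2 - Polynomial.X ^ 3) * 1 := rfl
    rw [hx1, e2]
    have h1 : ((Polynomial.X - Polynomial.X ^ 2) * (Polynomial.X - Polynomial.X ^ 2) -
        Polynomial.C (2 * ((0 + 1 : ℕ) : A) * v) * (Polynomial.X ^ 2 - Polynomial.X ^ 3) * 1 :
          Polynomial A) =
        Polynomial.X ^ 2 * ((1 - Polynomial.X) ^ 2 -
          Polynomial.C (2 * ((0 + 1 : ℕ) : A) * v) * (1 - Polynomial.X)) := by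
      ring
    rw [h1]
    have h2 := Polynomial.coeff_X_pow_mul ((1 - Polynomial.X) ^ 2 -
          Polynomial.C (2 * ((0 + 1 : ℕ) : A) * v) * (1 - Polynomial.X) : Polynomial A) 2 0
    rw [zero_add] at h2
    rw [h2, Polynomial.coeff_zero_eq_eval_zero]
    simp
  · rw [hx1, e1, Polynomial.coeff_sub, Polynomial.coeff_X, Polynomial.coeff_X_pow,
      if_neg (by norm_num), if_pos rfl, zero_sub]

private theorem kRow_headD (l : List ℕ) : l.headD 0 = l.getD 0 0 := by
  cases l <;> rfl

private theorem kRow_tail (l : List ℕ) (d : ℕ) : l.tail.getD d 0 = l.getD (d + 1) 0 := by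
  cases l <;> rfl

private theorem kRow_get (B Bf p f : ℕ) (R : List ℕ) :
    ∀ (n m : ℕ) (e1 e2 e3 : List ℕ) (y2 y3 d : ℕ),
      (rowP B Bf p f R n m e1 e2 e3 y2 y3).getD d 0 =
        if d < n then normP B p f (e1.getD d 0 + (p - 1) * (if d = 0 then y2 else e2.getD (d - 1) 0) +
          (p - 2 * (m - d) % p) * rdP B Bf p f R
            (B * (e2.getD d 0 + (p - 1) * (if d = 0 then y3 else e3.getD (d - 1) 0)))) else 0 := by
  intro n
  induction n with
  | zero =>
    intro m e1 e2 e3 y2 y3 d
    rw [if_neg (by omega)]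
    rfl
  | succ n ih =>
    intro m e1 e2 e3 y2 y3 d
    have h : rowP B Bf p f R (n + 1) m e1 e2 e3 y2 y3 =
        normP B p f (e1.headD 0 + (p - 1) * y2 + (p - 2 * m % p) *
          rdP B Bf p f R (B * (e2.headD 0 + (p - 1) * y3))) ::
        rowP B Bf p f R n (m - 1) e1.tail e2.tail e3.tail (e2.headD 0) (e3.headD 0) := rfl
    rw [h]
    cases d with
    | zero =>
      rw [if_pos (by omega), List.getD_cons_zero, kRow_headD, kRow_headD, if_pos rfl, if_pos rfl,
        Nat.sub_zero]
    | succ d =>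
      rw [List.getD_cons_succ, ih]
      have h1 : (if d = 0 then e2.headD 0 else e2.tail.getD (d - 1) 0) = e2.getD d 0 := by
        by_cases hd : d = 0
        · rw [if_pos hd, kRow_headD, hd]
        · rw [if_neg hd, kRow_tail]
          congr 1
          omega
      have h2 : (if d = 0 then e3.headD 0 else e3.tail.getD (d - 1) 0) = e3.getD d 0 := by
        by_cases hd : d = 0
        · rw [if_pos hd, kRow_headD, hd]
        · rw [if_neg hd, kRow_tail]
          congr 1
          omega
      rw [h1, h2, kRow_tail, kRow_tail, if_neg (Nat.succ_ne_zero d), if_neg (Nat.succ_ne_zero d)]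
      have h3 : m - 1 - d = m - (d + 1) := by omega
      have h4 : d + 1 - 1 = d := by omega
      rw [h3, h4]
      by_cases hd : d < n
      · rw [if_pos hd, if_pos (by omega)]
      · rw [if_neg hd, if_neg (by omega)]

theorem c_Row (hhx : S_hxRec) (hRB : S_RepBasic) (hRN : S_RepNorm) (hRd : S_Rd) : S_Row := by
  intro A _ p _ _ v B f l R e1 e2 e3 hS hT hl h1 h2 h3 d
  obtain ⟨hB, hf1, hf2, hR1, hR2⟩ := hS
  obtain ⟨x1, x2, x3, x4, x5, x6⟩ := hhx A v
  obtain ⟨b1, b2, b3, b4, b5, b6, b7⟩ := hRB A v B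
  have hp : 2 ≤ p := (Fact.out : p.Prime).two_le
  rw [kRow_get]
  by_cases hd : d < l / 2 + 1
  · rw [if_pos hd]
    have hdl : d ≤ l := by omega
    rw [if_pos hdl]
    -- the values
    have hpp1 : (p - 1) + (p - 1) * (p - 1) ≤ p * p := by
      obtain ⟨q, rfl⟩ : ∃ q, p = q + 1 := ⟨p - 1, by omega⟩
      simp only [Nat.add_sub_cancel]
      nlinarith
    have hpp2 : (p - 1) + (p - 1) * (p - 1) + p * (p - 1) < 2 * (p * p) := by
      obtain ⟨q, rfl⟩ : ∃ q, p = q + 1 := ⟨p - 1, by omega⟩
      simp only [Nat.add_sub_cancel]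
      nlinarith
    have hBp : (f + 4) * (p * p) ≤ B := by
      refine le_trans ?_ hB
      have h5 : (f + 4) * (p * p) ≤ (f + p + 4) * (p * p) :=
        Nat.mul_le_mul_right _ (by omega)
      calc (f + 4) * (p * p) ≤ (f + p + 4) * (p * p) := h5
        _ = (f + p + 4) * p * p := by ring
        _ ≤ (f + p + 4) * p * p * 4 := Nat.le_mul_of_pos_right _ (by norm_num)
    have hK1 : (p - 1) + (p - 1) * (p - 1) + R.length * (p * p) < B := by
      have h5 : R.length * (p * p) ≤ (f + 1) * (p * p) := Nat.mul_le_mul_right _ hR2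
      have h6 : 0 < p * p := by positivity
      nlinarith
    have hK2 : (p - 1) + (p - 1) * (p - 1) + p * (p - 1) < B := by
      have h6 : 0 < p * p := by positivity
      nlinarith
    -- the neighbours
    obtain ⟨a1, ha1⟩ : ∃ a1 : A, a1 = (if d + 1 ≤ l then hx v (l - 1) (l - 1 - d) else 0) := ⟨_, rfl⟩
    obtain ⟨a2, ha2⟩ : ∃ a2 : A, a2 = (if d + 2 ≤ l then hx v (l - 2) (l - 2 - d) else 0) := ⟨_, rfl⟩
    obtain ⟨a2', ha2'⟩ : ∃ a2' : A, a2' = (if d = 0 then 0 else
      (if d - 1 + 2 ≤ l then hx v (l - 2) (l - 2 - (d - 1)) else 0)) := ⟨_, rfl⟩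
    obtain ⟨a3', ha3'⟩ : ∃ a3' : A, a3' = (if d = 0 then 0 else
      (if d - 1 + 3 ≤ l then hx v (l - 3) (l - 3 - (d - 1)) else 0)) := ⟨_, rfl⟩
    have r1 : Rep v B f (p - 1) (e1.getD d 0) a1 := by
      rw [ha1]
      exact h1 d
    have r2 : Rep v B f (p - 1) (e2.getD d 0) a2 := by
      rw [ha2]
      exact h2 d
    have r2' : Rep v B f (p - 1) (if d = 0 then 0 else e2.getD (d - 1) 0) a2' := by
      by_cases h0 : d = 0
      · rw [if_pos h0, ha2', if_pos h0]
        exact b1 _ _
      · rw [if_neg h0, ha2', if_neg h0]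
        exact h2 (d - 1)
    have r3' : Rep v B f (p - 1) (if d = 0 then 0 else e3.getD (d - 1) 0) a3' := by
      by_cases h0 : d = 0
      · rw [if_pos h0, ha3', if_pos h0]
        exact b1 _ _
      · rw [if_neg h0, ha3', if_neg h0]
        exact h3 (d - 1)
    have r4 := b6 _ _ _ _ (b4 _ _ _ _ _ _ _ r2 (b5 _ _ _ _ (p - 1) r3'))
    have r5 := hRd A p v B f (f + 1) ((p - 1) + (p - 1) * (p - 1)) _ R _ hK1 hT (by omega) r4
    obtain ⟨c, hc⟩ : ∃ c, c = p - 2 * (l - 1 - d) % p := ⟨_, rfl⟩
    have hcp : c ≤ p := by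
      rw [hc]
      exact Nat.sub_le _ _
    have r6 := b4 _ _ _ _ _ _ _ (b4 _ _ _ _ _ _ _ r1 (b5 _ _ _ _ (p - 1) r2')) (b5 _ _ _ _ c r5)
    have hK3 : (p - 1) + (p - 1) * (p - 1) + c * (p - 1) < B :=
      lt_of_le_of_lt (Nat.add_le_add_left (Nat.mul_le_mul_right _ hcp) _) hK2
    have r7 := hRN A p v B f _ _ _ hK3 r6
    rw [← hc]
    -- the value
    have hp1 : ((p - 1 : ℕ) : A) = -1 := by
      rw [Nat.cast_sub (by omega), CharP.cast_eq_zero A p]
      simp
    have hcv : (c : A) = -(2 * ((l - 1 - d : ℕ) : A)) := by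
      have h5 : 2 * (l - 1 - d) % p ≤ p := (Nat.mod_lt _ (by omega)).le
      rw [hc, Nat.cast_sub h5, CharP.cast_eq_zero A p, ← CharP.cast_eq_mod A p]
      push_cast
      ring
    have hval : a1 + ((p - 1 : ℕ) : A) * a2' + (c : A) * (v * (a2 + ((p - 1 : ℕ) : A) * a3')) =
        hx v l (l - d) := by
      rw [hp1, hcv]
      rcases Nat.lt_or_ge l 3 with hl3 | hl3
      · -- `l = 2`
        have hl2 : l = 2 := by omega
        subst hl2
        have hd2 : d = 0 ∨ d = 1 := by omega
        rcases hd2 with rfl | rfl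
        · have e : a1 = 1 := by
            rw [ha1, if_pos (by norm_num)]
            exact x4
          have e' : a2 = 1 := by
            rw [ha2, if_pos (by norm_num)]
            exact x3
          have e'' : a2' = 0 := by rw [ha2', if_pos rfl]
          have e''' : a3' = 0 := by rw [ha3', if_pos rfl]
          rw [e, e', e'', e''', Nat.sub_zero, x5]
          norm_num
          ring
        · have e : a1 = 0 := by
            rw [ha1, if_pos (by norm_num)]
            exact x1 1 0 (by norm_num)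
          have e'' : a2' = 1 := by
            rw [ha2', if_neg (by norm_num), if_pos (by norm_num)]
            exact x3
          rw [e, e'']
          have e4 : (2 - 1 - 1 : ℕ) = 0 := rfl
          have e5 : (2 - 1 : ℕ) = 1 := rfl
          rw [e4, e5, x6]
          simp
      · have hd2 : d + 2 ≤ l := by omega
        obtain ⟨l', rfl⟩ : ∃ l', l = l' + 3 := ⟨l - 3, by omega⟩
        obtain ⟨s, hs⟩ : ∃ s, l' + 3 - d = s + 2 := ⟨l' + 3 - d - 2, by omega⟩
        have e : a1 = hx v (l' + 2) (s + 1) := by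
          rw [ha1, if_pos (by omega)]
          congr 1
          omega
        have e' : a2 = hx v (l' + 1) s := by
          rw [ha2, if_pos (by omega)]
          congr 1
          omega
        have e'' : a2' = hx v (l' + 1) (s + 1) := by
          rw [ha2']
          by_cases h0 : d = 0
          · rw [if_pos h0]
            unfold hx
            rw [if_neg (by omega)]
          · rw [if_neg h0, if_pos (by omega)]
            congr 1
            omega
        have e''' : a3' = hx v l' s := by
          rw [ha3']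
          by_cases h0 : d = 0
          · rw [if_pos h0]
            unfold hx
            rw [if_neg (by omega)]
          · rw [if_neg h0, if_pos (by omega)]
            congr 1
            omega
        have e4 : l' + 3 - 1 - d = s + 1 := by omega
        rw [hs, x2 l' s, e, e', e'', e''', e4]
        ring
    rw [← hval]
    exact r7
  · rw [if_neg hd]
    have h0 : (if d ≤ l then hx v l (l - d) else 0) = 0 := by
      by_cases hdl : d ≤ l
      · rw [if_pos hdl]
        exact x1 l (l - d) (by omega)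
      · rw [if_neg hdl]
    rw [h0]
    exact b1 _ _

end Orch
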