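import Pool.Agent.Lib.Orch.Chk

/-! Stored numbers: splitting off the low digits and reduction of the digits modulo `p`. -/

namespace Orch

open Finset

private lemma KSplit_dec {A : Type} [CommRing A] (v : A) (B f K N : ℕ) (a : A) (hK : K < B)
    (h : Rep v B (f + 1) K N a) :
    ∃ a' : A, Rep v B f K (N / B) a' ∧ N % B ≤ K ∧ a = ((N % B : ℕ) : A) + v * a' := by
  obtain ⟨P, h1, h2, h3, h4⟩ := h
  have hP : P.divX * Polynomial.X + Polynomial.C (P.coeff 0) = P := Polynomial.divX_mul_X_add P
  have hN : N = P.coeff 0 + B * P.divX.eval B := by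
    rw [← h3]
    conv_lhs => rw [← hP]
    simp only [Polynomial.eval_add, Polynomial.eval_mul, Polynomial.eval_X, Polynomial.eval_C]
    ring
  have hc : P.coeff 0 < B := lt_of_le_of_lt (h2 0) hK
  have hB : 0 < B := lt_of_le_of_lt (Nat.zero_le _) hK
  have hmod : N % B = P.coeff 0 := by
    rw [hN, Nat.add_mul_mod_self_left, Nat.mod_eq_of_lt hc]
  have hdiv : N / B = P.divX.eval B := by
    rw [hN, Nat.add_mul_div_left _ _ hB, Nat.div_eq_of_lt hc, zero_add]
  refine ⟨Polynomial.eval₂ (Nat.castRingHom A) v P.divX, ⟨P.divX, ?_, ?_, hdiv.symm, rfl⟩, ?_, ?_⟩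
  · intro i hi
    rw [Polynomial.coeff_divX]
    exact h1 _ (by omega)
  · intro i
    rw [Polynomial.coeff_divX]
    exact h2 _
  · rw [hmod]
    exact h2 0
  · rw [hmod, ← h4]
    conv_lhs => rw [← hP]
    simp only [Polynomial.eval₂_add, Polynomial.eval₂_mul, Polynomial.eval₂_X, Polynomial.eval₂_C]
    simp only [eq_natCast]
    ring

private lemma KSplit_cons {A : Type} [CommRing A] (v : A) (B f K M c : ℕ) (a : A)
    (h : Rep v B f K M a) (hc : c ≤ K) :
    Rep v B (f + 1) K (c + B * M) ((c : A) + v * a) := by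
  obtain ⟨P, h1, h2, h3, h4⟩ := h
  refine ⟨P * Polynomial.X + Polynomial.C c, ?_, ?_, ?_, ?_⟩
  · intro i hi
    obtain ⟨j, rfl⟩ : ∃ j, i = j + 1 := ⟨i - 1, by omega⟩
    rw [Polynomial.coeff_add, Polynomial.coeff_mul_X, h1 j (by omega), Polynomial.coeff_C,
      if_neg (by omega), add_zero]
  · intro i
    rcases i with _ | j
    · simpa using hc
    · rw [Polynomial.coeff_add, Polynomial.coeff_mul_X, Polynomial.coeff_C, if_neg (by omega),
        add_zero]
      exact h2 j
  · simp only [Polynomial.eval_add, Polynomial.eval_mul, Polynomial.eval_X, Polynomial.eval_C, h3]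
    ring
  · simp only [Polynomial.eval₂_add, Polynomial.eval₂_mul, Polynomial.eval₂_X,
      Polynomial.eval₂_C, h4]
    simp only [eq_natCast]
    ring

theorem c_RepSplit : S_RepSplit := by
  intro A _ v B n f
  induction f with
  | zero =>
    intro K N a hK h
    refine ⟨0, a, ⟨0, by simp, by simp, by simp [Nat.mod_one], by simp⟩, ?_, by simp⟩
    rw [pow_zero, Nat.div_one]
    rw [zero_add] at h
    exact h
  | succ f ih =>
    intro K N a hK h
    have h' : Rep v B (f + n + 1) K N a := by
      have e : f + 1 + n = f + n + 1 := by omega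
      rw [← e]
      exact h
    obtain ⟨a', ha', hle, rfl⟩ := KSplit_dec v B (f + n) K N a hK h'
    obtain ⟨b0, b1, hb0, hb1, rfl⟩ := ih K (N / B) a' hK ha'
    refine ⟨((N % B : ℕ) : A) + v * b0, b1, ?_, ?_, by ring⟩
    · rw [pow_succ', Nat.mod_mul]
      exact KSplit_cons v B f K _ _ b0 hb0 hle
    · rw [pow_succ', ← Nat.div_div_eq_div_mul]
      exact hb1

theorem c_RepNorm : S_RepNorm := by
  intro A _ p hp _ v B f
  induction f with
  | zero =>
    intro K N a hK h
    obtain ⟨P, h1, h2, h3, h4⟩ := h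
    have hP : P = 0 := by
      ext i
      simpa using h1 i (Nat.zero_le _)
    refine ⟨0, by simp, by simp, ?_, ?_⟩
    · rw [Polynomial.eval_zero]
      rfl
    · rw [← h4, hP]
  | succ f ih =>
    intro K N a hK h
    obtain ⟨a', ha', hle, rfl⟩ := KSplit_dec v B f K N a hK h
    have h1 := ih K (N / B) a' hK ha'
    have hpos : 0 < p := hp.out.pos
    have hlt : N % B % p ≤ p - 1 := by
      have := Nat.mod_lt (N % B) hpos
      omega
    have h2 := KSplit_cons v B f (p - 1) _ (N % B % p) a' h1 hlt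
    have e : ((N % B % p : ℕ) : A) = ((N % B : ℕ) : A) := (CharP.cast_eq_mod A p (N % B)).symm
    rw [e] at h2
    exact h2

end Orch
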