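import Pool.Agent.Lib.Orch.Spec

/-!
Structure facts: edges, acyclicity through a rank function, symmetry of cherries.
-/

namespace Orch

open Finset

theorem c_Edge : S_Edge := by
  intro L I E hN a b hab
  have h := hN.sub (a, b) hab
  have h1 : a ∈ L.disjSum I := h.1
  have h2 : b ∈ L.disjSum I := h.2
  constructor
  · rcases a with x | i
    · exfalso
      have hx : x ∈ L := by simpa using h1
      have h0 := (hN.leaf x hx).2
      unfold outdeg at h0
      rw [Finset.card_eq_zero, Finset.filter_eq_empty_iff] at h0
      exact h0 hab rfl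
    · exact ⟨i, by simpa using h1, rfl⟩
  · rcases b with x | i
    · exact Or.inl ⟨x, by simpa using h2, rfl⟩
    · exact Or.inr ⟨i, by simpa using h2, rfl⟩

theorem c_Acyc : S_Acyc := by
  classical
  intro E
  constructor
  · intro h
    refine ⟨fun v => ((E.image Prod.fst).filter
      (fun u => Relation.TransGen (fun a b : V => (a, b) ∈ E) u v)).card, ?_⟩
    intro a b hab
    apply Finset.card_lt_card
    rw [Finset.ssubset_iff_of_subset]
    · refine ⟨a, ?_, ?_⟩
      · rw [Finset.mem_filter]
        exact ⟨Finset.mem_image.2 ⟨(a, b), hab, rfl⟩, Relation.TransGen.single hab⟩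
      · rw [Finset.mem_filter]
        intro h1
        exact h a h1.2
    · intro u hu
      rw [Finset.mem_filter] at hu ⊢
      exact ⟨hu.1, Relation.TransGen.tail hu.2 hab⟩
  · rintro ⟨f, hf⟩ v hv
    have key : ∀ a b : V, Relation.TransGen (fun a b : V => (a, b) ∈ E) a b → f a < f b := by
      intro a b hab
      induction hab with
      | single h => exact hf _ _ h
      | tail _ h ih => exact lt_trans ih (hf _ _ h)
    exact lt_irrefl _ (key v v hv)

theorem c_SymC : S_SymC := by
  intro E x y i h
  exact ⟨h.1.symm, h.2.2, h.2.1⟩

end Orch
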