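import Pool.Agent.Lib.Orch.Spec

/-!
Commutation of two reductions with different parents, cherry and cherry, cherry and reticulated cherry.
-/

namespace Orch

open Finset

private theorem TComm1_memC (E : Dg) (x y i : ℕ) (a b : V) : (a, b) ∈ redC E x y i ↔
    ((a, b) ∈ E ∧ a ≠ Sum.inr i ∧ b ≠ Sum.inr i) ∨
      (b = Sum.inl x ∧ (a, (Sum.inr i : V)) ∈ E) := by
  unfold redC
  rw [Finset.mem_union, Finset.mem_filter, Finset.mem_image]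
  constructor
  · rintro (h | ⟨⟨c, d⟩, hcd, heq⟩)
    · exact Or.inl h
    · right
      rw [Finset.mem_filter] at hcd
      obtain ⟨hE, hd⟩ := hcd
      simp only at hd
      rw [Prod.mk.injEq] at heq
      obtain ⟨rfl, rfl⟩ := heq
      rw [hd] at hE
      exact ⟨rfl, hE⟩
  · rintro (h | ⟨rfl, hE⟩)
    · exact Or.inl h
    · right
      exact ⟨(a, Sum.inr i), Finset.mem_filter.2 ⟨hE, rfl⟩, rfl⟩

private theorem TComm1_memR (E : Dg) (x y i j : ℕ) (a b : V) : (a, b) ∈ redR E x y i j ↔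
    ((a, b) ∈ E ∧ (a ≠ Sum.inr i ∧ b ≠ Sum.inr i) ∧ (a ≠ Sum.inr j ∧ b ≠ Sum.inr j)) ∨
      (b = Sum.inl x ∧ (a, (Sum.inr i : V)) ∈ E) ∨
      (b = Sum.inl y ∧ (a, (Sum.inr j : V)) ∈ E ∧ a ≠ Sum.inr i) := by
  unfold redR
  rw [Finset.mem_union, Finset.mem_union, Finset.mem_filter, Finset.mem_image, Finset.mem_image]
  constructor
  · rintro (h | ⟨⟨c, d⟩, hcd, heq⟩ | ⟨⟨c, d⟩, hcd, heq⟩)
    · exact Or.inl h
    · right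
      left
      rw [Finset.mem_filter] at hcd
      obtain ⟨hE, hd⟩ := hcd
      simp only at hd
      rw [Prod.mk.injEq] at heq
      obtain ⟨rfl, rfl⟩ := heq
      rw [hd] at hE
      exact ⟨rfl, hE⟩
    · right
      right
      rw [Finset.mem_filter] at hcd
      obtain ⟨hE, hd, hc⟩ := hcd
      simp only at hd hc
      rw [Prod.mk.injEq] at heq
      obtain ⟨rfl, rfl⟩ := heq
      rw [hd] at hE
      exact ⟨rfl, hE, hc⟩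
  · rintro (h | ⟨rfl, hE⟩ | ⟨rfl, hE, ha⟩)
    · exact Or.inl h
    · right
      left
      exact ⟨(a, Sum.inr i), Finset.mem_filter.2 ⟨hE, rfl⟩, rfl⟩
    · right
      right
      exact ⟨(a, Sum.inr j), Finset.mem_filter.2 ⟨hE, rfl, ha⟩, rfl⟩

private theorem TComm1_lr (x i : ℕ) : (Sum.inl x : V) ≠ Sum.inr i := Sum.inl_ne_inr

private theorem TComm1_rl (x i : ℕ) : (Sum.inr i : V) ≠ Sum.inl x := Sum.inr_ne_inl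

private theorem TComm1_rr {i j : ℕ} (h : i ≠ j) : (Sum.inr i : V) ≠ Sum.inr j :=
  fun h' => h (Sum.inr.inj h')

theorem c_CommCC : S_CommCC := by
  intro L I E x y i x' y' i' _ _ _ _ _ _ _ hne
  have h1 := TComm1_rr hne
  have h2 := TComm1_rr hne.symm
  have h3 := TComm1_rl x i'
  have h4 := TComm1_rl x' i
  ext ⟨a, b⟩
  rw [TComm1_memC, TComm1_memC, TComm1_memC, TComm1_memC, TComm1_memC, TComm1_memC]
  constructor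
  · rintro (⟨⟨hE, ha, hb⟩ | ⟨rfl, hE⟩, ha', hb'⟩ | ⟨rfl, ⟨hE, ha, hb⟩ | ⟨h, hE⟩⟩)
    · exact Or.inl ⟨Or.inl ⟨hE, ha', hb'⟩, ha, hb⟩
    · exact Or.inr ⟨rfl, Or.inl ⟨hE, ha', h1⟩⟩
    · exact Or.inl ⟨Or.inr ⟨rfl, hE⟩, ha, TComm1_lr _ _⟩
    · exact absurd h h3
  · rintro (⟨⟨hE, ha, hb⟩ | ⟨rfl, hE⟩, ha', hb'⟩ | ⟨rfl, ⟨hE, ha, hb⟩ | ⟨h, hE⟩⟩)
    · exact Or.inl ⟨Or.inl ⟨hE, ha', hb'⟩, ha, hb⟩
    · exact Or.inr ⟨rfl, Or.inl ⟨hE, ha', h2⟩⟩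
    · exact Or.inl ⟨Or.inr ⟨rfl, hE⟩, ha, TComm1_lr _ _⟩
    · exact absurd h h4

theorem c_CommCR (hCR : S_ExclCR) : S_CommCR := by
  intro L I E x y i x' y' i' j' hN hx hy hx' hy' hc hr
  obtain ⟨hii, hij, -, -, -, -⟩ := hCR L I E x y i x' y' i' j' hN hx hy hx' hy' hc hr
  have h1 := TComm1_rr hii
  have h2 := TComm1_rr hij
  have h1' := TComm1_rr hii.symm
  have h2' := TComm1_rr hij.symm
  have h3 := TComm1_rl x i'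
  have h4 := TComm1_rl x j'
  have h5 := TComm1_rl x' i
  have h6 := TComm1_rl y' i
  ext ⟨a, b⟩
  rw [TComm1_memC, TComm1_memR, TComm1_memR, TComm1_memR, TComm1_memC, TComm1_memC, TComm1_memC]
  constructor
  · rintro (⟨⟨hE, ha, hb⟩ | ⟨rfl, hE⟩, ⟨ha', hb'⟩, ha'', hb''⟩ |
      ⟨rfl, ⟨hE, ha, hb⟩ | ⟨h, hE⟩⟩ | ⟨rfl, ⟨hE, ha, hb⟩ | ⟨h, hE⟩, ha'⟩)
    · exact Or.inl ⟨Or.inl ⟨hE, ⟨ha', hb'⟩, ha'', hb''⟩, ha, hb⟩
    · exact Or.inr ⟨rfl, Or.inl ⟨hE, ⟨ha', h1⟩, ha'', h2⟩⟩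
    · exact Or.inl ⟨Or.inr (Or.inl ⟨rfl, hE⟩), ha, TComm1_lr _ _⟩
    · exact absurd h h3
    · exact Or.inl ⟨Or.inr (Or.inr ⟨rfl, hE, ha'⟩), ha, TComm1_lr _ _⟩
    · exact absurd h h4
  · rintro (⟨⟨hE, ⟨ha', hb'⟩, ha'', hb''⟩ | ⟨rfl, hE⟩ | ⟨rfl, hE, ha'⟩, ha, hb⟩ |
      ⟨rfl, ⟨hE, ⟨ha', hb'⟩, ha'', hb''⟩ | ⟨h, hE⟩ | ⟨h, hE, ha'⟩⟩)
    · exact Or.inl ⟨Or.inl ⟨hE, ha, hb⟩, ⟨ha', hb'⟩, ha'', hb''⟩
    · exact Or.inr (Or.inl ⟨rfl, Or.inl ⟨hE, ha, h1'⟩⟩)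
    · exact Or.inr (Or.inr ⟨rfl, Or.inl ⟨hE, ha, h2'⟩, ha'⟩)
    · exact Or.inl ⟨Or.inr ⟨rfl, hE⟩, ⟨ha', TComm1_lr _ _⟩, ha'', TComm1_lr _ _⟩
    · exact absurd h h5
    · exact absurd h h6

end Orch
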