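import Pool.Agent.Lib.Orch.Spec

/-!
Commutation of the reductions of two reticulated cherries with different reticulations.
-/

namespace Orch

open Finset

private theorem TComm2_memR (E : Dg) (x y i j : ℕ) (a b : V) : (a, b) ∈ redR E x y i j ↔
    ((a, b) ∈ E ∧ (a ≠ Sum.inr i ∧ b ≠ Sum.inr i) ∧ (a ≠ Sum.inr j ∧ b ≠ Sum.inr j)) ∨
      (b = Sum.inl x ∧ (a, (Sum.inr i : V)) ∈ E) ∨
      (b = Sum.inl y ∧ (a, (Sum.inr j : V)) ∈ E ∧ a ≠ Sum.inr i) := by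
  unfold redR
  rw [Finset.mem_union, Finset.mem_union, Finset.mem_filter, Finset.mem_image, Finset.mem_image]
  constructor
  · rintro (h | ⟨⟨c, d⟩, hcd, heq⟩ | ⟨⟨c, d⟩, hcd, heq⟩)
    · exact Or.inl h
    · right
      left
      rw [Finset.mem_filter] at hcd
      obtain ⟨hE, hd⟩ := hcd
      simp only at hd
      rw [Prod.mk.injEq] at heq
      obtain ⟨rfl, rfl⟩ := heq
      rw [hd] at hE
      exact ⟨rfl, hE⟩
    · right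
      right
      rw [Finset.mem_filter] at hcd
      obtain ⟨hE, hd, hc⟩ := hcd
      simp only at hd hc
      rw [Prod.mk.injEq] at heq
      obtain ⟨rfl, rfl⟩ := heq
      rw [hd] at hE
      exact ⟨rfl, hE, hc⟩
  · rintro (h | ⟨rfl, hE⟩ | ⟨rfl, hE, ha⟩)
    · exact Or.inl h
    · right
      left
      exact ⟨(a, Sum.inr i), Finset.mem_filter.2 ⟨hE, rfl⟩, rfl⟩
    · right
      right
      exact ⟨(a, Sum.inr j), Finset.mem_filter.2 ⟨hE, rfl, ha⟩, rfl⟩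

private theorem TComm2_half (E : Dg) (x y i j x' y' i' j' : ℕ) (h1 : i ≠ i') (h2 : i ≠ j')
    (h3 : j ≠ i') (h4 : j ≠ j') (a b : V) (h : (a, b) ∈ redR (redR E x y i j) x' y' i' j') :
    (a, b) ∈ redR (redR E x' y' i' j') x y i j := by
  have h1' : (Sum.inr i : V) ≠ Sum.inr i' := fun h => h1 (Sum.inr.inj h)
  have h2' : (Sum.inr i : V) ≠ Sum.inr j' := fun h => h2 (Sum.inr.inj h)
  have h3' : (Sum.inr j : V) ≠ Sum.inr i' := fun h => h3 (Sum.inr.inj h)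
  have h4' : (Sum.inr j : V) ≠ Sum.inr j' := fun h => h4 (Sum.inr.inj h)
  have hlr : ∀ z k : ℕ, (Sum.inl z : V) ≠ Sum.inr k := fun z k => Sum.inl_ne_inr
  rw [TComm2_memR, TComm2_memR, TComm2_memR, TComm2_memR] at h
  rw [TComm2_memR, TComm2_memR, TComm2_memR, TComm2_memR]
  rcases h with ⟨h | ⟨h5, h⟩ | ⟨h5, h⟩, h6⟩ | ⟨h5, h | ⟨h6, h⟩ | ⟨h6, h⟩⟩ |
    ⟨h5, h | ⟨h6, h⟩ | ⟨h6, h⟩, h7⟩
  · exact Or.inl ⟨Or.inl ⟨h.1, h6⟩, h.2⟩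
  · exact Or.inr (Or.inl ⟨h5, Or.inl ⟨h, ⟨h6.1.1, h1'⟩, h6.2.1, h2'⟩⟩)
  · exact Or.inr (Or.inr ⟨h5, Or.inl ⟨h.1, ⟨h6.1.1, h3'⟩, h6.2.1, h4'⟩, h.2⟩)
  · subst h5
    exact Or.inl ⟨Or.inr (Or.inl ⟨rfl, h.1⟩), ⟨h.2.1.1, hlr _ _⟩, h.2.2.1, hlr _ _⟩
  · exact absurd h6.symm (hlr _ _)
  · exact absurd h6.symm (hlr _ _)
  · subst h5
    exact Or.inl ⟨Or.inr (Or.inr ⟨rfl, h.1, h7⟩), ⟨h.2.1.1, hlr _ _⟩, h.2.2.1, hlr _ _⟩
  · exact absurd h6.symm (hlr _ _)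
  · exact absurd h6.symm (hlr _ _)

theorem c_CommRR (hRR : S_ExclRR) : S_CommRR := by
  intro L I E x y i j x' y' i' j' hN hx hy hx' hy' hr hr' hjj
  have h0 : i ≠ i' ∧ i ≠ j' ∧ j ≠ i' ∧ j ≠ j' := by
    rcases hRR L I E x y i j x' y' i' j' hN hx hy hx' hy' hr hr' with h | h | h
    · exact absurd h.2.2.2 hjj
    · exact ⟨h.1, h.2.1, h.2.2.1, h.2.2.2.1⟩
    · exact absurd h.2.1 hjj
  obtain ⟨h1, h2, h3, h4⟩ := h0
  ext ⟨a, b⟩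
  exact ⟨TComm2_half E x y i j x' y' i' j' h1 h2 h3 h4 a b,
    TComm2_half E x' y' i' j' x y i j h1.symm h3.symm h2.symm h4.symm a b⟩

end Orch
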