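import Pool.Agent.Lib.Orch.Spec

/-!
Commutation of the reductions of two reticulated cherries with the same reticulation.
-/

namespace Orch

open Finset

private theorem TComm3_memC (E : Dg) (x y i : ℕ) (a b : V) : (a, b) ∈ redC E x y i ↔
    ((a, b) ∈ E ∧ a ≠ Sum.inr i ∧ b ≠ Sum.inr i) ∨
      (b = Sum.inl x ∧ (a, (Sum.inr i : V)) ∈ E) := by
  unfold redC
  rw [Finset.mem_union, Finset.mem_filter, Finset.mem_image]
  constructor
  · rintro (h | ⟨⟨c, d⟩, hcd, heq⟩)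
    · exact Or.inl h
    · right
      rw [Finset.mem_filter] at hcd
      obtain ⟨hE, hd⟩ := hcd
      simp only at hd
      rw [Prod.mk.injEq] at heq
      obtain ⟨rfl, rfl⟩ := heq
      rw [hd] at hE
      exact ⟨rfl, hE⟩
  · rintro (h | ⟨rfl, hE⟩)
    · exact Or.inl h
    · right
      exact ⟨(a, Sum.inr i), Finset.mem_filter.2 ⟨hE, rfl⟩, rfl⟩

private theorem TComm3_memR (E : Dg) (x y i j : ℕ) (a b : V) : (a, b) ∈ redR E x y i j ↔
    ((a, b) ∈ E ∧ (a ≠ Sum.inr i ∧ b ≠ Sum.inr i) ∧ (a ≠ Sum.inr j ∧ b ≠ Sum.inr j)) ∨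
      (b = Sum.inl x ∧ (a, (Sum.inr i : V)) ∈ E) ∨
      (b = Sum.inl y ∧ (a, (Sum.inr j : V)) ∈ E ∧ a ≠ Sum.inr i) := by
  unfold redR
  rw [Finset.mem_union, Finset.mem_union, Finset.mem_filter, Finset.mem_image, Finset.mem_image]
  constructor
  · rintro (h | ⟨⟨c, d⟩, hcd, heq⟩ | ⟨⟨c, d⟩, hcd, heq⟩)
    · exact Or.inl h
    · right
      left
      rw [Finset.mem_filter] at hcd
      obtain ⟨hE, hd⟩ := hcd
      simp only at hd
      rw [Prod.mk.injEq] at heq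
      obtain ⟨rfl, rfl⟩ := heq
      rw [hd] at hE
      exact ⟨rfl, hE⟩
    · right
      right
      rw [Finset.mem_filter] at hcd
      obtain ⟨hE, hd, hc⟩ := hcd
      simp only at hd hc
      rw [Prod.mk.injEq] at heq
      obtain ⟨rfl, rfl⟩ := heq
      rw [hd] at hE
      exact ⟨rfl, hE, hc⟩
  · rintro (h | ⟨rfl, hE⟩ | ⟨rfl, hE, ha⟩)
    · exact Or.inl h
    · right
      left
      exact ⟨(a, Sum.inr i), Finset.mem_filter.2 ⟨hE, rfl⟩, rfl⟩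
    · right
      right
      exact ⟨(a, Sum.inr j), Finset.mem_filter.2 ⟨hE, rfl, ha⟩, rfl⟩

private theorem TComm3_half (E : Dg) (x y i j x' i' : ℕ) (hii : i ≠ i')
    (hij : i ≠ j) (hji : ((Sum.inr j : V), (Sum.inr i : V)) ∉ E) (a b : V)
    (h : (a, b) ∈ redC (redR E x y i j) x' y i') :
    (a, b) ∈ redC (redR E x' y i' j) x y i := by
  have hii' : (Sum.inr i : V) ≠ Sum.inr i' := fun h => hii (Sum.inr.inj h)
  have hij' : (Sum.inr i : V) ≠ Sum.inr j := fun h => hij (Sum.inr.inj h)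
  have hlr : ∀ z k : ℕ, (Sum.inl z : V) ≠ Sum.inr k := fun z k => Sum.inl_ne_inr
  have hne : ∀ c : V, (c, (Sum.inr i : V)) ∈ E → c ≠ Sum.inr j := by
    rintro c hc rfl
    exact hji hc
  rw [TComm3_memC, TComm3_memR, TComm3_memR] at h
  rw [TComm3_memC, TComm3_memR, TComm3_memR]
  rcases h with ⟨h | ⟨h5, h⟩ | ⟨h5, h⟩, h6⟩ | ⟨h5, h | ⟨h6, h⟩ | ⟨h6, h⟩⟩
  · exact Or.inl ⟨Or.inl ⟨h.1, h6, h.2.2⟩, h.2.1⟩
  · exact Or.inr ⟨h5, Or.inl ⟨h, ⟨h6.1, hii'⟩, hne a h, hij'⟩⟩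
  · subst h5
    exact Or.inl ⟨Or.inr (Or.inr ⟨rfl, h.1, h6.1⟩), h.2, hlr _ _⟩
  · subst h5
    exact Or.inl ⟨Or.inr (Or.inl ⟨rfl, h.1⟩), h.2.1.1, hlr _ _⟩
  · exact absurd h6.symm (hlr _ _)
  · exact absurd h6.symm (hlr _ _)

theorem c_CommOver (hShape : S_ShapeR) : S_CommOver := by
  intro L I E x y i j x' i' hN hx hy hx' hr hr' hii
  obtain ⟨-, -, hij, -, -, hoj, -⟩ := hShape L I E x y i j hN hx hy hr
  obtain ⟨-, -, hij', -, -, -, -⟩ := hShape L I E x' y i' j hN hx' hy hr'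
  have h1 : ∀ k : ℕ, ((Sum.inr j : V), (Sum.inr k : V)) ∉ E := by
    intro k hk
    exact absurd ((hoj _).1 hk) Sum.inr_ne_inl
  ext ⟨a, b⟩
  exact ⟨TComm3_half E x y i j x' i' hii hij (h1 i) a b,
    TComm3_half E x' y i' j x i hii.symm hij' (h1 i') a b⟩

end Orch
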