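import Pool.Agent.Lib.Orch.Spec

/-!
Cherries of a network are equal or disjoint, and disjoint from the reticulated cherries.
-/

namespace Orch

open Finset

theorem c_ExclCC (hC : S_ShapeC) : S_ExclCC := by
  intro L I E x y i x' y' i' hN hx hy hx' hy' h h'
  obtain ⟨-, -, h1, h2, h3, -⟩ := hC L I E x y i hN hx hy h
  obtain ⟨-, -, h1', h2', h3', -⟩ := hC L I E x' y' i' hN hx' hy' h'
  by_cases hi : i = i'
  · subst hi
    left
    refine ⟨rfl, ?_⟩
    have e1 := (h1 (Sum.inl x')).1 h'.2.1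
    have e2 := (h1 (Sum.inl y')).1 h'.2.2
    have hne := h'.1
    rcases e1 with e1 | e1 <;> rcases e2 with e2 | e2
    · exact absurd ((Sum.inl_injective e1).trans (Sum.inl_injective e2).symm) hne
    · exact Or.inl ⟨(Sum.inl_injective e1).symm, (Sum.inl_injective e2).symm⟩
    · exact Or.inr ⟨(Sum.inl_injective e2).symm, (Sum.inl_injective e1).symm⟩
    · exact absurd ((Sum.inl_injective e1).trans (Sum.inl_injective e2).symm) hne
  · right
    refine ⟨hi, ?_, ?_, ?_, ?_⟩
    · rintro rfl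
      exact hi (Sum.inr_injective ((h2' _).1 h.2.1))
    · rintro rfl
      exact hi (Sum.inr_injective ((h3' _).1 h.2.1))
    · rintro rfl
      exact hi (Sum.inr_injective ((h2' _).1 h.2.2))
    · rintro rfl
      exact hi (Sum.inr_injective ((h3' _).1 h.2.2))

theorem c_ExclCR (hC : S_ShapeC) (hR : S_ShapeR) : S_ExclCR := by
  intro L I E x y i x' y' i' j' hN hx hy hx' hy' h h'
  obtain ⟨-, -, h1, h2, h3, -⟩ := hC L I E x y i hN hx hy h
  obtain ⟨-, -, -, -, -, r2, r3, r4, -, -⟩ := hR L I E x' y' i' j' hN hx' hy' h'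
  have hi : i ≠ i' := by
    rintro rfl
    rcases (h1 (Sum.inr j')).1 h'.2.2.1 with e | e
    · exact absurd e (by simp)
    · exact absurd e (by simp)
  have hj : i ≠ j' := by
    rintro rfl
    have e1 := Sum.inl_injective ((r2 _).1 h.2.1)
    have e2 := Sum.inl_injective ((r2 _).1 h.2.2)
    exact h.1 (e1.trans e2.symm)
  refine ⟨hi, hj, ?_, ?_, ?_, ?_⟩
  · rintro rfl
    exact hi (Sum.inr_injective ((r3 _).1 h.2.1))
  · rintro rfl
    exact hj (Sum.inr_injective ((r4 _).1 h.2.1))
  · rintro rfl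
    exact hi (Sum.inr_injective ((r3 _).1 h.2.2))
  · rintro rfl
    exact hj (Sum.inr_injective ((r4 _).1 h.2.2))

end Orch
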