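import Pool.Agent.Lib.Orch.Spec

/-!
Two reticulated cherries are equal, or disjoint, or share exactly the reticulation.
-/

namespace Orch

open Finset

theorem c_ExclRR (hSR : S_ShapeR) : S_ExclRR := by
  intro L I E x y i j x' y' i' j' hN hx hy hx' hy' hR hR'
  obtain ⟨hi, hj, hij, hxy, hio, hjo, hxp, hyp, -, -⟩ := hSR L I E x y i j hN hx hy hR
  obtain ⟨hi', hj', hij', hxy', hio', hjo', hxp', hyp', -, -⟩ :=
    hSR L I E x' y' i' j' hN hx' hy' hR'
  by_cases hjj : j = j'
  · subst hjj
    have hyy : y = y' := by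
      have h := (hjo (Sum.inl y')).1 ((hjo' (Sum.inl y')).2 rfl)
      exact (Sum.inl.inj h).symm
    subst hyy
    by_cases hii : i = i'
    · subst hii
      left
      have h := (hio (Sum.inl x')).1 ((hio' (Sum.inl x')).2 (Or.inl rfl))
      rcases h with h | h
      · exact ⟨(Sum.inl.inj h).symm, rfl, rfl, rfl⟩
      · exact absurd h (by simp)
    · right; right
      refine ⟨rfl, rfl, hii, ?_⟩
      rintro rfl
      have h := (hxp (Sum.inr i')).1 ((hxp' (Sum.inr i')).2 rfl)
      exact hii (Sum.inr.inj h).symm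
  · right; left
    have hii : i ≠ i' := by
      rintro rfl
      have h := (hio (Sum.inr j')).1 ((hio' (Sum.inr j')).2 (Or.inr rfl))
      rcases h with h | h
      · exact absurd h (by simp)
      · exact hjj (Sum.inr.inj h).symm
    have hij2 : i ≠ j' := by
      rintro rfl
      have h := (hjo' (Sum.inr j)).1 ((hio (Sum.inr j)).2 (Or.inr rfl))
      exact absurd h (by simp)
    have hji2 : j ≠ i' := by
      rintro rfl
      have h := (hjo (Sum.inr j')).1 ((hio' (Sum.inr j')).2 (Or.inr rfl))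
      exact absurd h (by simp)
    refine ⟨hii, hij2, hji2, hjj, ?_, ?_, ?_, ?_⟩
    · rintro rfl
      exact hii (Sum.inr.inj ((hxp' (Sum.inr i)).1 ((hxp (Sum.inr i)).2 rfl)))
    · rintro rfl
      exact hij2 (Sum.inr.inj ((hyp' (Sum.inr i)).1 ((hxp (Sum.inr i)).2 rfl)))
    · rintro rfl
      exact hji2 (Sum.inr.inj ((hxp' (Sum.inr j)).1 ((hyp (Sum.inr j)).2 rfl)))
    · rintro rfl
      exact hjj (Sum.inr.inj ((hyp' (Sum.inr j)).1 ((hyp (Sum.inr j)).2 rfl)))

end Orch
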