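import Pool.Agent.Lib.Orch.Spec

/-!
The networks on a fixed vertex set isomorphic to a given one.
-/

namespace Orch

open Finset

private theorem TFib_map (σ τ σ' τ' : Equiv.Perm ℕ) (v : V) :
    Sum.map σ τ (Sum.map σ' τ' v) = Sum.map (σ * σ') (τ * τ') v := by
  rcases v with x | i <;> rfl

private theorem TFib_ren_ren (σ τ σ' τ' : Equiv.Perm ℕ) (E : Dg) :
    ren σ τ (ren σ' τ' E) = ren (σ * σ') (τ * τ') E := by
  unfold ren
  rw [Finset.image_image]
  apply Finset.image_congr
  intro e _
  show (Sum.map σ τ (Sum.map σ' τ' e.1), Sum.map σ τ (Sum.map σ' τ' e.2)) = _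
  rw [TFib_map, TFib_map]

private theorem TFib_ren_congr {L I : Finset ℕ} {E : Dg} (hN : IsNet L I E) (σ τ τ' : Equiv.Perm ℕ)
    (h : ∀ i ∈ I, τ i = τ' i) : ren σ τ E = ren σ τ' E := by
  unfold ren
  apply Finset.image_congr
  intro e he
  have key : ∀ v ∈ L.disjSum I, Sum.map σ τ v = Sum.map σ τ' v := by
    intro v hv
    rcases v with x | i
    · rfl
    · rw [Finset.inr_mem_disjSum] at hv
      show (Sum.inr (τ i) : V) = Sum.inr (τ' i)
      rw [h i hv]
  have h1 := hN.sub e he
  show (Sum.map σ τ e.1, Sum.map σ τ e.2) = (Sum.map σ τ' e.1, Sum.map σ τ' e.2)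
  rw [key _ h1.1, key _ h1.2]

private theorem TFib_image {m : ℕ} {τ : Equiv.Perm ℕ}
    (h : ∀ i, i ∈ range m → τ i ∈ range m) : (range m).image τ = range m := by
  apply Finset.eq_of_subset_of_card_le
  · intro x hx
    rw [Finset.mem_image] at hx
    obtain ⟨i, hi, rfl⟩ := hx
    exact h i hi
  · rw [Finset.card_image_of_injective _ τ.injective]

open Classical in
theorem c_Fib (hFree : S_Free) (hRen : S_RenOrch) (hMem : S_MemNet) (hOrch : S_OrchNet) :
    S_Fib := by
  intro l m E hE
  have hE' := (hMem _ _ _).1 hE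
  have hN := hOrch _ _ _ hE'
  have hcard : Fintype.card (Equiv.Perm {x // x ∈ range m}) = m.factorial := by
    rw [Fintype.card_perm, Fintype.card_coe, Finset.card_range]
  have hext : ∀ π : Equiv.Perm {x // x ∈ range m}, ∀ i (hi : i ∈ range m),
      Equiv.Perm.ofSubtype π i = (π ⟨i, hi⟩ : ℕ) := fun π i hi =>
    Equiv.Perm.ofSubtype_apply_of_mem π hi
  have himg : ∀ π : Equiv.Perm {x // x ∈ range m},
      (range m).image (Equiv.Perm.ofSubtype π) = range m := by
    intro π
    apply TFib_image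
    intro i hi
    rw [hext π i hi]
    exact (π ⟨i, hi⟩).2
  have hset : ((Net (range l) (range m)).filter (fun E' => ∃ τ : Equiv.Perm ℕ,
      (range m).image τ = range m ∧ E' = ren (Equiv.refl ℕ) τ E)) =
      (Finset.univ : Finset (Equiv.Perm {x // x ∈ range m})).image
        (fun π => ren (Equiv.refl ℕ) (Equiv.Perm.ofSubtype π) E) := by
    ext E'
    rw [Finset.mem_filter, Finset.mem_image]
    constructor
    · rintro ⟨-, τ, hτ, rfl⟩
      have hp : ∀ x, τ x ∈ range m ↔ x ∈ range m := by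
        intro x
        constructor
        · intro hx
          rw [← hτ, Finset.mem_image] at hx
          obtain ⟨y, hy, hyx⟩ := hx
          rw [← τ.injective hyx]
          exact hy
        · intro hx
          rw [← hτ]
          exact Finset.mem_image_of_mem _ hx
      refine ⟨τ.subtypePerm hp, Finset.mem_univ _, ?_⟩
      apply TFib_ren_congr hN
      intro i hi
      rw [hext _ i hi]
      rfl
    · rintro ⟨π, -, rfl⟩
      refine ⟨?_, _, himg π, rfl⟩
      rw [hMem]
      have h1 := hRen _ _ _ (Equiv.refl ℕ) (Equiv.Perm.ofSubtype π) hE'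
      rw [himg π] at h1
      have h2 : (range l).image (Equiv.refl ℕ) = range l := by
        ext x
        simp
      rw [h2] at h1
      exact h1
  rw [hset, Finset.card_image_of_injective, Finset.card_univ, hcard]
  intro π π' h
  simp only at h
  have h1 : ren (Equiv.refl ℕ) ((Equiv.Perm.ofSubtype π')⁻¹ * Equiv.Perm.ofSubtype π) E = E := by
    have h2 := congrArg (ren (Equiv.refl ℕ) (Equiv.Perm.ofSubtype π')⁻¹) h
    rw [TFib_ren_ren, TFib_ren_ren, inv_mul_cancel] at h2
    have h3 : (Equiv.refl ℕ : Equiv.Perm ℕ) * Equiv.refl ℕ = Equiv.refl ℕ := rfl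
    rw [h3] at h2
    rw [h2]
    unfold ren
    have h4 : (fun e : V × V => (Sum.map (Equiv.refl ℕ) (1 : Equiv.Perm ℕ) e.1,
        Sum.map (Equiv.refl ℕ) (1 : Equiv.Perm ℕ) e.2)) = id := by
      funext e
      rcases e with ⟨a | a, b | b⟩ <;> rfl
    rw [h4, Finset.image_id]
  have h2 := hFree _ _ _ _ hE' h1
  apply Equiv.ext
  rintro ⟨i, hi⟩
  apply Subtype.ext
  have h3 := h2 i hi
  rw [Equiv.Perm.mul_apply, Equiv.Perm.inv_eq_iff_eq, hext π i hi, hext π' i hi] at h3
  exact h3

end Orch
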