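import Pool.Agent.Lib.Orch.Spec

/-!
Orchard networks have no automorphisms.
-/

namespace Orch

open Finset

private theorem TFree_mem {E : Dg} {τ : Equiv.Perm ℕ} (h : ren (Equiv.refl ℕ) τ E = E) {a b : V}
    (hab : (a, b) ∈ E) : (Sum.map (Equiv.refl ℕ) τ a, Sum.map (Equiv.refl ℕ) τ b) ∈ E := by
  have h1 : (Sum.map (Equiv.refl ℕ) τ a, Sum.map (Equiv.refl ℕ) τ b) ∈
      ren (Equiv.refl ℕ) τ E := by
    unfold ren
    exact mem_image.2 ⟨(a, b), hab, rfl⟩
  rwa [h] at h1

theorem c_Free (hSC : S_ShapeC) (hSR : S_ShapeR) (hRR : S_RenRed) : S_Free := by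
  intro L I E τ h
  induction h with
  | base x r =>
    intro hren k hk
    rw [mem_singleton] at hk
    subst hk
    have h1 := TFree_mem hren (mem_singleton_self _)
    rw [mem_singleton, Prod.mk.injEq] at h1
    exact Sum.inr.inj h1.1
  | cherry L I E x y i hN hx hy hc h ih =>
    intro hren k hk
    obtain ⟨-, -, -, hxp, -, -⟩ := hSC L I E x y i hN hx hy hc
    have h1 : τ i = i := by
      have h2 := TFree_mem hren hc.2.1
      exact Sum.inr.inj ((hxp _).1 h2)
    by_cases hki : k = i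
    · rw [hki, h1]
    · refine ih ?_ k (mem_erase.2 ⟨hki, hk⟩)
      have h3 := (hRR E (Equiv.refl ℕ) τ x y i i).1
      rw [hren, h1] at h3
      exact h3.symm
  | ret L I E x y i j hN hx hy hr h ih =>
    intro hren k hk
    obtain ⟨-, -, -, -, -, -, hxp, hyp, -, -⟩ := hSR L I E x y i j hN hx hy hr
    have h1 : τ i = i := by
      have h2 := TFree_mem hren hr.1
      exact Sum.inr.inj ((hxp _).1 h2)
    have h1' : τ j = j := by
      have h2 := TFree_mem hren hr.2.1
      exact Sum.inr.inj ((hyp _).1 h2)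
    by_cases hki : k = i
    · rw [hki, h1]
    · by_cases hkj : k = j
      · rw [hkj, h1']
      · refine ih ?_ k (mem_erase.2 ⟨hkj, mem_erase.2 ⟨hki, hk⟩⟩)
        have h3 := (hRR E (Equiv.refl ℕ) τ x y i j).2
        rw [hren, h1, h1'] at h3
        exact h3.symm

end Orch
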