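import Pool.Agent.Lib.Orch.Spec

/-!
Every reduction of an orchard network is orchard.
-/

namespace Orch

open Finset

private theorem TInv_erase2 (I : Finset ℕ) (a b : ℕ) : (I.erase a).erase b = (I.erase b).erase a :=
  Finset.erase_right_comm

private theorem TInv_swap (L : Finset ℕ) (x y : ℕ) (hx : x ∈ L) (hy : y ∈ L) :
    (L.erase y).image (Equiv.swap x y) = L.erase x := by
  ext z
  simp only [Finset.mem_image, Finset.mem_erase]
  constructor
  · rintro ⟨w, ⟨hw1, hw2⟩, rfl⟩
    by_cases hwx : w = x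
    · subst hwx
      rw [Equiv.swap_apply_left]
      exact ⟨fun h => hw1 h.symm, hy⟩
    · rw [Equiv.swap_apply_of_ne_of_ne hwx hw1]
      exact ⟨hwx, hw2⟩
  · rintro ⟨hz1, hz2⟩
    by_cases hzy : z = y
    · subst hzy
      exact ⟨x, ⟨fun h => hz1 h.symm, hx⟩, Equiv.swap_apply_left _ _⟩
    · exact ⟨z, ⟨hzy, hz2⟩, Equiv.swap_apply_of_ne_of_ne hz1 hzy⟩

theorem c_Inv (hExCC : S_ExclCC) (hExCR : S_ExclCR) (hExRR : S_ExclRR) (hSvC : S_SurvC)
    (hSvR : S_SurvR) (hOv : S_Over) (hCC : S_CommCC) (hCR : S_CommCR) (hRR : S_CommRR)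
    (hCO : S_CommOver) (hNC : S_NetRedC) (hNR : S_NetRedR) (hRen : S_RenOrch) (hSw : S_SwapC)
    (hSh : S_ShapeR) : S_Inv := by
  intro L I E h
  induction h with
  | base x r =>
    constructor
    · intro x' y' i hx hy hc
      rw [Finset.mem_singleton] at hx hy
      exact absurd (hx.trans hy.symm) hc.1
    · intro x' y' i j hx hy hr
      have h1 := hr.2.2.1
      rw [Finset.mem_singleton] at h1
      exact absurd (Prod.mk.inj h1).2 (by simp)
  | cherry L I E x y i hN hx hy hc h ih =>
    constructor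
    · intro x' y' i' hx' hy' hc'
      rcases hExCC L I E x y i x' y' i' hN hx hy hx' hy' hc hc' with
        ⟨hi, ⟨h1, h2⟩ | ⟨h1, h2⟩⟩ | ⟨hi, h1, h2, h3, h4⟩
      · subst hi; subst h1; subst h2
        exact h
      · subst hi; subst h1; subst h2
        rw [hSw L I E x y i hN hx hy hc]
        have h5 := hRen _ _ _ (Equiv.swap x y) (Equiv.refl ℕ) h
        rw [TInv_swap L x y hx hy] at h5
        have h6 : (I.erase i).image (Equiv.refl ℕ) = I.erase i := by
          simp
        rw [h6] at h5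
        exact h5
      · have hc1 : IsCherry (redC E x y i) x' y' i' :=
          ((hSvC L I E x y i hN hx hy hc x' y' h1.symm h3.symm h2.symm h4.symm).1 i').2 hc'
        have h5 := ih.1 x' y' i' (Finset.mem_erase.2 ⟨h3.symm, hx'⟩)
          (Finset.mem_erase.2 ⟨h4.symm, hy'⟩) hc1
        rw [hCC L I E x y i x' y' i' hN hx hy hx' hy' hc hc' hi, TInv_erase2 L y y',
          TInv_erase2 I i i'] at h5
        have hc2 : IsCherry (redC E x' y' i') x y i :=
          ((hSvC L I E x' y' i' hN hx' hy' hc' x y h1 h2 h3 h4).1 i).2 hc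
        exact Orchard.cherry _ _ _ x y i (hNC L I E x' y' i' hN hx' hy' hc')
          (Finset.mem_erase.2 ⟨h2, hx⟩) (Finset.mem_erase.2 ⟨h4, hy⟩) hc2 h5
    · intro x' y' i' j' hx' hy' hr'
      obtain ⟨hi, hj, h1, h2, h3, h4⟩ :=
        hExCR L I E x y i x' y' i' j' hN hx hy hx' hy' hc hr'
      have hr1 : IsRet (redC E x y i) x' y' i' j' :=
        ((hSvC L I E x y i hN hx hy hc x' y' h1.symm h3.symm h2.symm h4.symm).2 i' j').2 hr'
      have h5 := ih.2 x' y' i' j' (Finset.mem_erase.2 ⟨h3.symm, hx'⟩)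
          (Finset.mem_erase.2 ⟨h4.symm, hy'⟩) hr1
      rw [hCR L I E x y i x' y' i' j' hN hx hy hx' hy' hc hr', TInv_erase2 I i i',
        TInv_erase2 (I.erase i') i j'] at h5
      have hc2 : IsCherry (redR E x' y' i' j') x y i :=
        ((hSvR L I E x' y' i' j' hN hx' hy' hr' x y h1 h2 h3 h4).1 i).2 hc
      exact Orchard.cherry _ _ _ x y i (hNR L I E x' y' i' j' hN hx' hy' hr') hx hy hc2 h5
  | ret L I E x y i j hN hx hy hr h ih =>
    constructor
    · intro x' y' i' hx' hy' hc'
      obtain ⟨hi, hj, h1, h2, h3, h4⟩ :=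
        hExCR L I E x' y' i' x y i j hN hx' hy' hx hy hc' hr
      have hc1 : IsCherry (redR E x y i j) x' y' i' :=
        ((hSvR L I E x y i j hN hx hy hr x' y' h1 h2 h3 h4).1 i').2 hc'
      have h5 := ih.1 x' y' i' hx' hy' hc1
      rw [← hCR L I E x' y' i' x y i j hN hx' hy' hx hy hc' hr,
        TInv_erase2 (I.erase i) j i', TInv_erase2 I i i'] at h5
      have hr2 : IsRet (redC E x' y' i') x y i j :=
        ((hSvC L I E x' y' i' hN hx' hy' hc' x y h1.symm h3.symm h2.symm h4.symm).2 i j).2 hr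
      exact Orchard.ret _ _ _ x y i j (hNC L I E x' y' i' hN hx' hy' hc')
        (Finset.mem_erase.2 ⟨h3.symm, hx⟩) (Finset.mem_erase.2 ⟨h4.symm, hy⟩) hr2 h5
    · intro x' y' i' j' hx' hy' hr'
      rcases hExRR L I E x y i j x' y' i' j' hN hx hy hx' hy' hr hr' with
        ⟨h1, h2, h3, h4⟩ | ⟨hi, hij, hji, hj, h1, h2, h3, h4⟩ | ⟨h1, h2, hi, h3⟩
      · subst h1; subst h2; subst h3; subst h4
        exact h
      · have hr1 : IsRet (redR E x y i j) x' y' i' j' :=
          ((hSvR L I E x y i j hN hx hy hr x' y' h1.symm h3.symm h2.symm h4.symm).2 i' j').2 hr'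
        have h5 := ih.2 x' y' i' j' hx' hy' hr1
        rw [hRR L I E x y i j x' y' i' j' hN hx hy hx' hy' hr hr' hj] at h5
        have h6 : ((((I.erase i).erase j).erase i').erase j') =
            ((((I.erase i').erase j').erase i).erase j) := by
          ext k
          simp only [Finset.mem_erase]
          tauto
        rw [h6] at h5
        have hr2 : IsRet (redR E x' y' i' j') x y i j :=
          ((hSvR L I E x' y' i' j' hN hx' hy' hr' x y h1 h2 h3 h4).2 i j).2 hr
        exact Orchard.ret _ _ _ x y i j (hNR L I E x' y' i' j' hN hx' hy' hr') hx hy hr2 h5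
      · subst h1; subst h2
        obtain ⟨-, -, -, hxy, -⟩ := hSh L I E x y i j hN hx hy hr
        obtain ⟨-, -, -, hxy', -⟩ := hSh L I E x' y i' j hN hx' hy' hr'
        have hc1 : IsCherry (redR E x y i j) x' y i' :=
          (hOv L I E x y i j hN hx hy hr x' i' hx' h3.symm hxy').2 hr'
        have h5 := ih.1 x' y i' hx' hy' hc1
        rw [hCO L I E x y i j x' i' hN hx hy hx' hr hr' hi] at h5
        have h6 : (((I.erase i).erase j).erase i') = (((I.erase i').erase j).erase i) := by
          ext k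
          simp only [Finset.mem_erase]
          tauto
        rw [h6] at h5
        have hc2 : IsCherry (redR E x' y i' j) x y i :=
          (hOv L I E x' y i' j hN hx' hy' hr' x i hx h3 hxy).2 hr
        exact Orchard.cherry _ _ _ x y i (hNR L I E x' y i' j hN hx' hy' hr') hx hy hc2 h5

end Orch
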