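import Pool.Agent.Lib.Orch.Spec

/-!
`redC` and `extC` are inverse to each other.
-/

namespace Orch

open Finset

private theorem TInvC_memExt (E : Dg) (x y i : ℕ) (a b : V) :
    (a, b) ∈ extC E x y i ↔ ((a, b) ∈ E ∧ b ≠ Sum.inl x) ∨
      ((a, (Sum.inl x : V)) ∈ E ∧ b = Sum.inr i) ∨
      (a = Sum.inr i ∧ (b = Sum.inl x ∨ b = Sum.inl y)) := by
  unfold extC
  simp only [Finset.mem_union, Finset.mem_filter, Finset.mem_image, Finset.mem_insert,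
    Finset.mem_singleton, Prod.mk.injEq]
  constructor
  · rintro (⟨h1, h2⟩ | ⟨⟨c, d⟩, ⟨h1, h2⟩, h3, h4⟩ | h | h)
    · exact Or.inl ⟨h1, h2⟩
    · simp only at h2 h3
      subst h2; subst h3
      exact Or.inr (Or.inl ⟨h1, h4.symm⟩)
    · exact Or.inr (Or.inr ⟨h.1, Or.inl h.2⟩)
    · exact Or.inr (Or.inr ⟨h.1, Or.inr h.2⟩)
  · rintro (⟨h1, h2⟩ | ⟨h1, h2⟩ | ⟨h1, h2 | h2⟩)
    · exact Or.inl ⟨h1, h2⟩
    · exact Or.inr (Or.inl ⟨(a, Sum.inl x), ⟨h1, rfl⟩, rfl, h2.symm⟩)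
    · exact Or.inr (Or.inr (Or.inl ⟨h1, h2⟩))
    · exact Or.inr (Or.inr (Or.inr ⟨h1, h2⟩))

private theorem TInvC_memRed (E : Dg) (x y i : ℕ) (a b : V) :
    (a, b) ∈ redC E x y i ↔ ((a, b) ∈ E ∧ a ≠ Sum.inr i ∧ b ≠ Sum.inr i) ∨
      ((a, (Sum.inr i : V)) ∈ E ∧ b = Sum.inl x) := by
  unfold redC
  simp only [Finset.mem_union, Finset.mem_filter, Finset.mem_image, Prod.mk.injEq]
  constructor
  · rintro (⟨h1, h2⟩ | ⟨⟨c, d⟩, ⟨h1, h2⟩, h3, h4⟩)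
    · exact Or.inl ⟨h1, h2⟩
    · simp only at h2 h3
      subst h2; subst h3
      exact Or.inr ⟨h1, h4.symm⟩
  · rintro (⟨h1, h2⟩ | ⟨h1, h2⟩)
    · exact Or.inl ⟨h1, h2⟩
    · exact Or.inr ⟨(a, Sum.inr i), ⟨h1, rfl⟩, rfl, h2.symm⟩

theorem c_RedExtC (hE : S_Edge) : S_RedExtC := by
  intro L I E x y i hN hx hy hi
  have key : ∀ a b : V, (a, b) ∈ E → a ≠ Sum.inr i ∧ b ≠ Sum.inr i ∧ b ≠ Sum.inl y := by
    intro a b hab
    obtain ⟨⟨i0, h0, h1⟩, h2⟩ := hE L I E hN a b hab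
    refine ⟨?_, ?_, ?_⟩
    · intro h
      rw [h1] at h
      exact hi (Sum.inr.inj h ▸ h0)
    · intro h
      rcases h2 with ⟨z, _, h3⟩ | ⟨j, h4, h3⟩
      · rw [h3] at h; exact absurd h (by simp)
      · rw [h3] at h
        exact hi (Sum.inr.inj h ▸ h4)
    · intro h
      rcases h2 with ⟨z, h4, h3⟩ | ⟨j, h4, h3⟩
      · rw [h3] at h
        exact hy (Sum.inl.inj h ▸ h4)
      · rw [h3] at h; exact absurd h (by simp)
  ext ⟨a, b⟩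
  rw [TInvC_memRed]
  simp only [TInvC_memExt]
  constructor
  · rintro (⟨h1 | h1 | h1, h2, h3⟩ | ⟨h1 | h1 | h1, h2⟩)
    · exact h1.1
    · exact absurd h1.2 h3
    · exact absurd h1.1 h2
    · exact absurd rfl (key _ _ h1.1).2.1
    · rw [h2]; exact h1.1
    · rcases h1.2 with h | h
      · exact absurd h (by simp)
      · exact absurd h (by simp)
  · intro h
    by_cases hb : b = Sum.inl x
    · subst hb
      exact Or.inr ⟨Or.inr (Or.inl ⟨h, trivial⟩), rfl⟩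
    · exact Or.inl ⟨Or.inl ⟨h, hb⟩, (key _ _ h).1, (key _ _ h).2.1⟩

theorem c_ExtRedC (hS : S_ShapeC) : S_ExtRedC := by
  intro L I E x y i hN hx hy hc
  obtain ⟨hi, hT, h1, h2, h3, -⟩ := hS L I E x y i hN hx hy hc
  ext ⟨a, b⟩
  rw [TInvC_memExt]
  simp only [TInvC_memRed]
  constructor
  · rintro (⟨⟨h, h4, h5⟩ | ⟨h, h4⟩, h6⟩ | ⟨⟨h, h4, h5⟩ | ⟨h, h4⟩, h6⟩ | ⟨h, h4⟩)
    · exact h
    · exact absurd h4 h6
    · exact absurd ((h2 a).1 h) h4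
    · rw [h6]; exact h
    · rw [h]; exact (h1 b).2 h4
  · intro h
    by_cases ha : a = Sum.inr i
    · subst ha
      exact Or.inr (Or.inr ⟨rfl, (h1 b).1 h⟩)
    · by_cases hb : b = Sum.inr i
      · subst hb
        exact Or.inr (Or.inl ⟨Or.inr ⟨h, trivial⟩, rfl⟩)
      · refine Or.inl ⟨Or.inl ⟨h, ha, hb⟩, ?_⟩
        intro hbx
        subst hbx
        exact ha ((h2 a).1 h)

end Orch
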