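import Pool.Agent.Lib.Orch.Spec

/-!
`redR` and `extR` are inverse to each other.
-/

namespace Orch

open Finset

private theorem TInvR_memExt (E : Dg) (x y i j : ℕ) (a b : V) :
    (a, b) ∈ extR E x y i j ↔ ((a, b) ∈ E ∧ b ≠ Sum.inl x ∧ b ≠ Sum.inl y) ∨
      ((a, (Sum.inl x : V)) ∈ E ∧ b = Sum.inr i) ∨
      ((a, (Sum.inl y : V)) ∈ E ∧ b = Sum.inr j) ∨
      (a = Sum.inr i ∧ b = Sum.inl x) ∨ (a = Sum.inr j ∧ b = Sum.inl y) ∨
      (a = Sum.inr i ∧ b = Sum.inr j) := by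
  unfold extR
  simp only [Finset.mem_union, Finset.mem_filter, Finset.mem_image, Finset.mem_insert,
    Finset.mem_singleton, Prod.mk.injEq]
  constructor
  · rintro (⟨h1, h2⟩ | ⟨⟨c, d⟩, ⟨h1, h2⟩, h3, h4⟩ | ⟨⟨c, d⟩, ⟨h1, h2⟩, h3, h4⟩ | h | h | h)
    · exact Or.inl ⟨h1, h2⟩
    · simp only at h2 h3
      subst h2; subst h3
      exact Or.inr (Or.inl ⟨h1, h4.symm⟩)
    · simp only at h2 h3
      subst h2; subst h3
      exact Or.inr (Or.inr (Or.inl ⟨h1, h4.symm⟩))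
    · exact Or.inr (Or.inr (Or.inr (Or.inl h)))
    · exact Or.inr (Or.inr (Or.inr (Or.inr (Or.inl h))))
    · exact Or.inr (Or.inr (Or.inr (Or.inr (Or.inr h))))
  · rintro (⟨h1, h2⟩ | ⟨h1, h2⟩ | ⟨h1, h2⟩ | h | h | h)
    · exact Or.inl ⟨h1, h2⟩
    · exact Or.inr (Or.inl ⟨(a, Sum.inl x), ⟨h1, rfl⟩, rfl, h2.symm⟩)
    · exact Or.inr (Or.inr (Or.inl ⟨(a, Sum.inl y), ⟨h1, rfl⟩, rfl, h2.symm⟩))
    · exact Or.inr (Or.inr (Or.inr (Or.inl h)))
    · exact Or.inr (Or.inr (Or.inr (Or.inr (Or.inl h))))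
    · exact Or.inr (Or.inr (Or.inr (Or.inr (Or.inr h))))

private theorem TInvR_memRed (E : Dg) (x y i j : ℕ) (a b : V) :
    (a, b) ∈ redR E x y i j ↔ ((a, b) ∈ E ∧ (a ≠ Sum.inr i ∧ b ≠ Sum.inr i) ∧
        (a ≠ Sum.inr j ∧ b ≠ Sum.inr j)) ∨
      ((a, (Sum.inr i : V)) ∈ E ∧ b = Sum.inl x) ∨
      ((a, (Sum.inr j : V)) ∈ E ∧ a ≠ Sum.inr i ∧ b = Sum.inl y) := by
  unfold redR
  simp only [Finset.mem_union, Finset.mem_filter, Finset.mem_image, Prod.mk.injEq]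
  constructor
  · rintro (⟨h1, h2⟩ | ⟨⟨c, d⟩, ⟨h1, h2⟩, h3, h4⟩ | ⟨⟨c, d⟩, ⟨h1, h2, h5⟩, h3, h4⟩)
    · exact Or.inl ⟨h1, h2⟩
    · simp only at h2 h3
      subst h2; subst h3
      exact Or.inr (Or.inl ⟨h1, h4.symm⟩)
    · simp only at h2 h3 h5
      subst h2; subst h3
      exact Or.inr (Or.inr ⟨h1, h5, h4.symm⟩)
  · rintro (⟨h1, h2⟩ | ⟨h1, h2⟩ | ⟨h1, h5, h2⟩)
    · exact Or.inl ⟨h1, h2⟩
    · exact Or.inr (Or.inl ⟨(a, Sum.inr i), ⟨h1, rfl⟩, rfl, h2.symm⟩)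
    · exact Or.inr (Or.inr ⟨(a, Sum.inr j), ⟨h1, rfl, h5⟩, rfl, h2.symm⟩)

theorem c_RedExtR (hE : S_Edge) : S_RedExtR := by
  intro L I E x y i j hN hx hy hxy hi hj hij
  have key : ∀ k : ℕ, k ∉ I → ∀ a b : V, (a, b) ∈ E → a ≠ Sum.inr k ∧ b ≠ Sum.inr k := by
    intro k hk a b hab
    obtain ⟨⟨i0, h0, h1⟩, h2⟩ := hE L I E hN a b hab
    refine ⟨?_, ?_⟩
    · intro h
      rw [h1] at h
      exact hk (Sum.inr.inj h ▸ h0)
    · intro h
      rcases h2 with ⟨z, _, h3⟩ | ⟨j, h4, h3⟩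
      · rw [h3] at h; exact absurd h (by simp)
      · rw [h3] at h
        exact hk (Sum.inr.inj h ▸ h4)
  ext ⟨a, b⟩
  rw [TInvR_memRed]
  constructor
  · rintro (⟨h, ⟨h2, h3⟩, h4, h5⟩ | ⟨h, h2⟩ | ⟨h, h2, h3⟩)
    · rw [TInvR_memExt] at h
      rcases h with h1 | h1 | h1 | h1 | h1 | h1
      · exact h1.1
      · exact absurd h1.2 h3
      · exact absurd h1.2 h5
      · exact absurd h1.1 h2
      · exact absurd h1.1 h4
      · exact absurd h1.1 h2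
    · rw [TInvR_memExt] at h
      rcases h with h1 | h1 | h1 | h1 | h1 | h1
      · exact absurd rfl (key i hi _ _ h1.1).2
      · rw [h2]; exact h1.1
      · exact absurd (Sum.inr.inj h1.2) hij
      · exact absurd h1.2 (by simp)
      · exact absurd h1.2 (by simp)
      · exact absurd (Sum.inr.inj h1.2) hij
    · rw [TInvR_memExt] at h
      rcases h with h1 | h1 | h1 | h1 | h1 | h1
      · exact absurd rfl (key j hj _ _ h1.1).2
      · exact absurd (Sum.inr.inj h1.2).symm hij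
      · rw [h3]; exact h1.1
      · exact absurd h1.2 (by simp)
      · exact absurd h1.2 (by simp)
      · exact absurd h1.1 h2
  · intro h
    simp only [TInvR_memExt]
    have ki := key i hi a b h
    have kj := key j hj a b h
    by_cases hb : b = Sum.inl x
    · subst hb
      exact Or.inr (Or.inl ⟨Or.inr (Or.inl ⟨h, trivial⟩), rfl⟩)
    · by_cases hb2 : b = Sum.inl y
      · subst hb2
        exact Or.inr (Or.inr ⟨Or.inr (Or.inr (Or.inl ⟨h, trivial⟩)), ki.1, rfl⟩)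
      · exact Or.inl ⟨Or.inl ⟨h, hb, hb2⟩, ki, kj⟩

theorem c_ExtRedR (hS : S_ShapeR) : S_ExtRedR := by
  intro L I E x y i j hN hx hy hc
  obtain ⟨hi, hj, hij, hxy, h1, h2, h3, h4, -, -⟩ := hS L I E x y i j hN hx hy hc
  ext ⟨a, b⟩
  rw [TInvR_memExt]
  constructor
  · rintro (⟨h, h5, h6⟩ | ⟨h, h5⟩ | ⟨h, h5⟩ | ⟨h, h5⟩ | ⟨h, h5⟩ | ⟨h, h5⟩)
    · rw [TInvR_memRed] at h
      rcases h with h | h | h
      · exact h.1
      · exact absurd h.2 h5
      · exact absurd h.2.2 h6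
    · rw [TInvR_memRed] at h
      rcases h with h | h | h
      · exact absurd ((h3 a).1 h.1) h.2.1.1
      · rw [h5]; exact h.1
      · exact absurd (Sum.inl.inj h.2.2) hxy
    · rw [TInvR_memRed] at h
      rcases h with h | h | h
      · exact absurd ((h4 a).1 h.1) h.2.2.1
      · exact absurd (Sum.inl.inj h.2).symm hxy
      · rw [h5]; exact h.1
    · rw [h]; exact (h1 b).2 (Or.inl h5)
    · rw [h]; exact (h2 b).2 h5
    · rw [h]; exact (h1 b).2 (Or.inr h5)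
  · intro h
    by_cases ha : a = Sum.inr i
    · subst ha
      rcases (h1 b).1 h with h5 | h5
      · exact Or.inr (Or.inr (Or.inr (Or.inl ⟨rfl, h5⟩)))
      · exact Or.inr (Or.inr (Or.inr (Or.inr (Or.inr ⟨rfl, h5⟩))))
    · by_cases ha2 : a = Sum.inr j
      · subst ha2
        exact Or.inr (Or.inr (Or.inr (Or.inr (Or.inl ⟨rfl, (h2 b).1 h⟩))))
      · simp only [TInvR_memRed]
        by_cases hb : b = Sum.inr i
        · subst hb
          exact Or.inr (Or.inl ⟨Or.inr (Or.inl ⟨h, trivial⟩), rfl⟩)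
        · by_cases hb2 : b = Sum.inr j
          · subst hb2
            exact Or.inr (Or.inr (Or.inl ⟨Or.inr (Or.inr ⟨h, ha, trivial⟩), rfl⟩))
          · refine Or.inl ⟨Or.inl ⟨h, ⟨ha, hb⟩, ha2, hb2⟩, ?_, ?_⟩
            · intro hbx
              subst hbx
              exact ha ((h3 a).1 h)
            · intro hbx
              subst hbx
              exact ha2 ((h4 a).1 h)

end Orch
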