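import Pool.Agent.Lib.Orch.Spec

/-!
Isomorphism of networks is an equivalence relation; representatives on an initial segment.
-/

namespace Orch

open Finset

private theorem TIso_ren_refl (E : Dg) : ren (Equiv.refl ℕ) (Equiv.refl ℕ) E = E := by
  unfold ren
  have h : (fun e : V × V => (Sum.map (Equiv.refl ℕ) (Equiv.refl ℕ) e.1,
      Sum.map (Equiv.refl ℕ) (Equiv.refl ℕ) e.2)) = id := by
    funext ⟨a, b⟩
    rcases a with a | a <;> rcases b with b | b <;> simp
  rw [h, image_id]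

private theorem TIso_ren_ren (τ τ' : Equiv.Perm ℕ) (E : Dg) :
    ren (Equiv.refl ℕ) τ' (ren (Equiv.refl ℕ) τ E) = ren (Equiv.refl ℕ) (τ.trans τ') E := by
  unfold ren
  rw [image_image]
  congr 1
  funext ⟨a, b⟩
  rcases a with a | a <;> rcases b with b | b <;> simp

theorem c_IsoEq : S_IsoEq := by
  intro l k
  refine ⟨?_, ?_, ?_⟩
  · intro p
    refine ⟨Equiv.refl ℕ, ?_, (TIso_ren_refl _).symm⟩
    rw [Equiv.coe_refl, image_id]
  · rintro p q ⟨τ, h1, h2⟩
    refine ⟨τ.symm, ?_, ?_⟩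
    · rw [h1, image_image]
      have h : (τ.symm ∘ τ : ℕ → ℕ) = id := by
        funext x
        simp
      rw [h, image_id]
    · rw [h2, TIso_ren_ren, Equiv.self_trans_symm, TIso_ren_refl]
  · rintro p q r ⟨τ, h1, h2⟩ ⟨τ', h3, h4⟩
    refine ⟨τ.trans τ', ?_, ?_⟩
    · rw [h3, h1, image_image]
      rfl
    · rw [h4, h2, TIso_ren_ren]

private theorem TIso_perm (A B : Finset ℕ) (h : A.card = B.card) :
    ∃ τ : Equiv.Perm ℕ, A.image τ = B := by
  classical
  have e1 : {x // x ∈ A} ≃ {x // x ∈ B} := Finset.equivOfCardEq h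
  have h1 : Infinite {x // x ∉ A} := (A.finite_toSet.infinite_compl).to_subtype
  have h2 : Infinite {x // x ∉ B} := (B.finite_toSet.infinite_compl).to_subtype
  obtain ⟨e2⟩ := nonempty_equiv_of_countable (α := {x // x ∉ A}) (β := {x // x ∉ B})
  refine ⟨Equiv.subtypeCongr e1 e2, eq_of_subset_of_card_le ?_ ?_⟩
  · intro y hy
    obtain ⟨x, hx, rfl⟩ := mem_image.1 hy
    have h3 : Equiv.subtypeCongr e1 e2 x = (e1 ⟨x, hx⟩ : ℕ) := by
      simp [Equiv.subtypeCongr, Equiv.sumCompl, hx]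
    rw [h3]
    exact (e1 ⟨x, hx⟩).2
  · rw [card_image_of_injective _ (Equiv.injective _), h]

theorem c_Rep (hKC : S_KCount) (hRO : S_RenOrch) : S_Rep := by
  rintro l k ⟨⟨I, E⟩, hO, hk⟩
  have hc := hKC _ _ _ hO
  simp only at hO hk hc
  rw [hk, card_range] at hc
  obtain ⟨τ, hτ⟩ := TIso_perm I (range (l + 2 * k)) (by rw [card_range, hc])
  have hO' := hRO _ _ _ (Equiv.refl ℕ) τ hO
  rw [Equiv.coe_refl, image_id] at hO'
  have hc' := hKC _ _ _ hO'
  rw [card_image_of_injective _ τ.injective, hc, card_range] at hc'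
  have hk' : numRet (I.image τ) (ren (Equiv.refl ℕ) τ E) = k := by omega
  exact ⟨⟨(I.image τ, ren (Equiv.refl ℕ) τ E), hO', hk'⟩, hτ, τ, rfl, rfl⟩

end Orch
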