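import Pool.Agent.Lib.Orch.Spec

/-!
Counting networks with a given cherry.
-/

namespace Orch

open Finset

private theorem TK1_hp (hSv : S_SurvC) (L I : Finset ℕ) (E : Dg) (S : Finset ℕ) (w u i : ℕ)
    (hN : IsNet L I E) (hw : w ∈ L) (hu : u ∈ L) (hc : IsCherry E w u i) (hwS : w ∉ S)
    (huS : u ∉ S) : HasPair (redC E w u i) S ↔ HasPair E S := by
  have key : ∀ x ∈ S, x ≠ w ∧ x ≠ u := by
    intro x hx
    exact ⟨fun h => hwS (h ▸ hx), fun h => huS (h ▸ hx)⟩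
  constructor
  · rintro ⟨x, hx, y, hy, h⟩
    have hs := hSv L I E w u i hN hw hu hc x y (key x hx).1 (key x hx).2 (key y hy).1 (key y hy).2
    refine ⟨x, hx, y, hy, ?_⟩
    rcases h with ⟨k, h⟩ | ⟨k, l, h⟩
    · exact Or.inl ⟨k, (hs.1 k).1 h⟩
    · exact Or.inr ⟨k, l, (hs.2 k l).1 h⟩
  · rintro ⟨x, hx, y, hy, h⟩
    have hs := hSv L I E w u i hN hw hu hc x y (key x hx).1 (key x hx).2 (key y hy).1 (key y hy).2
    refine ⟨x, hx, y, hy, ?_⟩
    rcases h with ⟨k, h⟩ | ⟨k, l, h⟩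
    · exact Or.inl ⟨k, (hs.1 k).2 h⟩
    · exact Or.inr ⟨k, l, (hs.2 k l).2 h⟩

theorem c_K1 (hM : S_MemNet) (hInv : S_Inv) (hON : S_OrchNet) (hOE : S_OrchExtC)
    (hRE : S_RedExtC) (hER : S_ExtRedC) (hNE : S_NetExtC) (hSv : S_SurvC) : S_K1 := by
  classical
  intro L I S w u i hw hu hwu hi hwS huS
  unfold q
  have hM' : ∀ (L I : Finset ℕ) (E : Dg), E ∈ Net L I ↔ Orchard L I E := hM
  have hwE : w ∈ L.erase u := Finset.mem_erase.2 ⟨hwu, hw⟩
  have huE : u ∉ L.erase u := Finset.notMem_erase u L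
  have hiE : i ∉ I.erase i := Finset.notMem_erase i I
  apply Finset.card_nbij' (fun E => redC E w u i) (fun E => extC E w u i)
  · intro E hE
    simp only [Finset.mem_coe, Finset.mem_filter, hM'] at hE ⊢
    obtain ⟨hO, hc, hp⟩ := hE
    refine ⟨(hInv L I E hO).1 w u i hw hu hc, ?_⟩
    rw [TK1_hp hSv L I E S w u i (hON L I E hO) hw hu hc hwS huS]
    exact hp
  · intro E hE
    simp only [Finset.mem_coe, Finset.mem_filter, hM'] at hE ⊢
    obtain ⟨hO, hp⟩ := hE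
    have hN := hON _ _ E hO
    have h1 := hOE _ _ E w u i hO hwE huE hiE
    have h2 := hNE _ _ E w u i hN hwE huE hiE
    rw [Finset.insert_erase hu, Finset.insert_erase hi] at h1 h2
    refine ⟨h1, h2.2, ?_⟩
    rw [← TK1_hp hSv L I _ S w u i h2.1 hw hu h2.2 hwS huS, hRE _ _ E w u i hN hwE huE hiE]
    exact hp
  · intro E hE
    simp only [Finset.mem_coe, Finset.mem_filter, hM'] at hE ⊢
    obtain ⟨hO, hc, hp⟩ := hE
    exact hER L I E w u i (hON L I E hO) hw hu hc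
  · intro E hE
    simp only [Finset.mem_coe, Finset.mem_filter, hM'] at hE ⊢
    obtain ⟨hO, hp⟩ := hE
    exact hRE _ _ E w u i (hON _ _ E hO) hwE huE hiE

end Orch
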