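import Pool.Agent.Lib.Orch.Spec

/-!
Counting networks with a given reticulated cherry.
-/

namespace Orch

open Finset

theorem TK2_pair (hOrchNet : S_OrchNet) (hSurvR : S_SurvR) {L I S : Finset ℕ} {E : Dg}
    {w u i j : ℕ} (hE : Orchard L I E) (hw : w ∈ L) (hu : u ∈ L) (hwS : w ∉ S) (huS : u ∉ S)
    (hr : IsRet E w u i j) : HasPair (redR E w u i j) S ↔ HasPair E S := by
  have key : ∀ x ∈ S, ∀ y ∈ S, (∀ i', IsCherry (redR E w u i j) x y i' ↔ IsCherry E x y i') ∧
      (∀ i' j', IsRet (redR E w u i j) x y i' j' ↔ IsRet E x y i' j') := by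
    intro x hx y hy
    apply hSurvR L I E w u i j (hOrchNet L I E hE) hw hu hr x y
    · rintro rfl; exact hwS hx
    · rintro rfl; exact huS hx
    · rintro rfl; exact hwS hy
    · rintro rfl; exact huS hy
  constructor
  · rintro ⟨x, hx, y, hy, h⟩
    refine ⟨x, hx, y, hy, ?_⟩
    rcases h with ⟨i', h⟩ | ⟨i', j', h⟩
    · exact Or.inl ⟨i', ((key x hx y hy).1 i').1 h⟩
    · exact Or.inr ⟨i', j', ((key x hx y hy).2 i' j').1 h⟩
  · rintro ⟨x, hx, y, hy, h⟩
    refine ⟨x, hx, y, hy, ?_⟩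
    rcases h with ⟨i', h⟩ | ⟨i', j', h⟩
    · exact Or.inl ⟨i', ((key x hx y hy).1 i').2 h⟩
    · exact Or.inr ⟨i', j', ((key x hx y hy).2 i' j').2 h⟩

theorem c_K2 (hMemNet : S_MemNet) (hInv : S_Inv) (hOrchNet : S_OrchNet) (hOrchExtR : S_OrchExtR)
    (hRedExtR : S_RedExtR) (hExtRedR : S_ExtRedR) (hNetExtR : S_NetExtR) (hSurvR : S_SurvR) :
    S_K2 := by
  intro L I S w u i j hw hu hwu hi hj hij hwS huS
  classical
  have hI : insert i (insert j ((I.erase i).erase j)) = I := by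
    rw [insert_erase (mem_erase.2 ⟨hij.symm, hj⟩), insert_erase hi]
  have hi' : i ∉ (I.erase i).erase j := by
    intro h
    exact (mem_erase.1 (mem_erase.1 h).2).1 rfl
  have hj' : j ∉ (I.erase i).erase j := notMem_erase j _
  unfold q
  apply Finset.card_bij' (fun E _ => redR E w u i j) (fun E _ => extR E w u i j)
  · intro E hE
    rw [mem_filter, hMemNet] at hE
    obtain ⟨hE1, hE2, hE3⟩ := hE
    rw [mem_filter, hMemNet]
    exact ⟨(hInv L I E hE1).2 w u i j hw hu hE2,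
      fun h => hE3 ((TK2_pair hOrchNet hSurvR hE1 hw hu hwS huS hE2).1 h)⟩
  · intro E hE
    rw [mem_filter, hMemNet] at hE
    obtain ⟨hE1, hE2⟩ := hE
    have h1 := hOrchExtR L _ E w u i j hE1 hw hu hwu hi' hj' hij
    rw [hI] at h1
    have h2 := (hNetExtR L _ E w u i j (hOrchNet _ _ _ hE1) hw hu hwu hi' hj' hij).2
    rw [mem_filter, hMemNet]
    refine ⟨h1, h2, fun h => hE2 ?_⟩
    have h3 := (TK2_pair hOrchNet hSurvR h1 hw hu hwS huS h2).2 h
    rw [hRedExtR L _ E w u i j (hOrchNet _ _ _ hE1) hw hu hwu hi' hj' hij] at h3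
    exact h3
  · intro E hE
    rw [mem_filter, hMemNet] at hE
    exact hExtRedR L I E w u i j (hOrchNet _ _ _ hE.1) hw hu hE.2.1
  · intro E hE
    rw [mem_filter, hMemNet] at hE
    exact hRedExtR L _ E w u i j (hOrchNet _ _ _ hE.1) hw hu hwu hi' hj' hij

end Orch
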