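import Pool.Agent.Lib.Orch.Spec

/-!
Counting networks with two given reticulated cherries at the same reticulation.
-/

namespace Orch

open Finset

private theorem TK3_hp (hSv : S_SurvR) (L I : Finset ℕ) (E : Dg) (S : Finset ℕ) (w u i j : ℕ)
    (hN : IsNet L I E) (hw : w ∈ L) (hu : u ∈ L) (hc : IsRet E w u i j) (hwS : w ∉ S)
    (huS : u ∉ S) : HasPair (redR E w u i j) S ↔ HasPair E S := by
  have key : ∀ x ∈ S, x ≠ w ∧ x ≠ u := by
    intro x hx
    exact ⟨fun h => hwS (h ▸ hx), fun h => huS (h ▸ hx)⟩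
  constructor
  · rintro ⟨x, hx, y, hy, h⟩
    have hs := hSv L I E w u i j hN hw hu hc x y (key x hx).1 (key x hx).2 (key y hy).1 (key y hy).2
    refine ⟨x, hx, y, hy, ?_⟩
    rcases h with ⟨k, h⟩ | ⟨k, l, h⟩
    · exact Or.inl ⟨k, (hs.1 k).1 h⟩
    · exact Or.inr ⟨k, l, (hs.2 k l).1 h⟩
  · rintro ⟨x, hx, y, hy, h⟩
    have hs := hSv L I E w u i j hN hw hu hc x y (key x hx).1 (key x hx).2 (key y hy).1 (key y hy).2
    refine ⟨x, hx, y, hy, ?_⟩
    rcases h with ⟨k, h⟩ | ⟨k, l, h⟩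
    · exact Or.inl ⟨k, (hs.1 k).2 h⟩
    · exact Or.inr ⟨k, l, (hs.2 k l).2 h⟩

theorem c_K3 (hM : S_MemNet) (hInv : S_Inv) (hON : S_OrchNet) (hOE : S_OrchExtR)
    (hRE : S_RedExtR) (hER : S_ExtRedR) (hNE : S_NetExtR) (hSv : S_SurvR) (hOv : S_Over)
    (hK1 : S_K1) : S_K3 := by
  classical
  intro L I S x x' y i i' j hx hx' hy hxx' hxy hxy' hi hi' hj hii' hij hij' hxS hxS' hyS
  have hM' : ∀ (L I : Finset ℕ) (E : Dg), E ∈ Net L I ↔ Orchard L I E := hM
  have hi'I : i' ∈ (I.erase i).erase j :=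
    Finset.mem_erase.2 ⟨hij', Finset.mem_erase.2 ⟨hii'.symm, hi'⟩⟩
  rw [← hK1 L ((I.erase i).erase j) S x' y i' hx' hy hxy' hi'I hxS' hyS]
  have hiE : i ∉ (I.erase i).erase j := by simp
  have hjE : j ∉ (I.erase i).erase j := by simp
  have hins : insert i (insert j ((I.erase i).erase j)) = I := by
    rw [Finset.insert_erase (Finset.mem_erase.2 ⟨hij.symm, hj⟩), Finset.insert_erase hi]
  apply Finset.card_nbij' (fun E => redR E x y i j) (fun E => extR E x y i j)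
  · intro E hE
    simp only [Finset.mem_coe, Finset.mem_filter, hM'] at hE ⊢
    obtain ⟨hO, ⟨hc, hc'⟩, hp⟩ := hE
    refine ⟨(hInv L I E hO).2 x y i j hx hy hc, ?_, ?_⟩
    · exact (hOv L I E x y i j (hON L I E hO) hx hy hc x' i' hx' hxx'.symm hxy').2 hc'
    · rw [TK3_hp hSv L I E S x y i j (hON L I E hO) hx hy hc hxS hyS]
      exact hp
  · intro E hE
    simp only [Finset.mem_coe, Finset.mem_filter, hM'] at hE ⊢
    obtain ⟨hO, hc, hp⟩ := hE
    have hN := hON _ _ E hO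
    have h1 := hOE _ _ E x y i j hO hx hy hxy hiE hjE hij
    have h2 := hNE _ _ E x y i j hN hx hy hxy hiE hjE hij
    have h3 := hRE _ _ E x y i j hN hx hy hxy hiE hjE hij
    rw [hins] at h1 h2
    refine ⟨h1, ⟨h2.2, ?_⟩, ?_⟩
    · refine (hOv L I _ x y i j h2.1 hx hy h2.2 x' i' hx' hxx'.symm hxy').1 ?_
      rw [h3]
      exact hc
    · rw [← TK3_hp hSv L I _ S x y i j h2.1 hx hy h2.2 hxS hyS, h3]
      exact hp
  · intro E hE
    simp only [Finset.mem_coe, Finset.mem_filter, hM'] at hE ⊢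
    obtain ⟨hO, ⟨hc, hc'⟩, hp⟩ := hE
    exact hER L I E x y i j (hON L I E hO) hx hy hc
  · intro E hE
    simp only [Finset.mem_coe, Finset.mem_filter, hM'] at hE ⊢
    obtain ⟨hO, hc, hp⟩ := hE
    exact hRE _ _ E x y i j (hON _ _ E hO) hx hy hxy hiE hjE hij

end Orch
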