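import Pool.Agent.Lib.Orch.Spec

/-!
Restricting the leaf set of the pair condition.
-/

namespace Orch

open Finset

private theorem TLoc_mono {E : Dg} {U U' : Finset ℕ} (h : U' ⊆ U) (hp : HasPair E U') :
    HasPair E U := by
  obtain ⟨x, hx, y, hy, h1⟩ := hp
  exact ⟨x, h hx, y, h hy, h1⟩

theorem c_LocA (hCC : S_ExclCC) (hCR : S_ExclCR) : S_LocA := by
  intro L I E hN U hU w hw hwU u hu i hc
  refine ⟨?_, TLoc_mono (Finset.erase_subset u U)⟩
  rintro ⟨x, hx, y, hy, h⟩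
  have key : x ≠ u ∧ y ≠ u := by
    rcases h with ⟨i', h⟩ | ⟨i', j', h⟩
    · rcases hCC L I E w u i x y i' hN hw (hU hu) (hU hx) (hU hy) hc h with
        ⟨-, h1 | h1⟩ | h1
      · exact absurd (h1.1 ▸ hx) hwU
      · exact absurd (h1.1 ▸ hy) hwU
      · exact ⟨h1.2.2.2.1.symm, h1.2.2.2.2.symm⟩
    · obtain ⟨-, -, -, -, h1, h2⟩ :=
        hCR L I E w u i x y i' j' hN hw (hU hu) (hU hx) (hU hy) hc h
      exact ⟨h1.symm, h2.symm⟩
  exact ⟨x, Finset.mem_erase.2 ⟨key.1, hx⟩, y, Finset.mem_erase.2 ⟨key.2, hy⟩, h⟩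

theorem c_LocC (hCR : S_ExclCR) (hRR : S_ExclRR) : S_LocC := by
  intro L I E hN U hU w hw hwU u hu i j hr
  refine ⟨?_, TLoc_mono (Finset.erase_subset u U)⟩
  rintro ⟨x, hx, y, hy, h⟩
  have key : x ≠ u ∧ y ≠ u := by
    rcases h with ⟨i', h⟩ | ⟨i', j', h⟩
    · obtain ⟨-, -, h1, -, h2, -⟩ :=
        hCR L I E x y i' u w i j hN (hU hx) (hU hy) (hU hu) hw h hr
      exact ⟨h1, h2⟩
    · rcases hRR L I E u w i j x y i' j' hN (hU hu) hw (hU hx) (hU hy) hr h with h1 | h1 | h1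
      · exact absurd (h1.2.1 ▸ hy) hwU
      · exact ⟨h1.2.2.2.2.1.symm, h1.2.2.2.2.2.1.symm⟩
      · exact absurd (h1.1 ▸ hy) hwU
  exact ⟨x, Finset.mem_erase.2 ⟨key.1, hx⟩, y, Finset.mem_erase.2 ⟨key.2, hy⟩, h⟩

theorem c_LocB (hShape : S_ShapeR) (hCR : S_ExclCR) (hRR : S_ExclRR) : S_LocB := by
  intro L I E hN U hU w hw hwU u hu i j hr
  constructor
  · rintro ⟨x, hx, y, hy, h⟩
    rcases h with ⟨i', h⟩ | ⟨i', j', h⟩
    · obtain ⟨-, -, -, h1, -, h2⟩ :=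
        hCR L I E x y i' w u i j hN (hU hx) (hU hy) hw (hU hu) h hr
      exact Or.inl ⟨x, Finset.mem_erase.2 ⟨h1, hx⟩, y, Finset.mem_erase.2 ⟨h2, hy⟩,
        Or.inl ⟨i', h⟩⟩
    · rcases hRR L I E w u i j x y i' j' hN hw (hU hu) (hU hx) (hU hy) hr h with h1 | h1 | h1
      · exact absurd (h1.1 ▸ hx) hwU
      · exact Or.inl ⟨x, Finset.mem_erase.2 ⟨h1.2.2.2.2.2.2.1.symm, hx⟩, y,
          Finset.mem_erase.2 ⟨h1.2.2.2.2.2.2.2.symm, hy⟩, Or.inr ⟨i', j', h⟩⟩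
      · right
        obtain ⟨h2, h3, -, -⟩ := h1
        obtain ⟨hi', -, -, hxy, -⟩ := hShape L I E x y i' j' hN (hU hx) (hU hy) h
        rw [h2, h3]
        exact ⟨x, Finset.mem_erase.2 ⟨hxy, hx⟩, i', hi', h⟩
  · rintro (h | ⟨z, hz, k, hk, h⟩)
    · exact TLoc_mono (Finset.erase_subset u U) h
    · exact ⟨z, Finset.mem_of_mem_erase hz, u, hu, Or.inr ⟨k, j, h⟩⟩

theorem c_LocW (hSym : S_SymC) (hShapeC : S_ShapeC) (hShape : S_ShapeR) : S_LocW := by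
  intro L I E hN U hU w hw hwU
  constructor
  · rintro ⟨x, hx, y, hy, h⟩
    rw [Finset.mem_insert] at hx hy
    have hxL : x ∈ L := by
      rcases hx with h1 | h1
      · rw [h1]; exact hw
      · exact hU h1
    have hyL : y ∈ L := by
      rcases hy with h1 | h1
      · rw [h1]; exact hw
      · exact hU h1
    have hxy : x ≠ y := by
      rcases h with ⟨i', h⟩ | ⟨i', j', h⟩
      · exact h.1
      · exact (hShape L I E x y i' j' hN hxL hyL h).2.2.2.1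
    rcases hx with rfl | hx
    · rcases hy with rfl | hy
      · exact absurd rfl hxy
      · right
        refine ⟨y, hy, ?_⟩
        rcases h with ⟨i', h⟩ | ⟨i', j', h⟩
        · exact Or.inl ⟨i', (hShapeC L I E x y i' hN hxL hyL h).1, h⟩
        · obtain ⟨h1, h2, -⟩ := hShape L I E x y i' j' hN hxL hyL h
          exact Or.inr (Or.inl ⟨i', h1, j', h2, h⟩)
    · rcases hy with rfl | hy
      · right
        refine ⟨x, hx, ?_⟩
        rcases h with ⟨i', h⟩ | ⟨i', j', h⟩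
        · exact Or.inl ⟨i', (hShapeC L I E x y i' hN hxL hyL h).1, hSym E x y i' h⟩
        · obtain ⟨h1, h2, -⟩ := hShape L I E x y i' j' hN hxL hyL h
          exact Or.inr (Or.inr ⟨i', h1, j', h2, h⟩)
      · exact Or.inl ⟨x, hx, y, hy, h⟩
  · rintro (h | ⟨u, hu, ⟨i, -, h⟩ | ⟨i, -, j, -, h⟩ | ⟨i, -, j, -, h⟩⟩)
    · exact TLoc_mono (Finset.subset_insert w U) h
    · exact ⟨w, Finset.mem_insert_self w U, u, Finset.mem_insert_of_mem hu, Or.inl ⟨i, h⟩⟩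
    · exact ⟨w, Finset.mem_insert_self w U, u, Finset.mem_insert_of_mem hu, Or.inr ⟨i, j, h⟩⟩
    · exact ⟨u, Finset.mem_insert_of_mem hu, w, Finset.mem_insert_self w U, Or.inr ⟨i, j, h⟩⟩

end Orch
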