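import Pool.Agent.Lib.Orch.Spec

/-!
Membership in `redC` and the degrees.
-/

namespace Orch

open Finset

theorem c_MemRedC (hShape : S_ShapeC) : S_MemRedC := by
  intro L I E x y i g hN hx hy hc hg a b
  obtain ⟨hiI, hT, hoi, hix, hiy, ⟨g', hg', hg'i, hin⟩⟩ := hShape L I E x y i hN hx hy hc
  have hgg : (Sum.inr g : V) = Sum.inr g' := (hin _).1 hg
  unfold redC
  rw [mem_union, mem_filter, mem_image]
  constructor
  · rintro (⟨h1, h2, h3⟩ | ⟨⟨a', b'⟩, h1, h2⟩)
    · left
      simp only at h2 h3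
      refine ⟨h1, h2, h3, ?_, ?_⟩
      · rintro rfl
        exact h2 ((hix _).1 h1)
      · rintro rfl
        exact h2 ((hiy _).1 h1)
    · right
      rw [mem_filter] at h1
      simp only at h1
      rw [Prod.mk.injEq] at h2
      obtain ⟨h3, h4⟩ := h1
      subst h4
      refine ⟨?_, h2.2.symm⟩
      rw [← h2.1, hgg]
      exact (hin _).1 h3
  · rintro (⟨h1, h2, h3, -, -⟩ | ⟨rfl, rfl⟩)
    · exact Or.inl ⟨h1, h2, h3⟩
    · exact Or.inr ⟨((Sum.inr g : V), (Sum.inr i : V)), mem_filter.2 ⟨hg, rfl⟩, rfl⟩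

theorem c_DegC (hShape : S_ShapeC) : S_DegC := by
  intro L I E x y i hN hx hy hc k hki
  obtain ⟨hiI, hT, hoi, hix, hiy, ⟨g, hgI, hgi, hin⟩⟩ := hShape L I E x y i hN hx hy hc
  have hg : ((Sum.inr g : V), (Sum.inr i : V)) ∈ E := (hin _).2 rfl
  have hM := c_MemRedC hShape L I E x y i g hN hx hy hc hg
  have hki' : (Sum.inr k : V) ≠ Sum.inr i := fun h => hki (Sum.inr.inj h)
  refine ⟨?_, ?_⟩
  · unfold indeg
    congr 1
    ext ⟨a, b⟩
    rw [mem_filter, mem_filter, hM]
    constructor
    · rintro ⟨⟨h1, -⟩ | ⟨rfl, rfl⟩, h⟩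
      · exact ⟨h1, h⟩
      · exact absurd h (by simp)
    · rintro ⟨h1, h⟩
      simp only at h
      subst h
      refine ⟨Or.inl ⟨h1, ?_, hki', by simp, by simp⟩, rfl⟩
      rintro rfl
      rcases (hoi _).1 h1 with h2 | h2 <;> exact absurd h2 (by simp)
  · unfold outdeg
    refine card_nbij' (fun e => (e.1, if e.2 = Sum.inl x then (Sum.inr i : V) else e.2))
      (fun e => (e.1, if e.2 = Sum.inr i then (Sum.inl x : V) else e.2)) ?_ ?_ ?_ ?_
    · rintro ⟨a, b⟩ he
      rw [mem_coe, mem_filter, hM] at he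
      obtain ⟨he, h⟩ := he
      simp only at h
      subst h
      rw [mem_coe, mem_filter]
      refine ⟨?_, rfl⟩
      rcases he with ⟨h1, h2, h3, h4, h5⟩ | ⟨h1, rfl⟩
      · simp only
        rw [if_neg h4]
        exact h1
      · simp only
        rw [if_pos trivial, h1]
        exact hg
    · rintro ⟨a, b⟩ he
      rw [mem_coe, mem_filter] at he
      obtain ⟨he, h⟩ := he
      simp only at h
      subst h
      rw [mem_coe, mem_filter, hM]
      refine ⟨?_, rfl⟩
      simp only
      by_cases hb : b = Sum.inr i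
      · rw [if_pos hb]
        subst hb
        exact Or.inr ⟨(hin _).1 he, rfl⟩
      · rw [if_neg hb]
        refine Or.inl ⟨he, hki', hb, ?_, ?_⟩
        · rintro rfl
          exact hki' ((hix _).1 he)
        · rintro rfl
          exact hki' ((hiy _).1 he)
    · rintro ⟨a, b⟩ he
      rw [mem_coe, mem_filter, hM] at he
      obtain ⟨he, h⟩ := he
      simp only at h
      subst h
      rcases he with ⟨h1, h2, h3, h4, h5⟩ | ⟨h1, rfl⟩
      · simp only
        rw [if_neg h4, if_neg h3]
      · simp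
    · rintro ⟨a, b⟩ he
      rw [mem_coe, mem_filter] at he
      obtain ⟨he, h⟩ := he
      simp only at h
      subst h
      simp only
      by_cases hb : b = Sum.inr i
      · rw [if_pos hb, if_pos rfl, hb]
      · rw [if_neg hb, if_neg]
        rintro rfl
        exact hki' ((hix _).1 he)

end Orch
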