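import Pool.Agent.Lib.Orch.Spec

/-!
Membership in `redR` and the degrees.
-/

namespace Orch

open Finset

theorem c_MemRedR (hShape : S_ShapeR) : S_MemRedR := by
  intro L I E x y i j g q hN hx hy hr hg hq hqi a b
  obtain ⟨hiI, hjI, hij, hxy, hoi, hoj, hix, hjy, ⟨g', hgI, hgi, hgj, hing⟩,
    ⟨q', hqI, hqi', hqj, hinq⟩⟩ := hShape L I E x y i j hN hx hy hr
  have hgg : (Sum.inr g : V) = Sum.inr g' := (hing _).1 hg
  have hqq : (Sum.inr q : V) = Sum.inr q' := by
    rcases (hinq _).1 hq with h | h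
    · exact absurd (Sum.inr.inj h) hqi
    · exact h
  unfold redR
  rw [mem_union, mem_union, mem_filter, mem_image, mem_image]
  constructor
  · rintro (⟨h1, ⟨h2, h3⟩, h4, h5⟩ | ⟨⟨a', b'⟩, h1, h2⟩ | ⟨⟨a', b'⟩, h1, h2⟩)
    · left
      simp only at h2 h3 h4 h5
      refine ⟨h1, h2, h4, h3, h5, ?_, ?_⟩
      · rintro rfl
        exact h2 ((hix _).1 h1)
      · rintro rfl
        exact h4 ((hjy _).1 h1)
    · right
      left
      rw [mem_filter] at h1
      simp only at h1
      rw [Prod.mk.injEq] at h2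
      obtain ⟨h3, h4⟩ := h1
      subst h4
      refine ⟨?_, h2.2.symm⟩
      rw [← h2.1, hgg]
      exact (hing _).1 h3
    · right
      right
      rw [mem_filter] at h1
      simp only at h1
      rw [Prod.mk.injEq] at h2
      obtain ⟨h3, h4, h5⟩ := h1
      subst h4
      refine ⟨?_, h2.2.symm⟩
      rw [← h2.1, hqq]
      rcases (hinq _).1 h3 with h6 | h6
      · exact absurd h6 h5
      · exact h6
  · rintro (⟨h1, h2, h3, h4, h5, -, -⟩ | ⟨rfl, rfl⟩ | ⟨rfl, rfl⟩)
    · exact Or.inl ⟨h1, ⟨h2, h4⟩, h3, h5⟩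
    · exact Or.inr (Or.inl ⟨((Sum.inr g : V), (Sum.inr i : V)), mem_filter.2 ⟨hg, rfl⟩, rfl⟩)
    · refine Or.inr (Or.inr ⟨((Sum.inr q : V), (Sum.inr j : V)), mem_filter.2 ⟨hq, rfl, ?_⟩,
        rfl⟩)
      simpa using hqi

theorem c_DegR (hShape : S_ShapeR) : S_DegR := by
  intro L I E x y i j hN hx hy hr k hki hkj
  obtain ⟨hiI, hjI, hij, hxy, hoi, hoj, hix, hjy, ⟨g, hgI, hgi, hgj, hing⟩,
    ⟨q, hqI, hqi, hqj, hinq⟩⟩ := hShape L I E x y i j hN hx hy hr
  have hg : ((Sum.inr g : V), (Sum.inr i : V)) ∈ E := (hing _).2 rfl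
  have hq : ((Sum.inr q : V), (Sum.inr j : V)) ∈ E := (hinq _).2 (Or.inr rfl)
  have hM := c_MemRedR hShape L I E x y i j g q hN hx hy hr hg hq hqi
  have hki' : (Sum.inr k : V) ≠ Sum.inr i := fun h => hki (Sum.inr.inj h)
  have hkj' : (Sum.inr k : V) ≠ Sum.inr j := fun h => hkj (Sum.inr.inj h)
  have hij' : (Sum.inr j : V) ≠ Sum.inr i := fun h => hij (Sum.inr.inj h).symm
  have hyx' : (Sum.inl y : V) ≠ Sum.inl x := fun h => hxy (Sum.inl.inj h).symm
  refine ⟨?_, ?_⟩
  · unfold indeg
    congr 1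
    ext ⟨a, b⟩
    rw [mem_filter, mem_filter, hM]
    constructor
    · rintro ⟨⟨h1, -⟩ | ⟨rfl, rfl⟩ | ⟨rfl, rfl⟩, h⟩
      · exact ⟨h1, h⟩
      · exact absurd h (by simp)
      · exact absurd h (by simp)
    · rintro ⟨h1, h⟩
      simp only at h
      subst h
      refine ⟨Or.inl ⟨h1, ?_, ?_, hki', hkj', by simp, by simp⟩, rfl⟩
      · rintro rfl
        rcases (hoi _).1 h1 with h2 | h2
        · exact absurd h2 (by simp)
        · exact hkj' h2
      · rintro rfl
        exact absurd ((hoj _).1 h1) (by simp)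
  · unfold outdeg
    refine card_nbij'
      (fun e => (e.1, if e.2 = Sum.inl x then (Sum.inr i : V) else
        if e.2 = Sum.inl y then (Sum.inr j : V) else e.2))
      (fun e => (e.1, if e.2 = Sum.inr i then (Sum.inl x : V) else
        if e.2 = Sum.inr j then (Sum.inl y : V) else e.2)) ?_ ?_ ?_ ?_
    · rintro ⟨a, b⟩ he
      rw [mem_coe, mem_filter, hM] at he
      obtain ⟨he, h⟩ := he
      simp only at h
      subst h
      rw [mem_coe, mem_filter]
      refine ⟨?_, rfl⟩
      rcases he with ⟨h1, h2, h3, h4, h5, h6, h7⟩ | ⟨h1, rfl⟩ | ⟨h1, rfl⟩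
      · simp only
        rw [if_neg h6, if_neg h7]
        exact h1
      · simp only
        rw [if_pos trivial, h1]
        exact hg
      · simp only
        rw [if_neg hyx', if_pos trivial, h1]
        exact hq
    · rintro ⟨a, b⟩ he
      rw [mem_coe, mem_filter] at he
      obtain ⟨he, h⟩ := he
      simp only at h
      subst h
      rw [mem_coe, mem_filter, hM]
      refine ⟨?_, rfl⟩
      simp only
      by_cases hb : b = Sum.inr i
      · rw [if_pos hb]
        subst hb
        exact Or.inr (Or.inl ⟨(hing _).1 he, rfl⟩)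
      · rw [if_neg hb]
        by_cases hb2 : b = Sum.inr j
        · rw [if_pos hb2]
          subst hb2
          refine Or.inr (Or.inr ⟨?_, rfl⟩)
          rcases (hinq _).1 he with h | h
          · exact absurd h hki'
          · exact h
        · rw [if_neg hb2]
          refine Or.inl ⟨he, hki', hkj', hb, hb2, ?_, ?_⟩
          · rintro rfl
            exact hki' ((hix _).1 he)
          · rintro rfl
            exact hkj' ((hjy _).1 he)
    · rintro ⟨a, b⟩ he
      rw [mem_coe, mem_filter, hM] at he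
      obtain ⟨he, h⟩ := he
      simp only at h
      subst h
      rcases he with ⟨h1, h2, h3, h4, h5, h6, h7⟩ | ⟨h1, rfl⟩ | ⟨h1, rfl⟩
      · simp only
        rw [if_neg h6, if_neg h7, if_neg h4, if_neg h5]
      · simp
      · simp only
        simp [hyx', hij']
    · rintro ⟨a, b⟩ he
      rw [mem_coe, mem_filter] at he
      obtain ⟨he, h⟩ := he
      simp only at h
      subst h
      simp only
      by_cases hb : b = Sum.inr i
      · rw [if_pos hb, if_pos rfl, hb]
      · rw [if_neg hb]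
        by_cases hb2 : b = Sum.inr j
        · rw [if_pos hb2, if_neg hyx', if_pos rfl, hb2]
        · rw [if_neg hb2, if_neg, if_neg]
          · rintro rfl
            exact hkj' ((hjy _).1 he)
          · rintro rfl
            exact hki' ((hix _).1 he)

end Orch
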