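import Pool.Agent.Lib.Orch.Spec

/-!
The extension by a cherry is a network.
-/

namespace Orch

open Finset

private theorem TNetExtC_in_eq {E E' : Dg} {v : V} (h : ∀ a, (a, v) ∈ E' ↔ (a, v) ∈ E) :
    indeg E' v = indeg E v := by
  unfold indeg
  congr 1
  ext ⟨a, b⟩
  rw [mem_filter, mem_filter]
  constructor
  · rintro ⟨h1, h2⟩
    simp only at h2
    subst h2
    exact ⟨(h a).1 h1, rfl⟩
  · rintro ⟨h1, h2⟩
    simp only at h2
    subst h2
    exact ⟨(h a).2 h1, rfl⟩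

private theorem TNetExtC_in_one {E : Dg} {a₀ v : V} (h : ∀ a, (a, v) ∈ E ↔ a = a₀) :
    indeg E v = 1 := by
  unfold indeg
  rw [card_eq_one]
  refine ⟨(a₀, v), ?_⟩
  ext ⟨a, b⟩
  rw [mem_filter, mem_singleton, Prod.mk.injEq]
  constructor
  · rintro ⟨h1, h2⟩
    simp only at h2
    subst h2
    exact ⟨(h a).1 h1, rfl⟩
  · rintro ⟨rfl, rfl⟩
    exact ⟨(h a).2 rfl, rfl⟩

private theorem TNetExtC_in_two {E : Dg} {a₁ a₂ v : V} (hne : a₁ ≠ a₂)
    (h : ∀ a, (a, v) ∈ E ↔ a = a₁ ∨ a = a₂) : indeg E v = 2 := by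
  unfold indeg
  have h1 : E.filter (fun e => e.2 = v) = {(a₁, v), (a₂, v)} := by
    ext ⟨a, b⟩
    rw [mem_filter, mem_insert, mem_singleton, Prod.mk.injEq, Prod.mk.injEq]
    constructor
    · rintro ⟨h1, h2⟩
      simp only at h2
      subst h2
      rcases (h a).1 h1 with h3 | h3
      · exact Or.inl ⟨h3, rfl⟩
      · exact Or.inr ⟨h3, rfl⟩
    · rintro (⟨rfl, rfl⟩ | ⟨rfl, rfl⟩)
      · exact ⟨(h a).2 (Or.inl rfl), rfl⟩
      · exact ⟨(h a).2 (Or.inr rfl), rfl⟩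
  rw [h1, card_pair]
  intro h2
  exact hne (Prod.mk.inj h2).1

private theorem TNetExtC_out_zero {E : Dg} {u : V} (h : ∀ b, (u, b) ∉ E) : outdeg E u = 0 := by
  unfold outdeg
  rw [card_eq_zero, filter_eq_empty_iff]
  rintro ⟨a, b⟩ he h1
  simp only at h1
  subst h1
  exact h b he

private theorem TNetExtC_out_one {E : Dg} {u b₀ : V} (h : ∀ b, (u, b) ∈ E ↔ b = b₀) :
    outdeg E u = 1 := by
  unfold outdeg
  rw [card_eq_one]
  refine ⟨(u, b₀), ?_⟩
  ext ⟨a, b⟩
  rw [mem_filter, mem_singleton, Prod.mk.injEq]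
  constructor
  · rintro ⟨h1, h2⟩
    simp only at h2
    subst h2
    exact ⟨rfl, (h b).1 h1⟩
  · rintro ⟨rfl, rfl⟩
    exact ⟨(h b).2 rfl, rfl⟩

private theorem TNetExtC_out_two {E : Dg} {u b₁ b₂ : V} (hne : b₁ ≠ b₂)
    (h : ∀ b, (u, b) ∈ E ↔ b = b₁ ∨ b = b₂) : outdeg E u = 2 := by
  unfold outdeg
  have h1 : E.filter (fun e => e.1 = u) = {(u, b₁), (u, b₂)} := by
    ext ⟨a, b⟩
    rw [mem_filter, mem_insert, mem_singleton, Prod.mk.injEq, Prod.mk.injEq]
    constructor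
    · rintro ⟨h1, h2⟩
      simp only at h2
      subst h2
      rcases (h b).1 h1 with h3 | h3
      · exact Or.inl ⟨rfl, h3⟩
      · exact Or.inr ⟨rfl, h3⟩
    · rintro (⟨rfl, rfl⟩ | ⟨rfl, rfl⟩)
      · exact ⟨(h b).2 (Or.inl rfl), rfl⟩
      · exact ⟨(h b).2 (Or.inr rfl), rfl⟩
  rw [h1, card_pair]
  intro h2
  exact hne (Prod.mk.inj h2).2

private theorem TNetExtC_out_map {E E' : Dg} {u : V} (ψ : V → V)
    (hinj : ∀ b b', (u, b) ∈ E → (u, b') ∈ E → ψ b = ψ b' → b = b')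
    (h : ∀ b, (u, b) ∈ E' ↔ ∃ b', (u, b') ∈ E ∧ ψ b' = b) : outdeg E' u = outdeg E u := by
  unfold outdeg
  have h1 : E'.filter (fun e => e.1 = u) =
      (E.filter (fun e => e.1 = u)).image (fun e => (e.1, ψ e.2)) := by
    ext ⟨a, b⟩
    rw [mem_filter, mem_image]
    constructor
    · rintro ⟨h1, h2⟩
      simp only at h2
      subst h2
      obtain ⟨b', hb', rfl⟩ := (h b).1 h1
      exact ⟨(a, b'), mem_filter.2 ⟨hb', rfl⟩, rfl⟩
    · rintro ⟨⟨a', b'⟩, he, h2⟩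
      obtain ⟨he1, he2⟩ := mem_filter.1 he
      simp only at he2 h2
      subst he2
      rw [Prod.mk.injEq] at h2
      obtain ⟨rfl, rfl⟩ := h2
      exact ⟨(h _).2 ⟨b', he1, rfl⟩, rfl⟩
  rw [h1, card_image_of_injOn]
  rintro ⟨a, b⟩ he ⟨a', b'⟩ he' h2
  rw [mem_coe, mem_filter] at he he'
  obtain ⟨he1, he2⟩ := he
  obtain ⟨he1', he2'⟩ := he'
  simp only at he2 he2' h2
  subst he2
  subst he2'
  rw [Prod.mk.injEq] at h2
  rw [hinj b b' he1 he1' h2.2]

private theorem TNetExtC_in_iff {E : Dg} {v : V} (h : indeg E v = 1) :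
    ∃ a₀, ∀ a, (a, v) ∈ E ↔ a = a₀ := by
  unfold indeg at h
  obtain ⟨⟨a₀, b₀⟩, he⟩ := card_eq_one.1 h
  have h1 : (a₀, b₀) ∈ E.filter (fun e => e.2 = v) := by
    rw [he]
    exact mem_singleton_self _
  obtain ⟨h2, h3⟩ := mem_filter.1 h1
  simp only at h3
  subst h3
  refine ⟨a₀, fun a => ⟨fun h4 => ?_, ?_⟩⟩
  · have h5 : (a, b₀) ∈ E.filter (fun e => e.2 = b₀) := mem_filter.2 ⟨h4, rfl⟩
    rw [he, mem_singleton, Prod.mk.injEq] at h5
    exact h5.1
  · rintro rfl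
    exact h2

private theorem TNetExtC_parent (hE : S_Edge) {L I : Finset ℕ} {E : Dg} (hN : IsNet L I E) {x : ℕ}
    (hx : x ∈ L) : ∃ g ∈ I, ∀ a : V, (a, (Sum.inl x : V)) ∈ E ↔ a = Sum.inr g := by
  obtain ⟨a₀, ha⟩ := TNetExtC_in_iff (hN.leaf x hx).1
  obtain ⟨⟨g, hg, hag⟩, -⟩ := hE L I E hN a₀ _ ((ha a₀).2 rfl)
  refine ⟨g, hg, ?_⟩
  rw [← hag]
  exact ha

private theorem TNetExtC_mem {E : Dg} {x g : ℕ} (y i : ℕ)
    (hg : ∀ a : V, (a, (Sum.inl x : V)) ∈ E ↔ a = Sum.inr g) (a b : V) :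
    (a, b) ∈ extC E x y i ↔ ((a, b) ∈ E ∧ b ≠ Sum.inl x) ∨ (a = Sum.inr g ∧ b = Sum.inr i) ∨
      (a = Sum.inr i ∧ b = Sum.inl x) ∨ (a = Sum.inr i ∧ b = Sum.inl y) := by
  unfold extC
  rw [mem_union, mem_filter, mem_union, mem_image, mem_insert, mem_singleton, Prod.mk.injEq,
    Prod.mk.injEq]
  refine or_congr Iff.rfl (or_congr ?_ Iff.rfl)
  constructor
  · rintro ⟨⟨a', b'⟩, he, h⟩
    obtain ⟨he1, he2⟩ := mem_filter.1 he
    simp only at he2 h
    subst he2
    rw [Prod.mk.injEq] at h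
    rw [← h.1, ← h.2]
    exact ⟨(hg a').1 he1, rfl⟩
  · rintro ⟨rfl, rfl⟩
    exact ⟨(Sum.inr g, Sum.inl x), mem_filter.2 ⟨(hg _).2 rfl, rfl⟩, rfl⟩

theorem c_NetExtC (hE : S_Edge) (hA : S_Acyc) : S_NetExtC := by
  intro L I E x y i hN hx hy hi
  obtain ⟨g, hgI, hg⟩ := TNetExtC_parent hE hN hx
  have hxy : x ≠ y := fun h => hy (h ▸ hx)
  have hmem := TNetExtC_mem y i hg
  have hgi : g ≠ i := fun h => hi (h ▸ hgI)
  have hbi : ∀ a : V, (a, (Sum.inr i : V)) ∉ E := by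
    intro a ha
    rcases (hE L I E hN _ _ ha).2 with ⟨z, _, h⟩ | ⟨k, hk, h⟩
    · exact absurd h (by simp)
    · exact hi ((Sum.inr.inj h) ▸ hk)
  have hby : ∀ a : V, (a, (Sum.inl y : V)) ∉ E := by
    intro a ha
    rcases (hE L I E hN _ _ ha).2 with ⟨z, hz, h⟩ | ⟨k, hk, h⟩
    · exact hy ((Sum.inl.inj h) ▸ hz)
    · exact absurd h (by simp)
  have hai : ∀ b : V, ((Sum.inr i : V), b) ∉ E := by
    intro b hb
    obtain ⟨⟨k, hk, h⟩, -⟩ := hE L I E hN _ _ hb
    exact hi ((Sum.inr.inj h) ▸ hk)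
  have hal : ∀ (z : ℕ) (b : V), ((Sum.inl z : V), b) ∉ E := by
    intro z b hb
    obtain ⟨⟨k, hk, h⟩, -⟩ := hE L I E hN _ _ hb
    exact absurd h (by simp)
  have hin : ∀ k, k ≠ i → indeg (extC E x y i) (Sum.inr k) = indeg E (Sum.inr k) := by
    intro k hk
    refine TNetExtC_in_eq fun a => ?_
    rw [hmem]
    simp [hk]
  have hout : ∀ k, k ≠ i → outdeg (extC E x y i) (Sum.inr k) = outdeg E (Sum.inr k) := by
    intro k hk
    refine TNetExtC_out_map (fun b => if b = Sum.inl x then Sum.inr i else b) ?_ ?_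
    · intro b b' hb hb' h
      by_cases h1 : b = Sum.inl x
      · by_cases h2 : b' = Sum.inl x
        · rw [h1, h2]
        · rw [if_pos h1, if_neg h2] at h
          rw [← h] at hb'
          exact absurd hb' (hbi _)
      · by_cases h2 : b' = Sum.inl x
        · rw [if_neg h1, if_pos h2] at h
          rw [h] at hb
          exact absurd hb (hbi _)
        · rw [if_neg h1, if_neg h2] at h
          exact h
    · intro b
      rw [hmem]
      constructor
      · rintro (⟨h1, h2⟩ | ⟨h1, h2⟩ | ⟨h1, h2⟩ | ⟨h1, h2⟩)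
        · exact ⟨b, h1, if_neg h2⟩
        · refine ⟨Sum.inl x, (hg _).2 h1, ?_⟩
          rw [if_pos rfl, h2]
        · exact absurd (Sum.inr.inj h1) hk
        · exact absurd (Sum.inr.inj h1) hk
      · rintro ⟨b', hb', h⟩
        by_cases h1 : b' = Sum.inl x
        · rw [if_pos h1] at h
          rw [h1] at hb'
          exact Or.inr (Or.inl ⟨(hg _).1 hb', h.symm⟩)
        · rw [if_neg h1] at h
          rw [← h]
          exact Or.inl ⟨hb', h1⟩
  refine ⟨⟨?_, ?_, ?_, ?_⟩, hxy, (hmem _ _).2 (Or.inr (Or.inr (Or.inl ⟨rfl, rfl⟩))),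
    (hmem _ _).2 (Or.inr (Or.inr (Or.inr ⟨rfl, rfl⟩)))⟩
  · rintro ⟨a, b⟩ he
    rw [hmem] at he
    simp only
    rcases he with ⟨h1, -⟩ | ⟨rfl, rfl⟩ | ⟨rfl, rfl⟩ | ⟨rfl, rfl⟩
    · have h2 := hN.sub _ h1
      have h3 : L.disjSum I ⊆ (insert y L).disjSum (insert i I) :=
        disjSum_mono (subset_insert _ _) (subset_insert _ _)
      exact ⟨h3 h2.1, h3 h2.2⟩
    · exact ⟨inr_mem_disjSum.2 (mem_insert_of_mem hgI), inr_mem_disjSum.2 (mem_insert_self _ _)⟩
    · exact ⟨inr_mem_disjSum.2 (mem_insert_self _ _), inl_mem_disjSum.2 (mem_insert_of_mem hx)⟩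
    · exact ⟨inr_mem_disjSum.2 (mem_insert_self _ _), inl_mem_disjSum.2 (mem_insert_self _ _)⟩
  · intro z hz
    refine ⟨?_, ?_⟩
    · by_cases hzx : z = x
      · subst hzx
        refine TNetExtC_in_one (a₀ := Sum.inr i) fun a => ?_
        rw [hmem]
        simp [hxy]
      · rcases mem_insert.1 hz with rfl | hzL
        · refine TNetExtC_in_one (a₀ := Sum.inr i) fun a => ?_
          rw [hmem]
          simp [hby, hxy.symm]
        · have hzy : z ≠ y := fun h => hy (h ▸ hzL)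
          rw [← (hN.leaf z hzL).1]
          refine TNetExtC_in_eq fun a => ?_
          rw [hmem]
          simp [hzx, hzy]
    · refine TNetExtC_out_zero fun b => ?_
      rw [hmem]
      simp [hal]
  · obtain ⟨r, hr, hr1, hr2⟩ := hN.root
    have hri : r ≠ i := fun h => hi (h ▸ hr)
    refine ⟨r, mem_insert_of_mem hr, ?_, ?_⟩
    · rw [hin r hri, hout r hri]
      exact hr1
    · intro k hk hkr
      by_cases hki : k = i
      · subst hki
        left
        refine ⟨TNetExtC_in_one (a₀ := Sum.inr g) fun a => ?_,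
          TNetExtC_out_two (b₁ := Sum.inl x) (b₂ := Sum.inl y) (by simp [hxy]) fun b => ?_⟩
        · rw [hmem]
          simp [hbi]
        · rw [hmem]
          simp [hai, hgi.symm]
      · have h1 := hr2 k ((mem_insert.1 hk).resolve_left hki) hkr
        unfold TreeNode Retic
        rw [hin k hki, hout k hki]
        exact h1
  · rw [hA]
    obtain ⟨f, hf⟩ := (hA E).1 hN.acyc
    refine ⟨fun v => match v with
      | Sum.inl z => if z = x ∨ z = y then f (Sum.inl x) + 2 else f (Sum.inl z)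
      | Sum.inr k => if k = i then f (Sum.inl x) + 1 else f (Sum.inr k), ?_⟩
    intro a b hab
    rw [hmem] at hab
    rcases hab with ⟨h1, h2⟩ | ⟨rfl, rfl⟩ | ⟨rfl, rfl⟩ | ⟨rfl, rfl⟩
    · have h3 := hf a b h1
      rcases a with a | a
      · exact absurd h1 (hal _ _)
      · have ha : a ≠ i := by
          rintro rfl
          exact hai _ h1
        rcases b with b | b
        · have hbx : b ≠ x := fun h => h2 (by rw [h])
          have hby' : b ≠ y := by
            rintro rfl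
            exact hby _ h1
          simp only [ha, hbx, hby', or_self, if_false]
          exact h3
        · have hb : b ≠ i := by
            rintro rfl
            exact hbi _ h1
          simp only [ha, hb, if_false]
          exact h3
    · have h3 := hf _ _ ((hg _).2 rfl)
      simp only [hgi, if_false, if_true]
      omega
    · simp
    · simp

end Orch
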