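import Pool.Agent.Lib.Orch.Spec

/-!
The extension by a reticulated cherry is a network.
-/

namespace Orch

open Finset

private theorem TNetExtR_in_eq {E E' : Dg} {v : V} (h : ∀ a, (a, v) ∈ E' ↔ (a, v) ∈ E) :
    indeg E' v = indeg E v := by
  unfold indeg
  congr 1
  ext ⟨a, b⟩
  rw [mem_filter, mem_filter]
  constructor
  · rintro ⟨h1, h2⟩
    simp only at h2
    subst h2
    exact ⟨(h a).1 h1, rfl⟩
  · rintro ⟨h1, h2⟩
    simp only at h2
    subst h2
    exact ⟨(h a).2 h1, rfl⟩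

private theorem TNetExtR_in_one {E : Dg} {a₀ v : V} (h : ∀ a, (a, v) ∈ E ↔ a = a₀) :
    indeg E v = 1 := by
  unfold indeg
  rw [card_eq_one]
  refine ⟨(a₀, v), ?_⟩
  ext ⟨a, b⟩
  rw [mem_filter, mem_singleton, Prod.mk.injEq]
  constructor
  · rintro ⟨h1, h2⟩
    simp only at h2
    subst h2
    exact ⟨(h a).1 h1, rfl⟩
  · rintro ⟨rfl, rfl⟩
    exact ⟨(h a).2 rfl, rfl⟩

private theorem TNetExtR_in_two {E : Dg} {a₁ a₂ v : V} (hne : a₁ ≠ a₂)
    (h : ∀ a, (a, v) ∈ E ↔ a = a₁ ∨ a = a₂) : indeg E v = 2 := by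
  unfold indeg
  have h1 : E.filter (fun e => e.2 = v) = {(a₁, v), (a₂, v)} := by
    ext ⟨a, b⟩
    rw [mem_filter, mem_insert, mem_singleton, Prod.mk.injEq, Prod.mk.injEq]
    constructor
    · rintro ⟨h1, h2⟩
      simp only at h2
      subst h2
      rcases (h a).1 h1 with h3 | h3
      · exact Or.inl ⟨h3, rfl⟩
      · exact Or.inr ⟨h3, rfl⟩
    · rintro (⟨rfl, rfl⟩ | ⟨rfl, rfl⟩)
      · exact ⟨(h a).2 (Or.inl rfl), rfl⟩
      · exact ⟨(h a).2 (Or.inr rfl), rfl⟩
  rw [h1, card_pair]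
  intro h2
  exact hne (Prod.mk.inj h2).1

private theorem TNetExtR_out_zero {E : Dg} {u : V} (h : ∀ b, (u, b) ∉ E) : outdeg E u = 0 := by
  unfold outdeg
  rw [card_eq_zero, filter_eq_empty_iff]
  rintro ⟨a, b⟩ he h1
  simp only at h1
  subst h1
  exact h b he

private theorem TNetExtR_out_one {E : Dg} {u b₀ : V} (h : ∀ b, (u, b) ∈ E ↔ b = b₀) :
    outdeg E u = 1 := by
  unfold outdeg
  rw [card_eq_one]
  refine ⟨(u, b₀), ?_⟩
  ext ⟨a, b⟩
  rw [mem_filter, mem_singleton, Prod.mk.injEq]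
  constructor
  · rintro ⟨h1, h2⟩
    simp only at h2
    subst h2
    exact ⟨rfl, (h b).1 h1⟩
  · rintro ⟨rfl, rfl⟩
    exact ⟨(h b).2 rfl, rfl⟩

private theorem TNetExtR_out_two {E : Dg} {u b₁ b₂ : V} (hne : b₁ ≠ b₂)
    (h : ∀ b, (u, b) ∈ E ↔ b = b₁ ∨ b = b₂) : outdeg E u = 2 := by
  unfold outdeg
  have h1 : E.filter (fun e => e.1 = u) = {(u, b₁), (u, b₂)} := by
    ext ⟨a, b⟩
    rw [mem_filter, mem_insert, mem_singleton, Prod.mk.injEq, Prod.mk.injEq]
    constructor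
    · rintro ⟨h1, h2⟩
      simp only at h2
      subst h2
      rcases (h b).1 h1 with h3 | h3
      · exact Or.inl ⟨rfl, h3⟩
      · exact Or.inr ⟨rfl, h3⟩
    · rintro (⟨rfl, rfl⟩ | ⟨rfl, rfl⟩)
      · exact ⟨(h b).2 (Or.inl rfl), rfl⟩
      · exact ⟨(h b).2 (Or.inr rfl), rfl⟩
  rw [h1, card_pair]
  intro h2
  exact hne (Prod.mk.inj h2).2

private theorem TNetExtR_out_map {E E' : Dg} {u : V} (ψ : V → V)
    (hinj : ∀ b b', (u, b) ∈ E → (u, b') ∈ E → ψ b = ψ b' → b = b')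
    (h : ∀ b, (u, b) ∈ E' ↔ ∃ b', (u, b') ∈ E ∧ ψ b' = b) : outdeg E' u = outdeg E u := by
  unfold outdeg
  have h1 : E'.filter (fun e => e.1 = u) =
      (E.filter (fun e => e.1 = u)).image (fun e => (e.1, ψ e.2)) := by
    ext ⟨a, b⟩
    rw [mem_filter, mem_image]
    constructor
    · rintro ⟨h1, h2⟩
      simp only at h2
      subst h2
      obtain ⟨b', hb', rfl⟩ := (h b).1 h1
      exact ⟨(a, b'), mem_filter.2 ⟨hb', rfl⟩, rfl⟩
    · rintro ⟨⟨a', b'⟩, he, h2⟩
      obtain ⟨he1, he2⟩ := mem_filter.1 he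
      simp only at he2 h2
      subst he2
      rw [Prod.mk.injEq] at h2
      obtain ⟨rfl, rfl⟩ := h2
      exact ⟨(h _).2 ⟨b', he1, rfl⟩, rfl⟩
  rw [h1, card_image_of_injOn]
  rintro ⟨a, b⟩ he ⟨a', b'⟩ he' h2
  rw [mem_coe, mem_filter] at he he'
  obtain ⟨he1, he2⟩ := he
  obtain ⟨he1', he2'⟩ := he'
  simp only at he2 he2' h2
  subst he2
  subst he2'
  rw [Prod.mk.injEq] at h2
  rw [hinj b b' he1 he1' h2.2]

private theorem TNetExtR_in_iff {E : Dg} {v : V} (h : indeg E v = 1) :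
    ∃ a₀, ∀ a, (a, v) ∈ E ↔ a = a₀ := by
  unfold indeg at h
  obtain ⟨⟨a₀, b₀⟩, he⟩ := card_eq_one.1 h
  have h1 : (a₀, b₀) ∈ E.filter (fun e => e.2 = v) := by
    rw [he]
    exact mem_singleton_self _
  obtain ⟨h2, h3⟩ := mem_filter.1 h1
  simp only at h3
  subst h3
  refine ⟨a₀, fun a => ⟨fun h4 => ?_, ?_⟩⟩
  · have h5 : (a, b₀) ∈ E.filter (fun e => e.2 = b₀) := mem_filter.2 ⟨h4, rfl⟩
    rw [he, mem_singleton, Prod.mk.injEq] at h5
    exact h5.1
  · rintro rfl
    exact h2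

private theorem TNetExtR_parent (hE : S_Edge) {L I : Finset ℕ} {E : Dg} (hN : IsNet L I E) {x : ℕ}
    (hx : x ∈ L) : ∃ g ∈ I, ∀ a : V, (a, (Sum.inl x : V)) ∈ E ↔ a = Sum.inr g := by
  obtain ⟨a₀, ha⟩ := TNetExtR_in_iff (hN.leaf x hx).1
  obtain ⟨⟨g, hg, hag⟩, -⟩ := hE L I E hN a₀ _ ((ha a₀).2 rfl)
  refine ⟨g, hg, ?_⟩
  rw [← hag]
  exact ha

private theorem TNetExtR_mem {E : Dg} {x y g q : ℕ} (i j : ℕ)
    (hg : ∀ a : V, (a, (Sum.inl x : V)) ∈ E ↔ a = Sum.inr g)
    (hq : ∀ a : V, (a, (Sum.inl y : V)) ∈ E ↔ a = Sum.inr q) (a b : V) :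
    (a, b) ∈ extR E x y i j ↔ ((a, b) ∈ E ∧ b ≠ Sum.inl x ∧ b ≠ Sum.inl y) ∨
      (a = Sum.inr g ∧ b = Sum.inr i) ∨ (a = Sum.inr q ∧ b = Sum.inr j) ∨
      (a = Sum.inr i ∧ b = Sum.inl x) ∨ (a = Sum.inr j ∧ b = Sum.inl y) ∨
      (a = Sum.inr i ∧ b = Sum.inr j) := by
  unfold extR
  rw [mem_union, mem_filter, mem_union, mem_union, mem_image, mem_image, mem_insert, mem_insert,
    mem_singleton, Prod.mk.injEq, Prod.mk.injEq, Prod.mk.injEq]
  refine or_congr Iff.rfl (or_congr ?_ (or_congr ?_ Iff.rfl))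
  · constructor
    · rintro ⟨⟨a', b'⟩, he, h⟩
      obtain ⟨he1, he2⟩ := mem_filter.1 he
      simp only at he2 h
      subst he2
      rw [Prod.mk.injEq] at h
      rw [← h.1, ← h.2]
      exact ⟨(hg a').1 he1, rfl⟩
    · rintro ⟨rfl, rfl⟩
      exact ⟨(Sum.inr g, Sum.inl x), mem_filter.2 ⟨(hg _).2 rfl, rfl⟩, rfl⟩
  · constructor
    · rintro ⟨⟨a', b'⟩, he, h⟩
      obtain ⟨he1, he2⟩ := mem_filter.1 he
      simp only at he2 h
      subst he2
      rw [Prod.mk.injEq] at h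
      rw [← h.1, ← h.2]
      exact ⟨(hq a').1 he1, rfl⟩
    · rintro ⟨rfl, rfl⟩
      exact ⟨(Sum.inr q, Sum.inl y), mem_filter.2 ⟨(hq _).2 rfl, rfl⟩, rfl⟩

theorem c_NetExtR (hE : S_Edge) (hA : S_Acyc) : S_NetExtR := by
  intro L I E x y i j hN hx hy hxy hi hj hij
  obtain ⟨g, hgI, hg⟩ := TNetExtR_parent hE hN hx
  obtain ⟨q, hqI, hq⟩ := TNetExtR_parent hE hN hy
  have hmem := TNetExtR_mem i j hg hq
  have hgi : g ≠ i := fun h => hi (h ▸ hgI)
  have hgj : g ≠ j := fun h => hj (h ▸ hgI)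
  have hqi : q ≠ i := fun h => hi (h ▸ hqI)
  have hqj : q ≠ j := fun h => hj (h ▸ hqI)
  have hb0 : ∀ k, k ∉ I → ∀ a : V, (a, (Sum.inr k : V)) ∉ E := by
    intro k hkI a ha
    rcases (hE L I E hN _ _ ha).2 with ⟨z, _, h⟩ | ⟨k', hk', h⟩
    · exact absurd h (by simp)
    · exact hkI ((Sum.inr.inj h) ▸ hk')
  have ha0 : ∀ k, k ∉ I → ∀ b : V, ((Sum.inr k : V), b) ∉ E := by
    intro k hkI b hb
    obtain ⟨⟨k', hk', h⟩, -⟩ := hE L I E hN _ _ hb
    exact hkI ((Sum.inr.inj h) ▸ hk')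
  have hal : ∀ (z : ℕ) (b : V), ((Sum.inl z : V), b) ∉ E := by
    intro z b hb
    obtain ⟨⟨k, hk, h⟩, -⟩ := hE L I E hN _ _ hb
    exact absurd h (by simp)
  have hin : ∀ k, k ≠ i → k ≠ j →
      indeg (extR E x y i j) (Sum.inr k) = indeg E (Sum.inr k) := by
    intro k hk hk'
    refine TNetExtR_in_eq fun a => ?_
    rw [hmem]
    simp [hk, hk']
  have hout : ∀ k, k ≠ i → k ≠ j →
      outdeg (extR E x y i j) (Sum.inr k) = outdeg E (Sum.inr k) := by
    intro k hk hk'
    have hxyV : (Sum.inl y : V) ≠ Sum.inl x := fun h => hxy (Sum.inl.inj h).symm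
    refine TNetExtR_out_map
      (fun b => if b = Sum.inl x then Sum.inr i else if b = Sum.inl y then Sum.inr j else b) ?_ ?_
    · intro b b' hb hb' h
      by_cases h1 : b = Sum.inl x
      · by_cases h2 : b' = Sum.inl x
        · rw [h1, h2]
        · rw [if_pos h1, if_neg h2] at h
          by_cases h3 : b' = Sum.inl y
          · rw [if_pos h3] at h
            exact absurd (Sum.inr.inj h) hij
          · rw [if_neg h3] at h
            rw [← h] at hb'
            exact absurd hb' (hb0 i hi _)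
      · rw [if_neg h1] at h
        by_cases h1' : b = Sum.inl y
        · rw [if_pos h1'] at h
          by_cases h2 : b' = Sum.inl x
          · rw [if_pos h2] at h
            exact absurd (Sum.inr.inj h) hij.symm
          · rw [if_neg h2] at h
            by_cases h3 : b' = Sum.inl y
            · rw [h1', h3]
            · rw [if_neg h3] at h
              rw [← h] at hb'
              exact absurd hb' (hb0 j hj _)
        · rw [if_neg h1'] at h
          by_cases h2 : b' = Sum.inl x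
          · rw [if_pos h2] at h
            rw [h] at hb
            exact absurd hb (hb0 i hi _)
          · rw [if_neg h2] at h
            by_cases h3 : b' = Sum.inl y
            · rw [if_pos h3] at h
              rw [h] at hb
              exact absurd hb (hb0 j hj _)
            · rw [if_neg h3] at h
              exact h
    · intro b
      rw [hmem]
      constructor
      · rintro (⟨h1, h2, h3⟩ | ⟨h1, h2⟩ | ⟨h1, h2⟩ | ⟨h1, h2⟩ | ⟨h1, h2⟩ | ⟨h1, h2⟩)
        · refine ⟨b, h1, ?_⟩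
          rw [if_neg h2, if_neg h3]
        · refine ⟨Sum.inl x, (hg _).2 h1, ?_⟩
          rw [if_pos rfl, h2]
        · refine ⟨Sum.inl y, (hq _).2 h1, ?_⟩
          rw [if_neg hxyV, if_pos rfl, h2]
        · exact absurd (Sum.inr.inj h1) hk
        · exact absurd (Sum.inr.inj h1) hk'
        · exact absurd (Sum.inr.inj h1) hk
      · rintro ⟨b', hb', h⟩
        by_cases h1 : b' = Sum.inl x
        · rw [if_pos h1] at h
          rw [h1] at hb'
          exact Or.inr (Or.inl ⟨(hg _).1 hb', h.symm⟩)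
        · rw [if_neg h1] at h
          by_cases h2 : b' = Sum.inl y
          · rw [if_pos h2] at h
            rw [h2] at hb'
            exact Or.inr (Or.inr (Or.inl ⟨(hq _).1 hb', h.symm⟩))
          · rw [if_neg h2] at h
            rw [← h]
            exact Or.inl ⟨hb', h1, h2⟩
  have htree : TreeNode (extR E x y i j) i := by
    refine ⟨TNetExtR_in_one (a₀ := Sum.inr g) fun a => ?_,
      TNetExtR_out_two (b₁ := Sum.inl x) (b₂ := Sum.inr j) (by simp) fun b => ?_⟩
    · rw [hmem]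
      simp [hb0 i hi, hij]
    · rw [hmem]
      simp [ha0 i hi, hgi.symm, hqi.symm, hij]
  have hret : Retic (extR E x y i j) j := by
    refine ⟨TNetExtR_in_two (a₁ := Sum.inr q) (a₂ := Sum.inr i) (by simp [hqi]) fun a => ?_,
      TNetExtR_out_one (b₀ := Sum.inl y) fun b => ?_⟩
    · rw [hmem]
      simp [hb0 j hj, hij.symm]
    · rw [hmem]
      simp [ha0 j hj, hgj.symm, hqj.symm, hij.symm]
  refine ⟨⟨?_, ?_, ?_, ?_⟩, ⟨?_, ?_, ?_, htree, hret⟩⟩
  · rintro ⟨a, b⟩ he
    rw [hmem] at he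
    simp only
    have hiI : i ∈ insert i (insert j I) := mem_insert_self _ _
    have hjI : j ∈ insert i (insert j I) := mem_insert_of_mem (mem_insert_self _ _)
    have hII : I ⊆ insert i (insert j I) := (subset_insert _ _).trans (subset_insert _ _)
    rcases he with ⟨h1, -⟩ | ⟨rfl, rfl⟩ | ⟨rfl, rfl⟩ | ⟨rfl, rfl⟩ | ⟨rfl, rfl⟩ | ⟨rfl, rfl⟩
    · have h2 := hN.sub _ h1
      have h3 : L.disjSum I ⊆ L.disjSum (insert i (insert j I)) :=
        disjSum_mono (Subset.refl _) hII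
      exact ⟨h3 h2.1, h3 h2.2⟩
    · exact ⟨inr_mem_disjSum.2 (hII hgI), inr_mem_disjSum.2 hiI⟩
    · exact ⟨inr_mem_disjSum.2 (hII hqI), inr_mem_disjSum.2 hjI⟩
    · exact ⟨inr_mem_disjSum.2 hiI, inl_mem_disjSum.2 hx⟩
    · exact ⟨inr_mem_disjSum.2 hjI, inl_mem_disjSum.2 hy⟩
    · exact ⟨inr_mem_disjSum.2 hiI, inr_mem_disjSum.2 hjI⟩
  · intro z hz
    refine ⟨?_, ?_⟩
    · by_cases hzx : z = x
      · subst hzx
        refine TNetExtR_in_one (a₀ := Sum.inr i) fun a => ?_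
        rw [hmem]
        simp [hxy]
      · by_cases hzy : z = y
        · subst hzy
          refine TNetExtR_in_one (a₀ := Sum.inr j) fun a => ?_
          rw [hmem]
          simp [hxy.symm]
        · rw [← (hN.leaf z hz).1]
          refine TNetExtR_in_eq fun a => ?_
          rw [hmem]
          simp [hzx, hzy]
    · refine TNetExtR_out_zero fun b => ?_
      rw [hmem]
      simp [hal]
  · obtain ⟨r, hr, hr1, hr2⟩ := hN.root
    have hri : r ≠ i := fun h => hi (h ▸ hr)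
    have hrj : r ≠ j := fun h => hj (h ▸ hr)
    refine ⟨r, mem_insert_of_mem (mem_insert_of_mem hr), ?_, ?_⟩
    · rw [hin r hri hrj, hout r hri hrj]
      exact hr1
    · intro k hk hkr
      by_cases hki : k = i
      · subst hki
        exact Or.inl htree
      · by_cases hkj : k = j
        · subst hkj
          exact Or.inr hret
        · have h1 := hr2 k ((mem_insert.1 ((mem_insert.1 hk).resolve_left hki)).resolve_left hkj) hkr
          unfold TreeNode Retic
          rw [hin k hki hkj, hout k hki hkj]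
          exact h1
  · rw [hA]
    obtain ⟨f, hf⟩ := (hA E).1 hN.acyc
    refine ⟨fun v => match v with
      | Sum.inl z => if z = x ∨ z = y then f (Sum.inl x) + f (Sum.inl y) + 3 else f (Sum.inl z)
      | Sum.inr k => if k = i then f (Sum.inl x) + f (Sum.inl y) + 1 else
          if k = j then f (Sum.inl x) + f (Sum.inl y) + 2 else f (Sum.inr k), ?_⟩
    intro a b hab
    rw [hmem] at hab
    rcases hab with ⟨h1, h2, h2'⟩ | ⟨rfl, rfl⟩ | ⟨rfl, rfl⟩ | ⟨rfl, rfl⟩ | ⟨rfl, rfl⟩ | ⟨rfl, rfl⟩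
    · have h3 := hf a b h1
      rcases a with a | a
      · exact absurd h1 (hal _ _)
      · have ha : a ≠ i := by
          rintro rfl
          exact ha0 _ hi _ h1
        have ha' : a ≠ j := by
          rintro rfl
          exact ha0 _ hj _ h1
        rcases b with b | b
        · have hbx : b ≠ x := fun h => h2 (by rw [h])
          have hby' : b ≠ y := fun h => h2' (by rw [h])
          simp only [ha, ha', hbx, hby', or_self, if_false]
          exact h3
        · have hb : b ≠ i := by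
            rintro rfl
            exact hb0 _ hi _ h1
          have hb' : b ≠ j := by
            rintro rfl
            exact hb0 _ hj _ h1
          simp only [ha, ha', hb, hb', if_false]
          exact h3
    · have h3 := hf _ _ ((hg _).2 rfl)
      simp only [hgi, hgj, if_false, if_true]
      omega
    · have h3 := hf _ _ ((hq _).2 rfl)
      simp only [hqi, hqj, hij.symm, if_false, if_true]
      omega
    · simp
    · simp [hij.symm]
    · simp [hij.symm]
  · exact (hmem _ _).2 (Or.inr (Or.inr (Or.inr (Or.inl ⟨rfl, rfl⟩))))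
  · exact (hmem _ _).2 (Or.inr (Or.inr (Or.inr (Or.inr (Or.inl ⟨rfl, rfl⟩)))))
  · exact (hmem _ _).2 (Or.inr (Or.inr (Or.inr (Or.inr (Or.inr ⟨rfl, rfl⟩)))))

end Orch
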