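import Pool.Agent.Lib.Orch.Spec

/-!
The reduction of a cherry of a network is a network.
-/

namespace Orch

open Finset

private theorem TNetRedC_card_one {E : Dg} {P : V × V → Prop} [DecidablePred P] {e₀ : V × V}
    (h : ∀ e, e ∈ E ∧ P e ↔ e = e₀) : (E.filter P).card = 1 := by
  have h1 : E.filter P = {e₀} := by
    ext e
    rw [mem_filter, mem_singleton]
    exact h e
  rw [h1, card_singleton]

theorem c_NetRedC (hEdge : S_Edge) (hAcyc : S_Acyc) (hShape : S_ShapeC) (hMem : S_MemRedC)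
    (hDeg : S_DegC) : S_NetRedC := by
  intro L I E x y i hN hx hy hc
  obtain ⟨hiI, hT, hoi, hix, hiy, ⟨g, hgI, hgi, hing⟩⟩ := hShape L I E x y i hN hx hy hc
  have hxy : x ≠ y := hc.1
  have hgE : ((Sum.inr g : V), (Sum.inr i : V)) ∈ E := (hing _).2 rfl
  have hM := hMem L I E x y i g hN hx hy hc hgE
  have hD := hDeg L I E x y i hN hx hy hc
  have hixE : ((Sum.inr i : V), (Sum.inl x : V)) ∈ E := (hix _).2 rfl
  have hmemI : ∀ k, k ∈ I → k ≠ i → k ∈ I.erase i := fun k hk h1 => mem_erase.2 ⟨h1, hk⟩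
  refine ⟨?_, ?_, ?_, ?_⟩
  · -- vertices
    rintro ⟨a, b⟩ he
    rw [hM] at he
    rcases he with ⟨he, h1, h2, h3, h4⟩ | ⟨rfl, rfl⟩
    · obtain ⟨⟨k, hk, rfl⟩, hb⟩ := hEdge L I E hN a b he
      refine ⟨?_, ?_⟩
      · simp only [inr_mem_disjSum]
        exact hmemI k hk (fun h => h1 (by rw [h]))
      · rcases hb with ⟨z, hz, rfl⟩ | ⟨k', hk', rfl⟩
        · simp only [inl_mem_disjSum]
          exact mem_erase.2 ⟨fun h => h4 (by rw [h]), hz⟩
        · simp only [inr_mem_disjSum]
          exact hmemI k' hk' (fun h => h2 (by rw [h]))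
    · simp only [inr_mem_disjSum, inl_mem_disjSum]
      exact ⟨hmemI g hgI hgi, mem_erase.2 ⟨hxy, hx⟩⟩
  · -- leaves
    intro z hz
    rw [mem_erase] at hz
    obtain ⟨hzy, hz⟩ := hz
    refine ⟨?_, ?_⟩
    · by_cases hzx : z = x
      · subst hzx
        refine TNetRedC_card_one (e₀ := ((Sum.inr g : V), (Sum.inl z : V))) ?_
        rintro ⟨a, b⟩
        rw [hM]
        constructor
        · rintro ⟨⟨-, -, -, h5, -⟩ | ⟨rfl, rfl⟩, h⟩
          · exact absurd h h5
          · rfl
        · intro h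
          rw [Prod.mk.injEq] at h
          exact ⟨Or.inr h, h.2⟩
      · have h1 := (hN.leaf z hz).1
        unfold indeg at h1 ⊢
        rw [← h1]
        congr 1
        ext ⟨a, b⟩
        rw [mem_filter, mem_filter, hM]
        constructor
        · rintro ⟨⟨h2, -⟩ | ⟨rfl, rfl⟩, h⟩
          · exact ⟨h2, h⟩
          · simp only [Sum.inl.injEq] at h
            exact absurd h.symm hzx
        · rintro ⟨h2, h⟩
          simp only at h
          subst h
          refine ⟨Or.inl ⟨h2, ?_, ?_, ?_, ?_⟩, rfl⟩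
          · rintro rfl
            rcases (hoi _).1 h2 with h3 | h3
            · exact hzx (Sum.inl.inj h3)
            · exact hzy (Sum.inl.inj h3)
          · simp
          · simpa using hzx
          · simpa using hzy
    · unfold outdeg
      rw [card_eq_zero, filter_eq_empty_iff]
      rintro ⟨a, b⟩ he h
      simp only at h
      subst h
      rw [hM] at he
      rcases he with ⟨he, -⟩ | ⟨h1, -⟩
      · obtain ⟨⟨k, hk, h2⟩, -⟩ := hEdge L I E hN _ b he
        exact absurd h2 (by simp)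
      · exact absurd h1 (by simp)
  · -- the root
    obtain ⟨r, hrI, ⟨hr0, hr1⟩, hrest⟩ := hN.root
    have hri : r ≠ i := by
      rintro rfl
      have h1 : 0 < indeg E (Sum.inr r) :=
        card_pos.2 ⟨((Sum.inr g : V), (Sum.inr r : V)), mem_filter.2 ⟨hgE, rfl⟩⟩
      omega
    refine ⟨r, hmemI r hrI hri, ?_, ?_⟩
    · rw [(hD r hri).1, (hD r hri).2]
      exact ⟨hr0, hr1⟩
    · intro k hk hkr
      rw [mem_erase] at hk
      obtain ⟨hki, hkI⟩ := hk
      unfold TreeNode Retic
      rw [(hD k hki).1, (hD k hki).2]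
      exact hrest k hkI hkr
  · -- acyclic
    rw [hAcyc]
    obtain ⟨f, hf⟩ := (hAcyc E).1 hN.acyc
    refine ⟨f, fun a b he => ?_⟩
    rw [hM] at he
    rcases he with ⟨he, -⟩ | ⟨rfl, rfl⟩
    · exact hf a b he
    · exact (hf _ _ hgE).trans (hf _ _ hixE)

end Orch
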