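import Pool.Agent.Lib.Orch.Spec

/-!
Orchard networks: they are networks, they have a pair, one leaf, extensions.
-/

namespace Orch

open Finset

private theorem TOrch_base (x r : ℕ) :
    IsNet {x} {r} {((Sum.inr r : V), (Sum.inl x : V))} := by
  refine ⟨?_, ?_, ?_, ?_⟩
  · intro e he
    rw [Finset.mem_singleton] at he
    subst he
    simp
  · intro z hz
    rw [Finset.mem_singleton] at hz
    subst hz
    unfold indeg outdeg
    rw [Finset.filter_singleton, Finset.filter_singleton]
    simp
  · refine ⟨r, Finset.mem_singleton_self r, ?_, ?_⟩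
    · unfold indeg outdeg
      rw [Finset.filter_singleton, Finset.filter_singleton]
      simp
    · intro i hi hir
      exact absurd (Finset.mem_singleton.1 hi) hir
  · intro v hv
    have key : ∀ a b : V, Relation.TransGen
        (fun a b : V => (a, b) ∈ ({((Sum.inr r : V), (Sum.inl x : V))} : Dg)) a b →
        a = Sum.inr r ∧ b = Sum.inl x := by
      intro a b hab
      induction hab with
      | single h =>
        rw [Finset.mem_singleton] at h
        exact Prod.mk.inj h
      | tail _ h ih =>
        rw [Finset.mem_singleton] at h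
        exact ⟨ih.1, (Prod.mk.inj h).2⟩
    have h := key v v hv
    rw [h.1] at h
    exact absurd h.2 (by simp)

theorem c_OrchNet : S_OrchNet := by
  intro L I E h
  cases h with
  | base x r => exact TOrch_base x r
  | cherry _ _ _ x y i hN hx hy hc h => exact hN
  | ret _ _ _ x y i j hN hx hy hr h => exact hN

theorem c_Has : S_Has := by
  intro L I E h
  cases h with
  | base x r => exact Or.inr ⟨by simp, by simp⟩
  | cherry _ _ _ x y i hN hx hy hc h => exact Or.inl ⟨x, hx, y, hy, Or.inl ⟨i, hc⟩⟩
  | ret _ _ _ x y i j hN hx hy hr h => exact Or.inl ⟨x, hx, y, hy, Or.inr ⟨i, j, hr⟩⟩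

private theorem TOrch_inUnique {E : Dg} {v a b : V} (h : indeg E v = 1) (ha : (a, v) ∈ E)
    (hb : (b, v) ∈ E) : a = b := by
  unfold indeg at h
  rw [Finset.card_eq_one] at h
  obtain ⟨e, he⟩ := h
  have h1 : (a, v) ∈ E.filter (fun e => e.2 = v) := Finset.mem_filter.2 ⟨ha, rfl⟩
  have h2 : (b, v) ∈ E.filter (fun e => e.2 = v) := Finset.mem_filter.2 ⟨hb, rfl⟩
  rw [he, Finset.mem_singleton] at h1 h2
  exact (Prod.mk.inj (h1.trans h2.symm)).1

theorem c_One : S_One := by
  intro x I E h
  generalize hL : ({x} : Finset ℕ) = L at h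
  cases h with
  | base x' r =>
    have hx : x = x' := Finset.singleton_injective hL
    subst hx
    exact ⟨r, rfl, rfl⟩
  | cherry _ _ _ x' y' i hN hx hy hc h =>
    subst hL
    rw [Finset.mem_singleton] at hx hy
    exact absurd (hx.trans hy.symm) hc.1
  | ret _ _ _ x' y' i j hN hx hy hr h =>
    subst hL
    have hx' := Finset.mem_singleton.1 hx
    have hy' := Finset.mem_singleton.1 hy
    subst hx'
    subst hy'
    have h1 := TOrch_inUnique (hN.leaf _ hx).1 hr.1 hr.2.1
    have h2 := Relation.TransGen.single (r := fun a b : V => (a, b) ∈ E) hr.2.2.1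
    rw [h1] at h2
    exact absurd h2 (hN.acyc _)

theorem c_OrchExtC (hNE : S_NetExtC) (hRE : S_RedExtC) (hON : S_OrchNet) : S_OrchExtC := by
  intro L I E x y i h hx hy hi
  have hN := hON L I E h
  have h1 := hNE L I E x y i hN hx hy hi
  refine Orchard.cherry _ _ _ x y i h1.1 (Finset.mem_insert_of_mem hx)
    (Finset.mem_insert_self y L) h1.2 ?_
  rw [hRE L I E x y i hN hx hy hi, Finset.erase_insert hy, Finset.erase_insert hi]
  exact h

theorem c_OrchExtR (hNE : S_NetExtR) (hRE : S_RedExtR) (hON : S_OrchNet) : S_OrchExtR := by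
  intro L I E x y i j h hx hy hxy hi hj hij
  have hN := hON L I E h
  have h1 := hNE L I E x y i j hN hx hy hxy hi hj hij
  refine Orchard.ret _ _ _ x y i j h1.1 hx hy h1.2 ?_
  have h2 : ((insert i (insert j I)).erase i).erase j = I := by
    rw [Finset.erase_insert, Finset.erase_insert hj]
    rw [Finset.mem_insert]
    rintro (h | h)
    · exact hij h
    · exact hi h
  rw [hRE L I E x y i j hN hx hy hxy hi hj hij, h2]
  exact h

end Orch
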