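import Pool.Agent.Lib.Orch.Spec

/-!
The second reticulated cherry at the same reticulation becomes a cherry.
-/

namespace Orch

open Finset

private theorem TOver_memR (E : Dg) (x y i j : ℕ) (a b : V) : (a, b) ∈ redR E x y i j ↔
    ((a, b) ∈ E ∧ (a ≠ Sum.inr i ∧ b ≠ Sum.inr i) ∧ (a ≠ Sum.inr j ∧ b ≠ Sum.inr j)) ∨
      (b = Sum.inl x ∧ (a, (Sum.inr i : V)) ∈ E) ∨
      (b = Sum.inl y ∧ (a, (Sum.inr j : V)) ∈ E ∧ a ≠ Sum.inr i) := by
  unfold redR
  rw [Finset.mem_union, Finset.mem_union, Finset.mem_filter, Finset.mem_image, Finset.mem_image]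
  constructor
  · rintro (h | ⟨⟨c, d⟩, hcd, heq⟩ | ⟨⟨c, d⟩, hcd, heq⟩)
    · exact Or.inl h
    · right
      left
      rw [Finset.mem_filter] at hcd
      obtain ⟨hE, hd⟩ := hcd
      simp only at hd
      rw [Prod.mk.injEq] at heq
      obtain ⟨rfl, rfl⟩ := heq
      rw [hd] at hE
      exact ⟨rfl, hE⟩
    · right
      right
      rw [Finset.mem_filter] at hcd
      obtain ⟨hE, hd, hc⟩ := hcd
      simp only at hd hc
      rw [Prod.mk.injEq] at heq
      obtain ⟨rfl, rfl⟩ := heq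
      rw [hd] at hE
      exact ⟨rfl, hE, hc⟩
  · rintro (h | ⟨rfl, hE⟩ | ⟨rfl, hE, ha⟩)
    · exact Or.inl h
    · right
      left
      exact ⟨(a, Sum.inr i), Finset.mem_filter.2 ⟨hE, rfl⟩, rfl⟩
    · right
      right
      exact ⟨(a, Sum.inr j), Finset.mem_filter.2 ⟨hE, rfl, ha⟩, rfl⟩

theorem c_Over (hShape : S_ShapeR) : S_Over := by
  intro L I E x y i j hN hx hy hr x' i' hx' hx'x hx'y
  obtain ⟨hiI, hjI, hij, hxy, hoi, hoj, hix, hjy, -, ⟨q, hqI, hqi, hqj, hinq⟩⟩ :=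
    hShape L I E x y i j hN hx hy hr
  constructor
  · rintro ⟨-, h1, h2⟩
    rw [TOver_memR] at h1 h2
    have h3 : ((Sum.inr i' : V), (Sum.inl x' : V)) ∈ E := by
      rcases h1 with h | h | h
      · exact h.1
      · exact absurd (Sum.inl.inj h.1) hx'x
      · exact absurd (Sum.inl.inj h.1) hx'y
    have h4 : ((Sum.inr i' : V), (Sum.inr j : V)) ∈ E ∧ (Sum.inr i' : V) ≠ Sum.inr i := by
      rcases h2 with h | h | h
      · exact absurd ((hjy _).1 h.1) h.2.2.1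
      · exact absurd (Sum.inl.inj h.1).symm hxy
      · exact h.2
    have h5 : i' = q := by
      rcases (hinq _).1 h4.1 with h | h
      · exact absurd h h4.2
      · exact Sum.inr.inj h
    have h6 : 1 < outdeg E (Sum.inr i') := by
      unfold outdeg
      rw [Finset.one_lt_card]
      refine ⟨(Sum.inr i', Sum.inl x'), Finset.mem_filter.2 ⟨h3, rfl⟩,
        (Sum.inr i', Sum.inr j), Finset.mem_filter.2 ⟨h4.1, rfl⟩, ?_⟩
      intro h
      exact absurd (congrArg Prod.snd h) Sum.inl_ne_inr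
    refine ⟨h3, hr.2.1, h4.1, ?_, hr.2.2.2.2⟩
    obtain ⟨r, hrI, ⟨hr1, hr2⟩, hrest⟩ := hN.root
    by_cases hir : i' = r
    · rw [hir, hr2] at h6
      exact absurd h6 (lt_irrefl 1)
    · rcases hrest i' (h5 ▸ hqI) hir with h | h
      · exact h
      · rw [h.2] at h6
        exact absurd h6 (lt_irrefl 1)
  · rintro ⟨h1, h2, h3, h4, h5⟩
    have hi'i : (Sum.inr i' : V) ≠ Sum.inr i := by
      intro h
      rw [h] at h1
      rcases (hoi _).1 h1 with h6 | h6
      · exact hx'x (Sum.inl.inj h6)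
      · exact absurd h6 Sum.inl_ne_inr
    have hi'j : (Sum.inr i' : V) ≠ Sum.inr j := by
      intro h
      rw [h] at h1
      exact hx'y (Sum.inl.inj ((hoj _).1 h1))
    refine ⟨hx'y, ?_, ?_⟩
    · rw [TOver_memR]
      exact Or.inl ⟨h1, ⟨hi'i, Sum.inl_ne_inr⟩, hi'j, Sum.inl_ne_inr⟩
    · rw [TOver_memR]
      exact Or.inr (Or.inr ⟨rfl, h3, hi'i⟩)

end Orch
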