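import Pool.Agent.Lib.Orch.Spec

/-!
Pointwise inclusion-exclusion for the pairs that contain a given leaf.
-/

namespace Orch

open Finset

open Classical in
theorem c_PW (hShape : S_ShapeR) (hCC : S_ExclCC) (hCR : S_ExclCR) (hRR : S_ExclRR)
    (hLocW : S_LocW) : S_PW := by
  intro L I E hN U hU w hw hwU hnp
  have hW := hLocW L I E hN U hU w hw hwU
  set As : Finset (ℕ × ℕ) := (U ×ˢ I).filter (fun t => IsCherry E w t.1 t.2) with hAs
  set Bs : Finset (ℕ × ℕ × ℕ) :=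
    (U ×ˢ I ×ˢ I).filter (fun t => IsRet E w t.1 t.2.1 t.2.2) with hBs
  set Cs : Finset (ℕ × ℕ × ℕ) :=
    (U ×ˢ I ×ˢ I).filter (fun t => IsRet E t.1 w t.2.1 t.2.2) with hCs
  set Ds : Finset (ℕ × ℕ × ℕ × ℕ × ℕ) :=
    (U ×ˢ U ×ˢ I ×ˢ I ×ˢ I).filter (fun t => t.1 ≠ t.2.1 ∧
      IsRet E t.1 w t.2.2.1 t.2.2.2.2 ∧ IsRet E t.2.1 w t.2.2.2.1 t.2.2.2.2) with hDs
  have mA : ∀ t, t ∈ As ↔ t.1 ∈ U ∧ t.2 ∈ I ∧ IsCherry E w t.1 t.2 := by
    intro t
    rw [hAs, Finset.mem_filter, Finset.mem_product, and_assoc]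
  have mB : ∀ t, t ∈ Bs ↔ t.1 ∈ U ∧ t.2.1 ∈ I ∧ t.2.2 ∈ I ∧ IsRet E w t.1 t.2.1 t.2.2 := by
    intro t
    rw [hBs, Finset.mem_filter, Finset.mem_product, Finset.mem_product, and_assoc, and_assoc]
  have mC : ∀ t, t ∈ Cs ↔ t.1 ∈ U ∧ t.2.1 ∈ I ∧ t.2.2 ∈ I ∧ IsRet E t.1 w t.2.1 t.2.2 := by
    intro t
    rw [hCs, Finset.mem_filter, Finset.mem_product, Finset.mem_product, and_assoc, and_assoc]
  -- two elements of `Cs`
  have fC : ∀ s ∈ Cs, ∀ t ∈ Cs, s.2.2 = t.2.2 ∧ (s = t ∨ (s.1 ≠ t.1 ∧ s.2.1 ≠ t.2.1)) := by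
    intro s hs t ht
    rw [mC] at hs ht
    rcases hRR L I E s.1 w s.2.1 s.2.2 t.1 w t.2.1 t.2.2 hN (hU hs.1) hw (hU ht.1) hw
      hs.2.2.2 ht.2.2.2 with h | h | h
    · exact ⟨h.2.2.2, Or.inl (Prod.ext h.1 (Prod.ext h.2.2.1 h.2.2.2))⟩
    · exact absurd rfl h.2.2.2.2.2.2.2
    · exact ⟨h.2.1, Or.inr ⟨h.2.2.2, h.2.2.1⟩⟩
  have cD : Ds.card = Cs.offDiag.card := by
    refine Finset.card_nbij' (fun t => ((t.1, t.2.2.1, t.2.2.2.2), (t.2.1, t.2.2.2.1, t.2.2.2.2)))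
      (fun s => (s.1.1, s.2.1, s.1.2.1, s.2.2.1, s.1.2.2)) ?_ ?_ ?_ ?_
    · rintro ⟨u, u', i, i', j⟩ ht
      rw [hDs, Finset.mem_coe, Finset.mem_filter] at ht
      simp only [Finset.mem_product] at ht
      obtain ⟨⟨h1, h2, h3, h4, h5⟩, h6, h7, h8⟩ := ht
      rw [Finset.mem_coe, Finset.mem_offDiag, mC, mC]
      refine ⟨⟨h1, h3, h5, h7⟩, ⟨h2, h4, h5, h8⟩, fun h => h6 (congrArg Prod.fst h)⟩
    · rintro ⟨⟨u, i, j⟩, u', i', j'⟩ hs
      rw [Finset.mem_coe, Finset.mem_offDiag] at hs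
      obtain ⟨hs1, hs2, hs3⟩ := hs
      obtain ⟨h1, h2⟩ := fC _ hs1 _ hs2
      have h3 := h2.resolve_left hs3
      rw [mC] at hs1 hs2
      simp only at h1 h3 hs1 hs2
      subst h1
      rw [hDs, Finset.mem_coe, Finset.mem_filter]
      simp only [Finset.mem_product]
      exact ⟨⟨hs1.1, hs2.1, hs1.2.1, hs2.2.1, hs1.2.2.1⟩, h3.1, hs1.2.2.2, hs2.2.2.2⟩
    · rintro ⟨u, u', i, i', j⟩ _
      rfl
    · rintro ⟨⟨u, i, j⟩, u', i', j'⟩ hs
      rw [Finset.mem_coe, Finset.mem_offDiag] at hs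
      obtain ⟨h1, -⟩ := fC _ hs.1 _ hs.2.1
      simp only at h1
      subst h1
      rfl
  rw [Finset.offDiag_card] at cD
  have cC : Cs.card ≤ 2 := by
    by_cases hne : Cs.Nonempty
    · obtain ⟨⟨u, i, j⟩, hs⟩ := hne
      have hs' := (mC _).1 hs
      obtain ⟨-, -, -, -, -, -, -, -, -, ⟨q, -, -, -, hinq⟩⟩ :=
        hShape L I E u w i j hN (hU hs'.1) hw hs'.2.2.2
      have h1 : Cs.card ≤ ({i, q} : Finset ℕ).card := by
        refine Finset.card_le_card_of_injOn (fun t => t.2.1) ?_ ?_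
        · intro t ht
          rw [Finset.mem_coe] at ht
          have h2 := (fC _ ht _ hs).1
          have h3 := ((mC _).1 ht).2.2.2.2.2.1
          simp only at h2
          rw [h2, hinq] at h3
          rw [Finset.mem_coe, Finset.mem_insert, Finset.mem_singleton]
          rcases h3 with h3 | h3
          · exact Or.inl (Sum.inr.inj h3)
          · exact Or.inr (Sum.inr.inj h3)
        · intro s hs1 t ht1 hst
          rw [Finset.mem_coe] at hs1 ht1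
          rcases (fC s hs1 t ht1).2 with h2 | h2
          · exact h2
          · exact absurd hst h2.2
      exact h1.trans Finset.card_le_two
    · rw [Finset.not_nonempty_iff_eq_empty] at hne
      rw [hne]
      simp
  by_cases hA : As.Nonempty
  · obtain ⟨⟨u, i⟩, hs⟩ := hA
    have hs' := (mA _).1 hs
    have hA1 : As = {(u, i)} := by
      rw [Finset.eq_singleton_iff_unique_mem]
      refine ⟨hs, ?_⟩
      rintro ⟨u', i'⟩ ht
      have ht' := (mA _).1 ht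
      rcases hCC L I E w u i w u' i' hN hw (hU hs'.1) hw (hU ht'.1) hs'.2.2 ht'.2.2 with
        ⟨h1, h2 | h2⟩ | h1
      · rw [h1, h2.2]
      · exact absurd (h2.1 ▸ ht'.1) hwU
      · exact absurd rfl h1.2.1
    have hB : Bs = ∅ := by
      rw [Finset.eq_empty_iff_forall_notMem]
      rintro ⟨u', i', j'⟩ ht
      have ht' := (mB _).1 ht
      obtain ⟨-, -, h1, -⟩ := hCR L I E w u i w u' i' j' hN hw (hU hs'.1) hw (hU ht'.1)
        hs'.2.2 ht'.2.2.2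
      exact h1 rfl
    have hC : Cs = ∅ := by
      rw [Finset.eq_empty_iff_forall_notMem]
      rintro ⟨u', i', j'⟩ ht
      have ht' := (mC _).1 ht
      obtain ⟨-, -, -, h1, -⟩ := hCR L I E w u i u' w i' j' hN hw (hU hs'.1) (hU ht'.1) hw
        hs'.2.2 ht'.2.2.2
      exact h1 rfl
    rw [if_pos (hW.2 (Or.inr ⟨u, hs'.1, Or.inl ⟨i, hs'.2.1, hs'.2.2⟩⟩)), cD, hA1, hB, hC]
    simp
  by_cases hB : Bs.Nonempty
  · obtain ⟨⟨u, i, j⟩, hs⟩ := hB
    have hs' := (mB _).1 hs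
    have hB1 : Bs = {(u, i, j)} := by
      rw [Finset.eq_singleton_iff_unique_mem]
      refine ⟨hs, ?_⟩
      rintro ⟨u', i', j'⟩ ht
      have ht' := (mB _).1 ht
      rcases hRR L I E w u i j w u' i' j' hN hw (hU hs'.1) hw (hU ht'.1) hs'.2.2.2
        ht'.2.2.2 with h1 | h1 | h1
      · rw [h1.2.1, h1.2.2.1, h1.2.2.2]
      · exact absurd rfl h1.2.2.2.2.1
      · exact absurd rfl h1.2.2.2
    have hC : Cs = ∅ := by
      rw [Finset.eq_empty_iff_forall_notMem]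
      rintro ⟨u', i', j'⟩ ht
      have ht' := (mC _).1 ht
      rcases hRR L I E w u i j u' w i' j' hN hw (hU hs'.1) (hU ht'.1) hw hs'.2.2.2
        ht'.2.2.2 with h1 | h1 | h1
      · exact absurd (h1.1 ▸ ht'.1) hwU
      · exact absurd rfl h1.2.2.2.2.2.1
      · exact absurd (h1.1 ▸ hs'.1) hwU
    rw [Finset.not_nonempty_iff_eq_empty] at hA
    rw [if_pos (hW.2 (Or.inr ⟨u, hs'.1, Or.inr (Or.inl ⟨i, hs'.2.1, j, hs'.2.2.1,
      hs'.2.2.2⟩)⟩)), cD, hA, hB1, hC]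
    simp
  rw [Finset.not_nonempty_iff_eq_empty] at hA hB
  by_cases hC : Cs.Nonempty
  · obtain ⟨⟨u, i, j⟩, hs⟩ := hC
    have hs' := (mC _).1 hs
    have h1 : 0 < Cs.card := Finset.card_pos.2 ⟨_, hs⟩
    rw [if_pos (hW.2 (Or.inr ⟨u, hs'.1, Or.inr (Or.inr ⟨i, hs'.2.1, j, hs'.2.2.1,
      hs'.2.2.2⟩)⟩)), cD, hA, hB]
    have h2 : Cs.card = 1 ∨ Cs.card = 2 := by omega
    rcases h2 with h2 | h2 <;> rw [h2] <;> simp
  · rw [Finset.not_nonempty_iff_eq_empty] at hC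
    have h1 : ¬ HasPair E (insert w U) := by
      rw [hW]
      rintro (h | ⟨u, hu, ⟨i, hi, h⟩ | ⟨i, hi, j, hj, h⟩ | ⟨i, hi, j, hj, h⟩⟩)
      · exact hnp h
      · have : (u, i) ∈ As := (mA _).2 ⟨hu, hi, h⟩
        rw [hA] at this
        exact absurd this (Finset.notMem_empty _)
      · have : (u, i, j) ∈ Bs := (mB _).2 ⟨hu, hi, hj, h⟩
        rw [hB] at this
        exact absurd this (Finset.notMem_empty _)
      · have : (u, i, j) ∈ Cs := (mC _).2 ⟨hu, hi, hj, h⟩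
        rw [hC] at this
        exact absurd this (Finset.notMem_empty _)
    rw [if_neg h1, cD, hA, hB, hC]
    simp

end Orch
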