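import Pool.Agent.Lib.Orch.Spec

/-!
Boundary values of the numbers `Q l n m`.
-/

set_option autoImplicit false

namespace Orch

open Finset

private theorem TQb_zero {L U I : Finset ℕ} (hM : S_MemNet)
    (h : ∀ E : Dg, Orchard L I E → HasPair E U) : q L U I = 0 := by
  classical
  unfold q
  rw [Finset.card_eq_zero, Finset.filter_eq_empty_iff]
  intro E hE hn
  exact hn (h E ((hM L I E).mp hE))

theorem c_QTop (hM : S_MemNet) (hHas : S_Has) : S_QTop := by
  intro l m hl
  unfold Q
  apply TQb_zero hM
  intro E hE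
  rcases hHas _ _ _ hE with h | h
  · exact h
  · exfalso
    have h1 := h.1
    rw [Finset.card_range] at h1
    omega

theorem c_QZero (hM : S_MemNet) (hHas : S_Has) : S_QZero := by
  intro n m
  unfold Q
  apply TQb_zero hM
  intro E hE
  exfalso
  rcases hHas _ _ _ hE with h | h
  · obtain ⟨x, hx, _⟩ := h
    exact absurd (Finset.mem_range.mp hx) (Nat.not_lt_zero x)
  · have h1 := h.1
    rw [Finset.card_range] at h1
    omega

theorem c_QSmall (hM : S_MemNet) (hK : S_KCount) : S_QSmall := by
  intro l n m hk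
  unfold Q
  apply TQb_zero hM
  intro E hE
  exfalso
  have h1 := hK _ _ _ hE
  rw [Finset.card_range, Finset.card_range] at h1
  exact hk _ h1

theorem c_QOne (hM : S_MemNet) (hOne : S_One) : S_QOne := by
  classical
  intro m
  have hr1 : Finset.range 1 = {0} := rfl
  by_cases hm : m = 1
  · subst hm
    rw [if_pos rfl]
    unfold Q q
    rw [Finset.card_eq_one]
    refine ⟨{((Sum.inr 0 : V), (Sum.inl 0 : V))}, ?_⟩
    ext E
    rw [Finset.mem_filter, Finset.mem_singleton, hM, hr1]
    constructor
    · rintro ⟨hE, _⟩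
      obtain ⟨r, hr, hEr⟩ := hOne 0 _ E hE
      have h0 : r = 0 := (Finset.singleton_inj.mp hr).symm
      rw [hEr, h0]
    · rintro rfl
      refine ⟨Orchard.base 0 0, ?_⟩
      rintro ⟨x, hx, _⟩
      exact absurd (Finset.mem_range.mp hx) (Nat.not_lt_zero x)
  · rw [if_neg hm]
    unfold Q
    apply TQb_zero hM
    intro E hE
    exfalso
    rw [hr1] at hE
    obtain ⟨r, hr, _⟩ := hOne 0 _ E hE
    have h1 := congrArg Finset.card hr
    rw [Finset.card_range, Finset.card_singleton] at h1
    exact hm h1

end Orch
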