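import Pool.Agent.Lib.Orch.Spec

/-!
The recursion.
-/

namespace Orch

open Finset

theorem c_Rec (hPW : S_PW) (hA : S_SumA) (hB : S_SumB) (hC : S_SumC) (hD : S_SumD)
    (hM : S_MemNet) (hON : S_OrchNet) : S_Rec := by
  classical
  intro l n m hn
  have hU : range n ⊆ range l := by
    intro x hx
    rw [Finset.mem_range] at hx ⊢
    omega
  have hw : n ∈ range l := Finset.mem_range.2 hn
  have hwU : n ∉ range n := Finset.notMem_range_self
  have hins : insert n (range n) = range (n + 1) := Finset.range_add_one.symm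
  obtain ⟨F, hF⟩ : ∃ F : Finset Dg, F = (Net (range l) (range m)).filter
      (fun E => ¬ HasPair E (range n)) := ⟨_, rfl⟩
  have hmono : ∀ E, HasPair E (range n) → HasPair E (insert n (range n)) := by
    rintro E ⟨x, hx, y, hy, h⟩
    exact ⟨x, Finset.mem_insert_of_mem hx, y, Finset.mem_insert_of_mem hy, h⟩
  have hFc : F.card = Q l n m := by
    rw [hF]
    rfl
  have hGc : (F.filter (fun E => ¬ HasPair E (insert n (range n)))).card = Q l (n + 1) m := by
    have h1 : F.filter (fun E => ¬ HasPair E (insert n (range n))) =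
        (Net (range l) (range m)).filter (fun E => ¬ HasPair E (range (n + 1))) := by
      rw [hF, ← hins]
      ext E
      simp only [Finset.mem_filter]
      constructor
      · rintro ⟨⟨h1, -⟩, h2⟩
        exact ⟨h1, h2⟩
      · rintro ⟨h1, h2⟩
        exact ⟨⟨h1, fun h3 => h2 (hmono E h3)⟩, h2⟩
    rw [h1]
    rfl
  have hsplit : (F.filter (fun E => HasPair E (insert n (range n)))).card +
      (F.filter (fun E => ¬ HasPair E (insert n (range n)))).card = F.card :=
    Finset.card_filter_add_card_filter_not _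
  have hAs := hA (range l) (range m) (range n) n hU hw hwU
  have hBs := hB (range l) (range m) (range n) n hU hw hwU
  have hCs := hC (range l) (range m) (range n) n hU hw hwU
  have hDs := hD (range l) (range m) (range n) n hU hw hwU
  rw [← hF, Finset.card_range, Finset.card_range, Finset.card_range] at hAs hBs hCs hDs
  have hsum := Finset.sum_congr (rfl : F = F) (fun E hE => by
    have hE' := Finset.mem_filter.1 (hF ▸ hE)
    exact hPW (range l) (range m) E (hON _ _ _ ((hM _ _ _).1 hE'.1)) (range n) hU n hw hwU hE'.2)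
  rw [Finset.sum_add_distrib, Finset.sum_add_distrib, Finset.sum_add_distrib, ← Finset.mul_sum,
    ← Finset.mul_sum, ← Finset.mul_sum] at hsum
  have hP : ∑ E ∈ F, (if HasPair E (insert n (range n)) then 2 else 0) =
      2 * (F.filter (fun E => HasPair E (insert n (range n)))).card := by
    rw [Finset.card_filter, Finset.mul_sum]
    refine Finset.sum_congr rfl (fun E _ => ?_)
    split_ifs <;> rfl
  have hch : n * (n - 1) = 2 * n.choose 2 := by
    rw [Nat.choose_two_right]
    exact (Nat.mul_div_cancel' (Nat.even_mul_pred_self n).two_dvd).symm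
  rw [hP, hDs, hAs, hCs] at hsum
  rw [hch] at hBs hsum
  rw [hGc, hFc] at hsplit
  generalize hQ1 : Q l (n + 1) m = Q1 at *
  generalize hQ0 : Q l n m = Q0 at *
  generalize hp : (F.filter (fun E => HasPair E (insert n (range n)))).card = P at *
  generalize hb : ∑ E ∈ F, ((range n ×ˢ range m ×ˢ range m).filter
    (fun t => IsRet E n t.1 t.2.1 t.2.2)).card = B at *
  have e1 : 2 * n * (m * (m - 1)) * Q l (n - 1) (m - 2) =
      2 * (n * (m * (m - 1)) * Q l (n - 1) (m - 2)) := by ring
  have e2 : 3 * n.choose 2 * (m * (m - 1) * (m - 2)) * Q (l - 1) (n - 2) (m - 3) =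
      3 * (n.choose 2 * (m * (m - 1) * (m - 2)) * Q (l - 1) (n - 2) (m - 3)) := by ring
  have e3 : 2 * n.choose 2 * (m * (m - 1) * (m - 2)) * Q (l - 1) (n - 2) (m - 3) =
      2 * (n.choose 2 * (m * (m - 1) * (m - 2)) * Q (l - 1) (n - 2) (m - 3)) := by ring
  rw [e1, e2]
  rw [e3] at hBs hsum
  omega

end Orch
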