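import Pool.Agent.Lib.Orch.Spec

/-!
Renaming the leaves and the internal vertices.
-/

namespace Orch

open Finset

/-- the renaming of the vertices -/
private abbrev TRen1_m (σ τ : Equiv.Perm ℕ) : Equiv.Perm V := Equiv.sumCongr σ τ

private theorem TRen1_mem (E : Dg) (σ τ : Equiv.Perm ℕ) (a b : V) :
    (TRen1_m σ τ a, TRen1_m σ τ b) ∈ ren σ τ E ↔ (a, b) ∈ E := by
  unfold ren
  rw [mem_image]
  constructor
  · rintro ⟨⟨a', b'⟩, he, h⟩
    rw [Prod.mk.injEq] at h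
    have h1 : a' = a := (TRen1_m σ τ).injective h.1
    have h2 : b' = b := (TRen1_m σ τ).injective h.2
    rw [← h1, ← h2]
    exact he
  · intro h
    exact ⟨(a, b), h, rfl⟩

private theorem TRen1_inj (σ τ : Equiv.Perm ℕ) :
    Function.Injective (fun e : V × V => (Sum.map σ τ e.1, Sum.map σ τ e.2)) := by
  rintro ⟨a, b⟩ ⟨a', b'⟩ h
  simp only [Prod.mk.injEq] at h
  have h1 : a = a' := (TRen1_m σ τ).injective h.1
  have h2 : b = b' := (TRen1_m σ τ).injective h.2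
  rw [h1, h2]

private theorem TRen1_indeg (E : Dg) (σ τ : Equiv.Perm ℕ) (v : V) :
    indeg (ren σ τ E) (TRen1_m σ τ v) = indeg E v := by
  unfold indeg ren
  rw [filter_image, card_image_of_injective _ (TRen1_inj σ τ)]
  congr 1
  refine filter_congr fun e _ => ?_
  exact (TRen1_m σ τ).injective.eq_iff (a := e.2) (b := v)

private theorem TRen1_outdeg (E : Dg) (σ τ : Equiv.Perm ℕ) (v : V) :
    outdeg (ren σ τ E) (TRen1_m σ τ v) = outdeg E v := by
  unfold outdeg ren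
  rw [filter_image, card_image_of_injective _ (TRen1_inj σ τ)]
  congr 1
  refine filter_congr fun e _ => ?_
  exact (TRen1_m σ τ).injective.eq_iff (a := e.1) (b := v)

private theorem TRen1_tree (E : Dg) (σ τ : Equiv.Perm ℕ) (i : ℕ) :
    TreeNode (ren σ τ E) (τ i) ↔ TreeNode E i := by
  unfold TreeNode
  have h1 := TRen1_indeg E σ τ (Sum.inr i)
  have h2 := TRen1_outdeg E σ τ (Sum.inr i)
  have h3 : TRen1_m σ τ (Sum.inr i) = Sum.inr (τ i) := rfl
  rw [h3] at h1 h2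
  rw [h1, h2]

private theorem TRen1_retic (E : Dg) (σ τ : Equiv.Perm ℕ) (i : ℕ) :
    Retic (ren σ τ E) (τ i) ↔ Retic E i := by
  unfold Retic
  have h1 := TRen1_indeg E σ τ (Sum.inr i)
  have h2 := TRen1_outdeg E σ τ (Sum.inr i)
  have h3 : TRen1_m σ τ (Sum.inr i) = Sum.inr (τ i) := rfl
  rw [h3] at h1 h2
  rw [h1, h2]

theorem c_RenPair : S_RenPair := by
  intro E σ τ x y i j
  have h1 : ∀ i x, ((Sum.inr (τ i) : V), (Sum.inl (σ x) : V)) ∈ ren σ τ E ↔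
      ((Sum.inr i : V), (Sum.inl x : V)) ∈ E := fun i x => TRen1_mem E σ τ (Sum.inr i) (Sum.inl x)
  have h2 : ∀ i j, ((Sum.inr (τ i) : V), (Sum.inr (τ j) : V)) ∈ ren σ τ E ↔
      ((Sum.inr i : V), (Sum.inr j : V)) ∈ E := fun i j => TRen1_mem E σ τ (Sum.inr i) (Sum.inr j)
  constructor
  · unfold IsCherry
    rw [h1, h1, σ.injective.ne_iff]
  · unfold IsRet
    rw [h1, h1, h2, TRen1_tree, TRen1_retic]

theorem c_RenNet : S_RenNet := by
  intro L I E σ τ hN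
  have hdis : ∀ v : V, v ∈ L.disjSum I → TRen1_m σ τ v ∈ (L.image σ).disjSum (I.image τ) := by
    rintro (x | i) hv
    · rw [inl_mem_disjSum] at hv
      exact inl_mem_disjSum.2 (mem_image_of_mem _ hv)
    · rw [inr_mem_disjSum] at hv
      exact inr_mem_disjSum.2 (mem_image_of_mem _ hv)
  refine ⟨?_, ?_, ?_, ?_⟩
  · intro e he
    unfold ren at he
    rw [mem_image] at he
    obtain ⟨e', he', rfl⟩ := he
    obtain ⟨h1, h2⟩ := hN.sub e' he'
    exact ⟨hdis _ h1, hdis _ h2⟩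
  · intro x hx
    obtain ⟨x₀, hx₀, rfl⟩ := mem_image.1 hx
    have h := hN.leaf x₀ hx₀
    have h1 := TRen1_indeg E σ τ (Sum.inl x₀)
    have h2 := TRen1_outdeg E σ τ (Sum.inl x₀)
    have h3 : TRen1_m σ τ (Sum.inl x₀) = Sum.inl (σ x₀) := rfl
    rw [h3] at h1 h2
    rw [h1, h2]
    exact h
  · obtain ⟨r, hr, hr1, hr2⟩ := hN.root
    refine ⟨τ r, mem_image_of_mem _ hr, ?_, ?_⟩
    · have h1 := TRen1_indeg E σ τ (Sum.inr r)
      have h2 := TRen1_outdeg E σ τ (Sum.inr r)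
      have h3 : TRen1_m σ τ (Sum.inr r) = Sum.inr (τ r) := rfl
      rw [h3] at h1 h2
      rw [h1, h2]
      exact hr1
    · intro i hi hir
      obtain ⟨i₀, hi₀, rfl⟩ := mem_image.1 hi
      rw [TRen1_tree, TRen1_retic]
      exact hr2 i₀ hi₀ fun h => hir (by rw [h])
  · intro v hv
    have h : Relation.TransGen (fun a b : V => (a, b) ∈ E)
        ((TRen1_m σ τ).symm v) ((TRen1_m σ τ).symm v) := by
      refine Relation.TransGen.lift (TRen1_m σ τ).symm ?_ _ _ hv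
      intro a b hab
      change ((TRen1_m σ τ).symm a, (TRen1_m σ τ).symm b) ∈ E
      rw [← TRen1_mem E σ τ, Equiv.apply_symm_apply, Equiv.apply_symm_apply]
      exact hab
    exact hN.acyc _ h

private theorem TRen1_memC (E : Dg) (x y i : ℕ) (a b : V) :
    (a, b) ∈ redC E x y i ↔ ((a, b) ∈ E ∧ a ≠ Sum.inr i ∧ b ≠ Sum.inr i) ∨
      ((a, (Sum.inr i : V)) ∈ E ∧ b = Sum.inl x) := by
  unfold redC
  rw [mem_union, mem_filter, mem_image]
  refine or_congr Iff.rfl ?_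
  constructor
  · rintro ⟨⟨a', b'⟩, he, h⟩
    rw [mem_filter] at he
    rw [Prod.mk.injEq] at h
    obtain ⟨he1, he2⟩ := he
    simp only at he2 h
    rw [← h.1, ← he2]
    exact ⟨he1, h.2.symm⟩
  · rintro ⟨h1, h2⟩
    exact ⟨(a, Sum.inr i), mem_filter.2 ⟨h1, rfl⟩, by rw [h2]⟩

private theorem TRen1_memR (E : Dg) (x y i j : ℕ) (a b : V) :
    (a, b) ∈ redR E x y i j ↔
      ((a, b) ∈ E ∧ (a ≠ Sum.inr i ∧ b ≠ Sum.inr i) ∧ (a ≠ Sum.inr j ∧ b ≠ Sum.inr j)) ∨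
      (((a, (Sum.inr i : V)) ∈ E ∧ b = Sum.inl x) ∨
      ((a, (Sum.inr j : V)) ∈ E ∧ a ≠ Sum.inr i ∧ b = Sum.inl y)) := by
  unfold redR
  rw [mem_union, mem_filter, mem_union, mem_image, mem_image]
  refine or_congr Iff.rfl (or_congr ?_ ?_)
  · constructor
    · rintro ⟨⟨a', b'⟩, he, h⟩
      rw [mem_filter] at he
      rw [Prod.mk.injEq] at h
      obtain ⟨he1, he2⟩ := he
      simp only at he2 h
      rw [← h.1, ← he2]
      exact ⟨he1, h.2.symm⟩
    · rintro ⟨h1, h2⟩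
      exact ⟨(a, Sum.inr i), mem_filter.2 ⟨h1, rfl⟩, by rw [h2]⟩
  · constructor
    · rintro ⟨⟨a', b'⟩, he, h⟩
      rw [mem_filter] at he
      rw [Prod.mk.injEq] at h
      obtain ⟨he1, he2, he3⟩ := he
      simp only at he2 he3 h
      rw [← h.1, ← he2]
      exact ⟨he1, he3, h.2.symm⟩
    · rintro ⟨h1, h3, h2⟩
      exact ⟨(a, Sum.inr j), mem_filter.2 ⟨h1, rfl, h3⟩, by rw [h2]⟩

private theorem TRen1_ext (A B : Dg) (m : Equiv.Perm V)
    (h : ∀ a b : V, (m a, m b) ∈ A ↔ (m a, m b) ∈ B) : A = B := by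
  ext ⟨a, b⟩
  have h1 := h (m.symm a) (m.symm b)
  rwa [Equiv.apply_symm_apply, Equiv.apply_symm_apply] at h1

theorem c_RenRed : S_RenRed := by
  intro E σ τ x y i j
  have hne : ∀ (a : V) (i : ℕ), TRen1_m σ τ a ≠ Sum.inr (τ i) ↔ a ≠ Sum.inr i := fun a i =>
    (TRen1_m σ τ).injective.ne_iff (x := a) (y := Sum.inr i)
  have heq : ∀ (b : V) (x : ℕ), TRen1_m σ τ b = Sum.inl (σ x) ↔ b = Sum.inl x := fun b x =>
    (TRen1_m σ τ).injective.eq_iff (a := b) (b := Sum.inl x)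
  have hmi : ∀ (a : V) (i : ℕ), (TRen1_m σ τ a, (Sum.inr (τ i) : V)) ∈ ren σ τ E ↔
      (a, (Sum.inr i : V)) ∈ E := fun a i => TRen1_mem E σ τ a (Sum.inr i)
  constructor
  · refine TRen1_ext _ _ (TRen1_m σ τ) fun a b => ?_
    rw [TRen1_mem, TRen1_memC, TRen1_memC, TRen1_mem, hne, hne, hmi, heq]
  · refine TRen1_ext _ _ (TRen1_m σ τ) fun a b => ?_
    rw [TRen1_mem, TRen1_memR, TRen1_memR, TRen1_mem, hne, hne, hne, hne, hmi, hmi, heq, heq]

end Orch
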