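import Pool.Agent.Lib.Orch.Spec

/-!
The shape of a network at a cherry.
-/

namespace Orch

open Finset

private theorem TShapeC_in_one {E : Dg} {a₀ v : V} (h : indeg E v = 1) (h0 : (a₀, v) ∈ E) :
    ∀ a : V, (a, v) ∈ E ↔ a = a₀ := by
  intro a
  unfold indeg at h
  obtain ⟨e, he⟩ := card_eq_one.1 h
  have h1 : (a₀, v) ∈ E.filter (fun e => e.2 = v) := mem_filter.2 ⟨h0, rfl⟩
  rw [he, mem_singleton] at h1
  constructor
  · intro h2
    have h3 : (a, v) ∈ E.filter (fun e => e.2 = v) := mem_filter.2 ⟨h2, rfl⟩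
    rw [he, mem_singleton, ← h1, Prod.mk.injEq] at h3
    exact h3.1
  · rintro rfl
    exact h0

private theorem TShapeC_out_two {E : Dg} {u b₁ b₂ : V} (h : outdeg E u = 2) (h1 : (u, b₁) ∈ E)
    (h2 : (u, b₂) ∈ E) (hne : b₁ ≠ b₂) : ∀ b : V, (u, b) ∈ E ↔ b = b₁ ∨ b = b₂ := by
  intro b
  unfold outdeg at h
  have hsub : ({(u, b₁), (u, b₂)} : Finset (V × V)) ⊆ E.filter (fun e => e.1 = u) := by
    intro e he
    rcases mem_insert.1 he with rfl | he
    · exact mem_filter.2 ⟨h1, rfl⟩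
    · rw [mem_singleton.1 he]
      exact mem_filter.2 ⟨h2, rfl⟩
  have hcard : ({(u, b₁), (u, b₂)} : Finset (V × V)).card = 2 :=
    card_pair (fun h3 => hne (Prod.mk.inj h3).2)
  have heq := eq_of_subset_of_card_le hsub (by rw [h, hcard])
  constructor
  · intro h3
    have h4 : (u, b) ∈ E.filter (fun e => e.1 = u) := mem_filter.2 ⟨h3, rfl⟩
    rw [← heq, mem_insert, mem_singleton, Prod.mk.injEq, Prod.mk.injEq] at h4
    rcases h4 with h4 | h4
    · exact Or.inl h4.2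
    · exact Or.inr h4.2
  · rintro (rfl | rfl)
    · exact h1
    · exact h2

theorem c_ShapeC (hEdge : S_Edge) : S_ShapeC := by
  intro L I E x y i hN hx hy hc
  obtain ⟨hxy, h1, h2⟩ := hc
  obtain ⟨⟨k, hk, hki⟩, -⟩ := hEdge L I E hN _ _ h1
  have hiI : i ∈ I := by
    rw [Sum.inr.inj hki]
    exact hk
  have hout : 2 ≤ outdeg E (Sum.inr i) := by
    unfold outdeg
    have h3 : 1 < (E.filter (fun e => e.1 = (Sum.inr i : V))).card := by
      rw [one_lt_card]
      refine ⟨_, mem_filter.2 ⟨h1, rfl⟩, _, mem_filter.2 ⟨h2, rfl⟩, ?_⟩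
      intro h
      exact hxy (Sum.inl.inj (Prod.mk.inj h).2)
    exact h3
  have hT : TreeNode E i := by
    obtain ⟨r, hr, ⟨-, hr1⟩, hrest⟩ := hN.root
    have hir : i ≠ r := by
      rintro rfl
      omega
    rcases hrest i hiI hir with h | h
    · exact h
    · have := h.2
      omega
  have hin : ∃ a : V, (a, (Sum.inr i : V)) ∈ E := by
    have h3 := hT.1
    unfold indeg at h3
    obtain ⟨⟨a, b⟩, he⟩ := card_eq_one.1 h3
    have h4 : (a, b) ∈ E.filter (fun e => e.2 = (Sum.inr i : V)) := by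
      rw [he]
      exact mem_singleton_self _
    rw [mem_filter] at h4
    obtain ⟨h5, h6⟩ := h4
    simp only at h6
    rw [h6] at h5
    exact ⟨a, h5⟩
  obtain ⟨a, ha⟩ := hin
  obtain ⟨⟨g, hg, rfl⟩, -⟩ := hEdge L I E hN _ _ ha
  refine ⟨hiI, hT, TShapeC_out_two hT.2 h1 h2 (fun h => hxy (Sum.inl.inj h)),
    TShapeC_in_one (hN.leaf x hx).1 h1, TShapeC_in_one (hN.leaf y hy).1 h2,
    ⟨g, hg, ?_, TShapeC_in_one hT.1 ha⟩⟩
  rintro rfl
  exact hN.acyc _ (Relation.TransGen.single ha)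

end Orch
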