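import Pool.Agent.Lib.Orch.Spec

/-!
The shape of a network at a reticulated cherry.
-/

namespace Orch

open Finset

private theorem TShapeR_in_one {E : Dg} {a₀ v : V} (h : indeg E v = 1) (h0 : (a₀, v) ∈ E) :
    ∀ a : V, (a, v) ∈ E ↔ a = a₀ := by
  intro a
  unfold indeg at h
  obtain ⟨e, he⟩ := card_eq_one.1 h
  have h1 : (a₀, v) ∈ E.filter (fun e => e.2 = v) := mem_filter.2 ⟨h0, rfl⟩
  rw [he, mem_singleton] at h1
  constructor
  · intro h2
    have h3 : (a, v) ∈ E.filter (fun e => e.2 = v) := mem_filter.2 ⟨h2, rfl⟩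
    rw [he, mem_singleton, ← h1, Prod.mk.injEq] at h3
    exact h3.1
  · rintro rfl
    exact h0

private theorem TShapeR_out_two {E : Dg} {u b₁ b₂ : V} (h : outdeg E u = 2) (h1 : (u, b₁) ∈ E)
    (h2 : (u, b₂) ∈ E) (hne : b₁ ≠ b₂) : ∀ b : V, (u, b) ∈ E ↔ b = b₁ ∨ b = b₂ := by
  intro b
  unfold outdeg at h
  have hsub : ({(u, b₁), (u, b₂)} : Finset (V × V)) ⊆ E.filter (fun e => e.1 = u) := by
    intro e he
    rcases mem_insert.1 he with rfl | he
    · exact mem_filter.2 ⟨h1, rfl⟩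
    · rw [mem_singleton.1 he]
      exact mem_filter.2 ⟨h2, rfl⟩
  have hcard : ({(u, b₁), (u, b₂)} : Finset (V × V)).card = 2 :=
    card_pair (fun h3 => hne (Prod.mk.inj h3).2)
  have heq := eq_of_subset_of_card_le hsub (by rw [h, hcard])
  constructor
  · intro h3
    have h4 : (u, b) ∈ E.filter (fun e => e.1 = u) := mem_filter.2 ⟨h3, rfl⟩
    rw [← heq, mem_insert, mem_singleton, Prod.mk.injEq, Prod.mk.injEq] at h4
    rcases h4 with h4 | h4
    · exact Or.inl h4.2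
    · exact Or.inr h4.2
  · rintro (rfl | rfl)
    · exact h1
    · exact h2

private theorem TShapeR_out_one {E : Dg} {u b₀ : V} (h : outdeg E u = 1) (h0 : (u, b₀) ∈ E) :
    ∀ b : V, (u, b) ∈ E ↔ b = b₀ := by
  intro b
  unfold outdeg at h
  obtain ⟨e, he⟩ := card_eq_one.1 h
  have h1 : (u, b₀) ∈ E.filter (fun e => e.1 = u) := mem_filter.2 ⟨h0, rfl⟩
  rw [he, mem_singleton] at h1
  constructor
  · intro h2
    have h3 : (u, b) ∈ E.filter (fun e => e.1 = u) := mem_filter.2 ⟨h2, rfl⟩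
    rw [he, mem_singleton, ← h1, Prod.mk.injEq] at h3
    exact h3.2
  · rintro rfl
    exact h0

private theorem TShapeR_in_two {E : Dg} {a₁ v : V} (h : indeg E v = 2) (h1 : (a₁, v) ∈ E) :
    ∃ a₂ : V, a₂ ≠ a₁ ∧ (a₂, v) ∈ E ∧ ∀ a : V, (a, v) ∈ E ↔ a = a₁ ∨ a = a₂ := by
  unfold indeg at h
  have hm : (a₁, v) ∈ E.filter (fun e => e.2 = v) := mem_filter.2 ⟨h1, rfl⟩
  obtain ⟨⟨a₂, v'⟩, he, hne⟩ := exists_mem_ne (by omega :
    1 < (E.filter (fun e => e.2 = v)).card) (a₁, v)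
  rw [mem_filter] at he
  obtain ⟨he1, he2⟩ := he
  simp only at he2
  subst he2
  have hne' : a₂ ≠ a₁ := fun h3 => hne (by rw [h3])
  have hsub : ({(a₁, v'), (a₂, v')} : Finset (V × V)) ⊆ E.filter (fun e => e.2 = v') := by
    intro e he
    rcases mem_insert.1 he with rfl | he
    · exact hm
    · rw [mem_singleton.1 he]
      exact mem_filter.2 ⟨he1, rfl⟩
  have hcard : ({(a₁, v'), (a₂, v')} : Finset (V × V)).card = 2 :=
    card_pair (fun h3 => hne' (Prod.mk.inj h3).1.symm)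
  have heq := eq_of_subset_of_card_le hsub (by rw [h, hcard])
  refine ⟨a₂, hne', he1, fun a => ?_⟩
  constructor
  · intro h3
    have h4 : (a, v') ∈ E.filter (fun e => e.2 = v') := mem_filter.2 ⟨h3, rfl⟩
    rw [← heq, mem_insert, mem_singleton, Prod.mk.injEq, Prod.mk.injEq] at h4
    rcases h4 with h4 | h4
    · exact Or.inl h4.1
    · exact Or.inr h4.1
  · rintro (rfl | rfl)
    · exact h1
    · exact he1

theorem c_ShapeR (hEdge : S_Edge) : S_ShapeR := by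
  intro L I E x y i j hN hx hy hr
  obtain ⟨h1, h2, h3, hT, hR⟩ := hr
  obtain ⟨⟨k, hk, hki⟩, -⟩ := hEdge L I E hN _ _ h1
  obtain ⟨⟨k', hk', hkj⟩, -⟩ := hEdge L I E hN _ _ h2
  have hiI : i ∈ I := by
    rw [Sum.inr.inj hki]
    exact hk
  have hjI : j ∈ I := by
    rw [Sum.inr.inj hkj]
    exact hk'
  have hij : i ≠ j := by
    rintro rfl
    have h4 := hT.1
    have h5 := hR.1
    omega
  have hinx := TShapeR_in_one (hN.leaf x hx).1 h1
  have hiny := TShapeR_in_one (hN.leaf y hy).1 h2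
  have hxy : x ≠ y := by
    rintro rfl
    exact hij (Sum.inr.inj ((hinx _).1 h2)).symm
  have hin : ∃ a : V, (a, (Sum.inr i : V)) ∈ E := by
    have h4 := hT.1
    unfold indeg at h4
    obtain ⟨⟨a, b⟩, he⟩ := card_eq_one.1 h4
    have h5 : (a, b) ∈ E.filter (fun e => e.2 = (Sum.inr i : V)) := by
      rw [he]
      exact mem_singleton_self _
    rw [mem_filter] at h5
    obtain ⟨h6, h7⟩ := h5
    simp only at h7
    rw [h7] at h6
    exact ⟨a, h6⟩
  obtain ⟨a, ha⟩ := hin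
  obtain ⟨⟨g, hg, rfl⟩, -⟩ := hEdge L I E hN _ _ ha
  obtain ⟨b, hbi, hb, hbj⟩ := TShapeR_in_two hR.1 h3
  obtain ⟨⟨q, hq, rfl⟩, -⟩ := hEdge L I E hN _ _ hb
  refine ⟨hiI, hjI, hij, hxy, TShapeR_out_two hT.2 h1 h3 (by simp), TShapeR_out_one hR.2 h2,
    hinx, hiny, ⟨g, hg, ?_, ?_, TShapeR_in_one hT.1 ha⟩, ⟨q, hq, ?_, ?_, hbj⟩⟩
  · rintro rfl
    exact hN.acyc _ (Relation.TransGen.single ha)
  · rintro rfl
    exact hN.acyc _ (Relation.TransGen.tail (Relation.TransGen.single ha) h3)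
  · rintro rfl
    exact hbi rfl
  · rintro rfl
    exact hN.acyc _ (Relation.TransGen.single hb)

end Orch
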