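import Pool.Agent.Lib.Orch.Spec

/-!
Sums of the counts of cherries and of reticulated cherries at `w`.
-/

namespace Orch

open Finset

open Classical in
private theorem tSum1_swap {α β : Type} (s : Finset α) (t : Finset β) (r : α → β → Prop) :
    ∑ a ∈ s, (t.filter (fun b => r a b)).card = ∑ b ∈ t, (s.filter (fun a => r a b)).card :=
  sum_card_bipartiteAbove_eq_sum_card_bipartiteBelow r

private theorem tSum1_pair (I : Finset ℕ) (c : ℕ) (f : ℕ → ℕ → ℕ)
    (h : ∀ i ∈ I, ∀ j ∈ I, i ≠ j → f i j = c) (h0 : ∀ i ∈ I, f i i = 0) :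
    ∑ i ∈ I, ∑ j ∈ I, f i j = I.card * (I.card - 1) * c := by
  have h1 : ∀ i ∈ I, ∑ j ∈ I, f i j = (I.card - 1) * c := by
    intro i hi
    rw [← Finset.sum_erase_add I (f i) hi, h0 i hi, add_zero]
    rw [Finset.sum_congr rfl (fun j hj => h i hi j (Finset.mem_of_mem_erase hj)
      (Finset.ne_of_mem_erase hj).symm), Finset.sum_const, smul_eq_mul, Finset.card_erase_of_mem hi]
  rw [Finset.sum_congr rfl h1, Finset.sum_const, smul_eq_mul, mul_assoc]

theorem c_SumA (hK1 : S_K1) (hLocA : S_LocA) (hM : S_MemNet) (hON : S_OrchNet) (hqQ : S_qQ) :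
    S_SumA := by
  classical
  intro L I U w hU hw hwU
  have h1 := tSum1_swap ((Net L I).filter (fun E => ¬ HasPair E U)) (U ×ˢ I)
    (fun E t => IsCherry E w t.1 t.2)
  refine Eq.trans ?_ (h1.trans ?_)
  · exact Finset.sum_congr rfl (fun E _ => by congr)
  · have h2 : ∀ t ∈ U ×ˢ I, (((Net L I).filter (fun E => ¬ HasPair E U)).filter
        (fun E => IsCherry E w t.1 t.2)).card = Q (L.card - 1) (U.card - 1) (I.card - 1) := by
      rintro ⟨u, i⟩ ht
      obtain ⟨hu, hi⟩ := Finset.mem_product.1 ht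
      simp only at hu hi ⊢
      have huL : u ∈ L := hU hu
      have h3 := hK1 L I (U.erase u) w u i hw huL (fun h => hwU (h ▸ hu)) hi
        (fun h => hwU (Finset.mem_of_mem_erase h)) (Finset.notMem_erase u U)
      rw [hqQ (L.erase u) (U.erase u) (I.erase i) (Finset.erase_subset_erase u hU),
        Finset.card_erase_of_mem huL, Finset.card_erase_of_mem hu, Finset.card_erase_of_mem hi] at h3
      rw [← h3, Finset.filter_filter]
      congr 1
      ext E
      simp only [Finset.mem_filter]
      constructor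
      · rintro ⟨hE, h4, h5⟩
        have h6 := hLocA L I E (hON L I E ((hM L I E).1 hE)) U hU w hw hwU u hu i h5
        exact ⟨hE, h5, fun h7 => h4 (h6.2 h7)⟩
      · rintro ⟨hE, h5, h4⟩
        have h6 := hLocA L I E (hON L I E ((hM L I E).1 hE)) U hU w hw hwU u hu i h5
        exact ⟨hE, fun h7 => h4 (h6.1 h7), h5⟩
    rw [Finset.sum_congr rfl h2, Finset.sum_const, Finset.card_product, smul_eq_mul]

theorem c_SumC (hK2 : S_K2) (hLocC : S_LocC) (hM : S_MemNet) (hON : S_OrchNet) (hqQ : S_qQ)
    (hShapeR : S_ShapeR) : S_SumC := by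
  classical
  intro L I U w hU hw hwU
  have h1 := tSum1_swap ((Net L I).filter (fun E => ¬ HasPair E U)) (U ×ˢ I ×ˢ I)
    (fun E t => IsRet E t.1 w t.2.1 t.2.2)
  refine Eq.trans ?_ (h1.trans ?_)
  · exact Finset.sum_congr rfl (fun E _ => by congr)
  · have h2 : ∀ u ∈ U, ∀ i ∈ I, ∀ j ∈ I, i ≠ j → (((Net L I).filter (fun E => ¬ HasPair E U)).filter
        (fun E => IsRet E u w i j)).card = Q L.card (U.card - 1) (I.card - 2) := by
      intro u hu i hi j hj hij
      have huL : u ∈ L := hU hu
      have h3 := hK2 L I (U.erase u) u w i j huL hw (fun h => hwU (h ▸ hu)) hi hj hij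
        (Finset.notMem_erase u U) (fun h => hwU (Finset.mem_of_mem_erase h))
      have hji : j ∈ I.erase i := Finset.mem_erase.2 ⟨hij.symm, hj⟩
      rw [hqQ L (U.erase u) ((I.erase i).erase j) ((Finset.erase_subset u U).trans hU),
        Finset.card_erase_of_mem hu, Finset.card_erase_of_mem hji, Finset.card_erase_of_mem hi] at h3
      have h4 : I.card - 1 - 1 = I.card - 2 := by omega
      rw [h4] at h3
      rw [← h3, Finset.filter_filter]
      congr 1
      ext E
      simp only [Finset.mem_filter]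
      constructor
      · rintro ⟨hE, h4, h5⟩
        have h6 := hLocC L I E (hON L I E ((hM L I E).1 hE)) U hU w hw hwU u hu i j h5
        exact ⟨hE, h5, fun h7 => h4 (h6.2 h7)⟩
      · rintro ⟨hE, h5, h4⟩
        have h6 := hLocC L I E (hON L I E ((hM L I E).1 hE)) U hU w hw hwU u hu i j h5
        exact ⟨hE, fun h7 => h4 (h6.1 h7), h5⟩
    have h3 : ∀ u ∈ U, ∀ i ∈ I, (((Net L I).filter (fun E => ¬ HasPair E U)).filter
        (fun E => IsRet E u w i i)).card = 0 := by
      intro u hu i hi
      rw [Finset.card_eq_zero, Finset.filter_eq_empty_iff]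
      intro E hE h5
      have hN := hON L I E ((hM L I E).1 (Finset.mem_filter.1 hE).1)
      exact (hShapeR L I E u w i i hN (hU hu) hw h5).2.2.1 rfl
    rw [Finset.sum_product]
    have h4 : ∀ u ∈ U, ∑ p ∈ I ×ˢ I, (((Net L I).filter (fun E => ¬ HasPair E U)).filter
        (fun E => IsRet E u w p.1 p.2)).card =
        I.card * (I.card - 1) * Q L.card (U.card - 1) (I.card - 2) := by
      intro u hu
      rw [Finset.sum_product]
      exact tSum1_pair I _ (fun i j => (((Net L I).filter (fun E => ¬ HasPair E U)).filter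
        (fun E => IsRet E u w i j)).card) (h2 u hu) (h3 u hu)
    rw [Finset.sum_congr rfl h4, Finset.sum_const, smul_eq_mul]
    ring

end Orch
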