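import Pool.Agent.Lib.Orch.Spec

/-!
Sums of the counts of the reticulated cherries `(w, u)`.
-/

namespace Orch

open Finset

open Classical in
private theorem tSumB_swap {α β : Type} (s : Finset α) (t : Finset β) (r : α → β → Prop) :
    ∑ a ∈ s, (t.filter (fun b => r a b)).card = ∑ b ∈ t, (s.filter (fun a => r a b)).card :=
  sum_card_bipartiteAbove_eq_sum_card_bipartiteBelow r

private theorem tSumB_pair (I : Finset ℕ) (c : ℕ) (f : ℕ → ℕ → ℕ)
    (h : ∀ i ∈ I, ∀ j ∈ I, i ≠ j → f i j = c) (h0 : ∀ i ∈ I, f i i = 0) :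
    ∑ i ∈ I, ∑ j ∈ I, f i j = I.card * (I.card - 1) * c := by
  have h1 : ∀ i ∈ I, ∑ j ∈ I, f i j = (I.card - 1) * c := by
    intro i hi
    rw [← Finset.sum_erase_add I (f i) hi, h0 i hi, add_zero]
    rw [Finset.sum_congr rfl (fun j hj => h i hi j (Finset.mem_of_mem_erase hj)
      (Finset.ne_of_mem_erase hj).symm), Finset.sum_const, smul_eq_mul, Finset.card_erase_of_mem hi]
  rw [Finset.sum_congr rfl h1, Finset.sum_const, smul_eq_mul, mul_assoc]

private theorem tSumB_pairAdd (I : Finset ℕ) (c X : ℕ) (f : ℕ → ℕ → ℕ)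
    (h : ∀ i ∈ I, ∀ j ∈ I, i ≠ j → f i j + X = c) (h0 : ∀ i ∈ I, f i i = 0) :
    ∑ i ∈ I, ∑ j ∈ I, f i j + I.card * (I.card - 1) * X = I.card * (I.card - 1) * c := by
  have h1 := tSumB_pair I c (fun i j => f i j + if i = j then 0 else X)
    (fun i hi j hj hij => by simp only [hij, if_false]; exact h i hi j hj hij)
    (fun i hi => by simp only [if_true]; rw [h0 i hi])
  have h2 := tSumB_pair I X (fun i j => if i = j then 0 else X)
    (fun i hi j hj hij => by simp only [hij, if_false]) (fun i hi => by simp only [if_true])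
  rw [← h1, ← h2, ← Finset.sum_add_distrib]
  refine Finset.sum_congr rfl (fun i _ => ?_)
  rw [← Finset.sum_add_distrib]

theorem c_SumB (hK2 : S_K2) (hK3 : S_K3) (hLocB : S_LocB) (hLocC : S_LocC) (hM : S_MemNet)
    (hON : S_OrchNet) (hqQ : S_qQ) (hShapeR : S_ShapeR) : S_SumB := by
  classical
  intro L I U w hU hw hwU
  have hN : ∀ E, E ∈ Net L I → IsNet L I E := fun E hE => hON L I E ((hM L I E).1 hE)
  obtain ⟨f, hf⟩ : ∃ f : ℕ → ℕ → ℕ → ℕ, ∀ u i j, f u i j =
      (((Net L I).filter (fun E => ¬ HasPair E U)).filter (fun E => IsRet E w u i j)).card :=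
    ⟨_, fun _ _ _ => rfl⟩
  obtain ⟨Q1, hQ1⟩ : ∃ Q1, Q1 = Q (L.card - 1) (U.card - 2) (I.card - 3) := ⟨_, rfl⟩
  obtain ⟨Q2, hQ2⟩ : ∃ Q2, Q2 = Q L.card (U.card - 1) (I.card - 2) := ⟨_, rfl⟩
  rw [← hQ1, ← hQ2]
  have h0 : ∀ u ∈ U, ∀ i ∈ I, f u i i = 0 := by
    intro u hu i hi
    rw [hf, Finset.card_eq_zero, Finset.filter_eq_empty_iff]
    intro E hE h5
    exact (hShapeR L I E w u i i (hN E (Finset.mem_filter.1 hE).1) hw (hU hu) h5).2.2.1 rfl
  have hmain : ∀ u ∈ U, ∀ i ∈ I, ∀ j ∈ I, i ≠ j →
      f u i j + (U.card - 1) * ((I.card - 2) * Q1) = Q2 := by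
    intro u hu i hi j hj hij
    have huL : u ∈ L := hU hu
    have hwu : w ≠ u := fun h => hwU (h ▸ hu)
    have hji : j ∈ I.erase i := Finset.mem_erase.2 ⟨hij.symm, hj⟩
    obtain ⟨C, hC⟩ : ∃ C : Finset Dg, C = (Net L I).filter
        (fun E => IsRet E w u i j ∧ ¬ HasPair E (U.erase u)) := ⟨_, rfl⟩
    have hmC : ∀ E, E ∈ C ↔ E ∈ Net L I ∧ IsRet E w u i j ∧ ¬ HasPair E (U.erase u) := by
      intro E
      rw [hC, Finset.mem_filter]
    -- the number of elements of `C`
    have hCc : C.card = Q2 := by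
      have h3 := hK2 L I (U.erase u) w u i j hw huL hwu hi hj hij
        (fun h => hwU (Finset.mem_of_mem_erase h)) (Finset.notMem_erase u U)
      rw [hqQ L (U.erase u) ((I.erase i).erase j) ((Finset.erase_subset u U).trans hU),
        Finset.card_erase_of_mem hu, Finset.card_erase_of_mem hji, Finset.card_erase_of_mem hi] at h3
      have h4 : I.card - 1 - 1 = I.card - 2 := by omega
      rw [h4] at h3
      rw [hQ2, ← h3, hC]
    -- the second part
    have hPc : (C.filter (fun E => ∃ z ∈ U.erase u, ∃ k ∈ I, IsRet E z u k j)).card =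
        (U.card - 1) * ((I.card - 2) * Q1) := by
      have h5 := tSumB_swap C ((U.erase u) ×ˢ I) (fun E t => IsRet E t.1 u t.2 j)
      have h6 : ∀ E ∈ C, (((U.erase u) ×ˢ I).filter (fun t => IsRet E t.1 u t.2 j)).card =
          if ∃ z ∈ U.erase u, ∃ k ∈ I, IsRet E z u k j then 1 else 0 := by
        intro E hE
        obtain ⟨hE1, hE2, hE3⟩ := (hmC E).1 hE
        by_cases hP : ∃ z ∈ U.erase u, ∃ k ∈ I, IsRet E z u k j
        · rw [if_pos hP]
          obtain ⟨z, hz, k, hk, hr⟩ := hP
          rw [Finset.card_eq_one]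
          refine ⟨(z, k), ?_⟩
          obtain ⟨-, -, -, -, s1, s2, s3, s4, -, ⟨q, -, hqi, -, hq⟩⟩ :=
            hShapeR L I E w u i j (hN E hE1) hw huL hE2
          have hkey : ∀ z' k', z' ∈ U.erase u → IsRet E z' u k' j → k' = q := by
            intro z' k' hz' hr'
            rcases (hq _).1 hr'.2.2.1 with h7 | h7
            · exfalso
              have h8 : k' = i := Sum.inr.inj h7
              rw [h8] at hr'
              rcases (s1 _).1 hr'.1 with h9 | h9
              · exact hwU (Sum.inl.inj h9 ▸ Finset.mem_of_mem_erase hz')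
              · exact absurd h9 (by simp)
            · exact Sum.inr.inj h7
          ext ⟨z', k'⟩
          rw [Finset.mem_filter, Finset.mem_product, Finset.mem_singleton, Prod.mk.injEq]
          constructor
          · rintro ⟨⟨hz', hk'⟩, hr'⟩
            have h7 : k' = k := (hkey z' k' hz' hr').trans (hkey z k hz hr).symm
            refine ⟨?_, h7⟩
            obtain ⟨-, -, -, -, t1, -⟩ :=
              hShapeR L I E z u k j (hN E hE1) (hU (Finset.mem_of_mem_erase hz)) huL hr
            simp only at hr'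
            rw [h7] at hr'
            rcases (t1 _).1 hr'.1 with h9 | h9
            · exact Sum.inl.inj h9
            · exact absurd h9 (by simp)
          · rintro ⟨rfl, rfl⟩
            exact ⟨⟨hz, hk⟩, hr⟩
        · rw [if_neg hP, Finset.card_eq_zero, Finset.filter_eq_empty_iff]
          rintro ⟨z, k⟩ ht hr
          exact hP ⟨z, (Finset.mem_product.1 ht).1, k, (Finset.mem_product.1 ht).2, hr⟩
      have h7 : (C.filter (fun E => ∃ z ∈ U.erase u, ∃ k ∈ I, IsRet E z u k j)).card =
          ∑ E ∈ C, (((U.erase u) ×ˢ I).filter (fun t => IsRet E t.1 u t.2 j)).card := by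
        rw [Finset.card_filter]
        exact Finset.sum_congr rfl (fun E hE => (h6 E hE).symm)
      rw [h7, h5, Finset.sum_product]
      have h8 : ∀ z ∈ U.erase u, ∑ k ∈ I, (C.filter (fun E => IsRet E z u k j)).card =
          (I.card - 2) * Q1 := by
        intro z hz
        have hzU : z ∈ U := Finset.mem_of_mem_erase hz
        have hzL : z ∈ L := hU hzU
        have hzu : z ≠ u := Finset.ne_of_mem_erase hz
        have hwz : w ≠ z := fun h => hwU (h ▸ hzU)
        have h9 : (C.filter (fun E => IsRet E z u i j)).card = 0 := by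
          rw [Finset.card_eq_zero, Finset.filter_eq_empty_iff]
          intro E hE hr
          obtain ⟨hE1, hE2, hE3⟩ := (hmC E).1 hE
          obtain ⟨-, -, -, -, s1, -⟩ := hShapeR L I E w u i j (hN E hE1) hw huL hE2
          rcases (s1 _).1 hr.1 with h9 | h9
          · exact hwz (Sum.inl.inj h9).symm
          · exact absurd h9 (by simp)
        have h10 : (C.filter (fun E => IsRet E z u j j)).card = 0 := by
          rw [Finset.card_eq_zero, Finset.filter_eq_empty_iff]
          intro E hE hr
          obtain ⟨hE1, hE2, hE3⟩ := (hmC E).1 hE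
          exact (hShapeR L I E z u j j (hN E hE1) hzL huL hr).2.2.1 rfl
        have h11 : ∀ k ∈ (I.erase i).erase j, (C.filter (fun E => IsRet E z u k j)).card = Q1 := by
          intro k hk
          have hkj : k ≠ j := Finset.ne_of_mem_erase hk
          have hki : k ≠ i := Finset.ne_of_mem_erase (Finset.mem_of_mem_erase hk)
          have hkI : k ∈ I := Finset.mem_of_mem_erase (Finset.mem_of_mem_erase hk)
          have h3 := hK3 L I ((U.erase u).erase z) w z u i k j hw hzL huL hwz hwu hzu hi hkI hj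
            hki.symm hij hkj
            (fun h => hwU (Finset.mem_of_mem_erase (Finset.mem_of_mem_erase h)))
            (Finset.notMem_erase z _)
            (fun h => Finset.notMem_erase u U (Finset.mem_of_mem_erase h))
          have hsub : (U.erase u).erase z ⊆ L.erase u := by
            intro v hv
            have hvU : v ∈ U.erase u := Finset.mem_of_mem_erase hv
            exact Finset.mem_erase.2 ⟨Finset.ne_of_mem_erase hvU, hU (Finset.mem_of_mem_erase hvU)⟩
          rw [hqQ (L.erase u) ((U.erase u).erase z) (((I.erase i).erase j).erase k) hsub,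
            Finset.card_erase_of_mem huL, Finset.card_erase_of_mem hz, Finset.card_erase_of_mem hu,
            Finset.card_erase_of_mem hk, Finset.card_erase_of_mem hji,
            Finset.card_erase_of_mem hi] at h3
          have h4 : I.card - 1 - 1 - 1 = I.card - 3 := by omega
          have h4' : U.card - 1 - 1 = U.card - 2 := by omega
          rw [h4, h4'] at h3
          rw [hQ1, ← h3]
          congr 1
          ext E
          rw [Finset.mem_filter, Finset.mem_filter, hmC]
          have hiff : E ∈ Net L I → IsRet E z u k j →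
              (HasPair E (U.erase u) ↔ HasPair E ((U.erase u).erase z)) := fun hE h5 =>
            hLocC L I E (hN E hE) (U.erase u) ((Finset.erase_subset u U).trans hU) u huL
              (Finset.notMem_erase u U) z hz k j h5
          constructor
          · rintro ⟨⟨hE, h5, h6⟩, h7⟩
            exact ⟨hE, ⟨h5, h7⟩, fun h8 => h6 ((hiff hE h7).2 h8)⟩
          · rintro ⟨hE, ⟨h5, h7⟩, h6⟩
            exact ⟨⟨hE, h5, fun h8 => h6 ((hiff hE h7).1 h8)⟩, h7⟩
        rw [← Finset.sum_erase_add I _ hi, h9, add_zero, ← Finset.sum_erase_add (I.erase i) _ hji,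
          h10, add_zero, Finset.sum_congr rfl h11, Finset.sum_const, smul_eq_mul,
          Finset.card_erase_of_mem hji, Finset.card_erase_of_mem hi]
        have h4 : I.card - 1 - 1 = I.card - 2 := by omega
        rw [h4]
      rw [Finset.sum_congr rfl h8, Finset.sum_const, smul_eq_mul, Finset.card_erase_of_mem hu]
    -- the first part
    have hA : f u i j = (C.filter (fun E => ¬ ∃ z ∈ U.erase u, ∃ k ∈ I, IsRet E z u k j)).card := by
      rw [hf, Finset.filter_filter]
      congr 1
      ext E
      rw [Finset.mem_filter, Finset.mem_filter, hmC]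
      constructor
      · rintro ⟨hE, h5, h6⟩
        have h7 := hLocB L I E (hN E hE) U hU w hw hwU u hu i j h6
        exact ⟨⟨hE, h6, fun h8 => h5 (h7.2 (Or.inl h8))⟩, fun h8 => h5 (h7.2 (Or.inr h8))⟩
      · rintro ⟨⟨hE, h6, h8⟩, h9⟩
        have h7 := hLocB L I E (hN E hE) U hU w hw hwU u hu i j h6
        exact ⟨hE, fun h5 => (h7.1 h5).elim h8 h9, h6⟩
    rw [hA, ← hPc, ← hCc, add_comm]
    exact Finset.card_filter_add_card_filter_not _
  -- summation
  have h1 := tSumB_swap ((Net L I).filter (fun E => ¬ HasPair E U)) (U ×ˢ I ×ˢ I)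
    (fun E t => IsRet E w t.1 t.2.1 t.2.2)
  have h2 : ∑ E ∈ (Net L I).filter (fun E => ¬ HasPair E U),
      ((U ×ˢ I ×ˢ I).filter (fun t => IsRet E w t.1 t.2.1 t.2.2)).card =
      ∑ u ∈ U, ∑ i ∈ I, ∑ j ∈ I, f u i j := by
    refine Eq.trans ?_ (h1.trans ?_)
    · exact Finset.sum_congr rfl (fun E _ => by congr)
    · simp only [Finset.sum_product, hf]
  have h3 : ∑ u ∈ U, ∑ i ∈ I, ∑ j ∈ I, f u i j +
      U.card * (I.card * (I.card - 1) * ((U.card - 1) * ((I.card - 2) * Q1))) =
      U.card * (I.card * (I.card - 1) * Q2) := by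
    have h4 : ∀ u ∈ U, ∑ i ∈ I, ∑ j ∈ I, f u i j +
        I.card * (I.card - 1) * ((U.card - 1) * ((I.card - 2) * Q1)) =
        I.card * (I.card - 1) * Q2 := fun u hu =>
      tSumB_pairAdd I Q2 _ (f u) (hmain u hu) (h0 u hu)
    have h5 := Finset.sum_congr (rfl : U = U) h4
    rw [Finset.sum_add_distrib, Finset.sum_const, Finset.sum_const, smul_eq_mul, smul_eq_mul] at h5
    exact h5
  have h6 : ∑ E ∈ (Net L I).filter (fun E => ¬ HasPair E U),
      ((U ×ˢ I ×ˢ I).filter (fun t => IsRet E w t.1 t.2.1 t.2.2)).card +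
      U.card * (U.card - 1) * (I.card * (I.card - 1) * (I.card - 2)) * Q1 =
      U.card * (I.card * (I.card - 1)) * Q2 := by
    rw [h2]
    have e1 : U.card * (U.card - 1) * (I.card * (I.card - 1) * (I.card - 2)) * Q1 =
        U.card * (I.card * (I.card - 1) * ((U.card - 1) * ((I.card - 2) * Q1))) := by ring
    have e2 : U.card * (I.card * (I.card - 1)) * Q2 = U.card * (I.card * (I.card - 1) * Q2) := by
      ring
    rw [e1, e2]
    exact h3
  exact h6

end Orch
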