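import Pool.Agent.Lib.Orch.Spec

/-!
Sums of the counts of double reticulated cherries at `w`.
-/

namespace Orch

open Finset

open Classical in
private theorem tSumD_swap {α β : Type} (s : Finset α) (t : Finset β) (r : α → β → Prop) :
    ∑ a ∈ s, (t.filter (fun b => r a b)).card = ∑ b ∈ t, (s.filter (fun a => r a b)).card :=
  sum_card_bipartiteAbove_eq_sum_card_bipartiteBelow r

private theorem tSumD_pair (I : Finset ℕ) (c : ℕ) (f : ℕ → ℕ → ℕ)
    (h : ∀ i ∈ I, ∀ j ∈ I, i ≠ j → f i j = c) (h0 : ∀ i ∈ I, f i i = 0) :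
    ∑ i ∈ I, ∑ j ∈ I, f i j = I.card * (I.card - 1) * c := by
  have h1 : ∀ i ∈ I, ∑ j ∈ I, f i j = (I.card - 1) * c := by
    intro i hi
    rw [← Finset.sum_erase_add I (f i) hi, h0 i hi, add_zero]
    rw [Finset.sum_congr rfl (fun j hj => h i hi j (Finset.mem_of_mem_erase hj)
      (Finset.ne_of_mem_erase hj).symm), Finset.sum_const, smul_eq_mul, Finset.card_erase_of_mem hi]
  rw [Finset.sum_congr rfl h1, Finset.sum_const, smul_eq_mul, mul_assoc]

private theorem tSumD_triple (I : Finset ℕ) (c : ℕ) (f : ℕ → ℕ → ℕ → ℕ)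
    (h : ∀ i ∈ I, ∀ i' ∈ I, ∀ j ∈ I, i ≠ i' → i ≠ j → i' ≠ j → f i i' j = c)
    (h0 : ∀ i ∈ I, ∀ i' ∈ I, ∀ j ∈ I, i = i' ∨ i = j ∨ i' = j → f i i' j = 0) :
    ∑ i ∈ I, ∑ i' ∈ I, ∑ j ∈ I, f i i' j = I.card * (I.card - 1) * (I.card - 2) * c := by
  rw [tSumD_pair I ((I.card - 2) * c) (fun i i' => ∑ j ∈ I, f i i' j) ?_ ?_]
  · ring
  · intro i hi i' hi' hii
    have hi'e : i' ∈ I.erase i := Finset.mem_erase.2 ⟨hii.symm, hi'⟩
    rw [← Finset.sum_erase_add I (f i i') hi, h0 i hi i' hi' i hi (Or.inr (Or.inl rfl)), add_zero,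
      ← Finset.sum_erase_add (I.erase i) (f i i') hi'e, h0 i hi i' hi' i' hi' (Or.inr (Or.inr rfl)),
      add_zero]
    rw [Finset.sum_congr rfl (fun j hj => h i hi i' hi' j
      (Finset.mem_of_mem_erase (Finset.mem_of_mem_erase hj)) hii
      (Finset.ne_of_mem_erase (Finset.mem_of_mem_erase hj)).symm
      (Finset.ne_of_mem_erase hj).symm), Finset.sum_const, smul_eq_mul,
      Finset.card_erase_of_mem hi'e, Finset.card_erase_of_mem hi]
    have h4 : I.card - 1 - 1 = I.card - 2 := by omega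
    rw [h4]
  · intro i hi
    exact Finset.sum_eq_zero (fun j hj => h0 i hi i hi j hj (Or.inl rfl))

theorem c_SumD (hK3 : S_K3) (hLocC : S_LocC) (hM : S_MemNet) (hON : S_OrchNet) (hqQ : S_qQ)
    (hShapeR : S_ShapeR) (hExclRR : S_ExclRR) : S_SumD := by
  classical
  intro L I U w hU hw hwU
  have h1 := tSumD_swap ((Net L I).filter (fun E => ¬ HasPair E U)) (U ×ˢ U ×ˢ I ×ˢ I ×ˢ I)
    (fun E t => t.1 ≠ t.2.1 ∧
      IsRet E t.1 w t.2.2.1 t.2.2.2.2 ∧ IsRet E t.2.1 w t.2.2.2.1 t.2.2.2.2)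
  refine Eq.trans ?_ (h1.trans ?_)
  · exact Finset.sum_congr rfl (fun E _ => by congr)
  · obtain ⟨f, hf⟩ : ∃ f : ℕ → ℕ → ℕ → ℕ → ℕ → ℕ, ∀ u u' i i' j, f u u' i i' j =
        (((Net L I).filter (fun E => ¬ HasPair E U)).filter
          (fun E => u ≠ u' ∧ IsRet E u w i j ∧ IsRet E u' w i' j)).card := ⟨_, fun _ _ _ _ _ => rfl⟩
    have hN : ∀ E, E ∈ Net L I → IsNet L I E := fun E hE => hON L I E ((hM L I E).1 hE)
    have h2 : ∀ u ∈ U, ∀ u' ∈ U, u ≠ u' → ∀ i ∈ I, ∀ i' ∈ I, ∀ j ∈ I, i ≠ i' → i ≠ j → i' ≠ j →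
        f u u' i i' j = Q (L.card - 1) (U.card - 2) (I.card - 3) := by
      intro u hu u' hu' huu i hi i' hi' j hj hii hij hij'
      have huL : u ∈ L := hU hu
      have hu'L : u' ∈ L := hU hu'
      have hu'e : u' ∈ U.erase u := Finset.mem_erase.2 ⟨huu.symm, hu'⟩
      have hwu : u ≠ w := fun h => hwU (h ▸ hu)
      have hwu' : u' ≠ w := fun h => hwU (h ▸ hu')
      have hje : j ∈ I.erase i := Finset.mem_erase.2 ⟨hij.symm, hj⟩
      have hi'e : i' ∈ (I.erase i).erase j :=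
        Finset.mem_erase.2 ⟨hij', Finset.mem_erase.2 ⟨hii.symm, hi'⟩⟩
      have h3 := hK3 L I ((U.erase u).erase u') u u' w i i' j huL hu'L hw huu hwu hwu' hi hi' hj
        hii hij hij'
        (fun h => Finset.notMem_erase u U (Finset.mem_of_mem_erase h))
        (Finset.notMem_erase u' _)
        (fun h => hwU (Finset.mem_of_mem_erase (Finset.mem_of_mem_erase h)))
      have hsub : (U.erase u).erase u' ⊆ L.erase w := by
        intro v hv
        have hvU : v ∈ U := Finset.mem_of_mem_erase (Finset.mem_of_mem_erase hv)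
        exact Finset.mem_erase.2 ⟨fun h => hwU (h ▸ hvU), hU hvU⟩
      rw [hqQ (L.erase w) ((U.erase u).erase u') (((I.erase i).erase j).erase i') hsub,
        Finset.card_erase_of_mem hw, Finset.card_erase_of_mem hu'e, Finset.card_erase_of_mem hu,
        Finset.card_erase_of_mem hi'e, Finset.card_erase_of_mem hje,
        Finset.card_erase_of_mem hi] at h3
      have h4 : I.card - 1 - 1 - 1 = I.card - 3 := by omega
      have h4' : U.card - 1 - 1 = U.card - 2 := by omega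
      rw [h4, h4'] at h3
      rw [hf, ← h3, Finset.filter_filter]
      congr 1
      ext E
      simp only [Finset.mem_filter]
      have hiff : E ∈ Net L I → IsRet E u w i j → IsRet E u' w i' j →
          (HasPair E U ↔ HasPair E ((U.erase u).erase u')) := by
        intro hE h5 h6
        rw [hLocC L I E (hN E hE) U hU w hw hwU u hu i j h5]
        exact hLocC L I E (hN E hE) (U.erase u) ((Finset.erase_subset u U).trans hU) w hw
          (fun h => hwU (Finset.mem_of_mem_erase h)) u' hu'e i' j h6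
      constructor
      · rintro ⟨hE, h7, -, h5, h6⟩
        exact ⟨hE, ⟨h5, h6⟩, fun h8 => h7 ((hiff hE h5 h6).2 h8)⟩
      · rintro ⟨hE, ⟨h5, h6⟩, h7⟩
        exact ⟨hE, fun h8 => h7 ((hiff hE h5 h6).1 h8), huu, h5, h6⟩
    have h3 : ∀ u ∈ U, ∀ u' ∈ U, ∀ i ∈ I, ∀ i' ∈ I, ∀ j ∈ I, i = i' ∨ i = j ∨ i' = j →
        f u u' i i' j = 0 := by
      intro u hu u' hu' i hi i' hi' j hj hor
      rw [hf, Finset.card_eq_zero, Finset.filter_eq_empty_iff]
      rintro E hE ⟨h4, h5, h6⟩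
      have hE' := hN E (Finset.mem_filter.1 hE).1
      rcases hor with h | h | h
      · rcases hExclRR L I E u w i j u' w i' j hE' (hU hu) hw (hU hu') hw h5 h6 with h7 | h7 | h7
        · exact h4 h7.1
        · exact h7.1 h
        · exact h7.2.2.1 h
      · exact (hShapeR L I E u w i j hE' (hU hu) hw h5).2.2.1 h
      · exact (hShapeR L I E u' w i' j hE' (hU hu') hw h6).2.2.1 h
    have h4 : ∀ u ∈ U, ∀ i ∈ I, ∀ i' ∈ I, ∀ j ∈ I, f u u i i' j = 0 := by
      intro u hu i hi i' hi' j hj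
      rw [hf, Finset.card_eq_zero, Finset.filter_eq_empty_iff]
      rintro E hE ⟨h4, h5, h6⟩
      exact h4 rfl
    have h5 : ∑ t ∈ U ×ˢ U ×ˢ I ×ˢ I ×ˢ I, (((Net L I).filter (fun E => ¬ HasPair E U)).filter
          (fun E => t.1 ≠ t.2.1 ∧ IsRet E t.1 w t.2.2.1 t.2.2.2.2 ∧
            IsRet E t.2.1 w t.2.2.2.1 t.2.2.2.2)).card =
        ∑ u ∈ U, ∑ u' ∈ U, ∑ i ∈ I, ∑ i' ∈ I, ∑ j ∈ I, f u u' i i' j := by
      simp only [Finset.sum_product, hf]
    refine Eq.trans ?_ (h5.trans ?_)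
    · exact Finset.sum_congr rfl (fun t _ => by congr)
    rw [tSumD_pair U (I.card * (I.card - 1) * (I.card - 2) *
      Q (L.card - 1) (U.card - 2) (I.card - 3)) _ ?_ ?_]
    · ring
    · intro u hu u' hu' huu
      exact tSumD_triple I _ (f u u') (h2 u hu u' hu' huu) (h3 u hu u' hu')
    · intro u hu
      exact Finset.sum_eq_zero (fun i hi => Finset.sum_eq_zero (fun i' hi' =>
        Finset.sum_eq_zero (fun j hj => h4 u hu i hi i' hi' j hj)))

end Orch
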