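import Pool.Agent.Lib.Orch.Spec

/-!
Pairs away from a reduced cherry survive.
-/

namespace Orch

open Finset

theorem c_SurvC (hShape : S_ShapeC) (hMem : S_MemRedC) (hDeg : S_DegC) : S_SurvC := by
  intro L I E x y i hN hx hy hc x' y' hx'x hx'y hy'x hy'y
  obtain ⟨hiI, hT, hoi, hix, hiy, ⟨g, hgI, hgi, hing⟩⟩ := hShape L I E x y i hN hx hy hc
  have hgE : ((Sum.inr g : V), (Sum.inr i : V)) ∈ E := (hing _).2 rfl
  have hM := hMem L I E x y i g hN hx hy hc hgE
  have hD := hDeg L I E x y i hN hx hy hc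
  -- the parent of another leaf
  have hpar : ∀ z k : ℕ, z ≠ x → z ≠ y → ((Sum.inr k : V), (Sum.inl z : V)) ∈ E → k ≠ i := by
    intro z k hzx hzy h
    rintro rfl
    rcases (hoi _).1 h with h3 | h3
    · exact hzx (Sum.inl.inj h3)
    · exact hzy (Sum.inl.inj h3)
  have hleaf : ∀ z k : ℕ, z ≠ x → z ≠ y → (((Sum.inr k : V), (Sum.inl z : V)) ∈ redC E x y i ↔
      ((Sum.inr k : V), (Sum.inl z : V)) ∈ E) := by
    intro z k hzx hzy
    rw [hM]
    constructor
    · rintro (h | h)
      · exact h.1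
      · exact absurd (Sum.inl.inj h.2) hzx
    · intro h
      have h1 := hpar z k hzx hzy h
      refine Or.inl ⟨h, ?_, ?_, ?_, ?_⟩
      · simpa using h1
      · simp
      · simpa using hzx
      · simpa using hzy
  refine ⟨fun i' => ?_, fun i' j' => ?_⟩
  · unfold IsCherry
    rw [hleaf x' i' hx'x hx'y, hleaf y' i' hy'x hy'y]
  · unfold IsRet
    rw [hleaf x' i' hx'x hx'y, hleaf y' j' hy'x hy'y]
    constructor
    · rintro ⟨h1, h2, h3, h4, h5⟩
      have a1 := hpar x' i' hx'x hx'y h1
      have b1 := hpar y' j' hy'x hy'y h2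
      unfold TreeNode at h4
      unfold Retic at h5
      rw [(hD i' a1).1, (hD i' a1).2] at h4
      rw [(hD j' b1).1, (hD j' b1).2] at h5
      refine ⟨h1, h2, ?_, h4, h5⟩
      rw [hM] at h3
      rcases h3 with h3 | h3
      · exact h3.1
      · exact absurd h3.2 (by simp)
    · rintro ⟨h1, h2, h3, h4, h5⟩
      have a1 := hpar x' i' hx'x hx'y h1
      have b1 := hpar y' j' hy'x hy'y h2
      refine ⟨h1, h2, ?_, ?_, ?_⟩
      · rw [hM]
        refine Or.inl ⟨h3, ?_, ?_, ?_, ?_⟩
        · simpa using a1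
        · simpa using b1
        · simp
        · simp
      · unfold TreeNode
        rw [(hD i' a1).1, (hD i' a1).2]
        exact h4
      · unfold Retic
        rw [(hD j' b1).1, (hD j' b1).2]
        exact h5

end Orch
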