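import Pool.Agent.Lib.Orch.Spec

/-!
Pairs away from a reduced reticulated cherry survive.
-/

namespace Orch

open Finset

theorem c_SurvR (hShape : S_ShapeR) (hMem : S_MemRedR) (hDeg : S_DegR) : S_SurvR := by
  intro L I E x y i j hN hx hy hr x' y' hx'x hx'y hy'x hy'y
  obtain ⟨hiI, hjI, hij, hxy, hoi, hoj, hix, hjy, ⟨g, hgI, hgi, hgj, hing⟩,
    ⟨q, hqI, hqi, hqj, hinq⟩⟩ := hShape L I E x y i j hN hx hy hr
  have hgE : ((Sum.inr g : V), (Sum.inr i : V)) ∈ E := (hing _).2 rfl
  have hqE : ((Sum.inr q : V), (Sum.inr j : V)) ∈ E := (hinq _).2 (Or.inr rfl)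
  have hM := hMem L I E x y i j g q hN hx hy hr hgE hqE hqi
  have hD := hDeg L I E x y i j hN hx hy hr
  -- the parent of another leaf
  have hpar : ∀ z k : ℕ, z ≠ x → z ≠ y → ((Sum.inr k : V), (Sum.inl z : V)) ∈ E →
      k ≠ i ∧ k ≠ j := by
    intro z k hzx hzy h
    refine ⟨?_, ?_⟩
    · rintro rfl
      rcases (hoi _).1 h with h3 | h3
      · exact hzx (Sum.inl.inj h3)
      · exact absurd h3 (by simp)
    · rintro rfl
      exact hzy (Sum.inl.inj ((hoj _).1 h))
  have hleaf : ∀ z k : ℕ, z ≠ x → z ≠ y → (((Sum.inr k : V), (Sum.inl z : V)) ∈ redR E x y i j ↔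
      ((Sum.inr k : V), (Sum.inl z : V)) ∈ E) := by
    intro z k hzx hzy
    rw [hM]
    constructor
    · rintro (h | h | h)
      · exact h.1
      · exact absurd (Sum.inl.inj h.2) hzx
      · exact absurd (Sum.inl.inj h.2) hzy
    · intro h
      obtain ⟨h1, h2⟩ := hpar z k hzx hzy h
      refine Or.inl ⟨h, ?_, ?_, ?_, ?_, ?_, ?_⟩
      · simpa using h1
      · simpa using h2
      · simp
      · simp
      · simpa using hzx
      · simpa using hzy
  refine ⟨fun i' => ?_, fun i' j' => ?_⟩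
  · unfold IsCherry
    rw [hleaf x' i' hx'x hx'y, hleaf y' i' hy'x hy'y]
  · unfold IsRet
    rw [hleaf x' i' hx'x hx'y, hleaf y' j' hy'x hy'y]
    constructor
    · rintro ⟨h1, h2, h3, h4, h5⟩
      obtain ⟨a1, a2⟩ := hpar x' i' hx'x hx'y h1
      obtain ⟨b1, b2⟩ := hpar y' j' hy'x hy'y h2
      unfold TreeNode at h4
      unfold Retic at h5
      rw [(hD i' a1 a2).1, (hD i' a1 a2).2] at h4
      rw [(hD j' b1 b2).1, (hD j' b1 b2).2] at h5
      refine ⟨h1, h2, ?_, h4, h5⟩
      rw [hM] at h3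
      rcases h3 with h3 | h3 | h3
      · exact h3.1
      · exact absurd h3.2 (by simp)
      · exact absurd h3.2 (by simp)
    · rintro ⟨h1, h2, h3, h4, h5⟩
      obtain ⟨a1, a2⟩ := hpar x' i' hx'x hx'y h1
      obtain ⟨b1, b2⟩ := hpar y' j' hy'x hy'y h2
      refine ⟨h1, h2, ?_, ?_, ?_⟩
      · rw [hM]
        refine Or.inl ⟨h3, ?_, ?_, ?_, ?_, ?_, ?_⟩
        · simpa using a1
        · simpa using a2
        · simpa using b1
        · simpa using b2
        · simp
        · simp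
      · unfold TreeNode
        rw [(hD i' a1 a2).1, (hD i' a1 a2).2]
        exact h4
      · unfold Retic
        rw [(hD j' b1 b2).1, (hD j' b1 b2).2]
        exact h5

end Orch
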