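import Pool.Agent.Lib.Orch.Spec

/-!
The set of orchard networks; the number of networks without a pair inside `U` depends on the
cardinalities only.
-/

namespace Orch

open Finset

open Classical in
theorem c_MemNet (hON : S_OrchNet) : S_MemNet := by
  intro L I E
  unfold Net
  rw [mem_filter, mem_powerset]
  constructor
  · exact fun h => h.2
  · intro h
    refine ⟨fun e he => ?_, h⟩
    obtain ⟨h1, h2⟩ := (hON L I E h).sub e he
    exact mem_product.2 ⟨h1, h2⟩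

/-- gluing three bijections -/
private def TqQ_mk (U L U' L' : Finset ℕ) (e1 : U ≃ U') (e2 : ↥(L \ U) ≃ ↥(L' \ U'))
    (e3 : {x // x ∉ L} ≃ {x // x ∉ L'}) (x : ℕ) : ℕ :=
  if h3 : x ∈ L then (if h : x ∈ U then (e1 ⟨x, h⟩ : ℕ) else (e2 ⟨x, mem_sdiff.2 ⟨h3, h⟩⟩ : ℕ))
  else (e3 ⟨x, h3⟩ : ℕ)

private theorem TqQ_inv (U L U' L' : Finset ℕ) (hUL : U ⊆ L) (hUL' : U' ⊆ L') (e1 : U ≃ U')
    (e2 : ↥(L \ U) ≃ ↥(L' \ U')) (e3 : {x // x ∉ L} ≃ {x // x ∉ L'}) (x : ℕ) :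
    TqQ_mk U' L' U L e1.symm e2.symm e3.symm (TqQ_mk U L U' L' e1 e2 e3 x) = x := by
  by_cases h3 : x ∈ L
  · by_cases h : x ∈ U
    · have h1 : TqQ_mk U L U' L' e1 e2 e3 x = (e1 ⟨x, h⟩ : ℕ) := by
        unfold TqQ_mk
        rw [dif_pos h3, dif_pos h]
      rw [h1]
      unfold TqQ_mk
      rw [dif_pos (hUL' (e1 ⟨x, h⟩).2), dif_pos (e1 ⟨x, h⟩).2]
      simp
    · have h1 : TqQ_mk U L U' L' e1 e2 e3 x = (e2 ⟨x, mem_sdiff.2 ⟨h3, h⟩⟩ : ℕ) := by
        unfold TqQ_mk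
        rw [dif_pos h3, dif_neg h]
      rw [h1]
      have h2 := mem_sdiff.1 (e2 ⟨x, mem_sdiff.2 ⟨h3, h⟩⟩).2
      unfold TqQ_mk
      rw [dif_pos h2.1, dif_neg h2.2]
      simp
  · have h1 : TqQ_mk U L U' L' e1 e2 e3 x = (e3 ⟨x, h3⟩ : ℕ) := by
      unfold TqQ_mk
      rw [dif_neg h3]
    rw [h1]
    unfold TqQ_mk
    rw [dif_neg (e3 ⟨x, h3⟩).2]
    simp

private theorem TqQ_infinite (L : Finset ℕ) : Infinite {x // x ∉ L} :=
  (L.finite_toSet.infinite_compl).to_subtype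

private theorem TqQ_perm (U L U' L' : Finset ℕ) (hUL : U ⊆ L) (hUL' : U' ⊆ L')
    (hU : U.card = U'.card) (hL : L.card = L'.card) :
    ∃ σ : Equiv.Perm ℕ, U.image σ = U' ∧ L.image σ = L' := by
  have e1 : U ≃ U' := Finset.equivOfCardEq hU
  have e2 : ↥(L \ U) ≃ ↥(L' \ U') := Finset.equivOfCardEq (by
    rw [card_sdiff_of_subset hUL, card_sdiff_of_subset hUL', hU, hL])
  have := TqQ_infinite L
  have := TqQ_infinite L'
  obtain ⟨e3⟩ := nonempty_equiv_of_countable (α := {x // x ∉ L}) (β := {x // x ∉ L'})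
  let σ : Equiv.Perm ℕ :=
    { toFun := TqQ_mk U L U' L' e1 e2 e3
      invFun := TqQ_mk U' L' U L e1.symm e2.symm e3.symm
      left_inv := TqQ_inv U L U' L' hUL hUL' e1 e2 e3
      right_inv := fun x => by
        have h := TqQ_inv U' L' U L hUL' hUL e1.symm e2.symm e3.symm x
        simpa only [Equiv.symm_symm] using h }
  have hσ : ∀ x, σ x = TqQ_mk U L U' L' e1 e2 e3 x := fun _ => rfl
  refine ⟨σ, eq_of_subset_of_card_le ?_ ?_, eq_of_subset_of_card_le ?_ ?_⟩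
  · intro y hy
    obtain ⟨x, hx, rfl⟩ := mem_image.1 hy
    rw [hσ]
    unfold TqQ_mk
    rw [dif_pos (hUL hx), dif_pos hx]
    exact (e1 ⟨x, hx⟩).2
  · rw [card_image_of_injective _ σ.injective, hU]
  · intro y hy
    obtain ⟨x, hx, rfl⟩ := mem_image.1 hy
    rw [hσ]
    unfold TqQ_mk
    rw [dif_pos hx]
    by_cases h : x ∈ U
    · rw [dif_pos h]
      exact hUL' (e1 ⟨x, h⟩).2
    · rw [dif_neg h]
      exact (mem_sdiff.1 (e2 ⟨x, mem_sdiff.2 ⟨hx, h⟩⟩).2).1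
  · rw [card_image_of_injective _ σ.injective, hL]

private theorem TqQ_renren (σ τ : Equiv.Perm ℕ) (E : Dg) :
    ren σ.symm τ.symm (ren σ τ E) = E := by
  unfold ren
  rw [image_image]
  have h : ((fun e : V × V => (Sum.map σ.symm τ.symm e.1, Sum.map σ.symm τ.symm e.2)) ∘
      fun e : V × V => (Sum.map σ τ e.1, Sum.map σ τ e.2)) = id := by
    funext ⟨a, b⟩
    rcases a with a | a <;> rcases b with b | b <;> simp
  rw [h, image_id]

private theorem TqQ_imim (σ : Equiv.Perm ℕ) (L : Finset ℕ) : (L.image σ).image σ.symm = L := by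
  rw [image_image]
  have h : (σ.symm ∘ σ : ℕ → ℕ) = id := by
    funext x
    simp
  rw [h, image_id]

private theorem TqQ_hp (hRP : S_RenPair) (σ τ : Equiv.Perm ℕ) (E : Dg) (U : Finset ℕ) :
    HasPair E U → HasPair (ren σ τ E) (U.image σ) := by
  rintro ⟨x, hx, y, hy, h⟩
  refine ⟨σ x, mem_image_of_mem _ hx, σ y, mem_image_of_mem _ hy, ?_⟩
  rcases h with ⟨i, hi⟩ | ⟨i, j, hij⟩
  · exact Or.inl ⟨τ i, ((hRP E σ τ x y i i).1).2 hi⟩
  · exact Or.inr ⟨τ i, τ j, ((hRP E σ τ x y i j).2).2 hij⟩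

private theorem TqQ_hp' (hRP : S_RenPair) (σ τ : Equiv.Perm ℕ) (E : Dg) (U : Finset ℕ) :
    HasPair (ren σ τ E) (U.image σ) → HasPair E U := by
  intro h
  have h1 := TqQ_hp hRP σ.symm τ.symm _ _ h
  rwa [TqQ_renren, TqQ_imim] at h1

open Classical in
private theorem TqQ_ren (hON : S_OrchNet) (hRO : S_RenOrch) (hRP : S_RenPair)
    (σ τ : Equiv.Perm ℕ) (L U I : Finset ℕ) :
    q L U I = q (L.image σ) (U.image σ) (I.image τ) := by
  have hMN := c_MemNet hON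
  unfold q
  refine card_nbij' (ren σ τ) (ren σ.symm τ.symm) ?_ ?_ ?_ ?_
  · intro E hE
    rw [mem_coe, mem_filter, hMN] at hE ⊢
    exact ⟨hRO L I E σ τ hE.1, fun h => hE.2 (TqQ_hp' hRP σ τ E U h)⟩
  · intro E hE
    rw [mem_coe, mem_filter, hMN] at hE ⊢
    have h1 := hRO _ _ E σ.symm τ.symm hE.1
    rw [TqQ_imim, TqQ_imim] at h1
    refine ⟨h1, fun h => hE.2 ?_⟩
    have h2 := TqQ_hp hRP σ τ _ U h
    have h3 := TqQ_renren σ.symm τ.symm E
    rw [Equiv.symm_symm, Equiv.symm_symm] at h3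
    rwa [h3] at h2
  · intro E _
    exact TqQ_renren σ τ E
  · intro E _
    have h3 := TqQ_renren σ.symm τ.symm E
    rwa [Equiv.symm_symm, Equiv.symm_symm] at h3

theorem c_qQ (hON : S_OrchNet) (hRO : S_RenOrch) (hRP : S_RenPair) : S_qQ := by
  intro L U I hUL
  obtain ⟨σ, hσU, hσL⟩ := TqQ_perm U L (range U.card) (range L.card) hUL
    (range_subset_range.2 (card_le_card hUL)) (by rw [card_range]) (by rw [card_range])
  obtain ⟨τ, -, hτ⟩ := TqQ_perm ∅ I ∅ (range I.card) (empty_subset _) (empty_subset _) rfl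
    (by rw [card_range])
  rw [TqQ_ren hON hRO hRP σ τ L U I, hσU, hσL, hτ]
  rfl

end Orch
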