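import Pool.Agent.Lib.Orch.ADen
import Pool.Agent.Lib.Orch.ADesc
import Pool.Agent.Lib.Orch.AExp
import Pool.Agent.Lib.Orch.AExpRev
import Pool.Agent.Lib.Orch.AHPc
import Pool.Agent.Lib.Orch.AHom
import Pool.Agent.Lib.Orch.AKey
import Pool.Agent.Lib.Orch.APer1
import Pool.Agent.Lib.Orch.APer2
import Pool.Agent.Lib.Orch.APosAbs
import Pool.Agent.Lib.Orch.AQS
import Pool.Agent.Lib.Orch.AQSRec
import Pool.Agent.Lib.Orch.ARed
import Pool.Agent.Lib.Orch.ARoot
import Pool.Agent.Lib.Orch.ATop2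
import Pool.Agent.Lib.Orch.ATopPos
import Pool.Agent.Lib.Orch.AUnit
import Pool.Agent.Lib.Orch.Acc
import Pool.Agent.Lib.Orch.AheSub
import Pool.Agent.Lib.Orch.Ahhcc
import Pool.Agent.Lib.Orch.AxeRec
import Pool.Agent.Lib.Orch.KChk
import Pool.Agent.Lib.Orch.KOut
import Pool.Agent.Lib.Orch.KRed
import Pool.Agent.Lib.Orch.KRep
import Pool.Agent.Lib.Orch.KRow
import Pool.Agent.Lib.Orch.KSplit
import Pool.Agent.Lib.Orch.TBasic
import Pool.Agent.Lib.Orch.TCard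
import Pool.Agent.Lib.Orch.TComm1
import Pool.Agent.Lib.Orch.TComm2
import Pool.Agent.Lib.Orch.TComm3
import Pool.Agent.Lib.Orch.TExclC
import Pool.Agent.Lib.Orch.TExclR
import Pool.Agent.Lib.Orch.TFib
import Pool.Agent.Lib.Orch.TFree
import Pool.Agent.Lib.Orch.TInv
import Pool.Agent.Lib.Orch.TInvC
import Pool.Agent.Lib.Orch.TInvR
import Pool.Agent.Lib.Orch.TIso
import Pool.Agent.Lib.Orch.TK1
import Pool.Agent.Lib.Orch.TK2
import Pool.Agent.Lib.Orch.TK3
import Pool.Agent.Lib.Orch.TKCount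
import Pool.Agent.Lib.Orch.TLoc
import Pool.Agent.Lib.Orch.TMemC
import Pool.Agent.Lib.Orch.TMemR
import Pool.Agent.Lib.Orch.TNetExtC
import Pool.Agent.Lib.Orch.TNetExtR
import Pool.Agent.Lib.Orch.TNetRedC
import Pool.Agent.Lib.Orch.TNetRedR
import Pool.Agent.Lib.Orch.TOrch
import Pool.Agent.Lib.Orch.TOver
import Pool.Agent.Lib.Orch.TPW
import Pool.Agent.Lib.Orch.TQb
import Pool.Agent.Lib.Orch.TRec
import Pool.Agent.Lib.Orch.TRen1
import Pool.Agent.Lib.Orch.TRen2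
import Pool.Agent.Lib.Orch.TShapeC
import Pool.Agent.Lib.Orch.TShapeR
import Pool.Agent.Lib.Orch.TSum1
import Pool.Agent.Lib.Orch.TSumB
import Pool.Agent.Lib.Orch.TSumD
import Pool.Agent.Lib.Orch.TSurvC
import Pool.Agent.Lib.Orch.TSurvR
import Pool.Agent.Lib.Orch.TqQ

/-!
All statements of the specification files, with their hypotheses discharged.
-/

namespace Orch

theorem p_Acyc : S_Acyc := c_Acyc

theorem p_Edge : S_Edge := c_Edge

theorem p_ShapeC : S_ShapeC := c_ShapeC p_Edge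

theorem p_ShapeR : S_ShapeR := c_ShapeR p_Edge

theorem p_RenRed : S_RenRed := c_RenRed

theorem p_Free : S_Free := c_Free p_ShapeC p_ShapeR p_RenRed

theorem p_RenNet : S_RenNet := c_RenNet

theorem p_RenPair : S_RenPair := c_RenPair

theorem p_RenOrch : S_RenOrch := c_RenOrch p_RenNet p_RenPair p_RenRed

theorem p_OrchNet : S_OrchNet := c_OrchNet

theorem p_MemNet : S_MemNet := c_MemNet p_OrchNet

theorem p_Fib : S_Fib := c_Fib p_Free p_RenOrch p_MemNet p_OrchNet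

theorem p_IsoEq : S_IsoEq := c_IsoEq

theorem p_DegC : S_DegC := c_DegC p_ShapeC

theorem p_DegR : S_DegR := c_DegR p_ShapeR

theorem p_KCount : S_KCount := c_KCount p_ShapeC p_ShapeR p_DegC p_DegR

theorem p_Rep : S_Rep := c_Rep p_KCount p_RenOrch

theorem p_Card : S_Card := c_Card p_Fib p_IsoEq p_Rep p_MemNet p_KCount

theorem p_HPc : S_HPc := c_HPc

theorem p_hxRec : S_hxRec := c_hxRec p_HPc

theorem p_RepBasic : S_RepBasic := c_RepBasic

theorem p_RepNorm : S_RepNorm := c_RepNorm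

theorem p_RepSplit : S_RepSplit := c_RepSplit

theorem p_RepRed : S_RepRed := c_RepRed p_RepSplit p_RepBasic

theorem p_Rd : S_Rd := c_Rd p_RepBasic p_RepSplit p_RepNorm p_RepRed

theorem p_Row : S_Row := c_Row p_hxRec p_RepBasic p_RepNorm p_Rd

theorem p_MulP : S_MulP := c_MulP p_RepBasic p_Rd

theorem p_RepUniq : S_RepUniq := c_RepUniq

theorem p_teRec : S_teRec := c_teRec

theorem p_heDiag : S_heDiag := c_heDiag

theorem p_xeRec : S_xeRec := c_xeRec

theorem p_Out : S_Out := c_Out p_Row p_MulP p_RepBasic p_RepUniq p_RepNorm p_teRec p_heDiag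
  p_xeRec p_hxRec

theorem p_Hom : S_Hom := c_Hom

theorem p_Desc : S_Desc := c_Desc p_Hom p_xeRec

theorem p_xePer : S_xePer := c_xePer p_xeRec

theorem p_HPPer : S_HPPer := c_HPPer p_xeRec

theorem p_Per : S_Per := c_Per p_teRec p_HPc p_xePer p_HPPer p_heDiag

theorem p_Unit : S_Unit := c_Unit p_Desc p_Hom p_Per p_xePer

theorem p_Chk : S_Chk := c_Chk p_Out p_MulP p_RepBasic p_RepUniq p_RepNorm p_Unit

theorem p_CommCC : S_CommCC := c_CommCC

theorem p_ExclCR : S_ExclCR := c_ExclCR p_ShapeC p_ShapeR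

theorem p_CommCR : S_CommCR := c_CommCR p_ExclCR

theorem p_CommOver : S_CommOver := c_CommOver p_ShapeR

theorem p_ExclRR : S_ExclRR := c_ExclRR p_ShapeR

theorem p_CommRR : S_CommRR := c_CommRR p_ExclRR

theorem p_Cov : S_Cov := c_Cov p_Chk

theorem p_FQ : S_FQ := c_FQ p_Card

theorem p_ExclCC : S_ExclCC := c_ExclCC p_ShapeC

theorem p_SymC : S_SymC := c_SymC

theorem p_LocW : S_LocW := c_LocW p_SymC p_ShapeC p_ShapeR

theorem p_PW : S_PW := c_PW p_ShapeR p_ExclCC p_ExclCR p_ExclRR p_LocW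

theorem p_MemRedC : S_MemRedC := c_MemRedC p_ShapeC

theorem p_SurvC : S_SurvC := c_SurvC p_ShapeC p_MemRedC p_DegC

theorem p_MemRedR : S_MemRedR := c_MemRedR p_ShapeR

theorem p_SurvR : S_SurvR := c_SurvR p_ShapeR p_MemRedR p_DegR

theorem p_Over : S_Over := c_Over p_ShapeR

theorem p_NetRedC : S_NetRedC := c_NetRedC p_Edge p_Acyc p_ShapeC p_MemRedC p_DegC

theorem p_NetRedR : S_NetRedR := c_NetRedR p_Edge p_Acyc p_ShapeR p_MemRedR p_DegR

theorem p_SwapC : S_SwapC := c_SwapC p_ShapeC p_MemRedC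

theorem p_Inv : S_Inv := c_Inv p_ExclCC p_ExclCR p_ExclRR p_SurvC p_SurvR p_Over p_CommCC
  p_CommCR p_CommRR p_CommOver p_NetRedC p_NetRedR p_RenOrch p_SwapC p_ShapeR

theorem p_NetExtC : S_NetExtC := c_NetExtC p_Edge p_Acyc

theorem p_RedExtC : S_RedExtC := c_RedExtC p_Edge

theorem p_OrchExtC : S_OrchExtC := c_OrchExtC p_NetExtC p_RedExtC p_OrchNet

theorem p_ExtRedC : S_ExtRedC := c_ExtRedC p_ShapeC

theorem p_K1 : S_K1 := c_K1 p_MemNet p_Inv p_OrchNet p_OrchExtC p_RedExtC p_ExtRedC p_NetExtC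
  p_SurvC

theorem p_LocA : S_LocA := c_LocA p_ExclCC p_ExclCR

theorem p_qQ : S_qQ := c_qQ p_OrchNet p_RenOrch p_RenPair

theorem p_SumA : S_SumA := c_SumA p_K1 p_LocA p_MemNet p_OrchNet p_qQ

theorem p_NetExtR : S_NetExtR := c_NetExtR p_Edge p_Acyc

theorem p_RedExtR : S_RedExtR := c_RedExtR p_Edge

theorem p_OrchExtR : S_OrchExtR := c_OrchExtR p_NetExtR p_RedExtR p_OrchNet

theorem p_ExtRedR : S_ExtRedR := c_ExtRedR p_ShapeR

theorem p_K2 : S_K2 := c_K2 p_MemNet p_Inv p_OrchNet p_OrchExtR p_RedExtR p_ExtRedR p_NetExtR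
  p_SurvR

theorem p_K3 : S_K3 := c_K3 p_MemNet p_Inv p_OrchNet p_OrchExtR p_RedExtR p_ExtRedR p_NetExtR
  p_SurvR p_Over p_K1

theorem p_LocB : S_LocB := c_LocB p_ShapeR p_ExclCR p_ExclRR

theorem p_LocC : S_LocC := c_LocC p_ExclCR p_ExclRR

theorem p_SumB : S_SumB := c_SumB p_K2 p_K3 p_LocB p_LocC p_MemNet p_OrchNet p_qQ p_ShapeR

theorem p_SumC : S_SumC := c_SumC p_K2 p_LocC p_MemNet p_OrchNet p_qQ p_ShapeR

theorem p_SumD : S_SumD := c_SumD p_K3 p_LocC p_MemNet p_OrchNet p_qQ p_ShapeR p_ExclRR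

theorem p_Rec : S_Rec := c_Rec p_PW p_SumA p_SumB p_SumC p_SumD p_MemNet p_OrchNet

theorem p_QSmall : S_QSmall := c_QSmall p_MemNet p_KCount

theorem p_QSRec : S_QSRec := c_QSRec p_Rec p_QSmall

theorem p_Has : S_Has := c_Has

theorem p_QTop : S_QTop := c_QTop p_MemNet p_Has

theorem p_QSTop : S_QSTop := c_QSTop p_QTop

theorem p_ccZero : S_ccZero := c_ccZero

theorem p_ccRec0 : S_ccRec0 := c_ccRec0

theorem p_ccRec : S_ccRec := c_ccRec

theorem p_ExpRev : S_ExpRev := c_ExpRev p_ccZero p_ccRec0 p_ccRec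

theorem p_Exp : S_Exp := c_Exp p_ExpRev

theorem p_Key : S_Key := c_Key p_FQ p_QSRec p_QSTop p_Exp

theorem p_hhcc : S_hhcc := c_hhcc

theorem p_XPxe : S_XPxe := c_XPxe

theorem p_One : S_One := c_One

theorem p_QOne : S_QOne := c_QOne p_MemNet p_One

theorem p_QSOne : S_QSOne := c_QSOne p_QOne

theorem p_Den : S_Den := c_Den p_Key p_hhcc p_teRec p_Hom p_XPxe p_FQ p_QSOne p_ccZero p_heDiag

theorem p_Fin : S_Fin := c_Fin

theorem p_PosAbs : S_PosAbs := c_PosAbs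

theorem p_QZero : S_QZero := c_QZero p_MemNet p_Has

theorem p_QSZero : S_QSZero := c_QSZero p_QZero

theorem p_RedDvd : S_RedDvd := c_RedDvd p_Den

theorem p_RedEx : S_RedEx := c_RedEx p_Den

theorem p_RedNd : S_RedNd := c_RedNd p_Den

theorem p_Root : S_Root := c_Root p_xeRec

theorem p_TopPos : S_TopPos := c_TopPos p_PosAbs p_ExpRev p_hhcc p_teRec p_xeRec p_heDiag

theorem p_heSub : S_heSub := c_heSub p_xeRec p_HPc p_heDiag

theorem p_heSub2 : S_heSub2 := c_heSub2 p_xeRec p_HPc p_heDiag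

theorem p_Top2 : S_Top2 := c_Top2 p_TopPos p_teRec p_xeRec p_heSub p_heSub2

theorem p_TopNd : S_TopNd := c_TopNd p_TopPos p_Top2 p_Root p_Hom

end Orch
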