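import Pool.Agent.Lib.Orch.Alg

/-!
The finite check modulo a prime `p`. Elements of a ring of characteristic `p` generated by `v` with
a relation `v ^ f = r_0 + r_1 v + … + r_{f-1} v ^ (f-1)` are stored as natural numbers
`∑ a_i B ^ i` with small digits `a_i`. All functions are written with explicit recursors, so that
the kernel evaluates them fast. The list `R` holds the stored forms of `v ^ f, v ^ (f+1), …`.
-/

namespace Orch

/-- `acc + ∑_k ((digit k of q) mod p) * R_k` -/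
noncomputable def redT (B p : ℕ) (R : List ℕ) : ℕ → ℕ → ℕ :=
  @List.rec ℕ (fun _ => ℕ → ℕ → ℕ) (fun _ acc => acc)
    (fun r _ ih q acc =>
      ih (Nat.div q B) (Nat.add acc (Nat.mul (Nat.mod (Nat.mod q B) p) r))) R

/-- the `f` lowest digits modulo `p` -/
noncomputable def normP (B p : ℕ) (f : ℕ) : ℕ → ℕ :=
  @Nat.rec (fun _ => ℕ → ℕ) (fun _ => 0)
    (fun _ ih q => Nat.add (Nat.mod (Nat.mod q B) p) (Nat.mul B (ih (Nat.div q B)))) f

/-- reduction of a number with more than `f` digits (`Bf = B ^ f`) -/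
noncomputable def rdP (B Bf p f : ℕ) (R : List ℕ) (P : ℕ) : ℕ :=
  normP B p f (redT B p R (Nat.div P Bf) (Nat.mod P Bf))

/-- product -/
noncomputable def mulP (B Bf p f : ℕ) (R : List ℕ) (a b : ℕ) : ℕ := rdP B Bf p f R (Nat.mul a b)

/-- the row `δ ↦ h_{ℓ,ℓ-δ}`, `δ < n`, from the three previous rows; `m = ℓ - δ - 1` -/
noncomputable def rowP (B Bf p f : ℕ) (R : List ℕ) (n : ℕ) :
    ℕ → List ℕ → List ℕ → List ℕ → ℕ → ℕ → List ℕ :=
  @Nat.rec (fun _ => ℕ → List ℕ → List ℕ → List ℕ → ℕ → ℕ → List ℕ) (fun _ _ _ _ _ _ => [])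
    (fun _ ih m e1 e2 e3 y2 y3 =>
      normP B p f (e1.headD 0 + (p - 1) * y2 + (p - 2 * m % p) *
        rdP B Bf p f R (B * (e2.headD 0 + (p - 1) * y3))) ::
      ih (m - 1) e1.tail e2.tail e3.tail (e2.headD 0) (e3.headD 0)) n

/-- dot product -/
noncomputable def dotP (B Bf p f : ℕ) (R : List ℕ) (xs : List ℕ) : List ℕ → ℕ :=
  @List.rec ℕ (fun _ => List ℕ → ℕ) (fun _ => 0)
    (fun x _ ih ys => @List.rec ℕ (fun _ => ℕ) 0
      (fun y ys _ => Nat.add (mulP B Bf p f R x y) (ih ys)) ys) xs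

/-- multiply the first `n` entries by `x`, drop the others -/
noncomputable def mapP (B Bf p f : ℕ) (R : List ℕ) (x : ℕ) (n : ℕ) : List ℕ → List ℕ :=
  @Nat.rec (fun _ => List ℕ → List ℕ) (fun _ => [])
    (fun _ ih ys => @List.rec ℕ (fun _ => List ℕ) []
      (fun y ys _ => mulP B Bf p f R x y :: ih ys) ys) n

/-- `n` steps; state: `ℓ`, the rows `ℓ-1, ℓ-2, ℓ-3`, the memory
`δ ↦ t_{ℓ-1-δ} ∏_{ℓ-1-δ < i < ℓ} X_i` (`δ = 0, 1, …`), and the output `(X_i, t_i)`,
`i = ℓ-1, …, 1` -/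
noncomputable def stepP (B Bf p f : ℕ) (R : List ℕ) (n : ℕ) :
    ℕ → List ℕ → List ℕ → List ℕ → List ℕ → List (ℕ × ℕ) → List (ℕ × ℕ) :=
  @Nat.rec (fun _ => ℕ → List ℕ → List ℕ → List ℕ → List ℕ → List (ℕ × ℕ) → List (ℕ × ℕ))
    (fun _ _ _ _ _ out => out)
    (fun _ ih l e1 e2 e3 w out =>
      let e := rowP B Bf p f R (l / 2 + 1) (l - 1) e1 e2 e3 0 0
      let x := e.headD 0
      let t := normP B p f ((p - 1) * normP B p f (dotP B Bf p f R e.tail w))
      ih (l + 1) e e1 e2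
        (t :: (bif Nat.beq x 0 then [] else mapP B Bf p f R x (l / 2) w)) ((x, t) :: out)) n

/-- the pairs `(X_i, t_i)` for `i = m, …, 1` (`m ≥ 1`) -/
noncomputable def outP (B p f : ℕ) (R : List ℕ) (m : ℕ) : List (ℕ × ℕ) :=
  stepP B (B ^ f) p f R (m - 1) 2 [1] [1] [] [1] [(1, 1)]

/-- table check: every entry is `v` times the previous one, reduced by the first entry `r` -/
noncomputable def tabP (B Bf p f r : ℕ) (R : List ℕ) : ℕ → Bool :=
  @List.rec ℕ (fun _ => ℕ → Bool) (fun _ => true)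
    (fun s _ ih prev =>
      Nat.beq s (normP B p f ((B * prev) % Bf + ((B * prev) / Bf) * r)) && ih s) R

/-- the check: sizes; the table; `X_b = 0`; and `u` is an inverse of `t_{b+i}` for every `(i, u)` of
the certificate `c` -/
noncomputable def chk (B p b f r : ℕ) (R : List ℕ) (c : List (ℕ × ℕ)) : Bool :=
  Nat.ble ((f + p + 4) * p * p * 4) B && Nat.ble 1 f && Nat.ble f (R.length + 2) &&
    Nat.ble R.length f && Nat.ble 2 b && Nat.ble b p &&
    Nat.beq r (normP B p f r) && tabP B (B ^ f) p f r R r &&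
    (let out := outP B p f (r :: R) (b + p)
     Nat.beq (out.getD p (0, 0)).1 0 &&
      c.all (fun iu => Nat.ble iu.1 p &&
        Nat.beq (mulP B (B ^ f) p f (r :: R) (out.getD (p - iu.1) (0, 0)).2 iu.2) 1 &&
        Nat.beq iu.2 (normP B p f iu.2)))

/-- a family of certificates `(f, r, R, c)` for the residue class `b` modulo `p`, which together
cover all shifts `i < p` outside `ex` -/
noncomputable def chkAll (B p b : ℕ) (ex : List ℕ) (cs : List (ℕ × ℕ × List ℕ × List (ℕ × ℕ))) :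
    Bool :=
  cs.all (fun q => chk B p b q.1 q.2.1 q.2.2.1 q.2.2.2 &&
    q.2.2.2.any (fun iu => Nat.beq iu.1 0) && q.2.2.2.any (fun iu => Nat.beq iu.1 p)) &&
  (List.range p).all (fun i => ex.any (fun e => Nat.beq e i) ||
    cs.any (fun q => q.2.2.2.any (fun iu => Nat.beq iu.1 i)))

/-! ### Meaning of the stored numbers -/

/-- `N` stores `a` with at most `n` digits, each at most `K` -/
def Rep {A : Type} [CommRing A] (v : A) (B n K N : ℕ) (a : A) : Prop :=
  ∃ P : Polynomial ℕ, (∀ i, n ≤ i → P.coeff i = 0) ∧ (∀ i, P.coeff i ≤ K) ∧ P.eval B = N ∧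
    Polynomial.eval₂ (Nat.castRingHom A) v P = a

def S_RepBasic : Prop := ∀ (A : Type) [CommRing A] (v : A) (B : ℕ),
  (∀ n K, Rep v B n K 0 0) ∧ (∀ n K, 1 ≤ n → 1 ≤ K → Rep v B n K 1 1) ∧
  (∀ n n' K K' N a, n ≤ n' → K ≤ K' → Rep v B n K N a → Rep v B n' K' N a) ∧
  (∀ n K K' N N' a a', Rep v B n K N a → Rep v B n K' N' a' →
    Rep v B n (K + K') (N + N') (a + a')) ∧
  (∀ n K N a c, Rep v B n K N a → Rep v B n (c * K) (c * N) ((c : A) * a)) ∧
  (∀ n K N a, Rep v B n K N a → Rep v B (n + 1) K (B * N) (v * a)) ∧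
  (∀ n n' K K' N N' a a', Rep v B n K N a → Rep v B n' K' N' a' → 1 ≤ n' →
    Rep v B (n + n' - 1) (n * (K * K')) (N * N') (a * a'))

/-- a stored number determines the element -/
def S_RepUniq : Prop := ∀ (A : Type) [CommRing A] (v : A) (B n n' K K' N : ℕ) (a a' : A),
  K < B → K' < B → Rep v B n K N a → Rep v B n' K' N a' → a = a'

def S_RepSplit : Prop := ∀ (A : Type) [CommRing A] (v : A) (B n f K N : ℕ) (a : A), K < B →
  Rep v B (f + n) K N a → ∃ a0 a1 : A, Rep v B f K (N % B ^ f) a0 ∧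
    Rep v B n K (N / B ^ f) a1 ∧ a = a0 + v ^ f * a1

def S_RepNorm : Prop := ∀ (A : Type) [CommRing A] (p : ℕ) [Fact p.Prime] [CharP A p] (v : A)
  (B f K N : ℕ) (a : A), K < B → Rep v B f K N a → Rep v B f (p - 1) (normP B p f N) a

/-- the table `R` stores `v ^ f, v ^ (f+1), …` -/
def Tab {A : Type} [CommRing A] (v : A) (B p f : ℕ) (R : List ℕ) : Prop :=
  ∀ k < R.length, Rep v B f (p - 1) (R.getD k 0) (v ^ (f + k))

def S_RepRed : Prop := ∀ (A : Type) [CommRing A] (p : ℕ) [Fact p.Prime] [CharP A p] (v : A)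
  (B f n K K' q acc : ℕ) (R : List ℕ) (a0 a1 : A), K < B → Tab v B p f R → n ≤ R.length →
  Rep v B n K q a1 → Rep v B f K' acc a0 →
  Rep v B f (K' + R.length * (p * p)) (redT B p R q acc) (a0 + v ^ f * a1)

/-- reduction of a number with at most `f + R.length` digits, each at most `K` -/
def S_Rd : Prop := ∀ (A : Type) [CommRing A] (p : ℕ) [Fact p.Prime] [CharP A p] (v : A)
  (B f n K P : ℕ) (R : List ℕ) (a : A), K + R.length * (p * p) < B → Tab v B p f R →
  n ≤ f + R.length → Rep v B n K P a → Rep v B f (p - 1) (rdP B (B ^ f) p f R P) a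

/-- the size condition that all later statements use -/
def Siz (B p f : ℕ) (R : List ℕ) : Prop :=
  (f + p + 4) * p * p * 4 ≤ B ∧ 1 ≤ f ∧ f ≤ R.length + 1 ∧ 1 ≤ R.length ∧ R.length ≤ f + 1

def S_MulP : Prop := ∀ (A : Type) [CommRing A] (p : ℕ) [Fact p.Prime] [CharP A p] (v : A)
  (B f M N : ℕ) (R : List ℕ) (a b : A), Siz B p f R → Tab v B p f R →
  Rep v B f (p - 1) M a → Rep v B f (p - 1) N b →
  Rep v B f (p - 1) (mulP B (B ^ f) p f R M N) (a * b)

/-- the recursion of the `h_{ℓ,s}` used by `rowP`, with `s = ℓ - δ` -/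
def hx {A : Type} [CommRing A] (v : A) (l s : ℕ) : A := if s ≤ l then he v l s else 0

def S_hxRec : Prop := ∀ (A : Type) [CommRing A] (v : A),
  (∀ l s : ℕ, 2 * s < l → hx v l s = 0) ∧
  (∀ l s : ℕ, hx v (l + 3) (s + 2) = hx v (l + 2) (s + 1) - hx v (l + 1) (s + 1)
    - 2 * ((s + 1 : ℕ) : A) * v * (hx v (l + 1) s - hx v l s)) ∧
  (hx v 0 0 = 1) ∧ (hx v 1 1 = 1) ∧ (hx v 2 2 = 1 - 2 * v) ∧ (hx v 2 1 = -1)

/-- the row computed at `ℓ ≥ 2` from correct rows is correct -/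
def S_Row : Prop := ∀ (A : Type) [CommRing A] (p : ℕ) [Fact p.Prime] [CharP A p] (v : A)
  (B f l : ℕ) (R e1 e2 e3 : List ℕ), Siz B p f R → Tab v B p f R → 2 ≤ l →
  (∀ d, Rep v B f (p - 1) (e1.getD d 0) (if d + 1 ≤ l then hx v (l - 1) (l - 1 - d) else 0)) →
  (∀ d, Rep v B f (p - 1) (e2.getD d 0) (if d + 2 ≤ l then hx v (l - 2) (l - 2 - d) else 0)) →
  (∀ d, Rep v B f (p - 1) (e3.getD d 0) (if d + 3 ≤ l then hx v (l - 3) (l - 3 - d) else 0)) →
  ∀ d, Rep v B f (p - 1) ((rowP B (B ^ f) p f R (l / 2 + 1) (l - 1) e1 e2 e3 0 0).getD d 0)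
    (if d ≤ l then hx v l (l - d) else 0)

/-- the output is correct -/
def S_Out : Prop := ∀ (A : Type) [CommRing A] (p : ℕ) [Fact p.Prime] [CharP A p] (v : A)
  (B f m : ℕ) (R : List ℕ), Siz B p f R → Tab v B p f R → 1 ≤ m → m ≤ 2 * p →
  (outP B p f R m).length = m ∧ ∀ i, 1 ≤ i → i ≤ m →
    Rep v B f (p - 1) ((outP B p f R m).getD (m - i) (0, 0)).1 (xe v i) ∧
    Rep v B f (p - 1) ((outP B p f R m).getD (m - i) (0, 0)).2 (te v i)

/-- soundness of the check -/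
def S_Chk : Prop := ∀ (p B b f r : ℕ) (R : List ℕ) (c : List (ℕ × ℕ)), p.Prime →
  chk B p b f r R c = true → (∃ u, (0, u) ∈ c) → (∃ u, (p, u) ∈ c) →
  ∀ i u, (i, u) ∈ c → i < p → ∀ j l : ℕ, b ≤ j → j % p = b % p → j ≤ l → l % p = (b + i) % p →
  ¬ xe (Polynomial.X : Polynomial ℚ) j ∣ te (Polynomial.X : Polynomial ℚ) l

/-- soundness of the family check -/
def S_Cov : Prop := ∀ (p B b : ℕ) (ex : List ℕ) (cs : List (ℕ × ℕ × List ℕ × List (ℕ × ℕ))),
  p.Prime → chkAll B p b ex cs = true → ∀ i, i < p → i ∉ ex → ∀ j l : ℕ, b ≤ j →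
  j % p = b % p → j ≤ l → l % p = (b + i) % p →
  ¬ xe (Polynomial.X : Polynomial ℚ) j ∣ te (Polynomial.X : Polynomial ℚ) l

end Orch
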