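import Pool.Agent.Lib.Orch.All

/-!
The soundness of the finite check in the form used for the single primes.
-/

namespace Orch

theorem cov (p b : ℕ) (ex : List ℕ) (cs : List (ℕ × ℕ × List ℕ × List (ℕ × ℕ)))
    (hp : p.Prime) (hb : b < p) (h : chkAll 1048576 p b ex cs = true) (j l : ℕ)
    (hj : j % p = b) (hl : j ≤ l) (hex : ∀ e ∈ ex, l % p ≠ (b + e) % p) :
    ¬ xe (Polynomial.X : Polynomial ℚ) j ∣ te (Polynomial.X : Polynomial ℚ) l := by
  have hp0 : 0 < p := hp.pos
  have hb' : b ≤ j := by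
    rw [← hj]; exact Nat.mod_le _ _
  have key : (b + (l % p + (p - b)) % p) % p = l % p := by
    rw [Nat.add_mod_mod, show b + (l % p + (p - b)) = l % p + p by omega, Nat.add_mod_right,
      Nat.mod_mod]
  refine p_Cov p 1048576 b ex cs hp h ((l % p + (p - b)) % p) (Nat.mod_lt _ hp0) ?_ j l hb' ?_ hl
    key.symm
  · intro hmem
    exact hex _ hmem key.symm
  · rw [hj, Nat.mod_eq_of_lt hb]

end Orch
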