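import Pool.Agent.Lib.Orch.Cov

/-!
The finite checks modulo 11.
-/

namespace Orch

theorem k_11_2 :
    chkAll 1048576 11 2 [] [(1, 6, [], [(0, 1), (1, 1), (2, 10), (3, 7), (4, 4), (5, 8), (6, 3),
    (7, 10), (8, 7), (9, 10), (10, 5), (11, 8)])] =
    true := by decide +kernel

theorem k_11_4 :
    chkAll 1048576 11 4 [] [(2, 1048586, [], [(0, 4), (1, 5242885), (2, 6291464), (3, 8388611),
    (4, 4194311), (5, 10485765), (6, 2097162), (7, 9437184), (8, 3145736), (9, 6291457),
    (10, 1048583), (11, 8388615)])] =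
    true := by decide +kernel

theorem k_11_5 :
    chkAll 1048576 11 5 [] [(2, 4194306, [], [(0, 8388614), (1, 4194310), (2, 9437193), (3,
    2097158), (4, 2097159), (5, 1048583), (6, 7340036), (7, 5242881), (8, 1048583), (9,
    8388617), (10, 8388611), (11, 1048586)])] =
    true := by decide +kernel

theorem k_11_6 :
    chkAll 1048576 11 6 [] [(2, 8, [], [(0, 9437184), (1, 9437188), (2, 9437192), (3, 1048577),
    (4, 6291456), (5, 10), (6, 6291463), (7, 5242888), (8, 1048578), (9, 5242881), (10,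
    2097158), (11, 1048578)])] =
    true := by decide +kernel

theorem k_11_7 :
    chkAll 1048576 11 7 [] [(1, 8, [], [(0, 1), (1, 5), (2, 9), (3, 4), (4, 4), (5, 1), (6, 4),
    (7, 9), (8, 10), (9, 5), (10, 4), (11, 2)])] =
    true := by decide +kernel

theorem k_11_8 :
    chkAll 1048576 11 8 [] [(1, 6, [], [(0, 3), (1, 10), (2, 7), (3, 10), (4, 5), (5, 8), (6,
    8), (7, 3), (8, 1), (9, 10), (10, 9), (11, 2)])] =
    true := by decide +kernel

theorem k_11_9 :
    chkAll 1048576 11 9 [] [(3, 9895607795721, [7696584540164], [(0, 8796098265094), (1,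
    1048585), (2, 5242880), (3, 1099516870663), (4, 2097160), (5, 7340040), (6,
    6597072912385), (7, 10995119423495), (8, 5497567576064), (9, 5497563381767), (10,
    5497566527490), (11, 8796101410824)])] =
    true := by decide +kernel

theorem k_11_10 :
    chkAll 1048576 11 10 [] [(1, 8, [], [(0, 4), (1, 4), (2, 1), (3, 4), (4, 9), (5, 10), (6,
    5), (7, 4), (8, 2), (9, 10), (10, 7), (11, 8)])] =
    true := by decide +kernel

theorem cov11 (j l : ℕ) (hj : 4 ≤ j % 11) (hl : j ≤ l) :
    ¬ xe (Polynomial.X : Polynomial ℚ) j ∣ te (Polynomial.X : Polynomial ℚ) l := by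
  have h : j % 11 < 11 := Nat.mod_lt _ (by norm_num)
  have hp : Nat.Prime 11 := by norm_num
  generalize hb : j % 11 = b at hj h
  interval_cases b
  · exact cov 11 4 [] _ hp (by norm_num) k_11_4 j l hb hl (by simp)
  · exact cov 11 5 [] _ hp (by norm_num) k_11_5 j l hb hl (by simp)
  · exact cov 11 6 [] _ hp (by norm_num) k_11_6 j l hb hl (by simp)
  · exact cov 11 7 [] _ hp (by norm_num) k_11_7 j l hb hl (by simp)
  · exact cov 11 8 [] _ hp (by norm_num) k_11_8 j l hb hl (by simp)
  · exact cov 11 9 [] _ hp (by norm_num) k_11_9 j l hb hl (by simp)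
  · exact cov 11 10 [] _ hp (by norm_num) k_11_10 j l hb hl (by simp)

theorem covt11 (j l : ℕ) (hj : j % 11 = 2) (hl : j ≤ l) :
    ¬ xe (Polynomial.X : Polynomial ℚ) j ∣ te (Polynomial.X : Polynomial ℚ) l :=
  cov 11 2 [] _ (by norm_num) (by norm_num) k_11_2 j l hj hl (by simp)

end Orch
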