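import Pool.Agent.Lib.Orch.Cov

/-!
The finite checks modulo 3.
-/

namespace Orch

theorem k_3_2 :
    chkAll 1048576 3 2 [] [(1, 2, [], [(0, 1), (1, 1), (2, 2), (3, 2)])] =
    true := by decide +kernel

theorem covt3 (j l : ℕ) (hj : j % 3 = 2) (hl : j ≤ l) :
    ¬ xe (Polynomial.X : Polynomial ℚ) j ∣ te (Polynomial.X : Polynomial ℚ) l :=
  cov 3 2 [] _ (by norm_num) (by norm_num) k_3_2 j l hj hl (by simp)

end Orch
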