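import Pool.Agent.Lib.Orch.Cov

/-!
The finite checks modulo 5.
-/

namespace Orch

theorem k_5_2 :
    chkAll 1048576 5 2 [] [(1, 3, [], [(0, 1), (1, 1), (2, 4), (3, 2), (4, 4), (5, 1)])] =
    true := by decide +kernel

theorem k_5_4 :
    chkAll 1048576 5 4 [] [(1, 2, [], [(0, 2), (1, 4), (2, 4), (3, 4), (4, 1), (5, 2)])] =
    true := by decide +kernel

theorem cov5 (j l : ℕ) (hj : 4 ≤ j % 5) (hl : j ≤ l) :
    ¬ xe (Polynomial.X : Polynomial ℚ) j ∣ te (Polynomial.X : Polynomial ℚ) l := by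
  have h : j % 5 < 5 := Nat.mod_lt _ (by norm_num)
  have hp : Nat.Prime 5 := by norm_num
  generalize hb : j % 5 = b at hj h
  interval_cases b
  · exact cov 5 4 [] _ hp (by norm_num) k_5_4 j l hb hl (by simp)

theorem covt5 (j l : ℕ) (hj : j % 5 = 2) (hl : j ≤ l) :
    ¬ xe (Polynomial.X : Polynomial ℚ) j ∣ te (Polynomial.X : Polynomial ℚ) l :=
  cov 5 2 [] _ (by norm_num) (by norm_num) k_5_2 j l hj hl (by simp)

end Orch
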