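import Pool.Agent.Lib.Orch.Cov

/-!
The finite checks modulo 7.
-/

namespace Orch

theorem k_7_4 :
    chkAll 1048576 7 4 [] [(2, 1048580, [], [(0, 5), (1, 3145729), (2, 3145728), (3, 4194305),
    (4, 1048576), (5, 3145729), (6, 4194307), (7, 4194304)])] =
    true := by decide +kernel

theorem k_7_5 :
    chkAll 1048576 7 5 [] [(2, 5242885, [], [(0, 1), (1, 3145728), (2, 6), (3, 6291461), (4, 1),
    (5, 4194307), (6, 4194306), (7, 1048576)])] =
    true := by decide +kernel

theorem k_7_6 :
    chkAll 1048576 7 6 [] [(3, 5497563381761, [2199028498437], [(0, 4398049656835), (1,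
    6597076058117), (2, 6291457), (3, 1099512676355), (4, 5242883), (5, 1099511627777), (6,
    3298536980485), (7, 2097157)])] =
    true := by decide +kernel

theorem cov7 (j l : ℕ) (hj : 4 ≤ j % 7) (hl : j ≤ l) :
    ¬ xe (Polynomial.X : Polynomial ℚ) j ∣ te (Polynomial.X : Polynomial ℚ) l := by
  have h : j % 7 < 7 := Nat.mod_lt _ (by norm_num)
  have hp : Nat.Prime 7 := by norm_num
  generalize hb : j % 7 = b at hj h
  interval_cases b
  · exact cov 7 4 [] _ hp (by norm_num) k_7_4 j l hb hl (by simp)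
  · exact cov 7 5 [] _ hp (by norm_num) k_7_5 j l hb hl (by simp)
  · exact cov 7 6 [] _ hp (by norm_num) k_7_6 j l hb hl (by simp)

end Orch
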