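import Mathlib

/-!
Orchard networks as finite edge sets on the vertex type `ℕ ⊕ ℕ`:
`Sum.inl x` is the leaf labelled `x`, `Sum.inr i` is the internal vertex named `i`.
-/

namespace Orch

open Finset

/-- the vertex type: leaves with their labels, internal vertices with their names -/
abbrev V : Type := ℕ ⊕ ℕ

/-- a finite digraph without parallel edges, given by its set of edges -/
abbrev Dg : Type := Finset (V × V)

/-- in-degree -/
def indeg (E : Dg) (v : V) : ℕ := (E.filter (fun e => e.2 = v)).card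

/-- out-degree -/
def outdeg (E : Dg) (v : V) : ℕ := (E.filter (fun e => e.1 = v)).card

/-- the internal vertex `i` is a tree node: in-degree 1, out-degree 2 -/
def TreeNode (E : Dg) (i : ℕ) : Prop :=
  indeg E (Sum.inr i) = 1 ∧ outdeg E (Sum.inr i) = 2

/-- the internal vertex `i` is a reticulation: in-degree 2, out-degree 1 -/
def Retic (E : Dg) (i : ℕ) : Prop :=
  indeg E (Sum.inr i) = 2 ∧ outdeg E (Sum.inr i) = 1

/-- `E` is a phylogenetic network with leaf set `L` and internal vertex set `I` -/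
structure IsNet (L I : Finset ℕ) (E : Dg) : Prop where
  sub : ∀ e ∈ E, e.1 ∈ L.disjSum I ∧ e.2 ∈ L.disjSum I
  leaf : ∀ x ∈ L, indeg E (Sum.inl x) = 1 ∧ outdeg E (Sum.inl x) = 0
  root : ∃ r ∈ I, (indeg E (Sum.inr r) = 0 ∧ outdeg E (Sum.inr r) = 1) ∧
    ∀ i ∈ I, i ≠ r → TreeNode E i ∨ Retic E i
  acyc : ∀ v : V, ¬ Relation.TransGen (fun a b : V => (a, b) ∈ E) v v

/-- the leaves `x`, `y` form a cherry with common parent `i` -/
def IsCherry (E : Dg) (x y i : ℕ) : Prop :=
  x ≠ y ∧ ((Sum.inr i : V), (Sum.inl x : V)) ∈ E ∧ ((Sum.inr i : V), (Sum.inl y : V)) ∈ E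

/-- `(x, y)` is a reticulated cherry: the parent `i` of `x` is a tree node, the parent `j` of `y`
is a reticulation, and `i → j` is an edge -/
def IsRet (E : Dg) (x y i j : ℕ) : Prop :=
  ((Sum.inr i : V), (Sum.inl x : V)) ∈ E ∧ ((Sum.inr j : V), (Sum.inl y : V)) ∈ E ∧
    ((Sum.inr i : V), (Sum.inr j : V)) ∈ E ∧ TreeNode E i ∧ Retic E j

/-- reduction of the cherry `x, y` with parent `i`: delete `y`, suppress `i` -/
def redC (E : Dg) (x _y i : ℕ) : Dg :=
  (E.filter (fun e => e.1 ≠ Sum.inr i ∧ e.2 ≠ Sum.inr i)) ∪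
    (E.filter (fun e => e.2 = Sum.inr i)).image (fun e => (e.1, (Sum.inl x : V)))

/-- reduction of the reticulated cherry `(x, y)` with parents `i`, `j`: delete the edge `i → j`,
suppress `i` and `j` -/
def redR (E : Dg) (x y i j : ℕ) : Dg :=
  (E.filter (fun e => (e.1 ≠ Sum.inr i ∧ e.2 ≠ Sum.inr i) ∧ (e.1 ≠ Sum.inr j ∧ e.2 ≠ Sum.inr j))) ∪
    ((E.filter (fun e => e.2 = Sum.inr i)).image (fun e => (e.1, (Sum.inl x : V))) ∪
    (E.filter (fun e => e.2 = Sum.inr j ∧ e.1 ≠ Sum.inr i)).image (fun e => (e.1, (Sum.inl y : V))))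

/-- orchard networks: networks that some sequence of reductions turns into the root joined to a
single leaf -/
inductive Orchard : Finset ℕ → Finset ℕ → Dg → Prop
  | base (x r : ℕ) : Orchard {x} {r} {((Sum.inr r : V), (Sum.inl x : V))}
  | cherry (L I : Finset ℕ) (E : Dg) (x y i : ℕ) (hN : IsNet L I E) (hx : x ∈ L) (hy : y ∈ L)
      (hc : IsCherry E x y i) (h : Orchard (L.erase y) (I.erase i) (redC E x y i)) :
      Orchard L I E
  | ret (L I : Finset ℕ) (E : Dg) (x y i j : ℕ) (hN : IsNet L I E) (hx : x ∈ L) (hy : y ∈ L)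
      (hr : IsRet E x y i j) (h : Orchard L ((I.erase i).erase j) (redR E x y i j)) :
      Orchard L I E

/-- the number of reticulations -/
def numRet (I : Finset ℕ) (E : Dg) : ℕ :=
  (I.filter (fun i => indeg E (Sum.inr i) = 2 ∧ outdeg E (Sum.inr i) = 1)).card

/-- renaming: leaves by `σ`, internal vertices by `τ` -/
def ren (σ τ : Equiv.Perm ℕ) (E : Dg) : Dg :=
  E.image (fun e => (Sum.map σ τ e.1, Sum.map σ τ e.2))

/-- the orchard networks with leaf set `{0, …, ℓ - 1}`, any finite set of internal vertices and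
exactly `k` reticulations -/
def OrchNet (l k : ℕ) : Type :=
  {p : Finset ℕ × Dg // Orchard (Finset.range l) p.1 p.2 ∧ numRet p.1 p.2 = k}

/-- isomorphism of networks preserving the leaf labels: a renaming of the internal vertices -/
def Iso {l k : ℕ} (p q : OrchNet l k) : Prop :=
  ∃ τ : Equiv.Perm ℕ, q.1.1 = p.1.1.image τ ∧ q.1.2 = ren (Equiv.refl ℕ) τ p.1.2

/-- the number of isomorphism classes of orchard networks on `ℓ` labelled leaves with `k`
reticulations -/
noncomputable def orch (l k : ℕ) : ℕ := Nat.card (Quot (@Iso l k))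

/-- the column generating function `F_ℓ` -/
noncomputable def F (l : ℕ) : PowerSeries ℚ := PowerSeries.mk (fun k => (orch l k : ℚ))

/-- the polynomial `X_j` over a commutative ring -/
noncomputable def XP (R : Type) [CommRing R] (j : ℕ) : Polynomial R :=
  ∑ k ∈ Finset.range (j / 2 + 1),
    Polynomial.C (((-1 : ℤ) ^ k * ((j.factorial / ((j - 2 * k).factorial * k.factorial) : ℕ) : ℤ) : ℤ) : R) *
      Polynomial.X ^ k

end Orch
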