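import Pool.Agent.Lib.Orch.J3

/-!
`X_3` does not divide the numerator of `F_l` for `l ≥ 3`, `l ≠ 5`.
-/

namespace Orch

open Finset

def S_J3Nd : Prop := ∀ l : ℕ, 3 ≤ l → l ≠ 5 →
  ¬ xe (Polynomial.X : Polynomial ℚ) 3 ∣ te (Polynomial.X : Polynomial ℚ) l

theorem c_J3Nd (hte : S_teRec) (hxe : S_xeRec) (hHPc : S_HPc) (hHom : S_Hom) : S_J3Nd := by
  intro l h3 h5 hdvd
  have h := c_J3 hte hxe hHPc l h3 h5
  obtain ⟨c, hc⟩ := hdvd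
  obtain ⟨e1, -, e3⟩ := hHom (Polynomial ℚ) ℚ (Polynomial.evalRingHom (1 / 6 : ℚ)) Polynomial.X
  have hX : (Polynomial.evalRingHom (1 / 6 : ℚ)) (Polynomial.X : Polynomial ℚ) = 1 / 6 := by
    simp
  rw [hX] at e1 e3
  apply h
  rw [← e3 l, hc, map_mul, e1 3]
  obtain ⟨x0, x1, x2⟩ := hxe ℚ (1 / 6)
  have hx3 : xe (1 / 6 : ℚ) 3 = 0 := by
    rw [x2 1, x2 0, x1, x0]
    norm_num
  rw [hx3, zero_mul]

end Orch
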