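import Pool.Agent.Lib.Orch.J3

/-!
`1/6` is not a root of `X_j` for `j ≠ 3`.
-/

namespace Orch

theorem X3nz (hxe : S_xeRec) (hHPc : S_HPc) : ∀ j : ℕ, j ≠ 3 → xe (1 / 6 : ℚ) j ≠ 0 := by
  intro j hj
  have h := J3_jy hxe hHPc
  rcases Nat.lt_or_ge j 2 with h2 | h2
  · interval_cases j
    · rw [h.x0]; exact one_ne_zero
    · rw [h.x1]; exact one_ne_zero
  · obtain ⟨m, hm⟩ : ∃ m, j = 4 * m + 2 ∨ j = 4 * m + 3 ∨ j = 4 * m + 4 ∨ j = 4 * m + 5 :=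
      ⟨(j - 2) / 4, by omega⟩
    rcases hm with rfl | rfl | rfl | rfl
    · exact (h.x2' m).ne_zero
    · obtain ⟨⟨q, hq, hqv⟩, -⟩ := h.xA m
      rw [hq]
      have hm : (m : ℚ) ≠ 0 := by
        have : m ≠ 0 := by omega
        exact_mod_cast this
      exact mul_ne_zero hm hqv.ne_zero
    · exact (h.xA m).2.ne_zero
    · exact (h.x5 m).ne_zero

end Orch
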