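import Pool.Agent.Lib.Orch.Fin
import Pool.Agent.Lib.Orch.X3nz
import Pool.Agent.Lib.Orch.J3Nd
import Pool.Agent.Lib.SchH.Main

/-!
Exact denominators: the `X_j` are irreducible and pairwise coprime.
-/

namespace Orch

open Polynomial Finset

theorem XP_irr (j : ℕ) (hj : 2 ≤ j) : Irreducible (XP ℚ j) :=
  SchH.c_Main (X3nz p_xeRec p_HPc) j hj

theorem XP_coeff (j k : ℕ) : (XP ℚ j).coeff k = if k ≤ j / 2 then
    ((((-1 : ℤ) ^ k * ((j.factorial / ((j - 2 * k).factorial * k.factorial) : ℕ) : ℤ) : ℤ)) : ℚ)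
    else 0 := by
  unfold XP
  rw [finset_sum_coeff]
  simp only [coeff_C_mul, coeff_X_pow, mul_ite, mul_one, mul_zero]
  rw [Finset.sum_ite_eq]
  simp only [Finset.mem_range, Nat.lt_succ_iff]

theorem XP_coeff_zero (j : ℕ) : (XP ℚ j).coeff 0 = 1 := by
  rw [XP_coeff, if_pos (Nat.zero_le _)]
  have h : j.factorial / ((j - 2 * 0).factorial * Nat.factorial 0) = 1 := by
    rw [mul_zero, Nat.sub_zero, Nat.factorial_zero, mul_one]
    exact Nat.div_self (Nat.factorial_pos j)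
  rw [h]
  norm_num

theorem XP_coeff_one (j : ℕ) (hj : 2 ≤ j) : (XP ℚ j).coeff 1 = -((j * (j - 1) : ℕ) : ℚ) := by
  rw [XP_coeff, if_pos (by omega)]
  obtain ⟨i, rfl⟩ : ∃ i, j = i + 2 := ⟨j - 2, by omega⟩
  have h : (i + 2).factorial / ((i + 2 - 2 * 1).factorial * Nat.factorial 1) =
      (i + 2) * (i + 2 - 1) := by
    rw [show i + 2 - 2 * 1 = i by omega, Nat.factorial_one, mul_one, Nat.factorial_succ,
      Nat.factorial_succ, ← mul_assoc, Nat.mul_div_cancel _ (Nat.factorial_pos i)]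
    rfl
  rw [h, pow_one]
  push_cast
  ring

theorem XP_not_dvd (i j : ℕ) (hi : 2 ≤ i) (hj : 2 ≤ j) (hij : i ≠ j) : ¬ XP ℚ i ∣ XP ℚ j := by
  intro h
  have hA : Associated (XP ℚ i) (XP ℚ j) := (XP_irr i hi).associated_of_dvd (XP_irr j hj) h
  obtain ⟨u, hu⟩ := hA
  obtain ⟨c, -, hc⟩ := Polynomial.isUnit_iff.mp u.isUnit
  rw [← hc] at hu
  have h0 : (XP ℚ i).coeff 0 * c = (XP ℚ j).coeff 0 := by
    rw [← coeff_mul_C, hu]
  have h1 : (XP ℚ i).coeff 1 * c = (XP ℚ j).coeff 1 := by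
    rw [← coeff_mul_C, hu]
  rw [XP_coeff_zero, XP_coeff_zero, one_mul] at h0
  rw [h0, mul_one, XP_coeff_one i hi, XP_coeff_one j hj, neg_inj] at h1
  have h2 : i * (i - 1) = j * (j - 1) := by exact_mod_cast h1
  rcases Nat.lt_or_gt_of_ne hij with h3 | h3
  · have : i * (i - 1) < j * (j - 1) := by
      apply Nat.mul_lt_mul_of_lt_of_le h3 (by omega) (by omega)
    omega
  · have : j * (j - 1) < i * (i - 1) := by
      apply Nat.mul_lt_mul_of_lt_of_le h3 (by omega) (by omega)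
    omega

theorem XP_coprime (i j : ℕ) (hi : 2 ≤ i) (hj : 2 ≤ j) (hij : i ≠ j) :
    IsCoprime (XP ℚ i) (XP ℚ j) :=
  (XP_irr i hi).coprime_iff_not_dvd.mpr (XP_not_dvd i j hi hj hij)

theorem prod_coeff_zero (l : ℕ) : (∏ j ∈ Icc 2 l, XP ℚ j).coeff 0 = 1 := by
  rw [coeff_zero_eq_eval_zero, eval_prod]
  apply Finset.prod_eq_one
  intro j _
  rw [← coeff_zero_eq_eval_zero, XP_coeff_zero]

theorem sq_not_dvd (l j : ℕ) (hj : 2 ≤ j) (hl : j ≤ l) (D : ℚ[X])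
    (hD : D ∣ ∏ j ∈ Icc 2 l, XP ℚ j) : ¬ XP ℚ j ^ 2 ∣ D := by
  intro h
  have h1 := h.trans hD
  rw [← Finset.mul_prod_erase _ _ (Finset.mem_Icc.mpr ⟨hj, hl⟩), sq] at h1
  have h2 : XP ℚ j ∣ ∏ i ∈ (Icc 2 l).erase j, XP ℚ i :=
    (mul_dvd_mul_iff_left (XP_irr j hj).ne_zero).mp h1
  rw [(XP_irr j hj).prime.dvd_finset_prod_iff] at h2
  obtain ⟨i, hi, h3⟩ := h2
  rw [Finset.mem_erase, Finset.mem_Icc] at hi
  exact XP_not_dvd j i hj hi.2.1 (Ne.symm hi.1) h3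

theorem eq_prod (l : ℕ) (D : ℚ[X]) (h0 : D.coeff 0 = 1) (hD : D ∣ ∏ j ∈ Icc 2 l, XP ℚ j)
    (h : ∀ j ∈ Icc 2 l, XP ℚ j ∣ D) : D = ∏ j ∈ Icc 2 l, XP ℚ j := by
  have h1 : ∏ j ∈ Icc 2 l, XP ℚ j ∣ D := by
    apply Finset.prod_dvd_of_coprime _ h
    intro i hi j hj hij
    exact XP_coprime i j (Finset.mem_Icc.mp (Finset.mem_coe.mp hi)).1
      (Finset.mem_Icc.mp (Finset.mem_coe.mp hj)).1 hij
  obtain ⟨u, hu⟩ := associated_of_dvd_dvd hD h1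
  obtain ⟨c, -, hc⟩ := Polynomial.isUnit_iff.mp u.isUnit
  rw [← hc] at hu
  have h2 : D.coeff 0 * c = (∏ j ∈ Icc 2 l, XP ℚ j).coeff 0 := by
    rw [← coeff_mul_C, hu]
  rw [h0, one_mul, prod_coeff_zero] at h2
  rw [← hu, h2]
  simp

theorem nd_all (j l : ℕ) (h2 : 2 ≤ j) (hl : j ≤ l) (h35 : ¬ (j = 3 ∧ l = 5))
    (hj : j ≤ 6790275557) : ¬ xe (X : ℚ[X]) j ∣ te (X : ℚ[X]) l := by
  by_cases h3 : j = 3
  · subst h3
    exact c_J3Nd p_teRec p_xeRec p_HPc p_Hom l hl (fun h => h35 ⟨rfl, h⟩)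
  · exact nd_num j l h2 hl h3 hj

end Orch
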