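import Pool.Agent.Lib.Orch.Num
import Pool.Agent.Lib.Orch.Cov3
import Pool.Agent.Lib.Orch.Cov5
import Pool.Agent.Lib.Orch.Cov7
import Pool.Agent.Lib.Orch.Cov11
import Pool.Agent.Lib.Orch.Cov13
import Pool.Agent.Lib.Orch.Cov17
import Pool.Agent.Lib.Orch.Cov19
import Pool.Agent.Lib.Orch.Cov23
import Pool.Agent.Lib.Orch.Cov29
import Pool.Agent.Lib.Orch.Cov31
import Pool.Agent.Lib.Orch.Cov37
import Pool.Agent.Lib.Orch.Cov41
import Pool.Agent.Lib.Orch.Cov43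
import Pool.Agent.Lib.Orch.Cov47

/-!
All covered pairs `(j, ℓ)`.
-/

namespace Orch

open Polynomial

theorem nd_four (j l : ℕ) (hl : j ≤ l)
    (h : ∃ p ∈ ({5, 7, 11, 13, 17, 19, 23, 29, 31, 37, 41, 43, 47} : Finset ℕ), 4 ≤ j % p) :
    ¬ xe (X : ℚ[X]) j ∣ te (X : ℚ[X]) l := by
  obtain ⟨p, hp, h4⟩ := h
  fin_cases hp
  · exact cov5 j l h4 hl
  · exact cov7 j l h4 hl
  · exact cov11 j l h4 hl
  · exact cov13 j l h4 hl
  · exact cov17 j l h4 hl
  · exact cov19 j l h4 hl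
  · exact cov23 j l h4 hl
  · exact cov29 j l h4 hl
  · exact cov31 j l h4 hl
  · exact cov37 j l h4 hl
  · exact cov41 j l h4 hl
  · exact cov43 j l h4 hl
  · exact cov47 j l h4 hl

theorem nd_two (j l : ℕ) (hl : j ≤ l)
    (h : ∃ p ∈ ({3, 5, 11, 17, 29, 37, 41, 43} : Finset ℕ), j % p = 2) :
    ¬ xe (X : ℚ[X]) j ∣ te (X : ℚ[X]) l := by
  obtain ⟨p, hp, h2⟩ := h
  fin_cases hp
  · exact covt3 j l h2 hl
  · exact covt5 j l h2 hl
  · exact covt11 j l h2 hl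
  · exact covt17 j l h2 hl
  · exact covt29 j l h2 hl
  · exact covt37 j l h2 hl
  · exact covt41 j l h2 hl
  · exact covt43 j l h2 hl

theorem nd_three (j l : ℕ) (hl : j ≤ l)
    (h : ∃ p ∈ ({29, 43} : Finset ℕ), j % p = 3 ∧ l % p ≠ 5) :
    ¬ xe (X : ℚ[X]) j ∣ te (X : ℚ[X]) l := by
  obtain ⟨p, hp, h3, h5⟩ := h
  fin_cases hp
  · exact covu29 j l h3 hl h5
  · exact covu43 j l h3 hl h5

theorem nd_num (j l : ℕ) (h2 : 2 ≤ j) (hl : j ≤ l) (h3 : j ≠ 3) (hj : j ≤ 6790275557) :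
    ¬ xe (X : ℚ[X]) j ∣ te (X : ℚ[X]) l := by
  by_cases c4 : ∃ p ∈ ({5, 7, 11, 13, 17, 19, 23, 29, 31, 37, 41, 43, 47} : Finset ℕ), 4 ≤ j % p
  · exact nd_four j l hl c4
  by_cases c2 : ∃ p ∈ ({3, 5, 11, 17, 29, 37, 41, 43} : Finset ℕ), j % p = 2
  · exact nd_two j l hl c2
  have A : ∀ p ∈ ({5, 7, 11, 13, 17, 19, 23, 29, 31, 37, 41, 43, 47} : Finset ℕ), j % p ≤ 3 := by
    intro p hp
    by_contra h
    exact c4 ⟨p, hp, by omega⟩
  have B : ∀ p ∈ ({3, 5, 11, 17, 29, 37, 41, 43} : Finset ℕ), j % p ≠ 2 :=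
    fun p hp h => c2 ⟨p, hp, h⟩
  clear c4 c2
  have h := sieve_concl j hj (by
    intro q hq
    simp only [prs, List.mem_cons, List.not_mem_nil, or_false] at hq
    rcases hq with rfl | rfl | rfl | rfl | rfl | rfl | rfl | rfl | rfl | rfl | rfl | rfl | rfl |
      rfl
    · exact smallR_of _ _ (Nat.le_of_lt (Nat.mod_lt j (by norm_num))) (Or.inr (B 3 (by decide)))
    · exact smallR_of _ _ (A 5 (by decide)) (Or.inr (B 5 (by decide)))
    · exact smallR_of _ _ (A 7 (by decide)) (Or.inl rfl)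
    · exact smallR_of _ _ (A 11 (by decide)) (Or.inr (B 11 (by decide)))
    · exact smallR_of _ _ (A 13 (by decide)) (Or.inl rfl)
    · exact smallR_of _ _ (A 17 (by decide)) (Or.inr (B 17 (by decide)))
    · exact smallR_of _ _ (A 19 (by decide)) (Or.inl rfl)
    · exact smallR_of _ _ (A 23 (by decide)) (Or.inl rfl)
    · exact smallR_of _ _ (A 29 (by decide)) (Or.inr (B 29 (by decide)))
    · exact smallR_of _ _ (A 31 (by decide)) (Or.inl rfl)
    · exact smallR_of _ _ (A 37 (by decide)) (Or.inr (B 37 (by decide)))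
    · exact smallR_of _ _ (A 41 (by decide)) (Or.inr (B 41 (by decide)))
    · exact smallR_of _ _ (A 43 (by decide)) (Or.inr (B 43 (by decide)))
    · exact smallR_of _ _ (A 47 (by decide)) (Or.inl rfl))
  clear A B
  omega

end Orch
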