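import Pool.Agent.Lib.Orch.J3Y

/-!
The 2-adic valuations of the residues `r l` at the root `1/6` of `X_3`.
-/

namespace Orch

open Finset

/-- the residues -/
structure JR (x : ℕ → ℚ) (y : ℕ → ℕ → ℚ) (r : ℕ → ℚ) : Prop where
  r3 : VE 0 (r 3)
  rr : ∀ l : ℕ, 4 ≤ l → x l * r l = -∑ s ∈ Ico 3 l, y s (l - s) * r s

/-- the valuations in a block of four -/
structure JB (r : ℕ → ℚ) (m : ℕ) : Prop where
  b3 : VE (-6 * m) ((m.factorial : ℚ) * r (4 * m + 3))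
  b4 : VE (-6 * m - 1) ((m.factorial : ℚ) * r (4 * m + 4))
  b5 : ∃ t : ℚ, (m.factorial : ℚ) * r (4 * m + 5) = m * t ∧ VE (-6 * m) t
  b6 : VE (-6 * m - 3) ((m.factorial : ℚ) * r (4 * m + 6))

section

variable {x : ℕ → ℚ} {y : ℕ → ℕ → ℚ} {r : ℕ → ℚ}

theorem JB.low {m k s : ℕ} (hb : JB r m) (hk : m ≤ k) (hs : 4 * m + 3 ≤ s)
    (hs2 : s ≤ 4 * m + 6) : VV (-6 * m + (if s = 4 * m + 4 then -1 else if s = 4 * m + 6 then -3
      else 0)) ((k.factorial : ℚ) * r s) := by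
  obtain ⟨c, hc⟩ := Nat.factorial_dvd_factorial hk
  have hk2 : (k.factorial : ℚ) * r s = ((c : ℤ) : ℚ) * ((m.factorial : ℚ) * r s) := by
    rw [hc]
    push_cast
    ring
  rw [hk2]
  have hcV := VV_int (c : ℤ)
  obtain ⟨t, ht, htv⟩ := hb.b5
  have hs4 : s = 4 * m + 3 ∨ s = 4 * m + 4 ∨ s = 4 * m + 5 ∨ s = 4 * m + 6 := by omega
  rcases hs4 with rfl | rfl | rfl | rfl
  · rw [if_neg (by omega), if_neg (by omega)]
    exact (hcV.mul hb.b3.toV).congr (by omega) rfl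
  · rw [if_pos rfl]
    exact (hcV.mul hb.b4.toV).congr (by omega) rfl
  · rw [if_neg (by omega), if_neg (by omega), ht]
    exact (hcV.mul ((VV_int m).mul htv.toV)).congr (by omega) (by push_cast; ring)
  · rw [if_neg (by omega), if_pos rfl]
    exact (hcV.mul hb.b6.toV).congr (by omega) rfl

/-- the contribution of the earlier blocks -/
theorem JR.rest (hy : JY x y) {m : ℕ} (hB : ∀ k < m, JB r k) (e : ℕ) (T : ℤ)
    (hT : (e ≤ 3 ∧ T ≤ -5 * m + 1) ∨ (e = 1 ∧ T ≤ -5 * m + 2)) :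
    ∃ ρ : ℚ, (m.factorial : ℚ) * (∑ s ∈ Ico 3 (4 * m + 3), y s (4 * m + 4 + e - s) * r s) = m * ρ ∧
      VV T ρ := by
  rcases m with _ | k
  · refine ⟨0, ?_, VV_zero T⟩
    simp
  · refine ⟨∑ s ∈ Ico 3 (4 * (k + 1) + 3), y s (4 * (k + 1) + 4 + e - s) *
      ((k.factorial : ℚ) * r s), ?_, ?_⟩
    · rw [Nat.factorial_succ, mul_sum, mul_sum]
      refine sum_congr rfl fun s _ => ?_
      push_cast
      ring
    · refine VV.sum fun s hs => ?_
      rw [mem_Ico] at hs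
      obtain ⟨m', i, hi, hs'⟩ : ∃ m' i : ℕ, i < 4 ∧ s = 4 * m' + 3 + i :=
        ⟨(s - 3) / 4, (s - 3) % 4, Nat.mod_lt _ (by norm_num), by omega⟩
      have hm' : m' ≤ k := by omega
      have hl := (hB m' (by omega)).low (k := k) (s := s) hm' (by omega) (by omega)
      push_cast at hT
      have hi4 : i = 0 ∨ i = 1 ∨ i = 2 ∨ i = 3 := by omega
      rcases hi4 with rfl | rfl | rfl | rfl
      · have h1 := hy.boundY s (4 * (k + 1) + 4 + e - s)
          (3 * m' - 2 * (k + 1) + (1 - (e : ℤ)) / 2) (by omega)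
        rw [if_neg (by omega), if_neg (by omega)] at hl
        exact (h1.mul hl).mono (by omega)
      · have h1 := hy.boundY s (4 * (k + 1) + 4 + e - s)
          (3 * m' - 2 * (k + 1) + (3 - (e : ℤ)) / 2) (by omega)
        rw [if_pos (by omega)] at hl
        exact (h1.mul hl).mono (by omega)
      · have h1 := hy.boundY s (4 * (k + 1) + 4 + e - s)
          (3 * m' - 2 * (k + 1) + (4 - (e : ℤ)) / 2) (by omega)
        rw [if_neg (by omega), if_neg (by omega)] at hl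
        exact (h1.mul hl).mono (by omega)
      · have h1 := hy.boundY s (4 * (k + 1) + 4 + e - s)
          (3 * m' - 2 * (k + 1) + (6 - (e : ℤ)) / 2) (by omega)
        rw [if_neg (by omega), if_pos (by omega)] at hl
        exact (h1.mul hl).mono (by omega)

/-- one block -/
theorem JR.step (hy : JY x y) (hr : JR x y r) {m : ℕ} (hB : ∀ k < m, JB r k)
    (h3 : VE (-6 * m) ((m.factorial : ℚ) * r (4 * m + 3))) :
    JB r m ∧ VE (-6 * (m + 1)) (((m + 1).factorial : ℚ) * r (4 * m + 7)) := by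
  obtain ⟨⟨q, hq, hqv⟩, hx4⟩ := hy.xA m
  have hx3 := hy.x3 m
  have hx5 := hy.x5 m
  have hx6 := hy.x6 m
  have hx2 := hy.x2' m
  obtain ⟨⟨q', hq', hqv'⟩, -⟩ := hy.xA (m + 1)
  have r4 := hy.x2 (4 * m + 2)
  have r5 := hy.x2 (4 * m + 3)
  have r6 := hy.x2 (4 * m + 4)
  have r7 := hy.x2 (4 * m + 5)
  rw [show 4 * m + 2 + 2 = 4 * m + 4 from rfl, show 4 * m + 2 + 1 = 4 * m + 3 from rfl] at r4
  rw [show 4 * m + 3 + 2 = 4 * m + 5 from rfl, show 4 * m + 3 + 1 = 4 * m + 4 from rfl] at r5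
  rw [show 4 * m + 4 + 2 = 4 * m + 6 from rfl, show 4 * m + 4 + 1 = 4 * m + 5 from rfl] at r6
  rw [show 4 * m + 5 + 2 = 4 * m + 7 from rfl, show 4 * m + 5 + 1 = 4 * m + 6 from rfl] at r7
  push_cast at r4 r5 r6 r7
  obtain ⟨-, y31, y32, y33⟩ := hy.yform (4 * m + 3)
  obtain ⟨-, y41, y42, -⟩ := hy.yform (4 * m + 4)
  obtain ⟨-, y51, -, -⟩ := hy.yform (4 * m + 5)
  obtain ⟨-, y61, -, -⟩ := hy.yform (4 * m + 6)
  rw [show 4 * m + 3 + 1 = 4 * m + 4 from rfl] at y31 y32 y33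
  rw [show 4 * m + 4 + 1 = 4 * m + 5 from rfl] at y41 y42
  rw [show 4 * m + 5 + 1 = 4 * m + 6 from rfl] at y51
  rw [show 4 * m + 6 + 1 = 4 * m + 7 from rfl] at y61
  push_cast at y31 y32 y33 y41 y42 y51 y61
  obtain ⟨ρ0, hρ0, vρ0⟩ := JR.rest (r := r) hy hB 0 (-5 * m + 1) (by omega)
  obtain ⟨ρ1, hρ1, vρ1⟩ := JR.rest (r := r) hy hB 1 (-5 * m + 2) (by omega)
  obtain ⟨ρ2, hρ2, vρ2⟩ := JR.rest (r := r) hy hB 2 (-5 * m + 1) (by omega)
  obtain ⟨ρ3, hρ3, vρ3⟩ := JR.rest (r := r) hy hB 3 (-5 * m + 1) (by omega)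
  have E4 := hr.rr (4 * m + 4) (by omega)
  have E5 := hr.rr (4 * m + 5) (by omega)
  have E6 := hr.rr (4 * m + 6) (by omega)
  have E7 := hr.rr (4 * m + 7) (by omega)
  rw [show 4 * m + 4 = 4 * m + 3 + 1 from rfl, sum_Ico_succ_top (by omega)] at E4
  rw [show 4 * m + 5 = 4 * m + 3 + 1 + 1 from rfl, sum_Ico_succ_top (by omega),
    sum_Ico_succ_top (by omega)] at E5
  rw [show 4 * m + 6 = 4 * m + 3 + 1 + 1 + 1 from rfl, sum_Ico_succ_top (by omega),
    sum_Ico_succ_top (by omega), sum_Ico_succ_top (by omega)] at E6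
  rw [show 4 * m + 7 = 4 * m + 3 + 1 + 1 + 1 + 1 from rfl, sum_Ico_succ_top (by omega),
    sum_Ico_succ_top (by omega), sum_Ico_succ_top (by omega), sum_Ico_succ_top (by omega)] at E7
  replace E4 : x (4 * m + 4) * r (4 * m + 4) = -((∑ s ∈ Ico 3 (4 * m + 3),
      y s (4 * m + 4 + 0 - s) * r s) + y (4 * m + 3) 1 * r (4 * m + 3)) := by
    rw [show 4 * m + 3 + 1 - (4 * m + 3) = 1 from by omega] at E4
    exact E4
  replace E5 : x (4 * m + 5) * r (4 * m + 5) = -((∑ s ∈ Ico 3 (4 * m + 3),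
      y s (4 * m + 4 + 1 - s) * r s) + y (4 * m + 3) 2 * r (4 * m + 3) +
      y (4 * m + 4) 1 * r (4 * m + 4)) := by
    rw [show 4 * m + 3 + 1 + 1 - (4 * m + 3) = 2 from by omega,
      show 4 * m + 3 + 1 + 1 - (4 * m + 3 + 1) = 1 from by omega] at E5
    exact E5
  replace E6 : x (4 * m + 6) * r (4 * m + 6) = -((∑ s ∈ Ico 3 (4 * m + 3),
      y s (4 * m + 4 + 2 - s) * r s) + y (4 * m + 3) 3 * r (4 * m + 3) +
      y (4 * m + 4) 2 * r (4 * m + 4) + y (4 * m + 5) 1 * r (4 * m + 5)) := by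
    rw [show 4 * m + 3 + 1 + 1 + 1 - (4 * m + 3) = 3 from by omega,
      show 4 * m + 3 + 1 + 1 + 1 - (4 * m + 3 + 1) = 2 from by omega,
      show 4 * m + 3 + 1 + 1 + 1 - (4 * m + 3 + 1 + 1) = 1 from by omega] at E6
    exact E6
  replace E7 : x (4 * m + 7) * r (4 * m + 7) = -((∑ s ∈ Ico 3 (4 * m + 3),
      y s (4 * m + 4 + 3 - s) * r s) + y (4 * m + 3) 4 * r (4 * m + 3) +
      y (4 * m + 4) 3 * r (4 * m + 4) + y (4 * m + 5) 2 * r (4 * m + 5) +
      y (4 * m + 6) 1 * r (4 * m + 6)) := by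
    rw [show 4 * m + 3 + 1 + 1 + 1 + 1 - (4 * m + 3) = 4 from by omega,
      show 4 * m + 3 + 1 + 1 + 1 + 1 - (4 * m + 3 + 1) = 3 from by omega,
      show 4 * m + 3 + 1 + 1 + 1 + 1 - (4 * m + 3 + 1 + 1) = 2 from by omega,
      show 4 * m + 3 + 1 + 1 + 1 + 1 - (4 * m + 3 + 1 + 1 + 1) = 1 from by omega] at E7
    exact E7
  set R0 := ∑ s ∈ Ico 3 (4 * m + 3), y s (4 * m + 4 + 0 - s) * r s with hR0
  set R1 := ∑ s ∈ Ico 3 (4 * m + 3), y s (4 * m + 4 + 1 - s) * r s with hR1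
  set R2 := ∑ s ∈ Ico 3 (4 * m + 3), y s (4 * m + 4 + 2 - s) * r s with hR2
  set R3 := ∑ s ∈ Ico 3 (4 * m + 3), y s (4 * m + 4 + 3 - s) * r s with hR3
  set F : ℚ := (m.factorial : ℚ) with hF
  have hx4n := hx4.ne_zero
  have hx5n := hx5.ne_zero
  -- the quotient of `x (4 m + 3)` by `x (4 m + 4)`
  obtain ⟨u, hu⟩ : ∃ u : ℚ, x (4 * m + 3) = u * x (4 * m + 4) :=
    ⟨x (4 * m + 3) / x (4 * m + 4), by rw [div_mul_cancel₀ _ hx4n]⟩
  have hx4inv : VE (-(m + 1)) ((x (4 * m + 4))⁻¹) := by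
    have h1 : VE 0 (x (4 * m + 4) * (x (4 * m + 4))⁻¹) := by
      rw [mul_inv_cancel₀ hx4n]
      exact VE_one
    exact (hx4.of_mul h1).congr (by ring) rfl
  have vu : VV 2 u := by
    have h1 := hx3.mul hx4inv.toV
    exact h1.congr (by omega) (by rw [hu, mul_assoc, mul_inv_cancel₀ hx4n, mul_one])
  have vq : VE 2 ((2 : ℚ) * 2) := (VE_two.mul VE_two).congr (by norm_num) rfl
  have vh : VE (-2) ((2 : ℚ)⁻¹ * 2⁻¹) := (VE_half.mul VE_half).congr (by norm_num) rfl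
  -- `r (4 m + 4)`
  have V4 : VE (-6 * m - 1) (F * r (4 * m + 4)) := by
    have e : x (4 * m + 4) * (F * r (4 * m + 4)) = (3 : ℤ) * 2⁻¹ * -x (4 * m + 4) *
        (F * r (4 * m + 3)) + (((2 * m + 3 : ℤ) : ℚ) * x (4 * m + 3) * (F * r (4 * m + 3)) -
          ((m : ℤ) : ℚ) * ρ0) := by
      push_cast
      linear_combination F * E4 - hρ0 + F * r (4 * m + 3) * -y31
    have h1 : VE (-5 * m) ((3 : ℤ) * 2⁻¹ * -x (4 * m + 4) * (F * r (4 * m + 3))) :=
      ((((VE_odd (n := 3) (by norm_num)).mul VE_half).mul hx4.neg).mul h3).congr (by ring) rfl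
    have h2 : VV (-5 * m + 1) (((2 * m + 3 : ℤ) : ℚ) * x (4 * m + 3) * (F * r (4 * m + 3)) -
        ((m : ℤ) : ℚ) * ρ0) :=
      ((((VV_int (2 * m + 3)).mul hx3).mul h3.toV).mono (by omega)).sub
        (((VV_int m).mul vρ0).mono (by omega))
    have h3' := h1.add_VV h2 (by omega)
    rw [← e] at h3'
    exact (hx4.of_mul h3').congr (by ring) rfl
  -- `r (4 m + 5)`
  have V5 : ∃ t : ℚ, F * r (4 * m + 5) = m * t ∧ VE (-6 * m) t := by
    have h1 : VE (-5 * m + 1) (((2 * m + 3 : ℤ) : ℚ) * (2⁻¹ * 2⁻¹) * q *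
        (((4 * m + 1 : ℤ) : ℚ) + 2 * (2 * (2 * ((m + 1 : ℤ) : ℚ))) * u) * (F * r (4 * m + 3))) := by
      have a1 := VE_odd (n := 4 * m + 1) (by omega)
      have a2 := (VE_two.toV.mul (VE_two.toV.mul (VE_two.toV.mul (VV_int (m + 1))))).mul vu
      exact (((((VE_odd (n := 2 * m + 3) (by omega)).mul vh).mul hqv).mul
        (a1.add_VV a2 (by norm_num))).mul h3).congr (by ring) rfl
    have h2 : VV (-5 * m + 2) (ρ1 + 2 * ((m + 1 : ℤ) : ℚ) * (((1 : ℤ) : ℚ) + u) * ρ0) := by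
      refine vρ1.add ?_
      exact (((VE_two.toV.mul (VV_int (m + 1))).mul ((VV_int 1).add (vu.mono (by norm_num)))).mul
        vρ0).mono (by omega)
    have h3' := h1.sub_VV h2 (by omega)
    have e : x (4 * m + 5) * (F * r (4 * m + 5)) = m * (((2 * m + 3 : ℤ) : ℚ) * (2⁻¹ * 2⁻¹) * q *
        (((4 * m + 1 : ℤ) : ℚ) + 2 * (2 * (2 * ((m + 1 : ℤ) : ℚ))) * u) * (F * r (4 * m + 3)) -
        (ρ1 + 2 * ((m + 1 : ℤ) : ℚ) * (((1 : ℤ) : ℚ) + u) * ρ0)) := by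
      have e1 : y (4 * m + 4) 1 = -((2 * m + 2) * (1 + u) * x (4 * m + 4)) := by
        rw [y41, r5, hu]
        ring
      have e2 : y (4 * m + 4) 1 * r (4 * m + 4) = (2 * m + 2) * (1 + u) *
          (R0 + y (4 * m + 3) 1 * r (4 * m + 3)) := by
        rw [e1]
        linear_combination -((2 * (m : ℚ) + 2) * (1 + u)) * E4
      rw [e2, y31, y32] at E5
      push_cast
      linear_combination F * E5 - hρ1 - (2 * (m : ℚ) + 2) * (1 + u) * hρ0 +
        ((2 * (m : ℚ) + 3) * (2⁻¹ * 2⁻¹) * ((4 * m + 1) + 8 * (m + 1) * u) * F *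
          r (4 * m + 3)) * hq + 3 * ((m : ℚ) + 1) * F * r (4 * m + 3) * hu
    obtain ⟨W, hW⟩ : ∃ W : ℚ, W = ((2 * m + 3 : ℤ) : ℚ) * (2⁻¹ * 2⁻¹) * q *
        (((4 * m + 1 : ℤ) : ℚ) + 2 * (2 * (2 * ((m + 1 : ℤ) : ℚ))) * u) * (F * r (4 * m + 3)) -
        (ρ1 + 2 * ((m + 1 : ℤ) : ℚ) * (((1 : ℤ) : ℚ) + u) * ρ0) := ⟨_, rfl⟩
    rw [← hW] at e h3'
    refine ⟨(x (4 * m + 5))⁻¹ * W, ?_, ?_⟩
    · have e5 : (x (4 * m + 5))⁻¹ * (x (4 * m + 5) * (F * r (4 * m + 5))) = F * r (4 * m + 5) := by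
        rw [← mul_assoc, inv_mul_cancel₀ hx5n, one_mul]
      rw [← e5, e]
      ring
    · have h5 : VE (-(m + 1)) ((x (4 * m + 5))⁻¹) := by
        have h1 : VE 0 (x (4 * m + 5) * (x (4 * m + 5))⁻¹) := by
          rw [mul_inv_cancel₀ hx5n]
          exact VE_one
        exact (hx5.of_mul h1).congr (by ring) rfl
      exact (h5.mul h3').congr (by ring) rfl
  obtain ⟨t5, ht5, vt5⟩ := V5
  have V5' : VV (-6 * m) (F * r (4 * m + 5)) := by
    rw [ht5]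
    exact ((VV_int m).mul vt5.toV).congr (by omega) (by push_cast; ring)
  -- `r (4 m + 6)`
  have V6 : VE (-6 * m - 3) (F * r (4 * m + 6)) := by
    have e : x (4 * m + 6) * (F * r (4 * m + 6)) =
        (((4 * m + 3) * (4 * m ^ 2 + 5 * m + 2) : ℤ) : ℚ) * (2⁻¹ * 2⁻¹) * x (4 * m + 2) *
          (F * r (4 * m + 3)) +
        -(((m + 1 : ℤ) : ℚ) * (((4 * m - 1 : ℤ) : ℚ) * 2⁻¹ * x (4 * m + 4) +
          ((4 * m + 5 : ℤ) : ℚ) * x (4 * m + 3)) * (F * r (4 * m + 4))) +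
        ((((4 * m + 3) * (4 * m ^ 2 - 9 * m - 7) : ℤ) : ℚ) / 3 * (2⁻¹ * 2⁻¹) * x (4 * m + 3) *
          (F * r (4 * m + 3)) +
        ((4 * m + 5 : ℤ) : ℚ) * (x (4 * m + 4) - 2 * (((m + 1 : ℤ) : ℚ) / 3) * x (4 * m + 3)) *
          (F * r (4 * m + 5)) - ((m : ℤ) : ℚ) * ρ2) := by
      rw [y33, y42, y51, r6, r5, r4] at E6
      push_cast
      rw [r6, r5, r4]
      linear_combination F * E6 - hρ2
    have hrest : VV (-5 * m) ((((4 * m + 3) * (4 * m ^ 2 - 9 * m - 7) : ℤ) : ℚ) / 3 * (2⁻¹ * 2⁻¹) *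
          x (4 * m + 3) * (F * r (4 * m + 3)) +
        ((4 * m + 5 : ℤ) : ℚ) * (x (4 * m + 4) - 2 * (((m + 1 : ℤ) : ℚ) / 3) * x (4 * m + 3)) *
          (F * r (4 * m + 5)) - ((m : ℤ) : ℚ) * ρ2) := by
      refine VV.sub (VV.add ?_ ?_) ?_
      · exact ((((VV_third _).mul vh.toV).mul hx3).mul h3.toV).mono (by omega)
      · refine (((VV_int (4 * m + 5)).mul (hx4.toV.sub ?_)).mul V5').mono
          (show -5 * (m : ℤ) ≤ 0 + (m + 1) + (-6 * m) by omega)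
        exact ((VE_two.toV.mul (VV_third (m + 1))).mul hx3).mono (by omega)
      · exact ((VV_int m).mul vρ2).mono (by omega)
    have hmain : VE (-5 * m - 1) ((((4 * m + 3) * (4 * m ^ 2 + 5 * m + 2) : ℤ) : ℚ) *
          (2⁻¹ * 2⁻¹) * x (4 * m + 2) * (F * r (4 * m + 3)) +
        -(((m + 1 : ℤ) : ℚ) * (((4 * m - 1 : ℤ) : ℚ) * 2⁻¹ * x (4 * m + 4) +
          ((4 * m + 5 : ℤ) : ℚ) * x (4 * m + 3)) * (F * r (4 * m + 4)))) := by
      have hin : VE m (((4 * m - 1 : ℤ) : ℚ) * 2⁻¹ * x (4 * m + 4) +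
          ((4 * m + 5 : ℤ) : ℚ) * x (4 * m + 3)) := by
        have a1 := ((VE_odd (n := 4 * m - 1) (by omega)).mul VE_half).mul hx4
        have a2 := (VV_int (4 * m + 5)).mul hx3
        exact (a1.add_VV a2 (by omega)).congr (by ring) rfl
      rcases Nat.even_or_odd' m with ⟨c, hc | hc⟩
      · have a1 : VV (-5 * m) ((((4 * m + 3) * (4 * m ^ 2 + 5 * m + 2) : ℤ) : ℚ) *
          (2⁻¹ * 2⁻¹) * x (4 * m + 2) * (F * r (4 * m + 3))) := by
          have b1 : (((4 * m + 3) * (4 * m ^ 2 + 5 * m + 2) : ℤ) : ℚ) =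
              2 * (((4 * m + 3) * (2 * m ^ 2 + 5 * c + 1) : ℤ) : ℚ) := by
            have hc' : (m : ℚ) = 2 * c := by exact_mod_cast hc
            push_cast
            rw [hc']
            ring
          rw [b1]
          exact ((((VE_two.toV.mul (VV_int _)).mul vh.toV).mul hx2.toV).mul h3.toV).mono (by omega)
        have a2 : VE (-5 * m - 1) (-(((m + 1 : ℤ) : ℚ) * (((4 * m - 1 : ℤ) : ℚ) * 2⁻¹ *
            x (4 * m + 4) + ((4 * m + 5 : ℤ) : ℚ) * x (4 * m + 3)) * (F * r (4 * m + 4)))) :=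
          ((((VE_odd (n := m + 1) (by omega)).mul hin).mul V4).neg).congr (by ring) rfl
        exact a1.add_VE a2 (by omega)
      · have a1 : VE (-5 * m - 1) ((((4 * m + 3) * (4 * m ^ 2 + 5 * m + 2) : ℤ) : ℚ) *
          (2⁻¹ * 2⁻¹) * x (4 * m + 2) * (F * r (4 * m + 3))) := by
          have b1 : ¬ (2 : ℤ) ∣ ((4 * m + 3) * (4 * m ^ 2 + 5 * m + 2) : ℤ) := by
            intro hd
            rcases Int.prime_two.dvd_mul.1 hd with hd | hd
            · omega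
            · obtain ⟨d, hd⟩ := hd
              have hc' : (m : ℤ) = 2 * c + 1 := by exact_mod_cast hc
              have : (2 : ℤ) * (d - 2 * m ^ 2 - 5 * c - 3) = 1 := by
                linear_combination -hd + 5 * hc'
              omega
          exact ((((VE_odd b1).mul vh).mul hx2).mul h3).congr (by ring) rfl
        have a2 : VV (-5 * m) (-(((m + 1 : ℤ) : ℚ) * (((4 * m - 1 : ℤ) : ℚ) * 2⁻¹ *
            x (4 * m + 4) + ((4 * m + 5 : ℤ) : ℚ) * x (4 * m + 3)) * (F * r (4 * m + 4)))) := by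
          have b1 : ((m + 1 : ℤ) : ℚ) = 2 * ((c + 1 : ℤ) : ℚ) := by
            have hc' : (m : ℚ) = 2 * c + 1 := by exact_mod_cast hc
            push_cast
            rw [hc']
            ring
          rw [b1]
          exact ((((VE_two.toV.mul (VV_int _)).mul hin.toV).mul V4.toV).neg).mono (by omega)
        exact a1.add_VV a2 (by omega)
    have h3' := hmain.add_VV hrest (by omega)
    rw [← e] at h3'
    exact (hx6.of_mul h3').congr (by ring) rfl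
  refine ⟨⟨h3, V4, ⟨t5, ht5, vt5⟩, V6⟩, ?_⟩
  -- `r (4 m + 7)`
  have e : q' * (((m + 1).factorial : ℚ) * r (4 * m + 7)) =
      ((2 * m + 3 : ℤ) : ℚ) * (x (4 * m + 6) + x (4 * m + 5)) * (F * r (4 * m + 6)) +
      -(y (4 * m + 3) 4 * (F * r (4 * m + 3)) + y (4 * m + 4) 3 * (F * r (4 * m + 4)) +
        y (4 * m + 5) 2 * (F * r (4 * m + 5)) + ((m : ℤ) : ℚ) * ρ3) := by
    have e1 : x (4 * m + 7) = ((m : ℚ) + 1) * q' := by
      rw [show 4 * m + 7 = 4 * (m + 1) + 3 from by ring, hq']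
      push_cast
      ring
    have e2 : ((m + 1).factorial : ℚ) = ((m : ℚ) + 1) * F := by
      rw [Nat.factorial_succ, hF]
      push_cast
      ring
    have e3 : y (4 * m + 6) 1 = -(((2 * m + 3 : ℤ) : ℚ) * (x (4 * m + 6) + x (4 * m + 5))) := by
      rw [y61, r7]
      push_cast
      ring
    rw [e3, e1] at E7
    rw [e2]
    linear_combination F * E7 - hρ3
  have h6 : VE (-5 * m - 2) (((2 * m + 3 : ℤ) : ℚ) * (x (4 * m + 6) + x (4 * m + 5)) *
      (F * r (4 * m + 6))) :=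
    (((VE_odd (n := 2 * m + 3) (by omega)).mul (hx6.toV.add_VE hx5 (by omega))).mul V6).congr
      (by ring) rfl
  have h7 : VV (-5 * m - 1) (-(y (4 * m + 3) 4 * (F * r (4 * m + 3)) +
      y (4 * m + 4) 3 * (F * r (4 * m + 4)) +
        y (4 * m + 5) 2 * (F * r (4 * m + 5)) + ((m : ℤ) : ℚ) * ρ3)) := by
    refine (VV.add (VV.add (VV.add ?_ ?_) ?_) ?_).neg
    · exact ((hy.boundY (4 * m + 3) 4 (m - 1) (by omega)).mul h3.toV).mono (by omega)
    · exact ((hy.boundY (4 * m + 4) 3 m (by omega)).mul V4.toV).mono (by omega)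
    · exact ((hy.boundY (4 * m + 5) 2 m (by omega)).mul V5').mono (by omega)
    · exact ((VV_int m).mul vρ3).mono (by omega)
  have h8 := h6.add_VV h7 (by omega)
  rw [← e] at h8
  exact (hqv'.of_mul h8).congr (by push_cast; ring) rfl

theorem JR.all (hy : JY x y) (hr : JR x y r) (m : ℕ) :
    JB r m ∧ VE (-6 * (m + 1)) (((m + 1).factorial : ℚ) * r (4 * m + 7)) := by
  induction m using Nat.strong_induction_on with
  | _ m ih =>
    refine JR.step hy hr (fun k hk => (ih k hk).1) ?_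
    rcases m with _ | m
    · rw [Nat.factorial_zero]
      exact hr.r3.congr (by norm_num) (by norm_num)
    · have h := (ih m (by omega)).2
      rw [show 4 * m + 7 = 4 * (m + 1) + 3 from by ring] at h
      exact h.congr (by push_cast; ring) rfl

/-- the residues do not vanish, except for `l = 5` -/
theorem JR.ne_zero (hy : JY x y) (hr : JR x y r) {l : ℕ} (hl : 3 ≤ l) (h5 : l ≠ 5) : r l ≠ 0 := by
  obtain ⟨m, i, hi, rfl⟩ : ∃ m i : ℕ, i < 4 ∧ l = 4 * m + 3 + i :=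
    ⟨(l - 3) / 4, (l - 3) % 4, Nat.mod_lt _ (by norm_num), by omega⟩
  have hB := (JR.all hy hr m).1
  intro h0
  have hi4 : i = 0 ∨ i = 1 ∨ i = 2 ∨ i = 3 := by omega
  rcases hi4 with rfl | rfl | rfl | rfl
  · have := hB.b3.ne_zero
    rw [show 4 * m + 3 = 4 * m + 3 + 0 from rfl, h0, mul_zero] at this
    exact this rfl
  · have := hB.b4.ne_zero
    rw [show 4 * m + 4 = 4 * m + 3 + 1 from rfl, h0, mul_zero] at this
    exact this rfl
  · obtain ⟨t, ht, htv⟩ := hB.b5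
    rw [show 4 * m + 5 = 4 * m + 3 + 2 from rfl, h0, mul_zero] at ht
    have hm : (m : ℚ) ≠ 0 := by
      rw [Nat.cast_ne_zero]
      rintro rfl
      exact h5 rfl
    exact htv.ne_zero ((mul_eq_zero.1 ht.symm).resolve_left hm)
  · have := hB.b6.ne_zero
    rw [show 4 * m + 6 = 4 * m + 3 + 3 from rfl, h0, mul_zero] at this
    exact this rfl

end

end Orch
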