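import Pool.Agent.Lib.Orch.Alg
import Pool.Agent.Lib.Orch.J3R

/-!
The numerators at the root `1/6` of `X_3`: they are nonzero for all `l ≥ 3`, `l ≠ 5`.
-/

namespace Orch

open Finset

/-- the numerators do not vanish at the root `1/6` of `X_3`, except for `l = 5` -/
def S_J3 : Prop := ∀ l : ℕ, 3 ≤ l → l ≠ 5 → te (1 / 6 : ℚ) l ≠ 0

theorem J3_jy (hxe : S_xeRec) (hHPc : S_HPc) :
    JY (xe (1 / 6 : ℚ)) (fun s n => he (1 / 6 : ℚ) (s + n) s) := by
  have hx := hxe ℚ (1 / 6)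
  have hc : ∀ s n : ℕ, he (1 / 6 : ℚ) (s + n) s = (HP (1 / 6 : ℚ) s).coeff (s + n) := by
    intro s n
    rw [hHPc, if_pos (by omega)]
  have hz : ∀ s l : ℕ, l < s → (HP (1 / 6 : ℚ) s).coeff l = 0 := by
    intro s l h
    rw [hHPc, if_neg (by omega)]
  have hrec : ∀ s k : ℕ, (HP (1 / 6 : ℚ) (s + 2)).coeff (k + 2) =
      (HP (1 / 6 : ℚ) (s + 1)).coeff (k + 1) - (HP (1 / 6 : ℚ) (s + 1)).coeff k -
      ((s : ℚ) + 1) / 3 * ((HP (1 / 6 : ℚ) s).coeff k -
        (Polynomial.X * HP (1 / 6 : ℚ) s).coeff k) := by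
    intro s k
    rw [HP]
    have e1 : (Polynomial.X - Polynomial.X ^ 2) * HP (1 / 6 : ℚ) (s + 1) =
        HP (1 / 6 : ℚ) (s + 1) * Polynomial.X - HP (1 / 6 : ℚ) (s + 1) * Polynomial.X ^ 2 := by ring
    have e2 : Polynomial.C (2 * ((s + 1 : ℕ) : ℚ) * (1 / 6)) *
        (Polynomial.X ^ 2 - Polynomial.X ^ 3) * HP (1 / 6 : ℚ) s =
        Polynomial.C (2 * ((s + 1 : ℕ) : ℚ) * (1 / 6)) * ((HP (1 / 6 : ℚ) s -
          Polynomial.X * HP (1 / 6 : ℚ) s) * Polynomial.X ^ 2) := by ring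
    rw [e1, e2, Polynomial.coeff_sub, Polynomial.coeff_sub, Polynomial.coeff_C_mul,
      Polynomial.coeff_mul_X_pow, Polynomial.coeff_mul_X_pow, Polynomial.coeff_sub,
      show k + 2 = k + 1 + 1 from rfl, Polynomial.coeff_mul_X]
    push_cast
    ring
  refine ⟨hx.1, hx.2.1, ?_, ?_, ?_, ?_, ?_, ?_, ?_, ?_⟩
  · intro s
    rw [hx.2.2 s]
    push_cast
    ring
  · rw [hc, HP, Polynomial.coeff_one]
    rfl
  · intro n
    rw [hc, HP, Polynomial.coeff_one, if_neg (by omega)]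
  · rw [hc, HP, Polynomial.coeff_sub, Polynomial.coeff_X, Polynomial.coeff_X_pow]
    norm_num
  · rw [hc, HP, Polynomial.coeff_sub, Polynomial.coeff_X, Polynomial.coeff_X_pow]
    norm_num
  · intro n
    rw [hc, HP, Polynomial.coeff_sub, Polynomial.coeff_X, Polynomial.coeff_X_pow,
      if_neg (by omega), if_neg (by omega), sub_zero]
  · intro s
    rw [hc, hc, hc]
    have h1 := hrec s s
    rw [hz (s + 1) s (by omega)] at h1
    have h2 : (Polynomial.X * HP (1 / 6 : ℚ) s).coeff s = 0 := by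
      rcases s with _ | s
      · rw [Polynomial.coeff_X_mul_zero]
      · rw [Polynomial.coeff_X_mul, hz (s + 1) s (by omega)]
    rw [h2] at h1
    rw [show s + 2 + 0 = s + 2 from rfl, h1, show s + 1 + 0 = s + 1 from rfl,
      show s + 0 = s from rfl]
    ring
  · intro s n
    rw [hc, hc, hc, hc, hc]
    have h1 := hrec s (s + n + 1)
    rw [Polynomial.coeff_X_mul] at h1
    rw [show s + 2 + (n + 1) = s + n + 1 + 2 from by ring, h1,
      show s + 1 + (n + 1) = s + n + 1 + 1 from by ring, show s + 1 + n = s + n + 1 from by ring,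
      show s + (n + 1) = s + n + 1 from rfl]

theorem c_J3 (hte : S_teRec) (hxe : S_xeRec) (hHPc : S_HPc) : S_J3 := by
  have hy := J3_jy hxe hHPc
  set x : ℕ → ℚ := xe (1 / 6 : ℚ) with hxdef
  have hx3 : x 3 = 0 := by
    obtain ⟨⟨q, hq, -⟩, -⟩ := hy.xA 0
    rw [show (3 : ℕ) = 4 * 0 + 3 from rfl, hq]
    norm_num
  have hxn : ∀ i : ℕ, 4 ≤ i → x i ≠ 0 := by
    intro i hi
    obtain ⟨m, c, hc, rfl⟩ : ∃ m c : ℕ, c < 4 ∧ i = 4 * m + 4 + c :=
      ⟨(i - 4) / 4, (i - 4) % 4, Nat.mod_lt _ (by norm_num), by omega⟩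
    have hc4 : c = 0 ∨ c = 1 ∨ c = 2 ∨ c = 3 := by omega
    rcases hc4 with rfl | rfl | rfl | rfl
    · exact (hy.xA m).2.ne_zero
    · exact (hy.x5 m).ne_zero
    · exact (hy.x6 m).ne_zero
    · obtain ⟨⟨q, hq, hqv⟩, -⟩ := hy.xA (m + 1)
      rw [show 4 * m + 4 + 3 = 4 * (m + 1) + 3 from by ring, hq]
      exact mul_ne_zero (by exact_mod_cast Nat.succ_ne_zero m) hqv.ne_zero
  have hP : ∀ l : ℕ, ∏ i ∈ Ioo 3 l, x i ≠ 0 := by
    intro l
    rw [prod_ne_zero_iff]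
    intro i hi
    rw [mem_Ioo] at hi
    exact hxn i (by omega)
  have hD : ∀ l : ℕ, ∏ i ∈ Ioc 3 l, x i ≠ 0 := by
    intro l
    rw [prod_ne_zero_iff]
    intro i hi
    rw [mem_Ioc] at hi
    exact hxn i (by omega)
  have hy11 : he (1 / 6 : ℚ) 2 1 = -1 := hy.y11
  have hy12 : he (1 / 6 : ℚ) 3 1 = 0 := hy.y1 0
  have hy21 : he (1 / 6 : ℚ) 3 2 = -(5 / 3) := by
    have h1 := (hy.yform 2).2.1
    have h2 : x 2 = 2 / 3 := by
      have := hy.x2 0
      rw [show (0 + 2 : ℕ) = 2 from rfl, show (0 + 1 : ℕ) = 1 from rfl, hy.x1, hy.x0] at this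
      rw [this]
      norm_num
    rw [show 2 + 1 = 3 from rfl, hx3, h2] at h1
    rw [h1]
    norm_num
  have t0 : te (1 / 6 : ℚ) 0 = 0 := by rw [te]
  have t1 : te (1 / 6 : ℚ) 1 = 1 := by rw [te]
  have t2 : te (1 / 6 : ℚ) 2 = 1 := by
    rw [hte ℚ (1 / 6) 2 le_rfl, sum_range_succ, sum_range_succ, sum_range_zero, t0, t1, hy11,
      show Ioo 1 2 = (∅ : Finset ℕ) from rfl, prod_empty]
    norm_num
  have t3 : te (1 / 6 : ℚ) 3 = 5 / 3 := by
    rw [hte ℚ (1 / 6) 3 (by norm_num), sum_range_succ, sum_range_succ, sum_range_succ,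
      sum_range_zero, t0, t1, t2, hy12, hy21, show Ioo 2 3 = (∅ : Finset ℕ) from rfl, prod_empty]
    norm_num
  have hr : JR x (fun s n => he (1 / 6 : ℚ) (s + n) s)
      (fun l => te (1 / 6 : ℚ) l / ∏ i ∈ Ioc 3 l, x i) := by
    constructor
    · rw [t3, show Ioc 3 3 = (∅ : Finset ℕ) from rfl, prod_empty, div_one]
      exact (VE_div_odd (z := 5) (n := 3) (by norm_num) (by norm_num)).congr rfl (by norm_num)
    · intro l hl
      have e1 : ∏ i ∈ Ioc 3 l, x i = (∏ i ∈ Ioo 3 l, x i) * x l := by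
        rw [← Ioo_insert_right (by omega : 3 < l), prod_insert right_notMem_Ioo, mul_comm]
      have e2 : te (1 / 6 : ℚ) l = -∑ s ∈ Ico 3 l, he (1 / 6 : ℚ) l s *
          (te (1 / 6 : ℚ) s / ∏ i ∈ Ioc 3 s, x i) * ∏ i ∈ Ioo 3 l, x i := by
        rw [hte ℚ (1 / 6) l (by omega), range_eq_Ico,
          ← sum_Ico_consecutive _ (Nat.zero_le 3) (by omega : 3 ≤ l)]
        have e3 : ∑ s ∈ Ico 0 3, he (1 / 6 : ℚ) l s * te (1 / 6 : ℚ) s *
            ∏ i ∈ Ioo s l, xe (1 / 6 : ℚ) i = 0 := by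
          refine sum_eq_zero fun s hs => ?_
          rw [mem_Ico] at hs
          rw [prod_eq_zero (i := 3) (mem_Ioo.2 (by omega)) hx3, mul_zero]
        rw [e3, zero_add]
        congr 1
        refine sum_congr rfl fun s hs => ?_
        rw [mem_Ico] at hs
        have e4 : (∏ i ∈ Ioc 3 s, x i) * ∏ i ∈ Ioo s l, x i = ∏ i ∈ Ioo 3 l, x i := by
          rw [← prod_union]
          · congr 1
            ext i
            simp only [mem_union, mem_Ioc, mem_Ioo]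
            omega
          · rw [disjoint_left]
            intro i hi
            simp only [mem_Ioc, mem_Ioo] at hi ⊢
            omega
        rw [← e4]
        have e6 := hD s
        rw [hxdef] at e6 ⊢
        field_simp
      rw [e1, e2]
      have e5 : ∑ s ∈ Ico 3 l, he (1 / 6 : ℚ) (s + (l - s)) s *
          (te (1 / 6 : ℚ) s / ∏ i ∈ Ioc 3 s, x i) =
          ∑ s ∈ Ico 3 l, he (1 / 6 : ℚ) l s * (te (1 / 6 : ℚ) s / ∏ i ∈ Ioc 3 s, x i) := by
        refine sum_congr rfl fun s hs => ?_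
        rw [mem_Ico] at hs
        rw [show s + (l - s) = l from by omega]
      rw [e5, ← sum_mul]
      have h1 := hP l
      have h2 := hxn l hl
      field_simp
  intro l hl h5 h0
  have := hr.ne_zero hy hl h5
  rw [h0, zero_div] at this
  exact this rfl

end Orch
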