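import Mathlib

/-!
A small calculus of 2-adic valuations of rational numbers: `VV a q` means `v(q) ≥ a`,
`VE a q` means `v(q) = a`.
-/

namespace Orch

open Finset

/-- the 2-adic valuation of `q` is at least `a` -/
def VV (a : ℤ) (q : ℚ) : Prop := padicNorm 2 q ≤ (2 : ℚ) ^ (-a)

/-- the 2-adic valuation of `q` is `a` -/
def VE (a : ℤ) (q : ℚ) : Prop := padicNorm 2 q = (2 : ℚ) ^ (-a)

theorem VE.toV {a : ℤ} {q : ℚ} (h : VE a q) : VV a q := le_of_eq h

theorem VV.mono {a b : ℤ} {q : ℚ} (h : VV b q) (hab : a ≤ b) : VV a q :=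
  le_trans (show padicNorm 2 q ≤ (2 : ℚ) ^ (-b) from h)
    (zpow_le_zpow_right₀ (by norm_num) (by omega))

theorem VV_zero (a : ℤ) : VV a 0 := by
  unfold VV
  rw [padicNorm.zero]
  positivity

theorem VV.add {a : ℤ} {p q : ℚ} (hp : VV a p) (hq : VV a q) : VV a (p + q) :=
  le_trans padicNorm.nonarchimedean (max_le hp hq)

theorem VV.neg {a : ℤ} {p : ℚ} (hp : VV a p) : VV a (-p) := by
  unfold VV at hp ⊢
  rw [padicNorm.neg]
  exact hp

theorem VV.sub {a : ℤ} {p q : ℚ} (hp : VV a p) (hq : VV a q) : VV a (p - q) := by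
  rw [sub_eq_add_neg]
  exact hp.add hq.neg

theorem VE.neg {a : ℤ} {p : ℚ} (hp : VE a p) : VE a (-p) := by
  unfold VE at hp ⊢
  rw [padicNorm.neg]
  exact hp

theorem VV.mul {a b : ℤ} {p q : ℚ} (hp : VV a p) (hq : VV b q) : VV (a + b) (p * q) := by
  unfold VV at hp hq ⊢
  rw [padicNorm.mul, neg_add, zpow_add₀ (by norm_num)]
  exact mul_le_mul hp hq (padicNorm.nonneg _) (by positivity)

theorem VE.mul {a b : ℤ} {p q : ℚ} (hp : VE a p) (hq : VE b q) : VE (a + b) (p * q) := by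
  unfold VE at hp hq ⊢
  rw [padicNorm.mul, neg_add, zpow_add₀ (by norm_num), hp, hq]

theorem VE.ne_zero {a : ℤ} {p : ℚ} (hp : VE a p) : p ≠ 0 := by
  rintro rfl
  unfold VE at hp
  rw [padicNorm.zero] at hp
  have h : (0 : ℚ) < (2 : ℚ) ^ (-a) := by positivity
  rw [← hp] at h
  exact lt_irrefl _ h

theorem VE.of_mul {a b : ℤ} {p q : ℚ} (hp : VE a p) (hq : VE b (p * q)) : VE (b - a) q := by
  unfold VE at hp hq ⊢
  rw [padicNorm.mul, hp] at hq
  have h : (2 : ℚ) ^ (-a) ≠ 0 := by positivity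
  have h2 : padicNorm 2 q = (2 : ℚ) ^ (-b) / (2 : ℚ) ^ (-a) := by
    rw [eq_div_iff h, mul_comm]
    exact hq
  rw [h2, ← zpow_sub₀ (by norm_num)]
  congr 1
  ring

theorem VE.add_VV {a b : ℤ} {p q : ℚ} (hp : VE a p) (hq : VV b q) (hab : a < b) :
    VE a (p + q) := by
  unfold VE at hp ⊢
  have h : padicNorm 2 q < padicNorm 2 p := by
    rw [hp]
    exact lt_of_le_of_lt (show padicNorm 2 q ≤ (2 : ℚ) ^ (-b) from hq)
      (zpow_lt_zpow_right₀ (by norm_num) (by omega))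
  rw [padicNorm.add_eq_max_of_ne h.ne', max_eq_left h.le, hp]

theorem VV.add_VE {a b : ℤ} {p q : ℚ} (hp : VV b p) (hq : VE a q) (hab : a < b) :
    VE a (p + q) := by
  rw [add_comm]
  exact hq.add_VV hp hab

theorem VE.sub_VV {a b : ℤ} {p q : ℚ} (hp : VE a p) (hq : VV b q) (hab : a < b) :
    VE a (p - q) := by
  rw [sub_eq_add_neg]
  exact hp.add_VV hq.neg hab

theorem VV.sum {ι : Type} {s : Finset ι} {f : ι → ℚ} {a : ℤ} (h : ∀ i ∈ s, VV a (f i)) :
    VV a (∑ i ∈ s, f i) := by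
  classical
  induction s using Finset.induction_on with
  | empty =>
    rw [sum_empty]
    exact VV_zero a
  | insert i s hi ih =>
    rw [sum_insert hi]
    exact (h i (mem_insert_self i s)).add (ih fun k hk => h k (mem_insert_of_mem hk))

theorem VV_int (z : ℤ) : VV 0 (z : ℚ) := by
  unfold VV
  rw [neg_zero, zpow_zero]
  exact padicNorm.of_int z

theorem VV_nat (n : ℕ) : VV 0 (n : ℚ) := by
  have h := VV_int (n : ℤ)
  rw [Int.cast_natCast] at h
  exact h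

theorem VE_odd {n : ℤ} (h : ¬ (2 : ℤ) ∣ n) : VE 0 (n : ℚ) := by
  unfold VE
  rw [neg_zero, zpow_zero]
  exact padicNorm.int_eq_one_iff n |>.2 (by exact_mod_cast h)

theorem VE_two : VE 1 (2 : ℚ) := by
  unfold VE
  have h := padicNorm.padicNorm_p (p := 2) (by norm_num)
  rw [zpow_neg_one]
  exact_mod_cast h

theorem VE_one : VE 0 (1 : ℚ) := by
  have h := VE_odd (n := 1) (by norm_num)
  rw [Int.cast_one] at h
  exact h

theorem VE_inv_odd {n : ℤ} (h : ¬ (2 : ℤ) ∣ n) : VE 0 ((n : ℚ)⁻¹) := by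
  have h1 := VE_odd h
  have h2 : VE 0 ((n : ℚ) * (n : ℚ)⁻¹) := by
    rw [mul_inv_cancel₀ h1.ne_zero]
    exact VE_one
  have h3 := h1.of_mul h2
  rw [sub_zero] at h3
  exact h3

/-- an integer divided by an odd integer -/
theorem VV_div_odd (z : ℤ) {n : ℤ} (h : ¬ (2 : ℤ) ∣ n) : VV 0 ((z : ℚ) / n) := by
  rw [div_eq_mul_inv]
  have h1 := (VV_int z).mul (VE_inv_odd h).toV
  rw [add_zero] at h1
  exact h1

theorem VE_div_odd {z n : ℤ} (hz : ¬ (2 : ℤ) ∣ z) (h : ¬ (2 : ℤ) ∣ n) : VE 0 ((z : ℚ) / n) := by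
  rw [div_eq_mul_inv]
  have h1 := (VE_odd hz).mul (VE_inv_odd h)
  rw [add_zero] at h1
  exact h1

theorem VE_half : VE (-1) ((2 : ℚ)⁻¹) := by
  have h2 : VE 0 ((2 : ℚ) * (2 : ℚ)⁻¹) := by
    rw [mul_inv_cancel₀ (by norm_num)]
    exact VE_one
  have h3 := VE_two.of_mul h2
  rw [zero_sub] at h3
  exact h3

theorem VE.congr {a b : ℤ} {p q : ℚ} (h : VE a p) (hab : a = b) (hpq : p = q) : VE b q := by
  rw [← hab, ← hpq]
  exact h

theorem VV.congr {a b : ℤ} {p q : ℚ} (h : VV a p) (hab : b ≤ a) (hpq : p = q) : VV b q := by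
  rw [← hpq]
  exact h.mono hab

end Orch
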