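import Pool.Agent.Lib.Orch.J3V

/-!
The 2-adic valuations of the values `x s` of the polynomials `X_s` at the root `1/6` of `X_3` and of
the coefficients `y s n`.
-/

namespace Orch

open Finset

/-- the two sequences -/
structure JY (x : ℕ → ℚ) (y : ℕ → ℕ → ℚ) : Prop where
  x0 : x 0 = 1
  x1 : x 1 = 1
  x2 : ∀ s : ℕ, x (s + 2) = x (s + 1) - ((s : ℚ) + 1) / 3 * x s
  y00 : y 0 0 = 1
  y0 : ∀ n : ℕ, y 0 (n + 1) = 0
  y10 : y 1 0 = 1
  y11 : y 1 1 = -1
  y1 : ∀ n : ℕ, y 1 (n + 2) = 0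
  yz : ∀ s : ℕ, y (s + 2) 0 = y (s + 1) 0 - ((s : ℚ) + 1) / 3 * y s 0
  ys : ∀ s n : ℕ, y (s + 2) (n + 1) = y (s + 1) (n + 1) - y (s + 1) n -
    ((s : ℚ) + 1) / 3 * (y s (n + 1) - y s n)

section

variable {x : ℕ → ℚ} {y : ℕ → ℕ → ℚ}

theorem JY.yform (h : JY x y) (s : ℕ) :
    y s 0 = x s ∧ y s 1 = -((((s : ℚ) + 3) * x s - 3 * x (s + 1)) / 2) ∧
    y s 2 = (((s : ℚ) ^ 2 + s + 6) * x s - 6 * ((s : ℚ) + 1) * x (s + 1)) / 8 ∧
    y s 3 = -((((s : ℚ) ^ 3 - 6 * s ^ 2 - s + 18) * x s -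
      9 * ((s : ℚ) ^ 2 - s + 2) * x (s + 1)) / 48) := by
  induction s using Nat.strong_induction_on with
  | _ s ih =>
    rcases s with _ | _ | s
    · have e1 : x (0 + 1) = 1 := h.x1
      rw [e1, h.x0, h.y00, h.y0 0, h.y0 1, h.y0 2]
      norm_num
    · have e2 : x (0 + 1 + 1) = 2 / 3 := by
        have := h.x2 0
        rw [show (0 + 2 : ℕ) = 0 + 1 + 1 from rfl, show (0 + 1 : ℕ) = 1 from rfl, h.x1, h.x0] at this
        rw [this]
        norm_num
      have e1 : x (0 + 1) = 1 := h.x1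
      rw [e1, e2]
      have a0 : y (0 + 1) 0 = 1 := h.y10
      have a1 : y (0 + 1) 1 = -1 := h.y11
      have a2 : y (0 + 1) 2 = 0 := h.y1 0
      have a3 : y (0 + 1) 3 = 0 := h.y1 1
      rw [a0, a1, a2, a3]
      norm_num
    · obtain ⟨p0, p1, p2, p3⟩ := ih s (by omega)
      obtain ⟨q0, q1, q2, q3⟩ := ih (s + 1) (by omega)
      have e2 := h.x2 s
      have e3 := h.x2 (s + 1)
      push_cast at q0 q1 q2 q3 e3 ⊢
      rw [show s + 1 + 2 = s + 1 + 1 + 1 from rfl] at e3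
      rw [show s + 1 + 1 = s + 2 from rfl] at q1 q2 q3 e3 ⊢
      rw [e3]
      rw [h.yz, h.ys s 0, h.ys s 1, h.ys s 2, p0, p1, p2, p3, q0, q1, q2, q3, e2]
      refine ⟨by ring, by ring, by ring, by ring⟩

private theorem three_odd : ¬ (2 : ℤ) ∣ 3 := by norm_num

theorem VV_third (z : ℤ) : VV 0 ((z : ℚ) / 3) := by
  have h := VV_div_odd z three_odd
  exact_mod_cast h

theorem VE_third {z : ℤ} (hz : ¬ (2 : ℤ) ∣ z) : VE 0 ((z : ℚ) / 3) := by
  have h := VE_div_odd hz three_odd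
  exact_mod_cast h

theorem JY.xA (h : JY x y) (m : ℕ) :
    (∃ q : ℚ, x (4 * m + 3) = m * q ∧ VE (m + 3) q) ∧ VE (m + 1) (x (4 * m + 4)) := by
  induction m with
  | zero =>
    have e2 : x 2 = 2 / 3 := by
      have := h.x2 0
      rw [show (0 + 2 : ℕ) = 2 from rfl, show (0 + 1 : ℕ) = 1 from rfl, h.x1, h.x0] at this
      rw [this]
      norm_num
    have e3 : x 3 = 0 := by
      have := h.x2 1
      rw [show (1 + 2 : ℕ) = 3 from rfl, show (1 + 1 : ℕ) = 2 from rfl, h.x1, e2] at this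
      rw [this]
      norm_num
    have e4 : x 4 = -(2 / 3) := by
      have := h.x2 2
      rw [show (2 + 2 : ℕ) = 4 from rfl, show (2 + 1 : ℕ) = 3 from rfl, e2, e3] at this
      rw [this]
      norm_num
    refine ⟨⟨2 * (2 * 2), ?_, ?_⟩, ?_⟩
    · rw [show 4 * 0 + 3 = 3 from rfl, e3]
      norm_num
    · exact (VE_two.mul (VE_two.mul VE_two)).congr (by norm_num) rfl
    · rw [show 4 * 0 + 4 = 4 from rfl, e4]
      have h1 := (VE_two.mul (VE_third (z := 1) (by norm_num))).neg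
      refine h1.congr (by norm_num) ?_
      norm_num
  | succ m ih =>
    obtain ⟨⟨q, hq, hqv⟩, h4⟩ := ih
    have r5 := h.x2 (4 * m + 3)
    have r6 := h.x2 (4 * m + 4)
    have r7 := h.x2 (4 * m + 5)
    have r8 := h.x2 (4 * m + 6)
    push_cast at r5 r6 r7 r8
    have e7 : x (4 * m + 7) = ((m : ℚ) + 1) *
        (2 * 2 * ((1 : ℤ) / (9 : ℤ) : ℚ) * (((4 * m + 3 : ℤ) : ℚ) * x (4 * m + 3) -
          2 * (3 : ℤ) * x (4 * m + 4))) := by
      rw [show 4 * m + 7 = 4 * m + 5 + 2 from rfl, r7, show 4 * m + 5 + 1 = 4 * m + 4 + 2 from rfl,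
        r6, show 4 * m + 4 + 1 = 4 * m + 3 + 2 from rfl, r5, show 4 * m + 3 + 1 = 4 * m + 4 from rfl]
      push_cast
      ring
    have hin : VE (m + 2) (((4 * m + 3 : ℤ) : ℚ) * x (4 * m + 3) - 2 * (3 : ℤ) * x (4 * m + 4)) := by
      have a1 : VV (m + 3) (((4 * m + 3 : ℤ) : ℚ) * x (4 * m + 3)) := by
        rw [hq]
        have := (VV_int (4 * m + 3)).mul ((VV_int m).mul hqv.toV)
        exact this.congr (by omega) (by push_cast; ring)
      have a2 : VE (m + 2) (2 * ((3 : ℤ) : ℚ) * x (4 * m + 4)) :=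
        ((VE_two.mul (VE_odd three_odd)).mul h4).congr (by ring) rfl
      have := a1.add_VE a2.neg (by omega)
      rw [← sub_eq_add_neg] at this
      exact this
    have h7 : VV (m + 4) (x (4 * m + 7)) := by
      rw [e7]
      have := (VV_int (m + 1)).mul ((((VE_two.mul VE_two).mul
        (VE_div_odd (z := 1) (n := 9) (by norm_num) (by norm_num))).mul hin).toV)
      exact this.congr (by omega) (by push_cast; ring)
    have h3 : VV (m + 3) (x (4 * m + 3)) := by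
      rw [hq]
      have := (VV_int m).mul hqv.toV
      exact this.congr (by omega) (by push_cast; ring)
    refine ⟨⟨2 * 2 * ((1 : ℤ) / (9 : ℤ) : ℚ) * (((4 * m + 3 : ℤ) : ℚ) * x (4 * m + 3) -
          2 * (3 : ℤ) * x (4 * m + 4)), ?_, ?_⟩, ?_⟩
    · rw [show 4 * (m + 1) + 3 = 4 * m + 7 from by ring, e7]
      push_cast
      ring
    · have := ((VE_two.mul VE_two).mul
        (VE_div_odd (z := 1) (n := 9) (by norm_num) (by norm_num))).mul hin
      exact this.congr (by push_cast; ring) rfl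
    · -- x (4 m + 8)
      have e8 : x (4 * (m + 1) + 4) = x (4 * m + 7) - (((4 * m + 7 : ℤ) : ℚ) / 3 *
          (2 * -((((2 * m + 1 : ℤ) : ℚ) / 3)) * x (4 * m + 4) -
            (2 * (2 * ((((m : ℤ) + 1 : ℤ) : ℚ) / 3))) * x (4 * m + 3))) := by
        rw [show 4 * (m + 1) + 4 = 4 * m + 6 + 2 from by ring, r8,
          show 4 * m + 6 + 1 = 4 * m + 7 from rfl, show 4 * m + 6 = 4 * m + 4 + 2 from rfl, r6,
          show 4 * m + 4 + 1 = 4 * m + 3 + 2 from rfl, r5, show 4 * m + 3 + 1 = 4 * m + 4 from rfl]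
        push_cast
        ring
      rw [e8]
      have b1 : VE (m + 2) (2 * -((((2 * m + 1 : ℤ) : ℚ) / 3)) * x (4 * m + 4)) := by
        have := (VE_two.mul (VE_third (z := 2 * m + 1) (by omega)).neg).mul h4
        exact this.congr (by ring) rfl
      have b2 : VV (m + 5) ((2 * (2 * ((((m : ℤ) + 1 : ℤ) : ℚ) / 3))) * x (4 * m + 3)) := by
        have := (VE_two.toV.mul (VE_two.toV.mul (VV_third ((m : ℤ) + 1)))).mul h3
        exact this.congr (by omega) rfl
      have b3 := (VE_third (z := 4 * m + 7) (by omega)).mul (b1.sub_VV b2 (by omega))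
      have b4 := h7.add_VE b3.neg (by omega)
      rw [← sub_eq_add_neg] at b4
      exact b4.congr (by push_cast; ring) rfl

theorem JY.x3 (h : JY x y) (m : ℕ) : VV (m + 3) (x (4 * m + 3)) := by
  obtain ⟨⟨q, hq, hqv⟩, -⟩ := h.xA m
  rw [hq]
  have := (VV_int m).mul hqv.toV
  exact this.congr (by omega) (by push_cast; ring)

theorem JY.x5 (h : JY x y) (m : ℕ) : VE (m + 1) (x (4 * m + 5)) := by
  obtain ⟨-, h4⟩ := h.xA m
  have h3 := h.x3 m
  have r5 := h.x2 (4 * m + 3)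
  push_cast at r5
  have e5 : x (4 * m + 5) = x (4 * m + 4) - (2 * (2 * ((((m : ℤ) + 1 : ℤ) : ℚ) / 3))) *
      x (4 * m + 3) := by
    rw [show 4 * m + 5 = 4 * m + 3 + 2 from rfl, r5, show 4 * m + 3 + 1 = 4 * m + 4 from rfl]
    push_cast
    ring
  rw [e5]
  refine h4.sub_VV (b := m + 5) ?_ (by omega)
  have := (VE_two.toV.mul (VE_two.toV.mul (VV_third ((m : ℤ) + 1)))).mul h3
  exact this.congr (by omega) rfl

theorem JY.x6 (h : JY x y) (m : ℕ) : VE (m + 2) (x (4 * m + 6)) := by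
  obtain ⟨-, h4⟩ := h.xA m
  have h3 := h.x3 m
  have r5 := h.x2 (4 * m + 3)
  have r6 := h.x2 (4 * m + 4)
  push_cast at r5 r6
  have e6 : x (4 * m + 6) = 2 * -((((2 * m + 1 : ℤ) : ℚ) / 3)) * x (4 * m + 4) -
            (2 * (2 * ((((m : ℤ) + 1 : ℤ) : ℚ) / 3))) * x (4 * m + 3) := by
    rw [show 4 * m + 6 = 4 * m + 4 + 2 from rfl, r6,
      show 4 * m + 4 + 1 = 4 * m + 3 + 2 from rfl, r5, show 4 * m + 3 + 1 = 4 * m + 4 from rfl]
    push_cast
    ring
  rw [e6]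
  have b1 : VE (m + 2) (2 * -((((2 * m + 1 : ℤ) : ℚ) / 3)) * x (4 * m + 4)) := by
    have := (VE_two.mul (VE_third (z := 2 * m + 1) (by omega)).neg).mul h4
    exact this.congr (by ring) rfl
  have b2 : VV (m + 5) ((2 * (2 * ((((m : ℤ) + 1 : ℤ) : ℚ) / 3))) * x (4 * m + 3)) := by
    have := (VE_two.toV.mul (VE_two.toV.mul (VV_third ((m : ℤ) + 1)))).mul h3
    exact this.congr (by omega) rfl
  exact b1.sub_VV b2 (by omega)

theorem JY.x2' (h : JY x y) (m : ℕ) : VE (m + 1) (x (4 * m + 2)) := by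
  rcases m with _ | m
  · have e2 : x 2 = 2 / 3 := by
      have := h.x2 0
      rw [show (0 + 2 : ℕ) = 2 from rfl, show (0 + 1 : ℕ) = 1 from rfl, h.x1, h.x0] at this
      rw [this]
      norm_num
    rw [show 4 * 0 + 2 = 2 from rfl, e2]
    have h1 := VE_two.mul (VE_third (z := 1) (by norm_num))
    refine h1.congr (by norm_num) ?_
    norm_num
  · have h6 := h.x6 m
    rw [show 4 * (m + 1) + 2 = 4 * m + 6 from by ring]
    exact h6.congr (by push_cast; ring) rfl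

end

end Orch
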