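import Pool.Agent.Lib.Orch.J3X

/-!
The weighted bound for the coefficients `y s n`.
-/

namespace Orch

open Finset

/-- the shifted sequence -/
def yp (y : ℕ → ℕ → ℚ) (s n : ℕ) : ℚ := match n with
  | 0 => 0
  | n + 1 => y s n

section

variable {x : ℕ → ℚ} {y : ℕ → ℕ → ℚ}

theorem JY.rec' (h : JY x y) (s n : ℕ) : y (s + 2) n = y (s + 1) n - yp y (s + 1) n -
    ((s : ℚ) + 1) / 3 * (y s n - yp y s n) := by
  rcases n with _ | n
  · rw [h.yz]
    simp only [yp, sub_zero]
  · rw [h.ys]
    simp only [yp]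

theorem yp_bound {s : ℕ} {M : ℤ} (hb : ∀ (n : ℕ) (a : ℤ), 2 * a ≤ M - n + 1 → VV a (y s n))
    (n : ℕ) (a : ℤ) (ha : 2 * a ≤ M - n + 2) : VV a (yp y s n) := by
  rcases n with _ | n
  · exact VV_zero a
  · refine hb n a ?_
    push_cast at ha
    omega

theorem JY.bound (h : JY x y) (m : ℕ) :
    (∀ (n : ℕ) (a : ℤ), 2 * a ≤ m - n + 1 → VV a (y (2 * m) n)) ∧
    (∀ (n : ℕ) (a : ℤ), 2 * a ≤ m - n + 1 → VV a (y (2 * m + 1) n)) ∧
    (∀ (n : ℕ) (a : ℤ), 2 * a ≤ m - n + 2 → VV a (y (2 * m + 1) n - y (2 * m) n)) := by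
  induction m with
  | zero =>
    refine ⟨?_, ?_, ?_⟩
    · intro n a ha
      rw [Nat.mul_zero]
      rcases n with _ | n
      · rw [h.y00]
        exact VE_one.toV.mono (by push_cast at ha; omega)
      · rw [h.y0]
        exact VV_zero a
    · intro n a ha
      rw [Nat.mul_zero, Nat.zero_add]
      rcases n with _ | _ | n
      · rw [h.y10]
        exact VE_one.toV.mono (by push_cast at ha; omega)
      · rw [h.y11]
        exact VE_one.neg.toV.mono (by push_cast at ha; omega)
      · rw [h.y1]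
        exact VV_zero a
    · intro n a ha
      rw [Nat.mul_zero, Nat.zero_add]
      rcases n with _ | _ | n
      · rw [h.y10, h.y00, sub_self]
        exact VV_zero a
      · rw [h.y11, h.y0, sub_zero]
        exact VE_one.neg.toV.mono (by push_cast at ha; omega)
      · rw [h.y1, h.y0, sub_self]
        exact VV_zero a
  | succ m ih =>
    obtain ⟨i1, i2, i3⟩ := ih
    have p1 := yp_bound i1
    have p2 := yp_bound i2
    have j1 : ∀ (n : ℕ) (a : ℤ), 2 * a ≤ ((m + 1 : ℕ) : ℤ) - n + 1 → VV a (y (2 * (m + 1)) n) := by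
      intro n a ha
      push_cast at ha
      have e : y (2 * (m + 1)) n = ((y (2 * m + 1) n - y (2 * m) n) +
          2 * (((1 - m : ℤ) : ℚ) / 3) * y (2 * m) n) - (yp y (2 * m + 1) n -
          ((2 * m + 1 : ℤ) : ℚ) / 3 * yp y (2 * m) n) := by
        rw [show 2 * (m + 1) = 2 * m + 2 from by ring, h.rec']
        push_cast
        ring
      rw [e]
      refine ((i3 n a (by omega)).add ?_).sub ((p2 n a (by omega)).sub ?_)
      · have := (VE_two.toV.mul (VV_third (1 - m))).mul (i1 n (a - 1) (by omega))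
        exact this.congr (by omega) rfl
      · have := (VV_third (2 * m + 1)).mul (p1 n a (by omega))
        exact this.congr (by omega) rfl
    have q1 := yp_bound j1
    have e3 : ∀ n, y (2 * (m + 1) + 1) n = y (2 * (m + 1)) n - (yp y (2 * (m + 1)) n +
        2 * (((m + 1 : ℤ) : ℚ) / 3) * (y (2 * m + 1) n - yp y (2 * m + 1) n)) := by
      intro n
      rw [show 2 * (m + 1) + 1 = 2 * m + 1 + 2 from by ring, h.rec',
        show 2 * m + 1 + 1 = 2 * (m + 1) from by ring]
      push_cast
      ring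
    have b3 : ∀ (n : ℕ) (a : ℤ), 2 * a ≤ ((m + 1 : ℕ) : ℤ) - n + 2 →
        VV a (yp y (2 * (m + 1)) n +
        2 * (((m + 1 : ℤ) : ℚ) / 3) * (y (2 * m + 1) n - yp y (2 * m + 1) n)) := by
      intro n a ha
      push_cast at ha
      refine (q1 n a (by push_cast; omega)).add ?_
      have := (VE_two.toV.mul (VV_third (m + 1))).mul
        ((i2 n (a - 1) (by omega)).sub (p2 n (a - 1) (by omega)))
      exact this.congr (by omega) rfl
    refine ⟨j1, ?_, ?_⟩
    · intro n a ha
      rw [e3]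
      exact (j1 n a ha).sub (b3 n a (by omega))
    · intro n a ha
      rw [e3]
      have := (b3 n a ha).neg
      exact this.congr le_rfl (by ring)

/-- the bound for all `s` -/
theorem JY.boundY (h : JY x y) (s n : ℕ) (a : ℤ) (ha : 2 * a ≤ ((s / 2 : ℕ) : ℤ) - n + 1) :
    VV a (y s n) := by
  obtain ⟨b1, b2, -⟩ := h.bound (s / 2)
  rcases Nat.even_or_odd s with ⟨k, hk⟩ | ⟨k, hk⟩
  · have e : 2 * (s / 2) = s := by omega
    have := b1 n a ha
    rw [e] at this
    exact this
  · have e : 2 * (s / 2) + 1 = s := by omega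
    have := b2 n a ha
    rw [e] at this
    exact this

end

end Orch
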