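import Mathlib

/-!
A sieve: the numbers `j ≤ K` with small residues modulo all given primes.
-/

namespace Orch

/-- the residue `r` is small; `2` only counts if `g` is true -/
def smallR (g : Bool) (r : ℕ) : Bool :=
  Nat.ble r 3 && (g || !Nat.beq r 2)

theorem smallR_of (g : Bool) (r : ℕ) (h3 : r ≤ 3) (h2 : g = true ∨ r ≠ 2) :
    smallR g r = true := by
  rcases h2 with h2 | h2
  · subst h2
    interval_cases r <;> rfl
  · cases g <;> interval_cases r <;> first | rfl | exact absurd rfl h2

/-- the lifts `x + m t`, `t < n`, with small residue modulo `p` -/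
noncomputable def liftR (g : Bool) (p m : ℕ) (x : ℕ) (n : ℕ) : List ℕ → List ℕ :=
  @Nat.rec (fun _ => List ℕ → List ℕ) (fun acc => acc)
    (fun t ih acc => ih (bif smallR g (Nat.mod (Nat.add x (Nat.mul m t)) p) then
      (Nat.add x (Nat.mul m t)) :: acc else acc)) n

noncomputable def liftL (g : Bool) (p m n : ℕ) (L : List ℕ) : List ℕ :=
  @List.rec ℕ (fun _ => List ℕ) [] (fun x _ ih => liftR g p m x n ih) L

noncomputable def sieve (K : ℕ) (ps : List (ℕ × Bool)) : ℕ → List ℕ → List ℕ :=
  @List.rec (ℕ × Bool) (fun _ => ℕ → List ℕ → List ℕ) (fun _ L => L)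
    (fun q _ ih m L => ih (m * q.1) (liftL q.2 q.1 m (min q.1 (K / m + 1)) L)) ps

theorem liftR_mem_acc (g : Bool) (p m x n : ℕ) (acc : List ℕ) (y : ℕ) (h : y ∈ acc) :
    y ∈ liftR g p m x n acc := by
  induction n generalizing acc with
  | zero => exact h
  | succ n ih =>
    change y ∈ liftR g p m x n _
    apply ih
    cases smallR g (Nat.mod (Nat.add x (Nat.mul m n)) p) with
    | true => exact List.mem_cons_of_mem _ h
    | false => exact h

theorem liftR_mem (g : Bool) (p m x n : ℕ) (acc : List ℕ) (t : ℕ) (ht : t < n)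
    (h : smallR g ((x + m * t) % p) = true) : x + m * t ∈ liftR g p m x n acc := by
  induction n generalizing acc with
  | zero => omega
  | succ n ih =>
    change x + m * t ∈ liftR g p m x n _
    rcases Nat.lt_succ_iff_lt_or_eq.mp ht with h1 | h1
    · exact ih _ h1
    · apply liftR_mem_acc
      subst h1
      have h' : smallR g (Nat.mod (Nat.add x (Nat.mul m t)) p) = true := h
      rw [h']
      exact List.mem_cons_self

theorem liftL_mem (g : Bool) (p m n : ℕ) (L : List ℕ) (x t : ℕ) (hx : x ∈ L) (ht : t < n)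
    (h : smallR g ((x + m * t) % p) = true) : x + m * t ∈ liftL g p m n L := by
  induction L with
  | nil => cases hx
  | cons a L ih =>
    change x + m * t ∈ liftR g p m a n (liftL g p m n L)
    rcases List.mem_cons.mp hx with h1 | h1
    · subst h1
      exact liftR_mem _ _ _ _ _ _ _ ht h
    · exact liftR_mem_acc _ _ _ _ _ _ _ (ih h1)

theorem sieve_mem (K j : ℕ) (hj : j ≤ K) (ps : List (ℕ × Bool)) (m : ℕ) (L : List ℕ) (hm : 0 < m)
    (hL : j % m ∈ L) (hps : ∀ q ∈ ps, 0 < q.1 ∧ smallR q.2 (j % q.1) = true) :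
    j % (m * (ps.map Prod.fst).prod) ∈ sieve K ps m L := by
  induction ps generalizing m L with
  | nil =>
    have h0 : m * (([] : List (ℕ × Bool)).map Prod.fst).prod = m := by simp
    rw [h0]
    exact hL
  | cons q ps ih =>
    obtain ⟨hq0, hq1⟩ := hps q List.mem_cons_self
    have h1 : j % (m * q.1) = j % m + m * (j / m % q.1) := Nat.mod_mul
    have h2 : j / m ≤ K / m := Nat.div_le_div_right hj
    have h3 : j / m % q.1 < min q.1 (K / m + 1) := by
      apply lt_min (Nat.mod_lt _ hq0)
      exact Nat.lt_succ_of_le (le_trans (Nat.mod_le _ _) h2)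
    have h4 : j % (m * q.1) % q.1 = j % q.1 := Nat.mod_mod_of_dvd _ (Dvd.intro_left _ rfl)
    have h5 : j % (m * q.1) ∈ liftL q.2 q.1 m (min q.1 (K / m + 1)) L := by
      rw [h1]
      apply liftL_mem _ _ _ _ _ _ _ hL h3
      rw [← h1, h4]
      exact hq1
    have h6 := ih (m * q.1) (liftL q.2 q.1 m (min q.1 (K / m + 1)) L) (Nat.mul_pos hm hq0) h5
      (fun q' hq' => hps q' (List.mem_cons_of_mem _ hq'))
    have h7 : m * ((q :: ps).map Prod.fst).prod = m * q.1 * (ps.map Prod.fst).prod := by
      rw [List.map_cons, List.prod_cons, mul_assoc]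
    rw [h7]
    exact h6

/-- the primes with their flags: the residue `2` counts as small only for the flag `true` -/
def prs : List (ℕ × Bool) :=
  [(3, false), (5, false), (7, true), (11, false), (13, true), (17, false), (19, true),
    (23, true), (29, false), (31, true), (37, false), (41, false), (43, false), (47, true)]

theorem sieve_run : (sieve 6790275557 prs 1 [0]).all
    (fun x => !Nat.ble x 6790275557 || (Nat.beq x 0 || Nat.beq x 1 || Nat.beq x 3)) = true := by decide +kernel

theorem sieve_concl (j : ℕ) (hj : j ≤ 6790275557)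
    (h : ∀ q ∈ prs, smallR q.2 (j % q.1) = true) : j = 0 ∨ j = 1 ∨ j = 3 := by
  have h1 := sieve_mem 6790275557 j hj prs 1 [0] one_pos (by simp [Nat.mod_one]) (fun q hq => by
    refine ⟨?_, h q hq⟩
    have : ∀ q ∈ prs, 0 < q.1 := by decide
    exact this q hq)
  have h2 : 1 * (prs.map Prod.fst).prod = 307444891294245705 := by decide +kernel
  rw [h2, Nat.mod_eq_of_lt (by omega)] at h1
  have h3 := List.all_eq_true.mp sieve_run j h1
  rw [Nat.ble_eq_true_of_le hj] at h3
  simp only [Bool.not_true, Bool.false_or, Bool.or_eq_true, Nat.beq_eq] at h3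
  tauto

end Orch
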