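import Pool.Agent.Lib.Orch.Defs

/-!
Statements of the lemmas for the denominators of the orchard network generating functions.
-/

namespace Orch

open Finset

/-- some reducible pair with both leaves in `U` -/
def HasPair (E : Dg) (U : Finset ℕ) : Prop :=
  ∃ x ∈ U, ∃ y ∈ U, (∃ i, IsCherry E x y i) ∨ ∃ i j, IsRet E x y i j

/-- inverse of the cherry reduction: new leaf `y` beside `x`, new parent `i` -/
def extC (E : Dg) (x y i : ℕ) : Dg :=
  (E.filter (fun e => e.2 ≠ Sum.inl x)) ∪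
    ((E.filter (fun e => e.2 = Sum.inl x)).image (fun e => (e.1, (Sum.inr i : V))) ∪
    {((Sum.inr i : V), (Sum.inl x : V)), ((Sum.inr i : V), (Sum.inl y : V))})

/-- inverse of the reduction of a reticulated cherry: new parents `i` of `x` and `j` of `y`, and the
edge `i → j` -/
def extR (E : Dg) (x y i j : ℕ) : Dg :=
  (E.filter (fun e => e.2 ≠ Sum.inl x ∧ e.2 ≠ Sum.inl y)) ∪
    ((E.filter (fun e => e.2 = Sum.inl x)).image (fun e => (e.1, (Sum.inr i : V))) ∪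
    ((E.filter (fun e => e.2 = Sum.inl y)).image (fun e => (e.1, (Sum.inr j : V))) ∪
    {((Sum.inr i : V), (Sum.inl x : V)), ((Sum.inr j : V), (Sum.inl y : V)),
      ((Sum.inr i : V), (Sum.inr j : V))}))

/-! ### 1. Structure facts -/

/-- edges of a network start in an internal vertex of `I` and end in a leaf of `L` or an internal
vertex of `I` -/
def S_Edge : Prop := ∀ (L I : Finset ℕ) (E : Dg), IsNet L I E → ∀ a b : V, (a, b) ∈ E →
  (∃ i ∈ I, a = Sum.inr i) ∧ ((∃ x ∈ L, b = Sum.inl x) ∨ ∃ i ∈ I, b = Sum.inr i)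

/-- acyclicity through a rank function -/
def S_Acyc : Prop := ∀ E : Dg,
  (∀ v : V, ¬ Relation.TransGen (fun a b : V => (a, b) ∈ E) v v) ↔
    ∃ f : V → ℕ, ∀ a b : V, (a, b) ∈ E → f a < f b

/-- the shape of a network at a cherry -/
def S_ShapeC : Prop := ∀ (L I : Finset ℕ) (E : Dg) (x y i : ℕ), IsNet L I E → x ∈ L → y ∈ L →
  IsCherry E x y i →
  i ∈ I ∧ TreeNode E i ∧
  (∀ b : V, ((Sum.inr i : V), b) ∈ E ↔ b = Sum.inl x ∨ b = Sum.inl y) ∧
  (∀ a : V, (a, (Sum.inl x : V)) ∈ E ↔ a = Sum.inr i) ∧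
  (∀ a : V, (a, (Sum.inl y : V)) ∈ E ↔ a = Sum.inr i) ∧
  (∃ g ∈ I, g ≠ i ∧ ∀ a : V, (a, (Sum.inr i : V)) ∈ E ↔ a = Sum.inr g)

/-- the shape of a network at a reticulated cherry -/
def S_ShapeR : Prop := ∀ (L I : Finset ℕ) (E : Dg) (x y i j : ℕ), IsNet L I E → x ∈ L → y ∈ L →
  IsRet E x y i j →
  i ∈ I ∧ j ∈ I ∧ i ≠ j ∧ x ≠ y ∧
  (∀ b : V, ((Sum.inr i : V), b) ∈ E ↔ b = Sum.inl x ∨ b = Sum.inr j) ∧
  (∀ b : V, ((Sum.inr j : V), b) ∈ E ↔ b = Sum.inl y) ∧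
  (∀ a : V, (a, (Sum.inl x : V)) ∈ E ↔ a = Sum.inr i) ∧
  (∀ a : V, (a, (Sum.inl y : V)) ∈ E ↔ a = Sum.inr j) ∧
  (∃ g ∈ I, g ≠ i ∧ g ≠ j ∧ ∀ a : V, (a, (Sum.inr i : V)) ∈ E ↔ a = Sum.inr g) ∧
  (∃ q ∈ I, q ≠ i ∧ q ≠ j ∧ ∀ a : V, (a, (Sum.inr j : V)) ∈ E ↔ a = Sum.inr i ∨ a = Sum.inr q)

/-- a cherry is symmetric -/
def S_SymC : Prop := ∀ (E : Dg) (x y i : ℕ), IsCherry E x y i → IsCherry E y x i

/-- two cherries are equal as pairs or disjoint -/
def S_ExclCC : Prop := ∀ (L I : Finset ℕ) (E : Dg) (x y i x' y' i' : ℕ), IsNet L I E →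
  x ∈ L → y ∈ L → x' ∈ L → y' ∈ L → IsCherry E x y i → IsCherry E x' y' i' →
  (i = i' ∧ ((x = x' ∧ y = y') ∨ (x = y' ∧ y = x'))) ∨
  (i ≠ i' ∧ x ≠ x' ∧ x ≠ y' ∧ y ≠ x' ∧ y ≠ y')

/-- a cherry and a reticulated cherry are disjoint -/
def S_ExclCR : Prop := ∀ (L I : Finset ℕ) (E : Dg) (x y i x' y' i' j' : ℕ), IsNet L I E →
  x ∈ L → y ∈ L → x' ∈ L → y' ∈ L → IsCherry E x y i → IsRet E x' y' i' j' →
  i ≠ i' ∧ i ≠ j' ∧ x ≠ x' ∧ x ≠ y' ∧ y ≠ x' ∧ y ≠ y'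

/-- two reticulated cherries are equal, or disjoint, or share exactly the reticulation -/
def S_ExclRR : Prop := ∀ (L I : Finset ℕ) (E : Dg) (x y i j x' y' i' j' : ℕ), IsNet L I E →
  x ∈ L → y ∈ L → x' ∈ L → y' ∈ L → IsRet E x y i j → IsRet E x' y' i' j' →
  (x = x' ∧ y = y' ∧ i = i' ∧ j = j') ∨
  (i ≠ i' ∧ i ≠ j' ∧ j ≠ i' ∧ j ≠ j' ∧ x ≠ x' ∧ x ≠ y' ∧ y ≠ x' ∧ y ≠ y') ∨
  (y = y' ∧ j = j' ∧ i ≠ i' ∧ x ≠ x')

/-! ### 2. Reductions and extensions of networks -/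

/-- membership in `redC` -/
def S_MemRedC : Prop := ∀ (L I : Finset ℕ) (E : Dg) (x y i g : ℕ), IsNet L I E → x ∈ L → y ∈ L →
  IsCherry E x y i → ((Sum.inr g : V), (Sum.inr i : V)) ∈ E → ∀ a b : V,
  (a, b) ∈ redC E x y i ↔
    ((a, b) ∈ E ∧ a ≠ Sum.inr i ∧ b ≠ Sum.inr i ∧ b ≠ Sum.inl x ∧ b ≠ Sum.inl y) ∨
    (a = Sum.inr g ∧ b = Sum.inl x)

/-- membership in `redR` -/
def S_MemRedR : Prop := ∀ (L I : Finset ℕ) (E : Dg) (x y i j g q : ℕ), IsNet L I E →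
  x ∈ L → y ∈ L → IsRet E x y i j → ((Sum.inr g : V), (Sum.inr i : V)) ∈ E →
  ((Sum.inr q : V), (Sum.inr j : V)) ∈ E → q ≠ i → ∀ a b : V,
  (a, b) ∈ redR E x y i j ↔
    ((a, b) ∈ E ∧ a ≠ Sum.inr i ∧ a ≠ Sum.inr j ∧ b ≠ Sum.inr i ∧ b ≠ Sum.inr j ∧
      b ≠ Sum.inl x ∧ b ≠ Sum.inl y) ∨
    (a = Sum.inr g ∧ b = Sum.inl x) ∨ (a = Sum.inr q ∧ b = Sum.inl y)

/-- degrees of the remaining internal vertices do not change under `redC` -/
def S_DegC : Prop := ∀ (L I : Finset ℕ) (E : Dg) (x y i : ℕ), IsNet L I E → x ∈ L → y ∈ L →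
  IsCherry E x y i → ∀ k : ℕ, k ≠ i →
  indeg (redC E x y i) (Sum.inr k) = indeg E (Sum.inr k) ∧
  outdeg (redC E x y i) (Sum.inr k) = outdeg E (Sum.inr k)

/-- degrees of the remaining internal vertices do not change under `redR` -/
def S_DegR : Prop := ∀ (L I : Finset ℕ) (E : Dg) (x y i j : ℕ), IsNet L I E → x ∈ L → y ∈ L →
  IsRet E x y i j → ∀ k : ℕ, k ≠ i → k ≠ j →
  indeg (redR E x y i j) (Sum.inr k) = indeg E (Sum.inr k) ∧
  outdeg (redR E x y i j) (Sum.inr k) = outdeg E (Sum.inr k)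

/-- `redC` of a network is a network -/
def S_NetRedC : Prop := ∀ (L I : Finset ℕ) (E : Dg) (x y i : ℕ), IsNet L I E → x ∈ L → y ∈ L →
  IsCherry E x y i → IsNet (L.erase y) (I.erase i) (redC E x y i)

/-- `redR` of a network is a network -/
def S_NetRedR : Prop := ∀ (L I : Finset ℕ) (E : Dg) (x y i j : ℕ), IsNet L I E → x ∈ L → y ∈ L →
  IsRet E x y i j → IsNet L ((I.erase i).erase j) (redR E x y i j)

/-- `extC` of a network is a network with a cherry -/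
def S_NetExtC : Prop := ∀ (L I : Finset ℕ) (E : Dg) (x y i : ℕ), IsNet L I E → x ∈ L → y ∉ L →
  i ∉ I → IsNet (insert y L) (insert i I) (extC E x y i) ∧ IsCherry (extC E x y i) x y i

/-- `extR` of a network is a network with a reticulated cherry -/
def S_NetExtR : Prop := ∀ (L I : Finset ℕ) (E : Dg) (x y i j : ℕ), IsNet L I E → x ∈ L → y ∈ L →
  x ≠ y → i ∉ I → j ∉ I → i ≠ j →
  IsNet L (insert i (insert j I)) (extR E x y i j) ∧ IsRet (extR E x y i j) x y i j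

def S_RedExtC : Prop := ∀ (L I : Finset ℕ) (E : Dg) (x y i : ℕ), IsNet L I E → x ∈ L → y ∉ L →
  i ∉ I → redC (extC E x y i) x y i = E

def S_RedExtR : Prop := ∀ (L I : Finset ℕ) (E : Dg) (x y i j : ℕ), IsNet L I E → x ∈ L → y ∈ L →
  x ≠ y → i ∉ I → j ∉ I → i ≠ j → redR (extR E x y i j) x y i j = E

def S_ExtRedC : Prop := ∀ (L I : Finset ℕ) (E : Dg) (x y i : ℕ), IsNet L I E → x ∈ L → y ∈ L →
  IsCherry E x y i → extC (redC E x y i) x y i = E

def S_ExtRedR : Prop := ∀ (L I : Finset ℕ) (E : Dg) (x y i j : ℕ), IsNet L I E → x ∈ L → y ∈ L →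
  IsRet E x y i j → extR (redR E x y i j) x y i j = E

/-! ### 3. Pairs away from the reduced pair survive; the overlapping case -/

def S_SurvC : Prop := ∀ (L I : Finset ℕ) (E : Dg) (x y i : ℕ), IsNet L I E → x ∈ L → y ∈ L →
  IsCherry E x y i → ∀ x' y' : ℕ, x' ≠ x → x' ≠ y → y' ≠ x → y' ≠ y →
  (∀ i', IsCherry (redC E x y i) x' y' i' ↔ IsCherry E x' y' i') ∧
  (∀ i' j', IsRet (redC E x y i) x' y' i' j' ↔ IsRet E x' y' i' j')

def S_SurvR : Prop := ∀ (L I : Finset ℕ) (E : Dg) (x y i j : ℕ), IsNet L I E → x ∈ L → y ∈ L →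
  IsRet E x y i j → ∀ x' y' : ℕ, x' ≠ x → x' ≠ y → y' ≠ x → y' ≠ y →
  (∀ i', IsCherry (redR E x y i j) x' y' i' ↔ IsCherry E x' y' i') ∧
  (∀ i' j', IsRet (redR E x y i j) x' y' i' j' ↔ IsRet E x' y' i' j')

/-- the second reticulated cherry at the same reticulation becomes a cherry -/
def S_Over : Prop := ∀ (L I : Finset ℕ) (E : Dg) (x y i j : ℕ), IsNet L I E → x ∈ L → y ∈ L →
  IsRet E x y i j → ∀ x' i' : ℕ, x' ∈ L → x' ≠ x → x' ≠ y →
  (IsCherry (redR E x y i j) x' y i' ↔ IsRet E x' y i' j)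

/-! ### 4. Commutation -/

def S_CommCC : Prop := ∀ (L I : Finset ℕ) (E : Dg) (x y i x' y' i' : ℕ), IsNet L I E →
  x ∈ L → y ∈ L → x' ∈ L → y' ∈ L → IsCherry E x y i → IsCherry E x' y' i' → i ≠ i' →
  redC (redC E x y i) x' y' i' = redC (redC E x' y' i') x y i

def S_CommCR : Prop := ∀ (L I : Finset ℕ) (E : Dg) (x y i x' y' i' j' : ℕ), IsNet L I E →
  x ∈ L → y ∈ L → x' ∈ L → y' ∈ L → IsCherry E x y i → IsRet E x' y' i' j' →
  redR (redC E x y i) x' y' i' j' = redC (redR E x' y' i' j') x y i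

def S_CommRR : Prop := ∀ (L I : Finset ℕ) (E : Dg) (x y i j x' y' i' j' : ℕ), IsNet L I E →
  x ∈ L → y ∈ L → x' ∈ L → y' ∈ L → IsRet E x y i j → IsRet E x' y' i' j' → j ≠ j' →
  redR (redR E x y i j) x' y' i' j' = redR (redR E x' y' i' j') x y i j

def S_CommOver : Prop := ∀ (L I : Finset ℕ) (E : Dg) (x y i j x' i' : ℕ), IsNet L I E →
  x ∈ L → y ∈ L → x' ∈ L → IsRet E x y i j → IsRet E x' y i' j → i ≠ i' →
  redC (redR E x y i j) x' y i' = redC (redR E x' y i' j) x y i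

/-! ### 5. Orchard networks -/

def S_OrchNet : Prop := ∀ (L I : Finset ℕ) (E : Dg), Orchard L I E → IsNet L I E

/-- renaming -/
def S_RenOrch : Prop := ∀ (L I : Finset ℕ) (E : Dg) (σ τ : Equiv.Perm ℕ), Orchard L I E →
  Orchard (L.image σ) (I.image τ) (ren σ τ E)

def S_RenNet : Prop := ∀ (L I : Finset ℕ) (E : Dg) (σ τ : Equiv.Perm ℕ), IsNet L I E →
  IsNet (L.image σ) (I.image τ) (ren σ τ E)

def S_RenPair : Prop := ∀ (E : Dg) (σ τ : Equiv.Perm ℕ) (x y i j : ℕ),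
  (IsCherry (ren σ τ E) (σ x) (σ y) (τ i) ↔ IsCherry E x y i) ∧
  (IsRet (ren σ τ E) (σ x) (σ y) (τ i) (τ j) ↔ IsRet E x y i j)

def S_RenRed : Prop := ∀ (E : Dg) (σ τ : Equiv.Perm ℕ) (x y i j : ℕ),
  redC (ren σ τ E) (σ x) (σ y) (τ i) = ren σ τ (redC E x y i) ∧
  redR (ren σ τ E) (σ x) (σ y) (τ i) (τ j) = ren σ τ (redR E x y i j)

/-- the two ways to reduce a cherry differ by a renaming -/
def S_SwapC : Prop := ∀ (L I : Finset ℕ) (E : Dg) (x y i : ℕ), IsNet L I E → x ∈ L → y ∈ L →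
  IsCherry E x y i → redC E y x i = ren (Equiv.swap x y) (Equiv.refl ℕ) (redC E x y i)

/-- every reduction of an orchard network is orchard -/
def S_Inv : Prop := ∀ (L I : Finset ℕ) (E : Dg), Orchard L I E →
  (∀ x y i, x ∈ L → y ∈ L → IsCherry E x y i → Orchard (L.erase y) (I.erase i) (redC E x y i)) ∧
  (∀ x y i j, x ∈ L → y ∈ L → IsRet E x y i j →
    Orchard L ((I.erase i).erase j) (redR E x y i j))

def S_OrchExtC : Prop := ∀ (L I : Finset ℕ) (E : Dg) (x y i : ℕ), Orchard L I E → x ∈ L → y ∉ L →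
  i ∉ I → Orchard (insert y L) (insert i I) (extC E x y i)

def S_OrchExtR : Prop := ∀ (L I : Finset ℕ) (E : Dg) (x y i j : ℕ), Orchard L I E → x ∈ L →
  y ∈ L → x ≠ y → i ∉ I → j ∉ I → i ≠ j →
  Orchard L (insert i (insert j I)) (extR E x y i j)

/-- an orchard network has a reducible pair or is the base network -/
def S_Has : Prop := ∀ (L I : Finset ℕ) (E : Dg), Orchard L I E →
  HasPair E L ∨ (L.card = 1 ∧ I.card = 1)

/-- one leaf: only the base network -/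
def S_One : Prop := ∀ (x : ℕ) (I : Finset ℕ) (E : Dg), Orchard {x} I E →
  ∃ r, I = {r} ∧ E = {((Sum.inr r : V), (Sum.inl x : V))}

/-- number of internal vertices -/
def S_KCount : Prop := ∀ (L I : Finset ℕ) (E : Dg), Orchard L I E →
  I.card = L.card + 2 * numRet I E

/-- no automorphism -/
def S_Free : Prop := ∀ (L I : Finset ℕ) (E : Dg) (τ : Equiv.Perm ℕ), Orchard L I E →
  ren (Equiv.refl ℕ) τ E = E → ∀ i ∈ I, τ i = i

/-! ### 6. Counting -/

open Classical in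
/-- the set of orchard networks with leaf set `L` and internal vertex set `I` -/
noncomputable def Net (L I : Finset ℕ) : Finset Dg :=
  ((L.disjSum I ×ˢ L.disjSum I).powerset).filter (fun E => Orchard L I E)

def S_MemNet : Prop := ∀ (L I : Finset ℕ) (E : Dg), E ∈ Net L I ↔ Orchard L I E

open Classical in
/-- the number of orchard networks with no reducible pair inside `U` -/
noncomputable def q (L U I : Finset ℕ) : ℕ := ((Net L I).filter (fun E => ¬ HasPair E U)).card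

/-- the number depends on the cardinalities only -/
noncomputable def Q (l n m : ℕ) : ℕ := q (range l) (range n) (range m)

def S_qQ : Prop := ∀ L U I : Finset ℕ, U ⊆ L → q L U I = Q L.card U.card I.card

open Classical in
def S_K1 : Prop := ∀ (L I S : Finset ℕ) (w u i : ℕ), w ∈ L → u ∈ L → w ≠ u → i ∈ I →
  w ∉ S → u ∉ S →
  ((Net L I).filter (fun E => IsCherry E w u i ∧ ¬ HasPair E S)).card =
    q (L.erase u) S (I.erase i)

open Classical in
def S_K2 : Prop := ∀ (L I S : Finset ℕ) (w u i j : ℕ), w ∈ L → u ∈ L → w ≠ u → i ∈ I → j ∈ I →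
  i ≠ j → w ∉ S → u ∉ S →
  ((Net L I).filter (fun E => IsRet E w u i j ∧ ¬ HasPair E S)).card =
    q L S ((I.erase i).erase j)

open Classical in
def S_K3 : Prop := ∀ (L I S : Finset ℕ) (x x' y i i' j : ℕ), x ∈ L → x' ∈ L → y ∈ L →
  x ≠ x' → x ≠ y → x' ≠ y → i ∈ I → i' ∈ I → j ∈ I → i ≠ i' → i ≠ j → i' ≠ j →
  x ∉ S → x' ∉ S → y ∉ S →
  ((Net L I).filter (fun E => (IsRet E x y i j ∧ IsRet E x' y i' j) ∧ ¬ HasPair E S)).card =
    q (L.erase y) S (((I.erase i).erase j).erase i')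

/-- restricting the leaf set of the pair condition, cherry case -/
def S_LocA : Prop := ∀ (L I : Finset ℕ) (E : Dg), IsNet L I E → ∀ U ⊆ L, ∀ w ∈ L, w ∉ U →
  ∀ u ∈ U, ∀ i, IsCherry E w u i → (HasPair E U ↔ HasPair E (U.erase u))

/-- restricting the leaf set of the pair condition, case `IsRet u w` -/
def S_LocC : Prop := ∀ (L I : Finset ℕ) (E : Dg), IsNet L I E → ∀ U ⊆ L, ∀ w ∈ L, w ∉ U →
  ∀ u ∈ U, ∀ i j, IsRet E u w i j → (HasPair E U ↔ HasPair E (U.erase u))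

/-- restricting the leaf set of the pair condition, case `IsRet w u`: here a further reticulated
cherry `(z, u)` may occur -/
def S_LocB : Prop := ∀ (L I : Finset ℕ) (E : Dg), IsNet L I E → ∀ U ⊆ L, ∀ w ∈ L, w ∉ U →
  ∀ u ∈ U, ∀ i j, IsRet E w u i j →
  (HasPair E U ↔ HasPair E (U.erase u) ∨ ∃ z ∈ U.erase u, ∃ k ∈ I, IsRet E z u k j)

/-- pairs inside `insert w U` -/
def S_LocW : Prop := ∀ (L I : Finset ℕ) (E : Dg), IsNet L I E → ∀ U ⊆ L, ∀ w ∈ L, w ∉ U →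
  (HasPair E (insert w U) ↔ HasPair E U ∨ ∃ u ∈ U, (∃ i ∈ I, IsCherry E w u i) ∨
    (∃ i ∈ I, ∃ j ∈ I, IsRet E w u i j) ∨ ∃ i ∈ I, ∃ j ∈ I, IsRet E u w i j)

open Classical in
/-- pointwise inclusion-exclusion for the pairs that contain `w` -/
def S_PW : Prop := ∀ (L I : Finset ℕ) (E : Dg), IsNet L I E → ∀ U ⊆ L, ∀ w ∈ L, w ∉ U →
  ¬ HasPair E U →
  (if HasPair E (insert w U) then 2 else 0) +
    ((U ×ˢ U ×ˢ I ×ˢ I ×ˢ I).filter (fun t => t.1 ≠ t.2.1 ∧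
      IsRet E t.1 w t.2.2.1 t.2.2.2.2 ∧ IsRet E t.2.1 w t.2.2.2.1 t.2.2.2.2)).card =
  2 * ((U ×ˢ I).filter (fun t => IsCherry E w t.1 t.2)).card +
  2 * ((U ×ˢ I ×ˢ I).filter (fun t => IsRet E w t.1 t.2.1 t.2.2)).card +
  2 * ((U ×ˢ I ×ˢ I).filter (fun t => IsRet E t.1 w t.2.1 t.2.2)).card

open Classical in
/-- sum of the cherry counts -/
def S_SumA : Prop := ∀ (L I U : Finset ℕ) (w : ℕ), U ⊆ L → w ∈ L → w ∉ U →
  ∑ E ∈ (Net L I).filter (fun E => ¬ HasPair E U),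
    ((U ×ˢ I).filter (fun t => IsCherry E w t.1 t.2)).card =
  U.card * I.card * Q (L.card - 1) (U.card - 1) (I.card - 1)

open Classical in
/-- sum of the counts of `IsRet u w` -/
def S_SumC : Prop := ∀ (L I U : Finset ℕ) (w : ℕ), U ⊆ L → w ∈ L → w ∉ U →
  ∑ E ∈ (Net L I).filter (fun E => ¬ HasPair E U),
    ((U ×ˢ I ×ˢ I).filter (fun t => IsRet E t.1 w t.2.1 t.2.2)).card =
  U.card * (I.card * (I.card - 1)) * Q L.card (U.card - 1) (I.card - 2)

open Classical in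
/-- sum of the counts of double reticulated cherries at `w` -/
def S_SumD : Prop := ∀ (L I U : Finset ℕ) (w : ℕ), U ⊆ L → w ∈ L → w ∉ U →
  ∑ E ∈ (Net L I).filter (fun E => ¬ HasPair E U),
    ((U ×ˢ U ×ˢ I ×ˢ I ×ˢ I).filter (fun t => t.1 ≠ t.2.1 ∧
      IsRet E t.1 w t.2.2.1 t.2.2.2.2 ∧ IsRet E t.2.1 w t.2.2.2.1 t.2.2.2.2)).card =
  U.card * (U.card - 1) * (I.card * (I.card - 1) * (I.card - 2)) *
    Q (L.card - 1) (U.card - 2) (I.card - 3)

open Classical in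
/-- sum of the counts of `IsRet w u` -/
def S_SumB : Prop := ∀ (L I U : Finset ℕ) (w : ℕ), U ⊆ L → w ∈ L → w ∉ U →
  ∑ E ∈ (Net L I).filter (fun E => ¬ HasPair E U),
    ((U ×ˢ I ×ˢ I).filter (fun t => IsRet E w t.1 t.2.1 t.2.2)).card +
  U.card * (U.card - 1) * (I.card * (I.card - 1) * (I.card - 2)) *
    Q (L.card - 1) (U.card - 2) (I.card - 3) =
  U.card * (I.card * (I.card - 1)) * Q L.card (U.card - 1) (I.card - 2)

/-- the recursion -/
def S_Rec : Prop := ∀ l n m : ℕ, n + 1 ≤ l →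
  Q l (n + 1) m + n * m * Q (l - 1) (n - 1) (m - 1) +
    2 * n * (m * (m - 1)) * Q l (n - 1) (m - 2) =
  Q l n m + 3 * n.choose 2 * (m * (m - 1) * (m - 2)) * Q (l - 1) (n - 2) (m - 3)

/-- boundary values -/
def S_QTop : Prop := ∀ l m : ℕ, 2 ≤ l → Q l l m = 0

def S_QOne : Prop := ∀ m : ℕ, Q 1 0 m = if m = 1 then 1 else 0

def S_QZero : Prop := ∀ n m : ℕ, Q 0 n m = 0

def S_QSmall : Prop := ∀ l n m : ℕ, (∀ k : ℕ, m ≠ l + 2 * k) → Q l n m = 0

/-- isomorphism is an equivalence relation -/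
def S_IsoEq : Prop := ∀ l k : ℕ, Equivalence (@Iso l k)

/-- every network is isomorphic to one with internal vertices `0, …, ℓ + 2k - 1` -/
def S_Rep : Prop := ∀ (l k : ℕ) (p : OrchNet l k),
  ∃ r : OrchNet l k, r.1.1 = range (l + 2 * k) ∧ Iso p r

open Classical in
/-- the networks on `range m` isomorphic to a given one -/
def S_Fib : Prop := ∀ (l m : ℕ) (E : Dg), E ∈ Net (range l) (range m) →
  ((Net (range l) (range m)).filter (fun E' => ∃ τ : Equiv.Perm ℕ, (range m).image τ = range m ∧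
    E' = ren (Equiv.refl ℕ) τ E)).card = m.factorial

/-- counting isomorphism classes -/
def S_Card : Prop := ∀ l k : ℕ,
  orch l k * (l + 2 * k).factorial = (Net (range l) (range (l + 2 * k))).card

end Orch
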