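import Pool.Agent.Lib.Orch.Spec

/-!
Counting isomorphism classes.
-/

namespace Orch

open Finset

open Classical in
theorem c_Card (hFib : S_Fib) (hIso : S_IsoEq) (hRep : S_Rep) (hMem : S_MemNet)
    (hK : S_KCount) : S_Card := by
  intro l k
  set m := l + 2 * k with hm
  let α : Type := {E : Dg // E ∈ Net (range l) (range m)}
  have hnum : ∀ E : Dg, E ∈ Net (range l) (range m) → numRet (range m) E = k := by
    intro E hE
    have h1 := hK _ _ _ ((hMem _ _ _).1 hE)
    rw [Finset.card_range, Finset.card_range] at h1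
    omega
  let f : α → OrchNet l k := fun E => ⟨(range m, E.1), (hMem _ _ _).1 E.2, hnum E.1 E.2⟩
  let g : α → Quot (@Iso l k) := fun E => Quot.mk _ (f E)
  have hg : Function.Surjective g := by
    intro c
    obtain ⟨p, rfl⟩ := Quot.exists_rep c
    obtain ⟨r, hr1, hr2⟩ := hRep l k p
    have h1 : r.1.2 ∈ Net (range l) (range m) := by
      rw [hMem, hm, ← hr1]
      exact r.2.1
    refine ⟨⟨r.1.2, h1⟩, ?_⟩
    have h2 : f ⟨r.1.2, h1⟩ = r := by
      apply Subtype.ext
      apply Prod.ext
      · exact hr1.symm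
      · rfl
    show Quot.mk _ (f ⟨r.1.2, h1⟩) = Quot.mk _ p
    rw [h2]
    exact (Quot.sound hr2).symm
  have hgi : ∀ E E' : α, g E' = g E ↔ ∃ τ : Equiv.Perm ℕ, (range m).image τ = range m ∧
      E'.1 = ren (Equiv.refl ℕ) τ E.1 := by
    intro E E'
    constructor
    · intro h
      have h1 : Relation.EqvGen (@Iso l k) (f E) (f E') := Quot.eqvGen_exact h.symm
      rw [(hIso l k).eqvGen_iff] at h1
      obtain ⟨τ, h2, h3⟩ := h1
      exact ⟨τ, h2.symm, h3⟩
    · rintro ⟨τ, h2, h3⟩
      exact (Quot.sound (⟨τ, h2.symm, h3⟩ : Iso (f E) (f E'))).symm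
  haveI : Finite (Quot (@Iso l k)) := Finite.of_surjective g hg
  letI : Fintype (Quot (@Iso l k)) := Fintype.ofFinite _
  have hfib : ∀ c ∈ (Finset.univ : Finset (Quot (@Iso l k))),
      ((Finset.univ : Finset α).filter (fun E' => g E' = c)).card = m.factorial := by
    intro c _
    obtain ⟨E, rfl⟩ := hg c
    rw [← hFib l m E.1 E.2]
    have h1 : (Net (range l) (range m)).filter (fun E' => ∃ τ : Equiv.Perm ℕ,
        (range m).image τ = range m ∧ E' = ren (Equiv.refl ℕ) τ E.1) =
        ((Finset.univ : Finset α).filter (fun E' => g E' = g E)).image Subtype.val := by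
      ext E'
      rw [Finset.mem_filter, Finset.mem_image]
      constructor
      · rintro ⟨h2, h3⟩
        exact ⟨⟨E', h2⟩, Finset.mem_filter.2 ⟨Finset.mem_univ _, (hgi E ⟨E', h2⟩).2 h3⟩, rfl⟩
      · rintro ⟨E'', h2, rfl⟩
        exact ⟨E''.2, (hgi E E'').1 (Finset.mem_filter.1 h2).2⟩
    rw [h1, Finset.card_image_of_injective _ Subtype.val_injective]
  have h1 : (Finset.univ : Finset α).card =
      ∑ c ∈ (Finset.univ : Finset (Quot (@Iso l k))),
        ((Finset.univ : Finset α).filter (fun E' => g E' = c)).card :=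
    Finset.card_eq_sum_card_fiberwise (fun _ _ => Finset.mem_coe.2 (Finset.mem_univ _))
  rw [Finset.sum_congr rfl hfib, Finset.sum_const, Finset.card_univ, Finset.card_univ,
    Fintype.card_coe, smul_eq_mul] at h1
  rw [h1]
  unfold orch
  rw [Nat.card_eq_fintype_card]

end Orch
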