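import Pool.Agent.Lib.Orch.Spec

/-!
The number of internal vertices.
-/

namespace Orch

open Finset

theorem c_KCount (hSC : S_ShapeC) (hSR : S_ShapeR) (hDC : S_DegC) (hDR : S_DegR) : S_KCount := by
  intro L I E h
  induction h with
  | base x r =>
    have h1 : numRet {r} {((Sum.inr r : V), (Sum.inl x : V))} = 0 := by
      unfold numRet
      rw [card_eq_zero, filter_eq_empty_iff]
      intro k hk
      rw [mem_singleton] at hk
      subst hk
      rintro ⟨h2, -⟩
      unfold indeg at h2
      rw [filter_singleton, if_neg (by simp)] at h2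
      simp at h2
    rw [h1, card_singleton, card_singleton]
  | cherry L I E x y i hN hx hy hc h ih =>
    obtain ⟨hi, hti, -⟩ := hSC L I E x y i hN hx hy hc
    have h1 : numRet (I.erase i) (redC E x y i) = numRet I E := by
      unfold numRet
      congr 1
      ext k
      rw [mem_filter, mem_filter, mem_erase]
      constructor
      · rintro ⟨⟨hki, hk⟩, h2⟩
        obtain ⟨h3, h4⟩ := hDC L I E x y i hN hx hy hc k hki
        rw [h3, h4] at h2
        exact ⟨hk, h2⟩
      · rintro ⟨hk, h2⟩
        have hki : k ≠ i := by
          rintro rfl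
          have h3 := hti.1
          rw [h2.1] at h3
          exact absurd h3 (by norm_num)
        obtain ⟨h3, h4⟩ := hDC L I E x y i hN hx hy hc k hki
        rw [h3, h4]
        exact ⟨⟨hki, hk⟩, h2⟩
    rw [h1] at ih
    have h2 := card_erase_add_one hi
    have h3 := card_erase_add_one hy
    omega
  | ret L I E x y i j hN hx hy hr h ih =>
    obtain ⟨hi, hj, hij, -⟩ := hSR L I E x y i j hN hx hy hr
    have hr' : IsRet E x y i j := hr
    obtain ⟨-, -, -, hti, hrj⟩ := hr
    have h1 : I.filter (fun i => indeg E (Sum.inr i) = 2 ∧ outdeg E (Sum.inr i) = 1) =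
        insert j (((I.erase i).erase j).filter (fun k => indeg (redR E x y i j) (Sum.inr k) = 2 ∧
          outdeg (redR E x y i j) (Sum.inr k) = 1)) := by
      ext k
      rw [mem_filter, mem_insert, mem_filter, mem_erase, mem_erase]
      constructor
      · rintro ⟨hk, h2⟩
        have hki : k ≠ i := by
          rintro rfl
          have h3 := hti.1
          rw [h2.1] at h3
          exact absurd h3 (by norm_num)
        by_cases hkj : k = j
        · exact Or.inl hkj
        · obtain ⟨h3, h4⟩ := hDR L I E x y i j hN hx hy hr' k hki hkj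
          rw [h3, h4]
          exact Or.inr ⟨⟨hkj, hki, hk⟩, h2⟩
      · rintro (rfl | ⟨⟨hkj, hki, hk⟩, h2⟩)
        · exact ⟨hj, hrj⟩
        · obtain ⟨h3, h4⟩ := hDR L I E x y i j hN hx hy hr' k hki hkj
          rw [h3, h4] at h2
          exact ⟨hk, h2⟩
    have h2 : numRet I E = numRet ((I.erase i).erase j) (redR E x y i j) + 1 := by
      unfold numRet
      rw [h1, card_insert_of_notMem]
      simp
    have h3 := card_erase_add_one hi
    have h4 := card_erase_add_one (mem_erase.2 ⟨hij.symm, hj⟩)
    omega

end Orch
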