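import Pool.Agent.Lib.Orch.Spec

/-!
Renaming of orchard networks; the two ways to reduce a cherry.
-/

namespace Orch

open Finset

theorem c_RenOrch (hRN : S_RenNet) (hRP : S_RenPair) (hRR : S_RenRed) : S_RenOrch := by
  intro L I E σ τ h
  induction h with
  | base x r =>
    have h1 : ren σ τ {((Sum.inr r : V), (Sum.inl x : V))} =
        {((Sum.inr (τ r) : V), (Sum.inl (σ x) : V))} := by
      unfold ren
      rw [image_singleton]
      rfl
    rw [image_singleton, image_singleton, h1]
    exact Orchard.base (σ x) (τ r)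
  | cherry L I E x y i hN hx hy hc h ih =>
    refine Orchard.cherry (L.image σ) (I.image τ) (ren σ τ E) (σ x) (σ y) (τ i)
      (hRN L I E σ τ hN) (mem_image_of_mem _ hx) (mem_image_of_mem _ hy)
      (((hRP E σ τ x y i i).1).2 hc) ?_
    rw [(hRR E σ τ x y i i).1, ← image_erase σ.injective, ← image_erase τ.injective]
    exact ih
  | ret L I E x y i j hN hx hy hr h ih =>
    refine Orchard.ret (L.image σ) (I.image τ) (ren σ τ E) (σ x) (σ y) (τ i) (τ j)
      (hRN L I E σ τ hN) (mem_image_of_mem _ hx) (mem_image_of_mem _ hy)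
      (((hRP E σ τ x y i j).2).2 hr) ?_
    rw [(hRR E σ τ x y i j).2, ← image_erase τ.injective, ← image_erase τ.injective]
    exact ih

/-- the renaming of the vertices -/
private abbrev TRen2_m (σ τ : Equiv.Perm ℕ) : Equiv.Perm V := Equiv.sumCongr σ τ

private theorem TRen2_mem (E : Dg) (σ τ : Equiv.Perm ℕ) (a b : V) :
    (a, b) ∈ ren σ τ E ↔ ((TRen2_m σ τ).symm a, (TRen2_m σ τ).symm b) ∈ E := by
  unfold ren
  rw [mem_image]
  constructor
  · rintro ⟨⟨a', b'⟩, he, h⟩
    rw [Prod.mk.injEq] at h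
    have h1 : TRen2_m σ τ a' = a := h.1
    have h2 : TRen2_m σ τ b' = b := h.2
    rw [← h1, ← h2, Equiv.symm_apply_apply, Equiv.symm_apply_apply]
    exact he
  · intro h
    refine ⟨_, h, ?_⟩
    rw [Prod.mk.injEq]
    exact ⟨(TRen2_m σ τ).apply_symm_apply a, (TRen2_m σ τ).apply_symm_apply b⟩

private theorem TRen2_noout {L I : Finset ℕ} {E : Dg} (hN : IsNet L I E) (x : ℕ) (b : V) :
    ((Sum.inl x : V), b) ∉ E := by
  intro h
  have h1 := (hN.sub _ h).1
  rw [inl_mem_disjSum] at h1
  have h2 := (hN.leaf x h1).2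
  unfold outdeg at h2
  rw [card_eq_zero] at h2
  have h3 : ((Sum.inl x : V), b) ∈ E.filter (fun e => e.1 = Sum.inl x) := mem_filter.2 ⟨h, rfl⟩
  rw [h2] at h3
  exact notMem_empty _ h3

theorem c_SwapC (hSC : S_ShapeC) (hMC : S_MemRedC) : S_SwapC := by
  intro L I E x y i hN hx hy hc
  obtain ⟨-, -, -, -, -, g, -, -, hg⟩ := hSC L I E x y i hN hx hy hc
  have hgi : ((Sum.inr g : V), (Sum.inr i : V)) ∈ E := (hg _).2 rfl
  have hc' : IsCherry E y x i := ⟨hc.1.symm, hc.2.2, hc.2.1⟩
  have hxy : x ≠ y := hc.1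
  ext ⟨a, b⟩
  rw [TRen2_mem, hMC L I E y x i g hN hy hx hc' hgi, hMC L I E x y i g hN hx hy hc hgi]
  rcases a with a | a
  · have h1 : (TRen2_m (Equiv.swap x y) (Equiv.refl ℕ)).symm (Sum.inl a) =
        Sum.inl (Equiv.swap x y a) := by
      rfl
    rw [h1]
    constructor
    · rintro (h | h)
      · exact absurd h.1 (TRen2_noout hN _ _)
      · exact absurd h.1 (by simp)
    · rintro (h | h)
      · exact absurd h.1 (TRen2_noout hN _ _)
      · exact absurd h.1 (by simp)
  · have h1 : (TRen2_m (Equiv.swap x y) (Equiv.refl ℕ)).symm (Sum.inr a) = Sum.inr a := rfl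
    rw [h1]
    rcases b with b | b
    · have h2 : (TRen2_m (Equiv.swap x y) (Equiv.refl ℕ)).symm (Sum.inl b) =
          Sum.inl (Equiv.swap x y b) := rfl
      rw [h2]
      by_cases hbx : b = x
      · subst hbx
        rw [Equiv.swap_apply_left]
        simp [hxy, hxy.symm]
      · by_cases hby : b = y
        · subst hby
          rw [Equiv.swap_apply_right]
          simp
        · rw [Equiv.swap_apply_of_ne_of_ne hbx hby]
          simp [hbx, hby]
    · have h2 : (TRen2_m (Equiv.swap x y) (Equiv.refl ℕ)).symm (Sum.inr b) = Sum.inr b := rfl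
      rw [h2]
      simp

end Orch
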